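import Mathlib

/-!
# The divisor bound
-/

namespace Pool.Agent.H14.PT

open Finset

/-- `τ(n) ≤ C n^η`. -/
theorem divisor_bound (η : ℝ) (hη : 0 < η) :
    ∃ C : ℝ, 1 ≤ C ∧ ∀ n : ℕ, n ≠ 0 → (n.divisors.card : ℝ) ≤ C * (n : ℝ) ^ η := by
  have hl2 : 0 < Real.log 2 := Real.log_pos (by norm_num)
  set C0 : ℝ := max 1 (1 / (η * Real.log 2) + 1) with hC0
  have hC01 : 1 ≤ C0 := le_max_left _ _
  obtain ⟨P0, hP0⟩ := exists_nat_gt ((2 : ℝ) ^ (1 / η))
  refine ⟨C0 ^ P0, one_le_pow₀ hC01, fun n hn => ?_⟩
  have hn0 : (0 : ℝ) < n := by exact_mod_cast Nat.pos_of_ne_zero hn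
  have h1 : (n.divisors.card : ℝ) = ∏ p ∈ n.primeFactors, ((n.factorization p : ℝ) + 1) := by
    rw [Nat.card_divisors hn]
    push_cast
    rfl
  have h2 : (n : ℝ) ^ η = ∏ p ∈ n.primeFactors, ((p : ℝ) ^ (n.factorization p : ℝ)) ^ η := by
    rw [Real.finsetProd_rpow _ _ (fun p _ => by positivity)]
    congr 1
    conv_lhs => rw [← Nat.factorization_prod_pow_eq_self hn]
    rw [Finsupp.prod, Nat.support_factorization]
    push_cast
    refine Finset.prod_congr rfl fun p _ => ?_
    rw [Real.rpow_natCast]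
  set c : ℕ → ℝ := fun p => if p < P0 then C0 else 1 with hc
  have hcpos : ∀ p, 0 ≤ c p := fun p => by
    simp only [hc]; split_ifs <;> linarith
  have key : ∀ p ∈ n.primeFactors, ((n.factorization p : ℝ) + 1)
      ≤ c p * ((p : ℝ) ^ (n.factorization p : ℝ)) ^ η := by
    intro p hp
    have hpp := Nat.prime_of_mem_primeFactors hp
    have hp2 : (2 : ℝ) ≤ p := by exact_mod_cast hpp.two_le
    set e : ℝ := (n.factorization p : ℝ) with he
    have he0 : 0 ≤ e := by positivity
    have hpow : ((p : ℝ) ^ e) ^ η = (p : ℝ) ^ (e * η) := by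
      rw [← Real.rpow_mul (by linarith)]
    rw [hpow]
    simp only [hc]
    split_ifs with hlt
    · have h3 : (2 : ℝ) ^ (e * η) ≤ (p : ℝ) ^ (e * η) :=
        Real.rpow_le_rpow (by norm_num) hp2 (by positivity)
      have h4 : 1 + Real.log 2 * (e * η) ≤ (2 : ℝ) ^ (e * η) := by
        rw [Real.rpow_def_of_pos (by norm_num)]
        linarith [Real.add_one_le_exp (Real.log 2 * (e * η))]
      have h5 : e + 1 ≤ C0 * (1 + Real.log 2 * (e * η)) := by
        have h6 : 1 / (η * Real.log 2) + 1 ≤ C0 := le_max_right _ _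
        have h7 : (1 / (η * Real.log 2) + 1) * (1 + Real.log 2 * (e * η))
            = e + 1 + 1 / (η * Real.log 2) + Real.log 2 * (e * η) := by
          field_simp
          ring
        have h8 : (1 / (η * Real.log 2) + 1) * (1 + Real.log 2 * (e * η))
            ≤ C0 * (1 + Real.log 2 * (e * η)) := by
          gcongr
        have h9 : 0 ≤ 1 / (η * Real.log 2) := by positivity
        have h10 : 0 ≤ Real.log 2 * (e * η) := by positivity
        linarith
      calc e + 1 ≤ C0 * (1 + Real.log 2 * (e * η)) := h5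
        _ ≤ C0 * (p : ℝ) ^ (e * η) := by
            apply mul_le_mul_of_nonneg_left _ (by linarith)
            linarith
    · have hge : P0 ≤ p := not_lt.mp hlt
      have h3 : (2 : ℝ) ^ (1 / η) ≤ p := hP0.le.trans (by exact_mod_cast hge)
      have h4 : (2 : ℝ) ^ e ≤ (p : ℝ) ^ (e * η) := by
        calc (2 : ℝ) ^ e = ((2 : ℝ) ^ (1 / η)) ^ (e * η) := by
              rw [← Real.rpow_mul (by norm_num)]
              congr 1
              field_simp
          _ ≤ _ := Real.rpow_le_rpow (by positivity) h3 (by positivity)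
      have h5 : e + 1 ≤ (2 : ℝ) ^ e := by
        rw [he, Real.rpow_natCast]
        have := Nat.lt_two_pow_self (n := n.factorization p)
        exact_mod_cast this
      rw [one_mul]
      linarith
  rw [h1, h2]
  calc ∏ p ∈ n.primeFactors, ((n.factorization p : ℝ) + 1)
      ≤ ∏ p ∈ n.primeFactors, c p * ((p : ℝ) ^ (n.factorization p : ℝ)) ^ η :=
        Finset.prod_le_prod (fun p _ => by positivity) key
    _ = (∏ p ∈ n.primeFactors, c p) * ∏ p ∈ n.primeFactors, ((p : ℝ) ^ (n.factorization p : ℝ)) ^ η :=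
        Finset.prod_mul_distrib
    _ ≤ C0 ^ P0 * ∏ p ∈ n.primeFactors, ((p : ℝ) ^ (n.factorization p : ℝ)) ^ η := by
        refine mul_le_mul_of_nonneg_right ?_ (Finset.prod_nonneg fun p _ => by positivity)
        have h3 : ∏ p ∈ n.primeFactors, c p = ∏ p ∈ n.primeFactors.filter (· < P0), C0 := by
          rw [Finset.prod_filter]
        rw [h3, Finset.prod_const]
        apply pow_le_pow_right₀ hC01
        calc (n.primeFactors.filter (· < P0)).card ≤ (Finset.range P0).card := by
              apply Finset.card_le_card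
              intro p hp
              rw [mem_filter] at hp
              exact mem_range.mpr hp.2
          _ = P0 := card_range P0

lemma two_pow_omega_le (n : ℕ) (hn : n ≠ 0) : 2 ^ n.primeFactors.card ≤ n.divisors.card := by
  rw [Nat.card_divisors hn]
  calc 2 ^ n.primeFactors.card = ∏ _p ∈ n.primeFactors, 2 := by rw [Finset.prod_const]
    _ ≤ _ := by
        refine Finset.prod_le_prod' fun p hp => ?_
        have := (Nat.prime_of_mem_primeFactors hp).factorization_pos_of_dvd hn
          (Nat.dvd_of_mem_primeFactors hp)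
        omega

end Pool.Agent.H14.PT
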