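import Pool.Agent.H14.PT.DN

/-!
# Trivial bound and exact evaluation of `DN`
-/

set_option linter.unusedSectionVars false

namespace Pool.Agent.H14.PT

open Finset

lemma mem_quads {Mf : Finset ℕ} {N : ℕ} {i : (ℕ × ℕ) × (ℕ × ℕ)} :
    i ∈ quads Mf N ↔ i.1.1 ∈ Mf ∧ i.1.2 ∈ Mf ∧ 1 ≤ i.2.1 ∧ 1 ≤ i.2.2 ∧ i.2.1 * i.2.2 ≤ N := by
  unfold quads
  simp only [mem_product, mem_hyp]
  tauto

lemma abs_qw_le {w : ℕ → ℝ} (hw : ∀ m, |w m| ≤ 1) (i : (ℕ × ℕ) × (ℕ × ℕ)) :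
    |qw w i| ≤ (((i.1.1 * i.1.2 * (i.2.1 * i.2.2) : ℕ) : ℝ)) ^ (-(1 / 2) : ℝ) := by
  unfold qw
  rw [abs_mul, abs_mul, abs_of_nonneg (show (0 : ℝ) ≤
    (((i.1.1 * i.1.2 * (i.2.1 * i.2.2) : ℕ) : ℝ)) ^ (-(1 / 2) : ℝ) by positivity)]
  have h1 : |w i.1.1| * |w i.1.2| ≤ 1 := by
    calc _ ≤ (1 : ℝ) * 1 := by
          gcongr
          · exact hw _
          · exact hw _
      _ = 1 := by norm_num
  exact mul_le_of_le_one_left (by positivity) h1

lemma neg_half_sq {t : ℝ} (ht : 0 < t) {x : ℝ} (hx : 0 < x) :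
    (x * t ^ 2) ^ (-(1 / 2) : ℝ) = x ^ (-(1 / 2) : ℝ) * (1 / t) := by
  rw [Real.mul_rpow hx.le (by positivity), ← Real.rpow_natCast t 2, ← Real.rpow_mul ht.le]
  norm_num
  left
  rw [Real.rpow_neg_one]

/-- **trivial bound** -/
theorem DN_trivial (Mf : Finset ℕ) (w : ℕ → ℝ) (N Y T a b : ℕ) (hab : Nat.Coprime a b) (ha : a ≠ 0)
    (hb : b ≠ 0) (hM : ∀ m ∈ Mf, 1 ≤ m ∧ m ≤ Y) (hw : ∀ m, |w m| ≤ 1) (hT : Y ^ 2 * N ≤ T ^ 2) :
    |DN Mf w N a b| ≤ ((a * b).divisors.card : ℝ) * (((a * b : ℕ) : ℝ)) ^ (-(1 / 2) : ℝ) *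
      (1 + Real.log T) ^ 4 := by
  classical
  set F := (quads Mf N).filter (fun i => i.1.1 * i.2.1 * b = i.1.2 * i.2.2 * a) with hF
  have ha0 : 0 < a := Nat.pos_of_ne_zero ha
  have hb0 : 0 < b := Nat.pos_of_ne_zero hb
  -- structure of the elements
  have hstr : ∀ i ∈ F, ∃ t, 1 ≤ t ∧ t ≤ T ∧ i.1.1 * i.2.1 = a * t ∧ i.1.2 * i.2.2 = b * t := by
    intro i hi
    obtain ⟨h1, h2⟩ := Finset.mem_filter.mp hi
    obtain ⟨m1, m2, m3, m4, m5⟩ := mem_quads.mp h1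
    have h3 : a ∣ i.1.1 * i.2.1 := by
      have : a ∣ i.1.1 * i.2.1 * b := ⟨i.1.2 * i.2.2, by rw [h2]; ring⟩
      exact hab.dvd_of_dvd_mul_right this
    obtain ⟨t, ht⟩ := h3
    have h4 : i.1.2 * i.2.2 = b * t := by
      have : a * (i.1.2 * i.2.2) = a * (b * t) := by
        calc a * (i.1.2 * i.2.2) = i.1.2 * i.2.2 * a := by ring
          _ = i.1.1 * i.2.1 * b := h2.symm
          _ = a * (b * t) := by rw [ht]; ring
      exact Nat.eq_of_mul_eq_mul_left ha0 this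
    have h5 : t ≠ 0 := by
      rintro rfl
      rw [mul_zero] at ht
      rcases Nat.mul_eq_zero.mp ht with h | h
      · have := (hM _ m1).1; omega
      · omega
    refine ⟨t, Nat.one_le_iff_ne_zero.mpr h5, ?_, ht, h4⟩
    have h6 : (a * b) * t ^ 2 ≤ T ^ 2 := by
      calc (a * b) * t ^ 2 = (a * t) * (b * t) := by ring
        _ = (i.1.1 * i.2.1) * (i.1.2 * i.2.2) := by rw [ht, h4]
        _ = (i.1.1 * i.1.2) * (i.2.1 * i.2.2) := by ring
        _ ≤ (Y * Y) * N := Nat.mul_le_mul (Nat.mul_le_mul (hM _ m1).2 (hM _ m2).2) m5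
        _ = Y ^ 2 * N := by ring
        _ ≤ T ^ 2 := hT
    have h7 : t ^ 2 ≤ T ^ 2 := by
      calc t ^ 2 = 1 * t ^ 2 := by ring
        _ ≤ (a * b) * t ^ 2 := Nat.mul_le_mul_right _ (Nat.mul_pos ha0 hb0)
        _ ≤ _ := h6
    exact (Nat.pow_le_pow_iff_left (by norm_num)).mp h7
  have ht' : ∀ i ∈ F, 1 ≤ i.1.1 * i.2.1 / a ∧ i.1.1 * i.2.1 / a ≤ T ∧
      i.1.1 * i.2.1 = a * (i.1.1 * i.2.1 / a) ∧ i.1.2 * i.2.2 = b * (i.1.1 * i.2.1 / a) := by
    intro i hi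
    obtain ⟨t, h1, h2, h3, h4⟩ := hstr i hi
    have : i.1.1 * i.2.1 / a = t := by rw [h3]; exact Nat.mul_div_cancel_left _ ha0
    rw [this]
    exact ⟨h1, h2, h3, h4⟩
  have hmaps : ∀ i ∈ F, i.1.1 * i.2.1 / a ∈ Icc 1 T := by
    intro i hi
    obtain ⟨h1, h2, _⟩ := ht' i hi
    exact Finset.mem_Icc.mpr ⟨h1, h2⟩
  have hab0 : (0 : ℝ) < ((a * b : ℕ) : ℝ) := by exact_mod_cast Nat.mul_pos ha0 hb0
  have h1 : |DN Mf w N a b| ≤ ∑ i ∈ F, (((i.1.1 * i.1.2 * (i.2.1 * i.2.2) : ℕ) : ℝ)) ^ (-(1 / 2) : ℝ) := by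
    unfold DN
    refine (Finset.abs_sum_le_sum_abs _ _).trans (Finset.sum_le_sum fun i _ => abs_qw_le hw i)
  refine h1.trans ?_
  rw [← Finset.sum_fiberwise_of_maps_to hmaps]
  have h2 : ∀ t ∈ Icc 1 T, ∑ i ∈ F.filter (fun i => i.1.1 * i.2.1 / a = t),
      (((i.1.1 * i.1.2 * (i.2.1 * i.2.2) : ℕ) : ℝ)) ^ (-(1 / 2) : ℝ) ≤
      ((a * b).divisors.card : ℝ) * (((a * b : ℕ) : ℝ)) ^ (-(1 / 2) : ℝ) *
        ((t.divisors.card : ℝ) ^ 2 / t) := by
    intro t ht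
    have ht1 := (Finset.mem_Icc.mp ht).1
    have ht0 : (0 : ℝ) < t := by exact_mod_cast ht1
    have hval : ∀ i ∈ F.filter (fun i => i.1.1 * i.2.1 / a = t),
        (((i.1.1 * i.1.2 * (i.2.1 * i.2.2) : ℕ) : ℝ)) ^ (-(1 / 2) : ℝ) =
          (((a * b : ℕ) : ℝ)) ^ (-(1 / 2) : ℝ) * (1 / (t : ℝ)) := by
      intro i hi
      obtain ⟨hiF, hit⟩ := Finset.mem_filter.mp hi
      obtain ⟨_, _, h3, h4⟩ := ht' i hiF
      rw [hit] at h3 h4
      rw [← neg_half_sq ht0 hab0]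
      congr 1
      have : i.1.1 * i.1.2 * (i.2.1 * i.2.2) = (a * b) * t ^ 2 := by
        calc i.1.1 * i.1.2 * (i.2.1 * i.2.2) = (i.1.1 * i.2.1) * (i.1.2 * i.2.2) := by ring
          _ = (a * t) * (b * t) := by rw [h3, h4]
          _ = _ := by ring
      rw [this]
      push_cast
      ring
    rw [Finset.sum_congr rfl hval, Finset.sum_const, nsmul_eq_mul]
    have hcard : (F.filter (fun i => i.1.1 * i.2.1 / a = t)).card ≤
        (a * b).divisors.card * t.divisors.card ^ 2 := by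
      have hc1 : (F.filter (fun i => i.1.1 * i.2.1 / a = t)).card ≤
          ((a * t).divisors ×ˢ (b * t).divisors).card := by
        refine Finset.card_le_card_of_injOn (fun i => i.1) ?_ ?_
        · intro i hi
          obtain ⟨hiF, hit⟩ := Finset.mem_filter.mp (Finset.mem_coe.mp hi)
          obtain ⟨_, _, h3, h4⟩ := ht' i hiF
          rw [hit] at h3 h4
          refine Finset.mem_coe.mpr (Finset.mem_product.mpr ⟨?_, ?_⟩)
          · exact Nat.mem_divisors.mpr ⟨⟨_, h3.symm⟩, Nat.mul_ne_zero ha (by omega)⟩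
          · exact Nat.mem_divisors.mpr ⟨⟨_, h4.symm⟩, Nat.mul_ne_zero hb (by omega)⟩
        · intro i hi i' hi' h
          obtain ⟨hiF, hit⟩ := Finset.mem_filter.mp (Finset.mem_coe.mp hi)
          obtain ⟨hiF', hit'⟩ := Finset.mem_filter.mp (Finset.mem_coe.mp hi')
          obtain ⟨_, _, h3, h4⟩ := ht' i hiF
          obtain ⟨_, _, h3', h4'⟩ := ht' i' hiF'
          rw [hit] at h3 h4
          rw [hit'] at h3' h4'
          obtain ⟨m1, m2, m3, m4, m5⟩ := mem_quads.mp (Finset.mem_filter.mp hiF).1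
          have e : i.1 = i'.1 := h
          rw [← e] at h3' h4'
          have p1 : 0 < i.1.1 := (hM _ m1).1
          have p2 : 0 < i.1.2 := (hM _ m2).1
          have q1 : i.2.1 = i'.2.1 := Nat.eq_of_mul_eq_mul_left p1 (h3.trans h3'.symm)
          have q2 : i.2.2 = i'.2.2 := Nat.eq_of_mul_eq_mul_left p2 (h4.trans h4'.symm)
          exact Prod.ext e (Prod.ext q1 q2)
      refine hc1.trans ?_
      rw [Finset.card_product, hab.card_divisors_mul]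
      calc (a * t).divisors.card * (b * t).divisors.card
          ≤ (a.divisors.card * t.divisors.card) * (b.divisors.card * t.divisors.card) :=
            Nat.mul_le_mul (card_divisors_mul_le a t) (card_divisors_mul_le b t)
        _ = _ := by ring
    have hcard' : ((F.filter (fun i => i.1.1 * i.2.1 / a = t)).card : ℝ) ≤
        ((a * b).divisors.card : ℝ) * (t.divisors.card : ℝ) ^ 2 := by exact_mod_cast hcard
    calc _ ≤ (((a * b).divisors.card : ℝ) * (t.divisors.card : ℝ) ^ 2) *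
          ((((a * b : ℕ) : ℝ)) ^ (-(1 / 2) : ℝ) * (1 / (t : ℝ))) := by gcongr
      _ = _ := by ring
  refine (Finset.sum_le_sum h2).trans ?_
  rw [← Finset.mul_sum]
  refine mul_le_mul_of_nonneg_left ?_ (by positivity)
  refine (sum_tau_sq_div_le T).trans ?_
  refine pow_le_pow_left₀ (Finset.sum_nonneg fun _ _ => by positivity) (sum_one_div_le T) 4

end Pool.Agent.H14.PT
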