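import Pool.Agent.H14.PT.Pair

/-!
# The cut-off kernel
-/

namespace Pool.Agent.H14.PT

open MeasureTheory Set
open scoped Real

/-- incomplete Gamma function -/
noncomputable def gam (a x : ℝ) : ℝ := ∫ u in Ioi x, Real.exp (-u) * u ^ (a - 1)

/-- the kernel `Ψ_a(s) = ∫∫_{TU > s} e^{-T-U} (TU)^{a-1}`. -/
noncomputable def Psi (a s : ℝ) : ℝ := ∫ T, (Real.exp (-T) * T ^ (a - 1)) * gam a (s / T) ∂mu0

lemma gamma_int (a : ℝ) (ha : 0 < a) : Integrable (fun x : ℝ => Real.exp (-x) * x ^ (a - 1)) mu0 :=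
  Real.GammaIntegral_convergent ha

lemma gamma_eq (a : ℝ) (ha : 0 < a) : ∫ x, Real.exp (-x) * x ^ (a - 1) ∂mu0 = Real.Gamma a :=
  (Real.Gamma_eq_integral ha).symm

lemma gamma_int_on (a : ℝ) (ha : 0 < a) {x : ℝ} (hx : 0 ≤ x) :
    IntegrableOn (fun x : ℝ => Real.exp (-x) * x ^ (a - 1)) (Ioi x) :=
  IntegrableOn.mono_set (gamma_int a ha) (fun _ hy => lt_of_le_of_lt hx hy)

lemma gamfun_nonneg {a x : ℝ} (hx : 0 < x) : 0 ≤ Real.exp (-x) * x ^ (a - 1) :=
  mul_nonneg (Real.exp_pos _).le (Real.rpow_nonneg hx.le _)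

lemma gam_nonneg (a : ℝ) {x : ℝ} (hx : 0 ≤ x) : 0 ≤ gam a x :=
  setIntegral_nonneg measurableSet_Ioi fun _ hy => gamfun_nonneg (lt_of_le_of_lt hx hy)

lemma gam_antitoneOn {a : ℝ} (ha : 0 < a) : AntitoneOn (gam a) (Ici 0) := by
  intro x hx y _ hxy
  refine setIntegral_mono_set (gamma_int_on a ha hx) ?_ (Filter.Eventually.of_forall (fun z hz => ?_))
  · rw [Filter.EventuallyLE, ae_restrict_iff' measurableSet_Ioi]
    exact Filter.Eventually.of_forall fun z hz => gamfun_nonneg (lt_of_le_of_lt hx hz)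
  · exact lt_of_le_of_lt hxy hz

lemma gam_zero {a : ℝ} (ha : 0 < a) : gam a 0 = Real.Gamma a := gamma_eq a ha

lemma gam_le {a : ℝ} (ha : 0 < a) {x : ℝ} (hx : 0 ≤ x) : gam a x ≤ Real.Gamma a := by
  rw [← gam_zero ha]
  exact gam_antitoneOn ha (mem_Ici.mpr le_rfl) (mem_Ici.mpr hx) hx

/-- measurability of the inner function -/
lemma aesm_gam {a : ℝ} (ha : 0 < a) {s : ℝ} (hs : 0 ≤ s) :
    AEStronglyMeasurable (fun T => gam a (s / T)) mu0 := by
  have hmono : MonotoneOn (fun T => gam a (s / T)) (Ioi 0) := by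
    intro x hx y hy hxy
    refine gam_antitoneOn ha ?_ ?_ ?_
    · exact div_nonneg hs (le_of_lt hy)
    · exact div_nonneg hs (le_of_lt hx)
    · exact div_le_div_of_nonneg_left hs hx hxy
  exact (aemeasurable_restrict_of_monotoneOn measurableSet_Ioi hmono).aestronglyMeasurable

lemma integrable_Psi {a : ℝ} (ha : 0 < a) {s : ℝ} (hs : 0 ≤ s) :
    Integrable (fun T => (Real.exp (-T) * T ^ (a - 1)) * gam a (s / T)) mu0 := by
  have h1 := (gamma_int a ha).mul_const (Real.Gamma a)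
  refine h1.mono ((gamma_int a ha).1.mul (aesm_gam ha hs)) ?_
  rw [ae_restrict_iff' measurableSet_Ioi]
  refine Filter.Eventually.of_forall fun T hT => ?_
  have hT' : (0 : ℝ) < T := hT
  rw [Real.norm_of_nonneg (mul_nonneg (gamfun_nonneg hT') (gam_nonneg a (div_nonneg hs hT'.le))),
    Real.norm_of_nonneg (mul_nonneg (gamfun_nonneg hT') (Real.Gamma_pos_of_pos ha).le)]
  exact mul_le_mul_of_nonneg_left (gam_le ha (div_nonneg hs hT'.le)) (gamfun_nonneg hT')

lemma Psi_nonneg {a : ℝ} {s : ℝ} (hs : 0 ≤ s) : 0 ≤ Psi a s := by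
  refine setIntegral_nonneg measurableSet_Ioi fun T hT => ?_
  exact mul_nonneg (gamfun_nonneg hT) (gam_nonneg a (div_nonneg hs (le_of_lt hT)))

lemma Psi_zero {a : ℝ} (ha : 0 < a) : Psi a 0 = Real.Gamma a ^ 2 := by
  unfold Psi
  have : ∀ T : ℝ, (Real.exp (-T) * T ^ (a - 1)) * gam a (0 / T)
      = (Real.exp (-T) * T ^ (a - 1)) * Real.Gamma a := by
    intro T
    rw [zero_div, gam_zero ha]
  simp_rw [this]
  rw [integral_mul_const, gamma_eq a ha]
  ring

lemma Psi_antitone {a : ℝ} (ha : 0 < a) {s t : ℝ} (hs : 0 ≤ s) (hst : s ≤ t) : Psi a t ≤ Psi a s := by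
  refine integral_mono_ae (integrable_Psi ha (hs.trans hst)) (integrable_Psi ha hs) ?_
  rw [Filter.EventuallyLE, ae_restrict_iff' measurableSet_Ioi]
  refine Filter.Eventually.of_forall fun T hT => ?_
  have hT' : (0 : ℝ) < T := hT
  refine mul_le_mul_of_nonneg_left ?_ (gamfun_nonneg hT)
  refine gam_antitoneOn ha ?_ ?_ ?_
  · exact div_nonneg hs hT'.le
  · exact div_nonneg (hs.trans hst) hT'.le
  · exact div_le_div_of_nonneg_right hst hT'.le

/-- lower tail -/
lemma gam_lower {a : ℝ} (ha : 0 < a) {x : ℝ} (hx : 0 ≤ x) :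
    Real.Gamma a - gam a x ≤ x ^ a / a := by
  have h1 : Real.Gamma a = (∫ u in Ioc 0 x, Real.exp (-u) * u ^ (a - 1)) + gam a x := by
    rw [← gamma_eq a ha, gam, ← setIntegral_union (Ioc_disjoint_Ioi le_rfl) measurableSet_Ioi,
      Ioc_union_Ioi_eq_Ioi hx]
    · exact IntegrableOn.mono_set (gamma_int a ha) (fun y hy => hy.1)
    · exact gamma_int_on a ha hx
  have h2 : ∫ u in Ioc 0 x, Real.exp (-u) * u ^ (a - 1) ≤ ∫ u in Ioc 0 x, u ^ (a - 1) := by
    refine setIntegral_mono_on ?_ ?_ measurableSet_Ioc ?_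
    · exact IntegrableOn.mono_set (gamma_int a ha) (fun y hy => hy.1)
    · exact (intervalIntegral.intervalIntegrable_rpow' (by linarith)).1
    · intro u hu
      have h3 : Real.exp (-u) ≤ 1 := Real.exp_le_one_iff.mpr (by linarith [hu.1])
      exact mul_le_of_le_one_left (Real.rpow_nonneg hu.1.le _) h3
  have h3 : ∫ u in Ioc 0 x, u ^ (a - 1) = x ^ a / a := by
    rw [← intervalIntegral.integral_of_le hx, integral_rpow (Or.inl (by linarith))]
    rw [sub_add_cancel, Real.zero_rpow ha.ne', sub_zero]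
  linarith

lemma Psi_lower {a : ℝ} (ha : 0 < a) {s : ℝ} (hs : 0 ≤ s) :
    Real.Gamma a ^ 2 - Psi a s ≤ 2 * Real.Gamma a * (s ^ (a / 2) / a) := by
  rcases hs.eq_or_lt with rfl | hs0
  · rw [Psi_zero ha, sub_self]
    have := Real.Gamma_pos_of_pos ha
    positivity
  have hG := Real.Gamma_pos_of_pos ha
  have hr : 0 < Real.sqrt s := Real.sqrt_pos.mpr hs0
  have hpow : Real.sqrt s ^ a = s ^ (a / 2) := by
    rw [Real.sqrt_eq_rpow, ← Real.rpow_mul hs0.le]
    congr 1; ring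
  have h1 : Real.Gamma a ^ 2 - Psi a s
      = ∫ T, (Real.exp (-T) * T ^ (a - 1)) * (Real.Gamma a - gam a (s / T)) ∂mu0 := by
    have e : Real.Gamma a ^ 2 = ∫ T, (Real.exp (-T) * T ^ (a - 1)) * Real.Gamma a ∂mu0 := by
      rw [integral_mul_const, gamma_eq a ha]; ring
    rw [e, Psi, ← integral_sub ((gamma_int a ha).mul_const _) (integrable_Psi ha hs)]
    refine integral_congr_ae (Filter.Eventually.of_forall fun T => ?_)
    simp only
    ring
  rw [h1]
  have hint : Integrable (fun T => (Real.exp (-T) * T ^ (a - 1)) * (Real.Gamma a - gam a (s / T))) mu0 := by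
    have := ((gamma_int a ha).mul_const (Real.Gamma a)).sub (integrable_Psi ha hs)
    refine this.congr (Filter.Eventually.of_forall fun T => ?_)
    simp only [Pi.sub_apply]
    ring
  -- bound pointwise
  have hbd : ∀ T ∈ Ioi (0 : ℝ), (Real.exp (-T) * T ^ (a - 1)) * (Real.Gamma a - gam a (s / T))
      ≤ (Ioc 0 (Real.sqrt s)).indicator (fun T => Real.exp (-T) * T ^ (a - 1) * Real.Gamma a) T
        + (Real.exp (-T) * T ^ (a - 1)) * (s ^ (a / 2) / a) := by
    intro T hT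
    have hT' : (0 : ℝ) < T := hT
    have hnn := gamfun_nonneg (a := a) hT'
    have h0 : 0 ≤ gam a (s / T) := gam_nonneg a (div_nonneg hs hT'.le)
    by_cases hc : T ≤ Real.sqrt s
    · rw [indicator_of_mem (show T ∈ Ioc 0 (Real.sqrt s) from ⟨hT', hc⟩)]
      have h2 : (Real.exp (-T) * T ^ (a - 1)) * (Real.Gamma a - gam a (s / T))
          ≤ Real.exp (-T) * T ^ (a - 1) * Real.Gamma a :=
        mul_le_mul_of_nonneg_left (by linarith) hnn
      have h3 : 0 ≤ (Real.exp (-T) * T ^ (a - 1)) * (s ^ (a / 2) / a) := by positivity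
      linarith
    · rw [indicator_of_notMem (fun h => hc h.2), zero_add]
      refine mul_le_mul_of_nonneg_left ?_ hnn
      have hc' : Real.sqrt s < T := lt_of_not_ge hc
      have h4 : s / T ≤ Real.sqrt s := by
        rw [div_le_iff₀ hT']
        nlinarith [Real.mul_self_sqrt hs]
      calc Real.Gamma a - gam a (s / T) ≤ (s / T) ^ a / a := gam_lower ha (div_nonneg hs hT'.le)
        _ ≤ Real.sqrt s ^ a / a := by
            gcongr
        _ = s ^ (a / 2) / a := by rw [hpow]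
  have hi2 : Integrable (fun T => (Ioc 0 (Real.sqrt s)).indicator
      (fun T => Real.exp (-T) * T ^ (a - 1) * Real.Gamma a) T) mu0 :=
    ((gamma_int a ha).mul_const (Real.Gamma a)).indicator measurableSet_Ioc
  have hi3 : Integrable (fun T => (Real.exp (-T) * T ^ (a - 1)) * (s ^ (a / 2) / a)) mu0 :=
    (gamma_int a ha).mul_const _
  have h5 := setIntegral_mono_on hint (hi2.add hi3) measurableSet_Ioi hbd
  refine h5.trans ?_
  simp only [Pi.add_apply]
  rw [integral_add hi2 hi3, integral_mul_const, gamma_eq a ha]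
  have h6 : ∫ T, (Ioc 0 (Real.sqrt s)).indicator
      (fun T => Real.exp (-T) * T ^ (a - 1) * Real.Gamma a) T ∂mu0
      ≤ (s ^ (a / 2) / a) * Real.Gamma a := by
    rw [integral_indicator measurableSet_Ioc, Measure.restrict_restrict measurableSet_Ioc,
      integral_mul_const]
    have h7 : Ioc 0 (Real.sqrt s) ∩ Ioi 0 = Ioc 0 (Real.sqrt s) := by
      ext x; simp only [mem_inter_iff, mem_Ioc, mem_Ioi]; tauto
    rw [h7]
    have h8 := gam_lower ha hr.le
    have h9 : Real.Gamma a = (∫ u in Ioc 0 (Real.sqrt s), Real.exp (-u) * u ^ (a - 1))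
        + gam a (Real.sqrt s) := by
      rw [← gamma_eq a ha, gam, ← setIntegral_union (Ioc_disjoint_Ioi le_rfl) measurableSet_Ioi,
        Ioc_union_Ioi_eq_Ioi hr.le]
      · exact IntegrableOn.mono_set (gamma_int a ha) (fun y hy => hy.1)
      · exact gamma_int_on a ha hr.le
    rw [hpow] at h8
    have h10 : ∫ u in Ioc 0 (Real.sqrt s), Real.exp (-u) * u ^ (a - 1) ≤ s ^ (a / 2) / a := by
      linarith
    exact mul_le_mul_of_nonneg_right h10 hG.le
  nlinarith [h6]

/-- upper tail: moments -/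
lemma gam_upper {a : ℝ} (ha : 0 < a) {A : ℝ} (hA : 0 ≤ A) {x : ℝ} (hx : 0 < x) :
    gam a x ≤ x ^ (-A) * Real.Gamma (a + A) := by
  have h1 : gam a x ≤ ∫ u in Ioi x, x ^ (-A) * (Real.exp (-u) * u ^ (a + A - 1)) := by
    refine setIntegral_mono_on (gamma_int_on a ha hx.le)
      ((gamma_int_on (a + A) (by linarith) hx.le).const_mul _) measurableSet_Ioi ?_
    intro u hu
    have hu0 : 0 < u := lt_trans hx hu
    have h2 : (1 : ℝ) ≤ x ^ (-A) * u ^ A := by
      rw [Real.rpow_neg hx.le, inv_mul_eq_div, le_div_iff₀ (Real.rpow_pos_of_pos hx A), one_mul]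
      exact Real.rpow_le_rpow hx.le (le_of_lt hu) hA
    have h3 : u ^ (a + A - 1) = u ^ A * u ^ (a - 1) := by
      rw [← Real.rpow_add hu0]; congr 1; ring
    rw [h3]
    calc Real.exp (-u) * u ^ (a - 1) = 1 * (Real.exp (-u) * u ^ (a - 1)) := by ring
      _ ≤ (x ^ (-A) * u ^ A) * (Real.exp (-u) * u ^ (a - 1)) :=
          mul_le_mul_of_nonneg_right h2 (gamfun_nonneg hu0)
      _ = _ := by ring
  rw [integral_const_mul] at h1
  refine h1.trans (mul_le_mul_of_nonneg_left ?_ (Real.rpow_nonneg hx.le _))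
  exact gam_le (by linarith) hx.le

lemma Psi_upper {a : ℝ} (ha : 0 < a) {A : ℝ} (hA : 0 ≤ A) {s : ℝ} (hs : 0 < s) :
    Psi a s ≤ s ^ (-A) * Real.Gamma (a + A) ^ 2 := by
  have h1 : Psi a s ≤ ∫ T, (s ^ (-A) * Real.Gamma (a + A)) * (Real.exp (-T) * T ^ (a + A - 1)) ∂mu0 := by
    refine setIntegral_mono_on (integrable_Psi ha hs.le)
      ((gamma_int (a + A) (by linarith)).const_mul _) measurableSet_Ioi ?_
    intro T hT
    have hT' : (0 : ℝ) < T := hT
    have h2 := gam_upper ha hA (div_pos hs hT')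
    have h3 : (s / T) ^ (-A) = s ^ (-A) * T ^ A := by
      rw [Real.div_rpow hs.le hT'.le, Real.rpow_neg hT'.le, div_inv_eq_mul]
    have h4 : T ^ (a + A - 1) = T ^ A * T ^ (a - 1) := by
      rw [← Real.rpow_add hT']; congr 1; ring
    calc (Real.exp (-T) * T ^ (a - 1)) * gam a (s / T)
        ≤ (Real.exp (-T) * T ^ (a - 1)) * ((s / T) ^ (-A) * Real.Gamma (a + A)) :=
          mul_le_mul_of_nonneg_left h2 (gamfun_nonneg hT')
      _ = _ := by rw [h3, h4]; ring
  rw [integral_const_mul, gamma_eq (a + A) (by linarith)] at h1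
  calc Psi a s ≤ _ := h1
    _ = _ := by ring

/-- scaling of the inner integral -/
lemma inner_scale {a β : ℝ} (hβ : 0 < β) {x : ℝ} (hx : 0 ≤ x) :
    ∫ u in Ioi x, Real.exp (-(β * u)) * u ^ (a - 1) = β ^ (-a) * gam a (β * x) := by
  unfold gam
  have h1 := integral_comp_mul_left_Ioi (fun U : ℝ => Real.exp (-U) * U ^ (a - 1)) x hβ
  have h2 : ∫ u in Ioi x, Real.exp (-(β * u)) * u ^ (a - 1)
      = ∫ u in Ioi x, β ^ (1 - a) * (Real.exp (-(β * u)) * (β * u) ^ (a - 1)) := by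
    refine setIntegral_congr_fun measurableSet_Ioi fun u hu => ?_
    have hu0 : 0 < u := lt_of_le_of_lt hx hu
    rw [Real.mul_rpow hβ.le hu0.le]
    have : β ^ (1 - a) * β ^ (a - 1) = 1 := by
      rw [← Real.rpow_add hβ]; simp
    linear_combination (-(Real.exp (-(β * u)) * u ^ (a - 1))) * this
  rw [h2, integral_const_mul, h1, smul_eq_mul, ← mul_assoc]
  congr 1
  rw [← Real.rpow_neg_one β, ← Real.rpow_add hβ]
  congr 1; ring

lemma outer_scale {a α β : ℝ} (hα : 0 < α) :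
    ∫ t, (Real.exp (-(α * t)) * t ^ (a - 1)) * gam a (β * (1 / t)) ∂mu0
      = α ^ (-a) * Psi a (α * β) := by
  unfold Psi
  have h1 := integral_comp_mul_left_Ioi
    (fun T : ℝ => (Real.exp (-T) * T ^ (a - 1)) * gam a (α * β / T)) 0 hα
  rw [mul_zero] at h1
  have h2 : ∫ t, (Real.exp (-(α * t)) * t ^ (a - 1)) * gam a (β * (1 / t)) ∂mu0
      = ∫ t, α ^ (1 - a) * ((Real.exp (-(α * t)) * (α * t) ^ (a - 1)) * gam a (α * β / (α * t))) ∂mu0 := by
    refine setIntegral_congr_fun measurableSet_Ioi fun t ht => ?_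
    have ht0 : (0 : ℝ) < t := ht
    rw [Real.mul_rpow hα.le ht0.le]
    have h3 : α * β / (α * t) = β * (1 / t) := by field_simp
    rw [h3]
    have : α ^ (1 - a) * α ^ (a - 1) = 1 := by
      rw [← Real.rpow_add hα]; simp
    linear_combination (-((Real.exp (-(α * t)) * t ^ (a - 1)) * gam a (β * (1 / t)))) * this
  rw [h2, integral_const_mul, h1, smul_eq_mul, ← mul_assoc]
  congr 1
  rw [← Real.rpow_neg_one α, ← Real.rpow_add hα]
  congr 1; ring

end Pool.Agent.H14.PT
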