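import Mathlib

/-!
# Elementary sums with the divisor function
-/

namespace Pool.Agent.H14.PT

open Finset
open scoped Pointwise

lemma card_divisors_mul_le (m n : ℕ) :
    (m * n).divisors.card ≤ m.divisors.card * n.divisors.card := by
  rw [Nat.divisors_mul]
  exact Finset.card_mul_le

lemma card_filter_mul_eq_le (S : Finset (ℕ × ℕ)) (x : ℕ) (hx : x ≠ 0) :
    (S.filter (fun p => p.1 * p.2 = x)).card ≤ x.divisors.card := by
  refine Finset.card_le_card_of_injOn (fun p => p.1) ?_ ?_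
  · intro p hp
    have hp' := (Finset.mem_filter.mp (Finset.mem_coe.mp hp)).2
    exact Finset.mem_coe.mpr (Nat.mem_divisors.mpr ⟨Dvd.intro _ hp', hx⟩)
  · intro p hp p' hp' h
    have h1 := (Finset.mem_filter.mp (Finset.mem_coe.mp hp)).2
    have h2 := (Finset.mem_filter.mp (Finset.mem_coe.mp hp')).2
    have h3 : p.1 = p'.1 := h
    have h4 : p.1 ≠ 0 := by rintro h0; rw [h0, zero_mul] at h1; exact hx h1.symm
    have h5 : p.2 = p'.2 := by
      rw [← h2, ← h3] at h1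
      exact Nat.eq_of_mul_eq_mul_left (Nat.pos_of_ne_zero h4) h1
    exact Prod.ext h3 h5

lemma sum_tau_mul_le (T : ℕ) (f : ℕ → ℝ) (hf : ∀ n, 0 ≤ f n) :
    ∑ t ∈ Icc 1 T, (t.divisors.card : ℝ) * f t ≤ ∑ u ∈ Icc 1 T, ∑ v ∈ Icc 1 T, f (u * v) := by
  classical
  rw [← Finset.sum_product' (f := fun u v => f (u * v))]
  set S := (Icc 1 T) ×ˢ (Icc 1 T) with hS
  have h1 : ∑ p ∈ S.filter (fun p => p.1 * p.2 ∈ Icc 1 T), f (p.1 * p.2) ≤ ∑ p ∈ S, f (p.1 * p.2) :=
    Finset.sum_le_sum_of_subset_of_nonneg (Finset.filter_subset _ _) (fun _ _ _ => hf _)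
  refine le_trans ?_ h1
  rw [← Finset.sum_fiberwise_of_maps_to (s := S.filter (fun p => p.1 * p.2 ∈ Icc 1 T)) (t := Icc 1 T)
    (g := fun p => p.1 * p.2) (fun p hp => (Finset.mem_filter.mp hp).2)]
  refine Finset.sum_le_sum fun t ht => ?_
  have ht' := Finset.mem_Icc.mp ht
  have e1 : ∑ p ∈ (S.filter (fun p => p.1 * p.2 ∈ Icc 1 T)).filter (fun p => p.1 * p.2 = t), f (p.1 * p.2)
      = (((S.filter (fun p => p.1 * p.2 ∈ Icc 1 T)).filter (fun p => p.1 * p.2 = t)).card : ℝ) * f t := by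
    rw [Finset.sum_congr rfl (fun p hp => by rw [(Finset.mem_filter.mp hp).2]), Finset.sum_const,
      nsmul_eq_mul]
  rw [e1]
  refine mul_le_mul_of_nonneg_right ?_ (hf t)
  have : t.divisors.card ≤
      ((S.filter (fun p => p.1 * p.2 ∈ Icc 1 T)).filter (fun p => p.1 * p.2 = t)).card := by
    refine Finset.card_le_card_of_injOn (fun d => (d, t / d)) ?_ ?_
    · intro d hd
      have hd' := Nat.mem_divisors.mp (Finset.mem_coe.mp hd)
      have hm : d * (t / d) = t := Nat.mul_div_cancel' hd'.1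
      have hd0 : 0 < d := Nat.pos_of_dvd_of_pos hd'.1 (by omega)
      have hdt : d ≤ t := Nat.le_of_dvd (by omega) hd'.1
      have h2 : 0 < t / d := Nat.div_pos hdt hd0
      have h3 : t / d ≤ t := Nat.div_le_self _ _
      simp only [Finset.coe_filter, Set.mem_setOf_eq, hS, mem_filter, mem_product, mem_Icc]
      rw [hm]
      refine ⟨⟨⟨⟨?_, ?_⟩, ?_, ?_⟩, ?_, ?_⟩, rfl⟩ <;> omega
    · intro d _ d' _ h
      exact (Prod.mk.injEq _ _ _ _ ▸ h : d = d' ∧ t / d = t / d').1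
  exact_mod_cast this

lemma sum_tau_div_le (T : ℕ) :
    ∑ t ∈ Icc 1 T, (t.divisors.card : ℝ) / t ≤ (∑ t ∈ Icc 1 T, 1 / (t : ℝ)) ^ 2 := by
  have h := sum_tau_mul_le T (fun n => 1 / (n : ℝ)) (fun n => by positivity)
  calc ∑ t ∈ Icc 1 T, (t.divisors.card : ℝ) / t = ∑ t ∈ Icc 1 T, (t.divisors.card : ℝ) * (1 / (t : ℝ)) := by
        refine Finset.sum_congr rfl fun t _ => by ring
    _ ≤ _ := h
    _ = _ := by
        rw [sq, Finset.sum_mul_sum]
        refine Finset.sum_congr rfl fun u _ => Finset.sum_congr rfl fun v _ => ?_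
        push_cast
        rw [one_div_mul_one_div]

lemma sum_tau_sq_div_le (T : ℕ) :
    ∑ t ∈ Icc 1 T, (t.divisors.card : ℝ) ^ 2 / t ≤ (∑ t ∈ Icc 1 T, 1 / (t : ℝ)) ^ 4 := by
  have h := sum_tau_mul_le T (fun n => (n.divisors.card : ℝ) / n) (fun n => by positivity)
  calc ∑ t ∈ Icc 1 T, (t.divisors.card : ℝ) ^ 2 / t
      = ∑ t ∈ Icc 1 T, (t.divisors.card : ℝ) * ((t.divisors.card : ℝ) / t) := by
        refine Finset.sum_congr rfl fun t _ => by ring
    _ ≤ _ := h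
    _ ≤ ∑ u ∈ Icc 1 T, ∑ v ∈ Icc 1 T, ((u.divisors.card : ℝ) / u) * ((v.divisors.card : ℝ) / v) := by
        refine Finset.sum_le_sum fun u _ => Finset.sum_le_sum fun v _ => ?_
        rw [div_mul_div_comm]
        push_cast
        gcongr
        exact_mod_cast card_divisors_mul_le u v
    _ = (∑ u ∈ Icc 1 T, (u.divisors.card : ℝ) / u) ^ 2 := by
        rw [sq, Finset.sum_mul_sum]
    _ ≤ ((∑ t ∈ Icc 1 T, 1 / (t : ℝ)) ^ 2) ^ 2 := by
        gcongr
        exact sum_tau_div_le T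
    _ = _ := by ring

lemma sum_one_div_le (T : ℕ) : ∑ t ∈ Icc 1 T, 1 / (t : ℝ) ≤ 1 + Real.log T := by
  have h := harmonic_le_one_add_log T
  rw [harmonic_eq_sum_Icc] at h
  push_cast at h
  simpa [one_div] using h

lemma tau_le_two_pow_Omega (n : ℕ) (hn : n ≠ 0) :
    n.divisors.card ≤ 2 ^ (ArithmeticFunction.cardFactors n) := by
  induction n using Nat.recOnMul with
  | zero => exact absurd rfl hn
  | one => simp
  | prime p hp =>
      rw [ArithmeticFunction.cardFactors_apply_prime hp, Nat.Prime.divisors hp,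
        Finset.card_pair hp.one_lt.ne]
      norm_num
  | mul a b iha ihb =>
      have ha : a ≠ 0 := left_ne_zero_of_mul hn
      have hb : b ≠ 0 := right_ne_zero_of_mul hn
      rw [ArithmeticFunction.cardFactors_mul ha hb, pow_add]
      exact (card_divisors_mul_le a b).trans (Nat.mul_le_mul (iha ha) (ihb hb))

/-- dyadic decomposition of a sum over pairs -/
lemma dyadic_sum (P : Finset (ℕ × ℕ)) (hP : ∀ p ∈ P, p.1 ≠ 0 ∧ p.2 ≠ 0) (f : ℕ × ℕ → ℝ) (M : ℕ)
    (hM : ∀ p ∈ P, p.1 < 2 ^ M ∧ p.2 < 2 ^ M) (E : ℝ)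
    (h : ∀ i j : ℕ, ∑ p ∈ P.filter (fun p => (2 ^ i ≤ p.1 ∧ p.1 < 2 ^ (i + 1)) ∧
      (2 ^ j ≤ p.2 ∧ p.2 < 2 ^ (j + 1))), f p ≤ E) :
    ∑ p ∈ P, f p ≤ (M : ℝ) ^ 2 * E := by
  classical
  rw [← Finset.sum_fiberwise_of_maps_to (s := P) (t := (range M) ×ˢ (range M))
    (g := fun p => (Nat.log 2 p.1, Nat.log 2 p.2))]
  · calc _ ≤ ∑ _ij ∈ (range M) ×ˢ (range M), E := by
          refine Finset.sum_le_sum fun ij _ => ?_
          refine le_trans (le_of_eq ?_) (h ij.1 ij.2)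
          refine Finset.sum_congr ?_ fun _ _ => rfl
          ext p
          simp only [mem_filter, and_congr_right_iff]
          intro hp
          obtain ⟨h1, h2⟩ := hP p hp
          rw [Prod.ext_iff]
          simp only
          rw [Nat.log_eq_iff (Or.inr ⟨by norm_num, h1⟩), Nat.log_eq_iff (Or.inr ⟨by norm_num, h2⟩)]
      _ = _ := by
          rw [Finset.sum_const, card_product, card_range, nsmul_eq_mul]
          push_cast
          ring
  · intro p hp
    obtain ⟨h1, h2⟩ := hP p hp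
    obtain ⟨h3, h4⟩ := hM p hp
    simp only [mem_product, mem_range]
    exact ⟨Nat.log_lt_of_lt_pow h1 h3, Nat.log_lt_of_lt_pow h2 h4⟩

end Pool.Agent.H14.PT
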