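import Pool.Agent.H14.PT.BoxL
import Pool.Agent.H14.PT.Tau

/-!
# Dyadic summation of the box bounds
-/

namespace Pool.Agent.H14.PT

open Finset Filter
open scoped ArithmeticFunction.Omega

lemma poly_le_exp (k : ℕ) (C c : ℝ) (hc : 0 < c) :
    ∃ Q : ℝ, 1 ≤ Q ∧ ∀ L : ℝ, Q ≤ L → C * L ^ k ≤ Real.exp (c * L) := by
  have h1 : (fun x : ℝ => x ^ k) =o[atTop] fun x => Real.exp (c * x) :=
    isLittleO_pow_exp_pos_mul_atTop k hc
  have h2 := (h1.const_mul_left C).bound (show (0 : ℝ) < 1 by norm_num)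
  obtain ⟨Q, hQ⟩ := Filter.eventually_atTop.mp h2
  refine ⟨max Q 1, le_max_right _ _, fun L hL => ?_⟩
  have h3 := hQ L (le_trans (le_max_left _ _) hL)
  rw [one_mul, Real.norm_of_nonneg (Real.exp_pos _).le] at h3
  exact (le_abs_self _).trans h3

/-- coprime pairs in a coset -/
def CP {q : ℕ} (H : Subgroup (ZMod q)ˣ) (g : ZMod q) (p : ℕ × ℕ) : Prop :=
  Nat.Coprime p.1 p.2 ∧ p.1 ≠ 0 ∧ p.2 ≠ 0 ∧ InC H g p.1 p.2

/-- a dyadic block -/
def blk (P : Finset (ℕ × ℕ)) (i j : ℕ) : Finset (ℕ × ℕ) :=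
  P.filter (fun p => (2 ^ i ≤ p.1 ∧ p.1 < 2 ^ (i + 1)) ∧ (2 ^ j ≤ p.2 ∧ p.2 < 2 ^ (j + 1)))

lemma blk_inBox {q : ℕ} {H : Subgroup (ZMod q)ˣ} {g : ZMod q} {P : Finset (ℕ × ℕ)}
    (hP : ∀ p ∈ P, CP H g p) (i j : ℕ) : ∀ p ∈ blk P i j, InBox H g (2 ^ i) (2 ^ j) p := by
  intro p hp
  obtain ⟨hpP, ⟨h1, h2⟩, h3, h4⟩ := Finset.mem_filter.mp hp
  obtain ⟨a1, a2, a3, a4⟩ := hP p hpP
  refine ⟨a1, a2, a3, ?_, ?_, ?_, a4⟩
  · have : p.1 ≤ 2 * 2 ^ i := by rw [pow_succ] at h2; omega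
    exact_mod_cast this
  · exact_mod_cast h3
  · have : p.2 ≤ 2 * 2 ^ j := by rw [pow_succ] at h4; omega
    exact_mod_cast this

lemma blk_prod_bounds {P : Finset (ℕ × ℕ)} {i j : ℕ} {p : ℕ × ℕ} (hp : p ∈ blk P i j) :
    (2 : ℝ) ^ i * 2 ^ j ≤ ((p.1 * p.2 : ℕ) : ℝ) ∧ ((p.1 * p.2 : ℕ) : ℝ) ≤ 4 * (2 ^ i * 2 ^ j) := by
  obtain ⟨_, ⟨h1, h2⟩, h3, h4⟩ := Finset.mem_filter.mp hp
  have e1 : 2 ^ i * 2 ^ j ≤ p.1 * p.2 := Nat.mul_le_mul h1 h3
  have e2 : p.1 * p.2 ≤ 4 * (2 ^ i * 2 ^ j) := by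
    calc p.1 * p.2 ≤ 2 ^ (i + 1) * 2 ^ (j + 1) := Nat.mul_le_mul h2.le h4.le
      _ = _ := by ring
  constructor
  · exact_mod_cast e1
  · exact_mod_cast e2

/-- number of dyadic blocks -/
lemma blocks_bound (L : ℝ) (hL : 2 ≤ L) : ∃ M : ℕ, (M : ℝ) ≤ 3 * L ∧
    ∀ n : ℕ, (n : ℝ) ≤ Real.exp (1.05 * L) → n < 2 ^ M := by
  refine ⟨⌊1.05 * L / Real.log 2⌋₊ + 1, ?_, ?_⟩
  · have hl2 := Real.log_two_gt_d9
    have h1 : (⌊1.05 * L / Real.log 2⌋₊ : ℝ) ≤ 1.05 * L / Real.log 2 :=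
      Nat.floor_le (by positivity)
    have h2 : 1.05 * L / Real.log 2 ≤ 2 * L := by
      rw [div_le_iff₀ (by linarith)]
      nlinarith
    push_cast
    linarith
  · intro n hn
    have hl2 : 0 < Real.log 2 := Real.log_pos (by norm_num)
    have h1 := Nat.lt_floor_add_one (1.05 * L / Real.log 2)
    rw [div_lt_iff₀ hl2] at h1
    have h2 : Real.exp (1.05 * L) < (2 : ℝ) ^ (⌊1.05 * L / Real.log 2⌋₊ + 1) := by
      rw [← Real.exp_log (show (0 : ℝ) < 2 ^ (⌊1.05 * L / Real.log 2⌋₊ + 1) by positivity),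
        Real.log_pow]
      apply Real.exp_lt_exp.mpr
      push_cast
      exact h1
    have h3 := hn.trans_lt h2
    exact_mod_cast h3

/-- **sum over fractions, large regime** -/
theorem sum_large (ε ε3 : ℝ) (hε : 0 < ε) (hε3 : 0 < ε3) (hε1 : ε ≤ 1 / 3) (hε31 : ε3 ≤ 1 / 3) :
    ∃ c : ℝ, 0 < c ∧ ∃ Q0 : ℝ, ∀ (q : ℕ) [NeZero q], Q0 ≤ Real.log q →
      ∀ (H : Subgroup (ZMod q)ˣ) (g : ZMod q) (P : Finset (ℕ × ℕ)),
      Real.log (Nat.card H) ≤ (1 / 3 - ε) * Real.log q →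
      (∀ p ∈ P, CP H g p ∧ (q : ℝ) ^ ε3 ≤ ((p.1 * p.2 : ℕ) : ℝ) ∧
        ((p.1 * p.2 : ℕ) : ℝ) ≤ (q : ℝ) ^ (1.05 : ℝ)) →
      ∑ p ∈ P, (((p.1 * p.2 : ℕ) : ℝ)) ^ (-(1 / 2) : ℝ) ≤ (q : ℝ) ^ (-c) := by
  obtain ⟨c, hc, hc1, Q0, hbox⟩ := box_large ε (ε3 / 2) hε (by positivity) hε1 (by linarith)
  obtain ⟨Q1, hQ11, hQ1⟩ := poly_le_exp 2 9 (c / 2) (by positivity)
  refine ⟨c / 2, by positivity, max (max Q0 Q1) (max 2 (2 * Real.log 4 / ε3)), ?_⟩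
  intro q _ hq H g P hH hP
  set L := Real.log q with hL
  have hLQ0 : Q0 ≤ L := (le_max_left _ _).trans ((le_max_left _ _).trans hq)
  have hLQ1 : Q1 ≤ L := (le_max_right _ _).trans ((le_max_left _ _).trans hq)
  have hL2 : 2 ≤ L := (le_max_left _ _).trans ((le_max_right _ _).trans hq)
  have hL4 : 2 * Real.log 4 / ε3 ≤ L := (le_max_right _ _).trans ((le_max_right _ _).trans hq)
  have hqpos : (0 : ℝ) < q := by exact_mod_cast Nat.pos_of_ne_zero (NeZero.ne q)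
  have hqexp : ∀ r : ℝ, (q : ℝ) ^ r = Real.exp (r * L) := fun r => by
    rw [Real.rpow_def_of_pos hqpos, mul_comm]
  obtain ⟨M, hM3, hM⟩ := blocks_bound L hL2
  have hsum := dyadic_sum P (fun p hp => ⟨(hP p hp).1.2.1, (hP p hp).1.2.2.1⟩)
    (fun p => (((p.1 * p.2 : ℕ) : ℝ)) ^ (-(1 / 2) : ℝ)) M ?_ ((q : ℝ) ^ (-c)) ?_
  · refine hsum.trans ?_
    have h1 : (M : ℝ) ^ 2 ≤ 9 * L ^ 2 := by
      have : (0 : ℝ) ≤ M := by positivity
      nlinarith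
    have h2 := hQ1 L hLQ1
    rw [hqexp, hqexp]
    calc (M : ℝ) ^ 2 * Real.exp (-c * L) ≤ Real.exp (c / 2 * L) * Real.exp (-c * L) := by
          gcongr; linarith
      _ = Real.exp (-(c / 2) * L) := by rw [← Real.exp_add]; congr 1; ring
  · intro p hp
    obtain ⟨⟨_, h1, h2, _⟩, _, h4⟩ := hP p hp
    rw [hqexp] at h4
    have h5 : ((p.1 : ℕ) : ℝ) ≤ ((p.1 * p.2 : ℕ) : ℝ) := by
      exact_mod_cast Nat.le_mul_of_pos_right _ (Nat.pos_of_ne_zero h2)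
    have h6 : ((p.2 : ℕ) : ℝ) ≤ ((p.1 * p.2 : ℕ) : ℝ) := by
      exact_mod_cast Nat.le_mul_of_pos_left _ (Nat.pos_of_ne_zero h1)
    exact ⟨hM _ (h5.trans h4), hM _ (h6.trans h4)⟩
  · intro i j
    change ∑ p ∈ blk P i j, _ ≤ _
    rcases (blk P i j).eq_empty_or_nonempty with he | ⟨p0, hp0⟩
    · rw [he, Finset.sum_empty]; positivity
    have hAB : (0 : ℝ) < 2 ^ i * 2 ^ j := by positivity
    obtain ⟨b1, b2⟩ := blk_prod_bounds hp0
    obtain ⟨_, c2, c3⟩ := hP p0 (Finset.mem_filter.mp hp0).1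
    have hlow : ε3 / 2 * L ≤ Real.log ((2 : ℝ) ^ i * 2 ^ j) := by
      have e1 : (q : ℝ) ^ ε3 ≤ 4 * (2 ^ i * 2 ^ j) := c2.trans b2
      have e2 := Real.log_le_log (by positivity) e1
      rw [Real.log_rpow hqpos, Real.log_mul (x := 4) (by norm_num) hAB.ne'] at e2
      have e3 : Real.log 4 ≤ ε3 / 2 * L := by
        rw [div_le_iff₀ hε3] at hL4
        linarith
      linarith
    have hup : Real.log ((2 : ℝ) ^ i * 2 ^ j) ≤ 1.1 * L := by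
      have e2 := Real.log_le_log hAB (b1.trans c3)
      rw [Real.log_rpow hqpos] at e2
      linarith
    have hcard := hbox q hLQ0 H g (blk P i j) (2 ^ i) (2 ^ j) (one_le_pow₀ (by norm_num))
      (one_le_pow₀ (by norm_num)) hH hlow hup (blk_inBox (fun p hp => (hP p hp).1) i j)
    calc ∑ p ∈ blk P i j, (((p.1 * p.2 : ℕ) : ℝ)) ^ (-(1 / 2) : ℝ)
        ≤ ∑ _p ∈ blk P i j, ((2 : ℝ) ^ i * 2 ^ j) ^ (-(1 / 2) : ℝ) := by
          refine Finset.sum_le_sum fun p hp => ?_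
          exact Real.rpow_le_rpow_of_nonpos hAB (blk_prod_bounds hp).1 (by norm_num)
      _ = (blk P i j).card * ((2 : ℝ) ^ i * 2 ^ j) ^ (-(1 / 2) : ℝ) := by
          rw [Finset.sum_const, nsmul_eq_mul]
      _ ≤ (((2 : ℝ) ^ i * 2 ^ j) ^ (1 / 2 : ℝ) * (q : ℝ) ^ (-c)) * ((2 : ℝ) ^ i * 2 ^ j) ^ (-(1 / 2) : ℝ) := by
          gcongr
      _ = (q : ℝ) ^ (-c) * (((2 : ℝ) ^ i * 2 ^ j) ^ (1 / 2 : ℝ) * ((2 : ℝ) ^ i * 2 ^ j) ^ (-(1 / 2) : ℝ)) := by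
          ring
      _ = (q : ℝ) ^ (-c) := by
          rw [← Real.rpow_add hAB]; norm_num

/-- the divisor function on numbers with few prime factors -/
lemma tau_few {z : ℝ} (hz : 100 ≤ Real.log z) {n : ℕ} (hn : n ≠ 0) (h : Few z n) :
    (n.divisors.card : ℝ) ≤ 2 * (n : ℝ) ^ (0.01 : ℝ) := by
  have hn0 : (0 : ℝ) < n := by exact_mod_cast Nat.pos_of_ne_zero hn
  have hn1 : (1 : ℝ) ≤ n := by exact_mod_cast Nat.one_le_iff_ne_zero.mpr hn
  have hlog : 0 ≤ Real.log n := Real.log_nonneg hn1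
  have h1 : (n.divisors.card : ℝ) ≤ (2 : ℝ) ^ (Ω n) := by exact_mod_cast tau_le_two_pow_Omega n hn
  have h2 : (2 : ℝ) ^ (Ω n) ≤ (2 : ℝ) ^ (1 + Real.log n / Real.log z) := by
    rw [← Real.rpow_natCast]
    exact Real.rpow_le_rpow_of_exponent_le (by norm_num) h
  refine h1.trans (h2.trans ?_)
  rw [Real.rpow_add (by norm_num), Real.rpow_one]
  refine mul_le_mul_of_nonneg_left ?_ (by norm_num)
  rw [Real.rpow_def_of_pos (by norm_num), Real.rpow_def_of_pos hn0]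
  apply Real.exp_le_exp.mpr
  have hl2 : Real.log 2 ≤ 1 := by have := Real.log_two_lt_d9; linarith
  have h3 : Real.log n / Real.log z ≤ Real.log n * 0.01 := by
    rw [div_le_iff₀ (by linarith)]
    nlinarith
  have h4 : 0 ≤ Real.log n / Real.log z := div_nonneg hlog (by linarith)
  nlinarith

/-- **sum over fractions, rough regime** -/
theorem sum_rough {q : ℕ} [NeZero q] (H : Subgroup (ZMod q)ˣ) (g : ZMod q) (P : Finset (ℕ × ℕ))
    (z : ℝ) (hz0 : 0 < z) (hz : 100 ≤ Real.log z) (hL : 2 ≤ Real.log q)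
    (hzL : 200 * Real.log (Real.log q) ≤ Real.log z)
    (hd : Real.log (2 * Nat.card H) ≤ 0.335 * Real.log q)
    (hP : ∀ p ∈ P, CP H g p ∧ z ≤ ((p.1 * p.2 : ℕ) : ℝ) ∧
      100 * Real.log (8 * ((p.1 * p.2 : ℕ) : ℝ)) ≤ Real.log q ∧ Few z (p.1 * p.2)) :
    ∑ p ∈ P, ((p.1 * p.2).divisors.card : ℝ) * (((p.1 * p.2 : ℕ) : ℝ)) ^ (-(1 / 2) : ℝ) ≤
      300 * (Real.log q) ^ 3 * z ^ (-(0.13) : ℝ) := by
  set L := Real.log q with hLdef
  obtain ⟨M, hM3, hM⟩ := blocks_bound L hL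
  have hM' : ∀ n : ℕ, n ≠ 0 → 100 * Real.log (8 * (n : ℝ)) ≤ L → n < 2 ^ M := by
    intro n hn h
    have hn0 : (0 : ℝ) < n := by exact_mod_cast Nat.pos_of_ne_zero hn
    apply hM
    have h1 : Real.log n ≤ 1.05 * L := by
      rw [Real.log_mul (by norm_num) hn0.ne'] at h
      have h8 : 0 < Real.log 8 := Real.log_pos (by norm_num)
      linarith
    calc (n : ℝ) = Real.exp (Real.log n) := (Real.exp_log hn0).symm
      _ ≤ _ := Real.exp_le_exp.mpr h1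
  have hsum := dyadic_sum P (fun p hp => ⟨(hP p hp).1.2.1, (hP p hp).1.2.2.1⟩)
    (fun p => ((p.1 * p.2).divisors.card : ℝ) * (((p.1 * p.2 : ℕ) : ℝ)) ^ (-(1 / 2) : ℝ)) M ?_
    (32 * L * z ^ (-(0.13) : ℝ)) ?_
  · refine hsum.trans ?_
    have h1 : (M : ℝ) ^ 2 ≤ 9 * L ^ 2 := by
      have : (0 : ℝ) ≤ M := by positivity
      nlinarith
    have hz1 : 0 ≤ z ^ (-(0.13) : ℝ) := by positivity
    calc (M : ℝ) ^ 2 * (32 * L * z ^ (-(0.13) : ℝ)) ≤ (9 * L ^ 2) * (32 * L * z ^ (-(0.13) : ℝ)) := by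
          gcongr
      _ ≤ 300 * L ^ 3 * z ^ (-(0.13) : ℝ) := by
          have : 0 ≤ L ^ 3 * z ^ (-(0.13) : ℝ) := by positivity
          nlinarith
  · intro p hp
    obtain ⟨⟨_, h1, h2, _⟩, _, h4, _⟩ := hP p hp
    have h5 : p.1 ≤ p.1 * p.2 := Nat.le_mul_of_pos_right _ (Nat.pos_of_ne_zero h2)
    have h6 : p.2 ≤ p.1 * p.2 := Nat.le_mul_of_pos_left _ (Nat.pos_of_ne_zero h1)
    have h7 := hM' _ (Nat.mul_ne_zero h1 h2) h4
    exact ⟨h5.trans_lt h7, h6.trans_lt h7⟩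
  · intro i j
    change ∑ p ∈ blk P i j, _ ≤ _
    rcases (blk P i j).eq_empty_or_nonempty with he | ⟨p0, hp0⟩
    · rw [he, Finset.sum_empty]; positivity
    have hAB : (0 : ℝ) < 2 ^ i * 2 ^ j := by positivity
    obtain ⟨b1, b2⟩ := blk_prod_bounds hp0
    obtain ⟨_, c2, c3, _⟩ := hP p0 (Finset.mem_filter.mp hp0).1
    have hup : 100 * Real.log (8 * 2 ^ i * 2 ^ j) ≤ L := by
      refine le_trans ?_ c3
      rw [mul_assoc]
      have := Real.log_le_log (show (0 : ℝ) < 8 * (2 ^ i * 2 ^ j) by positivity)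
        (mul_le_mul_of_nonneg_left b1 (by norm_num : (0 : ℝ) ≤ 8))
      linarith
    have hcard := box_rough H g (blk P i j) (2 ^ i) (2 ^ j) (one_le_pow₀ (by norm_num))
      (one_le_pow₀ (by norm_num)) z hz (by linarith) hzL hup hd
      (blk_inBox (fun p hp => (hP p hp).1) i j)
      (fun p hp => (hP p (Finset.mem_filter.mp hp).1).2.2.2)
    have hterm : ∀ p ∈ blk P i j,
        ((p.1 * p.2).divisors.card : ℝ) * (((p.1 * p.2 : ℕ) : ℝ)) ^ (-(1 / 2) : ℝ) ≤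
          2 * ((2 : ℝ) ^ i * 2 ^ j) ^ (-(0.49) : ℝ) := by
      intro p hp
      obtain ⟨⟨_, h1, h2, _⟩, _, _, h4⟩ := hP p (Finset.mem_filter.mp hp).1
      have hn := Nat.mul_ne_zero h1 h2
      have hn0 : (0 : ℝ) < ((p.1 * p.2 : ℕ) : ℝ) := by exact_mod_cast Nat.pos_of_ne_zero hn
      have h5 := tau_few hz hn h4
      calc _ ≤ (2 * (((p.1 * p.2 : ℕ) : ℝ)) ^ (0.01 : ℝ)) * (((p.1 * p.2 : ℕ) : ℝ)) ^ (-(1 / 2) : ℝ) := by
            gcongr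
        _ = 2 * (((p.1 * p.2 : ℕ) : ℝ)) ^ (-(0.49) : ℝ) := by
            rw [mul_assoc, ← Real.rpow_add hn0]; norm_num
        _ ≤ _ := mul_le_mul_of_nonneg_left
            (Real.rpow_le_rpow_of_nonpos hAB (blk_prod_bounds hp).1 (by norm_num)) (by norm_num)
    have h8 : (8 : ℝ) ^ (0.36 : ℝ) ≤ 4 := by
      calc (8 : ℝ) ^ (0.36 : ℝ) ≤ (8 : ℝ) ^ (2 / 3 : ℝ) :=
            Real.rpow_le_rpow_of_exponent_le (by norm_num) (by norm_num)
        _ = 4 := by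
            rw [show (8 : ℝ) = 2 ^ (3 : ℝ) by norm_num, ← Real.rpow_mul (by norm_num)]
            norm_num
    have h4 : (z / 4) ^ (-(0.13) : ℝ) ≤ 2 * z ^ (-(0.13) : ℝ) := by
      rw [Real.div_rpow hz0.le (by norm_num), div_eq_mul_inv, ← Real.rpow_neg (by norm_num), neg_neg,
        mul_comm]
      gcongr
      calc (4 : ℝ) ^ (0.13 : ℝ) ≤ (4 : ℝ) ^ (1 / 2 : ℝ) :=
            Real.rpow_le_rpow_of_exponent_le (by norm_num) (by norm_num)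
        _ = 2 := by
            rw [show (4 : ℝ) = 2 ^ (2 : ℝ) by norm_num, ← Real.rpow_mul (by norm_num)]
            norm_num
    have h5 : ((2 : ℝ) ^ i * 2 ^ j) ^ (-(0.13) : ℝ) ≤ (z / 4) ^ (-(0.13) : ℝ) := by
      refine Real.rpow_le_rpow_of_nonpos (by positivity) ?_ (by norm_num)
      have := c2.trans b2
      linarith
    calc ∑ p ∈ blk P i j, ((p.1 * p.2).divisors.card : ℝ) * (((p.1 * p.2 : ℕ) : ℝ)) ^ (-(1 / 2) : ℝ)
        ≤ ∑ _p ∈ blk P i j, 2 * ((2 : ℝ) ^ i * 2 ^ j) ^ (-(0.49) : ℝ) := Finset.sum_le_sum hterm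
      _ = (blk P i j).card * (2 * ((2 : ℝ) ^ i * 2 ^ j) ^ (-(0.49) : ℝ)) := by
          rw [Finset.sum_const, nsmul_eq_mul]
      _ ≤ (2 * L * (8 * 2 ^ i * 2 ^ j) ^ (0.36 : ℝ)) * (2 * ((2 : ℝ) ^ i * 2 ^ j) ^ (-(0.49) : ℝ)) := by
          gcongr
      _ = 4 * L * (8 : ℝ) ^ (0.36 : ℝ) * (((2 : ℝ) ^ i * 2 ^ j) ^ (0.36 : ℝ) *
            ((2 : ℝ) ^ i * 2 ^ j) ^ (-(0.49) : ℝ)) := by
          rw [mul_assoc (8 : ℝ), Real.mul_rpow (x := 8) (by norm_num) hAB.le]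
          ring
      _ = 4 * L * (8 : ℝ) ^ (0.36 : ℝ) * ((2 : ℝ) ^ i * 2 ^ j) ^ (-(0.13) : ℝ) := by
          rw [← Real.rpow_add hAB]; norm_num
      _ ≤ 4 * L * 4 * (2 * z ^ (-(0.13) : ℝ)) := by
          have := h5.trans h4
          gcongr
      _ = 32 * L * z ^ (-(0.13) : ℝ) := by ring

lemma few_prime {z : ℝ} (hz : 100 ≤ Real.log z) {p : ℕ} (hp : p.Prime) : Few z (p * 1) := by
  unfold Few
  rw [mul_one, ArithmeticFunction.cardFactors_apply_prime hp]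
  have : 0 ≤ Real.log p / Real.log z :=
    div_nonneg (Real.log_nonneg (by exact_mod_cast hp.one_lt.le)) (by linarith)
  push_cast
  linarith

/-- **small primes in the subgroup** -/
theorem sum_primes {q : ℕ} [NeZero q] (H : Subgroup (ZMod q)ˣ) (Pr : Finset ℕ)
    (z : ℝ) (hz0 : 0 < z) (hz : 100 ≤ Real.log z) (hL : 2 ≤ Real.log q)
    (hzL : 200 * Real.log (Real.log q) ≤ Real.log z)
    (hzq : 100 * Real.log (8 * z) ≤ Real.log q)
    (hd : Real.log (2 * Nat.card H) ≤ 0.335 * Real.log q)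
    (hP : ∀ p ∈ Pr, p.Prime ∧ (p : ℝ) ≤ z ∧ InC H 1 p 1) :
    ∑ p ∈ Pr, Real.log p * (p : ℝ) ^ (-(1 / 2) : ℝ) ≤
      32 * (Real.log z) ^ 3 * (Real.log q) ^ (0.79 : ℝ) := by
  set L := Real.log q with hLdef
  set P : Finset (ℕ × ℕ) := Pr ×ˢ {1} with hPdef
  have hmem : ∀ p ∈ P, p.1.Prime ∧ (p.1 : ℝ) ≤ z ∧ InC H 1 p.1 1 ∧ p.2 = 1 := by
    intro p hp
    obtain ⟨h1, h2⟩ := Finset.mem_product.mp hp
    obtain ⟨a, b, c⟩ := hP _ h1
    exact ⟨a, b, c, Finset.mem_singleton.mp h2⟩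
  have e1 : ∑ p ∈ Pr, Real.log p * (p : ℝ) ^ (-(1 / 2) : ℝ) =
      ∑ p ∈ P, Real.log p.1 * (p.1 : ℝ) ^ (-(1 / 2) : ℝ) := by
    rw [hPdef, Finset.sum_product]
    simp
  rw [e1]
  set M : ℕ := ⌊Real.log z / Real.log 2⌋₊ + 1 with hM
  have hl2 := Real.log_two_gt_d9
  have hM2 : (M : ℝ) ≤ 2 * Real.log z := by
    have h1 : (⌊Real.log z / Real.log 2⌋₊ : ℝ) ≤ Real.log z / Real.log 2 :=
      Nat.floor_le (by positivity)
    have h2 : Real.log z / Real.log 2 ≤ 1.5 * Real.log z := by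
      rw [div_le_iff₀ (by linarith)]
      nlinarith
    rw [hM]
    push_cast
    linarith
  have hzM : ∀ n : ℕ, (n : ℝ) ≤ z → n < 2 ^ M := by
    intro n hn
    have hl2' : 0 < Real.log 2 := Real.log_pos (by norm_num)
    have h1 := Nat.lt_floor_add_one (Real.log z / Real.log 2)
    rw [div_lt_iff₀ hl2'] at h1
    have h2 : z < (2 : ℝ) ^ M := by
      rw [← Real.log_lt_log_iff hz0 (by positivity), Real.log_pow, hM]
      push_cast
      exact h1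
    have h3 := hn.trans_lt h2
    exact_mod_cast h3
  have hsum := dyadic_sum P (fun p hp => ⟨(hmem p hp).1.ne_zero, by rw [(hmem p hp).2.2.2]; norm_num⟩)
    (fun p => Real.log p.1 * (p.1 : ℝ) ^ (-(1 / 2) : ℝ)) M ?_ (8 * Real.log z * L ^ (0.79 : ℝ)) ?_
  · refine hsum.trans ?_
    have h1 : (M : ℝ) ^ 2 ≤ 4 * Real.log z ^ 2 := by
      have : (0 : ℝ) ≤ M := by positivity
      nlinarith
    calc (M : ℝ) ^ 2 * (8 * Real.log z * L ^ (0.79 : ℝ)) ≤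
          (4 * Real.log z ^ 2) * (8 * Real.log z * L ^ (0.79 : ℝ)) := by gcongr
      _ = _ := by ring
  · intro p hp
    obtain ⟨h1, h2, h3, h4⟩ := hmem p hp
    refine ⟨hzM _ h2, ?_⟩
    rw [h4]
    exact Nat.one_lt_two_pow (by omega)
  · intro i j
    change ∑ p ∈ blk P i j, _ ≤ _
    rcases (blk P i j).eq_empty_or_nonempty with he | ⟨p0, hp0⟩
    · rw [he, Finset.sum_empty]; positivity
    have hj : j = 0 := by
      obtain ⟨hp0P, _, h3, _⟩ := Finset.mem_filter.mp hp0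
      rw [(hmem p0 hp0P).2.2.2] at h3
      by_contra hj
      exact absurd h3 (not_le.mpr (Nat.one_lt_two_pow hj))
    subst hj
    have hA : (0 : ℝ) < 2 ^ i := by positivity
    have hA1 : (1 : ℝ) ≤ 2 ^ i := one_le_pow₀ (by norm_num)
    obtain ⟨b1, b2⟩ := blk_prod_bounds hp0
    obtain ⟨_, c2, _, c4⟩ := hmem p0 (Finset.mem_filter.mp hp0).1
    have hAz : (2 : ℝ) ^ i ≤ z := by
      rw [c4] at b1
      push_cast at b1
      linarith
    have hup : 100 * Real.log (8 * 2 ^ i * 2 ^ 0) ≤ L := by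
      refine le_trans ?_ hzq
      rw [pow_zero, mul_one]
      have := Real.log_le_log (show (0 : ℝ) < 8 * 2 ^ i by positivity)
        (mul_le_mul_of_nonneg_left hAz (by norm_num : (0 : ℝ) ≤ 8))
      linarith
    have hCP : ∀ p ∈ P, CP H 1 p := by
      intro p hp
      obtain ⟨h1, _, h3, h4⟩ := hmem p hp
      refine ⟨by rw [h4]; exact Nat.coprime_one_right _, h1.ne_zero, by rw [h4]; norm_num, ?_⟩
      rw [h4]; exact h3
    have hcard := box_rough H 1 (blk P i 0) (2 ^ i) (2 ^ 0) hA1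
      (one_le_pow₀ (by norm_num)) z hz (by linarith) hzL hup hd
      (blk_inBox hCP i 0)
      (fun p hp => by
        obtain ⟨h1, _, _, h4⟩ := hmem p (Finset.mem_filter.mp hp).1
        rw [h4]; exact few_prime hz h1)
    have hcard2 : ((blk P i 0).card : ℝ) ≤ 2 ^ i := by
      have : (blk P i 0).card ≤ (Finset.Ico (2 ^ i) (2 ^ (i + 1))).card := by
        refine Finset.card_le_card_of_injOn (fun p => p.1) ?_ ?_
        · intro p hp
          obtain ⟨_, ⟨h1, h2⟩, _⟩ := Finset.mem_filter.mp (Finset.mem_coe.mp hp)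
          exact Finset.mem_coe.mpr (Finset.mem_Ico.mpr ⟨h1, h2⟩)
        · intro p hp p' hp' h
          have h1 := (hmem p (Finset.mem_filter.mp (Finset.mem_coe.mp hp)).1).2.2.2
          have h2 := (hmem p' (Finset.mem_filter.mp (Finset.mem_coe.mp hp')).1).2.2.2
          exact Prod.ext h (by rw [h1, h2])
      rw [Nat.card_Ico, pow_succ] at this
      have h3 : (blk P i 0).card ≤ 2 ^ i := by omega
      exact_mod_cast h3
    have hterm : ∀ p ∈ blk P i 0, Real.log p.1 * (p.1 : ℝ) ^ (-(1 / 2) : ℝ) ≤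
        Real.log z * ((2 : ℝ) ^ i) ^ (-(1 / 2) : ℝ) := by
      intro p hp
      obtain ⟨hpP, ⟨h1, _⟩, _⟩ := Finset.mem_filter.mp hp
      obtain ⟨h2, h3, _, _⟩ := hmem p hpP
      have hp0 : (0 : ℝ) < p.1 := by exact_mod_cast h2.pos
      have h4 : Real.log p.1 ≤ Real.log z := Real.log_le_log hp0 h3
      have h5 : (2 : ℝ) ^ i ≤ p.1 := by exact_mod_cast h1
      have h6 : (p.1 : ℝ) ^ (-(1 / 2) : ℝ) ≤ ((2 : ℝ) ^ i) ^ (-(1 / 2) : ℝ) :=
        Real.rpow_le_rpow_of_nonpos hA h5 (by norm_num)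
      exact mul_le_mul h4 h6 (by positivity) (by linarith)
    have h8 : (8 : ℝ) ^ (0.36 : ℝ) ≤ 4 := by
      calc (8 : ℝ) ^ (0.36 : ℝ) ≤ (8 : ℝ) ^ (2 / 3 : ℝ) :=
            Real.rpow_le_rpow_of_exponent_le (by norm_num) (by norm_num)
        _ = 4 := by
            rw [show (8 : ℝ) = 2 ^ (3 : ℝ) by norm_num, ← Real.rpow_mul (by norm_num)]
            norm_num
    have hL1 : 1 ≤ L := by linarith
    have key : ((blk P i 0).card : ℝ) * ((2 : ℝ) ^ i) ^ (-(1 / 2) : ℝ) ≤ 8 * L ^ (0.79 : ℝ) := by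
      by_cases hc : (2 : ℝ) ^ i ≤ L ^ (1.5 : ℝ)
      · calc ((blk P i 0).card : ℝ) * ((2 : ℝ) ^ i) ^ (-(1 / 2) : ℝ)
            ≤ (2 : ℝ) ^ i * ((2 : ℝ) ^ i) ^ (-(1 / 2) : ℝ) := by gcongr
          _ = ((2 : ℝ) ^ i) ^ (1 / 2 : ℝ) := by
              nth_rw 1 [← Real.rpow_one ((2 : ℝ) ^ i)]
              rw [← Real.rpow_add hA]; norm_num
          _ ≤ (L ^ (1.5 : ℝ)) ^ (1 / 2 : ℝ) := by gcongr
          _ = L ^ (0.75 : ℝ) := by rw [← Real.rpow_mul (by linarith)]; norm_num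
          _ ≤ L ^ (0.79 : ℝ) := Real.rpow_le_rpow_of_exponent_le hL1 (by norm_num)
          _ ≤ 8 * L ^ (0.79 : ℝ) := by
              have : 0 ≤ L ^ (0.79 : ℝ) := by positivity
              linarith
      · push Not at hc
        calc ((blk P i 0).card : ℝ) * ((2 : ℝ) ^ i) ^ (-(1 / 2) : ℝ)
            ≤ (2 * L * (8 * 2 ^ i * 2 ^ 0) ^ (0.36 : ℝ)) * ((2 : ℝ) ^ i) ^ (-(1 / 2) : ℝ) := by gcongr
          _ = 2 * L * (8 : ℝ) ^ (0.36 : ℝ) * (((2 : ℝ) ^ i) ^ (0.36 : ℝ) * ((2 : ℝ) ^ i) ^ (-(1 / 2) : ℝ)) := by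
              rw [pow_zero, mul_one, Real.mul_rpow (x := 8) (by norm_num) hA.le]
              ring
          _ = 2 * L * (8 : ℝ) ^ (0.36 : ℝ) * ((2 : ℝ) ^ i) ^ (-(0.14) : ℝ) := by
              rw [← Real.rpow_add hA]; norm_num
          _ ≤ 2 * L * 4 * (L ^ (1.5 : ℝ)) ^ (-(0.14) : ℝ) := by
              have h9 : ((2 : ℝ) ^ i) ^ (-(0.14) : ℝ) ≤ (L ^ (1.5 : ℝ)) ^ (-(0.14) : ℝ) :=
                Real.rpow_le_rpow_of_nonpos (by positivity) hc.le (by norm_num)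
              gcongr
          _ = 8 * L ^ (0.79 : ℝ) := by
              rw [← Real.rpow_mul (by linarith)]
              have : L * L ^ ((1.5 : ℝ) * (-(0.14))) = L ^ (0.79 : ℝ) := by
                nth_rw 1 [← Real.rpow_one L]
                rw [← Real.rpow_add (by linarith)]; norm_num
              calc 2 * L * 4 * L ^ ((1.5 : ℝ) * (-(0.14))) = 8 * (L * L ^ ((1.5 : ℝ) * (-(0.14)))) := by ring
                _ = _ := by rw [this]
    calc ∑ p ∈ blk P i 0, Real.log p.1 * (p.1 : ℝ) ^ (-(1 / 2) : ℝ)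
        ≤ ∑ _p ∈ blk P i 0, Real.log z * ((2 : ℝ) ^ i) ^ (-(1 / 2) : ℝ) := Finset.sum_le_sum hterm
      _ = Real.log z * ((blk P i 0).card * ((2 : ℝ) ^ i) ^ (-(1 / 2) : ℝ)) := by
          rw [Finset.sum_const, nsmul_eq_mul]; ring
      _ ≤ Real.log z * (8 * L ^ (0.79 : ℝ)) := by gcongr
      _ = _ := by ring

end Pool.Agent.H14.PT
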