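import Pool.Agent.H14.PT.Mid2

/-!
# Sums over the classes of fractions
-/

namespace Pool.Agent.H14.PT

open Finset Pool.Agent.H16
open scoped ArithmeticFunction.Omega

lemma cover_sum {ι α : Type*} (P : Finset α) (I : Finset ι) (R : ι → α → Prop)
    [∀ i, DecidablePred (R i)] (f : α → ℝ)
    (hf : ∀ p ∈ P, 0 ≤ f p) (hcov : ∀ p ∈ P, ∃ i ∈ I, R i p) :
    ∑ p ∈ P, f p ≤ ∑ i ∈ I, ∑ p ∈ P.filter (R i), f p := by
  simp_rw [Finset.sum_filter]
  rw [Finset.sum_comm]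
  refine Finset.sum_le_sum fun p hp => ?_
  obtain ⟨i, hi, hR⟩ := hcov p hp
  have h := Finset.single_le_sum (f := fun i => if R i p then f p else 0)
    (fun i _ => by
      split_ifs
      · exact hf p hp
      · exact le_rfl) hi
  simpa [hR] using h

/-- `τ(n)/√n` for `n = ab` -/
noncomputable def T0 (p : ℕ × ℕ) : ℝ :=
  ((p.1 * p.2).divisors.card : ℝ) * (((p.1 * p.2 : ℕ) : ℝ)) ^ (-(1 / 2) : ℝ)

lemma T0_nonneg (p : ℕ × ℕ) : 0 ≤ T0 p := by unfold T0; positivity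

lemma log_two_mul_card {L : ℝ} (hB : Big L) {d ε : ℝ} (hε : 0 < ε) (hd1 : 1 ≤ d)
    (hd : Real.log d ≤ (1 / 3 - ε) * L) : Real.log (2 * d) ≤ 0.335 * L := by
  rw [Real.log_mul (by norm_num) (by linarith)]
  have h1 := Real.log_two_lt_d9
  have h2 := hB.hL24
  nlinarith

lemma z_pow_le {L : ℝ} (hB : Big L) : (zz L : ℝ) ^ (-(0.13) : ℝ) ≤ (L ^ 26)⁻¹ := by
  have hL : 0 < L := by linarith [hB.hL]
  calc (zz L : ℝ) ^ (-(0.13) : ℝ) ≤ (L ^ 200) ^ (-(0.13) : ℝ) :=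
        Real.rpow_le_rpow_of_nonpos (by positivity) hB.z_lo (by norm_num)
    _ = (L ^ 26)⁻¹ := by
        rw [← Real.rpow_natCast L 200, ← Real.rpow_mul hL.le, ← Real.rpow_natCast L 26,
          ← Real.rpow_neg hL.le]
        norm_num

lemma log8_le {L : ℝ} (hB : Big L) {n : ℕ} (hn : n ≠ 0) (h : (n : ℝ) ≤ Real.exp (1 / 10 ^ 8 * L)) :
    100 * Real.log (8 * (n : ℝ)) ≤ L := by
  have hn0 : (0 : ℝ) < n := by exact_mod_cast Nat.pos_of_ne_zero hn
  rw [Real.log_mul (by norm_num) hn0.ne']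
  have h8 : Real.log 8 ≤ 3 := by
    rw [show (8 : ℝ) = 2 ^ 3 by norm_num, Real.log_pow]
    have := Real.log_two_lt_d9
    push_cast
    linarith
  have h1 := Real.log_le_log hn0 h
  rw [Real.log_exp] at h1
  have h2 := hB.hL24
  linarith

lemma card_ge_one {q : ℕ} [NeZero q] (H : Subgroup (ZMod q)ˣ) : (1 : ℝ) ≤ Nat.card H := by
  have : 0 < Nat.card H := Nat.card_pos
  exact_mod_cast this

/-- rough class, any coset -/
lemma sum_R1' {q : ℕ} [NeZero q] (hB : Big (Real.log q)) {ε : ℝ} (hε : 0 < ε)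
    (H : Subgroup (ZMod q)ˣ) (g : ZMod q) (hH : Real.log (Nat.card H) ≤ (1 / 3 - ε) * Real.log q)
    (P : Finset (ℕ × ℕ))
    (hP : ∀ p ∈ P, CP H g p ∧ zz (Real.log q) ≤ p.1 * p.2 ∧
      ((p.1 * p.2 : ℕ) : ℝ) ≤ Real.exp (1 / 10 ^ 8 * Real.log q) ∧
      Few (zz (Real.log q)) (p.1 * p.2)) :
    ∑ p ∈ P, T0 p ≤ 300 * (Real.log q) ^ 3 * ((Real.log q) ^ 26)⁻¹ := by
  have hz0 : (0 : ℝ) < zz (Real.log q) := by
    exact_mod_cast (by have := hB.z_two; omega : 0 < zz (Real.log q))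
  have h := sum_rough H g P (zz (Real.log q)) hz0 hB.logz_100 (by linarith [hB.hL]) hB.logz_lo
    (log_two_mul_card hB hε (card_ge_one H) hH)
    (fun p hp => by
      obtain ⟨h1, h2, h3, h4⟩ := hP p hp
      exact ⟨h1, by exact_mod_cast h2, log8_le hB (Nat.mul_ne_zero h1.2.1 h1.2.2.1) h3, h4⟩)
  refine h.trans ?_
  have hL : 0 < Real.log q := by linarith [hB.hL]
  exact mul_le_mul_of_nonneg_left (z_pow_le hB) (by positivity)

/-- rough class -/
lemma sum_R1 {q : ℕ} [NeZero q] (hB : Big (Real.log q)) {ε : ℝ} (hε : 0 < ε)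
    (H : Subgroup (ZMod q)ˣ) (hH : Real.log (Nat.card H) ≤ (1 / 3 - ε) * Real.log q)
    (P : Finset (ℕ × ℕ))
    (hP : ∀ p ∈ P, CP H 1 p ∧ zz (Real.log q) ≤ p.1 * p.2 ∧
      ((p.1 * p.2 : ℕ) : ℝ) ≤ Real.exp (1 / 10 ^ 8 * Real.log q) ∧
      Few (zz (Real.log q)) (p.1 * p.2)) :
    ∑ p ∈ P, T0 p * (16 * (Real.log q) ^ 4) ≤ 1 := by
  have h := sum_R1' hB hε H 1 hH P hP
  rw [← Finset.sum_mul]
  have hL100 := hB.hL
  set L := Real.log q with hLdef
  have hL : 0 < L := by linarith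
  calc (∑ p ∈ P, T0 p) * (16 * L ^ 4) ≤ (300 * L ^ 3 * (L ^ 26)⁻¹) * (16 * L ^ 4) := by gcongr
    _ = 4800 / L ^ 19 := by field_simp; norm_num
    _ ≤ 1 := by
        rw [div_le_one (by positivity)]
        calc (4800 : ℝ) ≤ 100 ^ 19 := by norm_num
          _ ≤ L ^ 19 := by gcongr

/-- large class -/
lemma sum_L (ε : ℝ) (hε : 0 < ε) (hε1 : ε ≤ 1 / 3) : ∃ Q0 : ℝ, ∀ (q : ℕ) [NeZero q], Q0 ≤ Real.log q →
    ∀ (H : Subgroup (ZMod q)ˣ), Real.log (Nat.card H) ≤ (1 / 3 - ε) * Real.log q →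
    ∀ P : Finset (ℕ × ℕ),
    (∀ p ∈ P, CP H 1 p ∧ Real.exp (1 / 10 ^ 8 * Real.log q) ≤ ((p.1 * p.2 : ℕ) : ℝ) ∧
      ((p.1 * p.2 : ℕ) : ℝ) ≤ Real.exp (1.05 * Real.log q)) →
    ∑ p ∈ P, T0 p * (16 * (Real.log q) ^ 4) ≤ 1 := by
  obtain ⟨c, hc, Q1, hQ1⟩ := sum_large ε (1 / 10 ^ 8) hε (by norm_num) hε1 (by norm_num)
  obtain ⟨C, hC, hdiv⟩ := divisor_bound (c / 4) (by positivity)
  obtain ⟨Q2, hQ21, hQ2⟩ := poly_le_exp 4 (16 * C) (c / 4) (by positivity)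
  refine ⟨max Q1 Q2, ?_⟩
  intro q _ hq H hH P hP
  have hLQ1 : Q1 ≤ Real.log q := (le_max_left _ _).trans hq
  have hLQ2 : Q2 ≤ Real.log q := (le_max_right _ _).trans hq
  have hqpos : (0 : ℝ) < q := by exact_mod_cast Nat.pos_of_ne_zero (NeZero.ne q)
  have hqexp : ∀ r : ℝ, (q : ℝ) ^ r = Real.exp (r * Real.log q) := fun r => by
    rw [Real.rpow_def_of_pos hqpos, mul_comm]
  have h1 := hQ1 q hLQ1 H 1 P hH (fun p hp => by
    obtain ⟨a1, a2, a3⟩ := hP p hp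
    rw [hqexp, hqexp]
    exact ⟨a1, a2, a3⟩)
  rw [hqexp] at h1
  set L := Real.log q with hL
  have hL1 : 1 ≤ L := hQ21.trans hLQ2
  have h2 : ∀ p ∈ P, T0 p * (16 * L ^ 4) ≤
      (C * Real.exp (0.2625 * c * L) * (16 * L ^ 4)) * (((p.1 * p.2 : ℕ) : ℝ)) ^ (-(1 / 2) : ℝ) := by
    intro p hp
    obtain ⟨⟨_, a1, a2, _⟩, _, a3⟩ := hP p hp
    have h3 := hdiv (p.1 * p.2) (Nat.mul_ne_zero a1 a2)
    have h4 : (((p.1 * p.2 : ℕ) : ℝ)) ^ (c / 4) ≤ Real.exp (0.2625 * c * L) := by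
      calc (((p.1 * p.2 : ℕ) : ℝ)) ^ (c / 4) ≤ (Real.exp (1.05 * L)) ^ (c / 4) :=
            Real.rpow_le_rpow (by positivity) a3 (by positivity)
        _ = Real.exp (0.2625 * c * L) := by rw [← Real.exp_mul]; congr 1; ring
    unfold T0
    calc _ ≤ ((C * Real.exp (0.2625 * c * L)) * (((p.1 * p.2 : ℕ) : ℝ)) ^ (-(1 / 2) : ℝ)) * (16 * L ^ 4) := by
          gcongr
          exact h3.trans (mul_le_mul_of_nonneg_left h4 (by linarith))
      _ = _ := by ring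
  refine (Finset.sum_le_sum h2).trans ?_
  rw [← Finset.mul_sum]
  have h3 := hQ2 L hLQ2
  calc C * Real.exp (0.2625 * c * L) * (16 * L ^ 4) * ∑ p ∈ P, (((p.1 * p.2 : ℕ) : ℝ)) ^ (-(1 / 2) : ℝ)
      ≤ C * Real.exp (0.2625 * c * L) * (16 * L ^ 4) * Real.exp (-c * L) := by
        gcongr
    _ = (16 * C * L ^ 4) * (Real.exp (0.2625 * c * L) * Real.exp (-c * L)) := by ring
    _ ≤ Real.exp (c / 4 * L) * (Real.exp (0.2625 * c * L) * Real.exp (-c * L)) := by gcongr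
    _ = Real.exp (-(0.4875 * c * L)) := by
        rw [← Real.exp_add, ← Real.exp_add]; congr 1; ring
    _ ≤ 1 := by
        rw [Real.exp_le_one_iff]
        have : 0 ≤ 0.4875 * c * L := by positivity
        linarith

/-- the `r`-shift: pairs `(r^j a', b)` -/
lemma shift_left {q : ℕ} [NeZero q] (hB : Big (Real.log q)) {ε : ℝ} (hε : 0 < ε)
    (H : Subgroup (ZMod q)ˣ) (hH : Real.log (Nat.card H) ≤ (1 / 3 - ε) * Real.log q)
    (g g' : ZMod q) (r j : ℕ) (hr : r.Prime) (hj : 2 ≤ j) (Q : Finset (ℕ × ℕ)) (φ : ℕ × ℕ → ℕ × ℕ)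
    (hinj : Set.InjOn φ (Q : Set (ℕ × ℕ)))
    (hQ : ∀ p ∈ Q, CP H g' (φ p) ∧ zz (Real.log q) ≤ (φ p).1 * (φ p).2 ∧
      (((φ p).1 * (φ p).2 : ℕ) : ℝ) ≤ Real.exp (1 / 10 ^ 8 * Real.log q) ∧
      Few (zz (Real.log q)) ((φ p).1 * (φ p).2) ∧ p.1 * p.2 = r ^ j * ((φ p).1 * (φ p).2) ∧
      Nat.Coprime (r ^ j) ((φ p).1 * (φ p).2)) :
    ∑ p ∈ Q, T0 p ≤ (j + 1) * (1 / (r : ℝ)) * (300 * (Real.log q) ^ 3 * ((Real.log q) ^ 26)⁻¹) := by
  classical
  have h1 : ∑ p ∈ Q, T0 (φ p) ≤ 300 * (Real.log q) ^ 3 * ((Real.log q) ^ 26)⁻¹ := by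
    rw [← Finset.sum_image (f := T0) hinj]
    refine sum_R1' hB hε H g' hH _ ?_
    intro p' hp'
    obtain ⟨p, hp, rfl⟩ := Finset.mem_image.mp hp'
    obtain ⟨a1, a2, a3, a4, _⟩ := hQ p hp
    exact ⟨a1, a2, a3, a4⟩
  have hr0 : (0 : ℝ) < r := by exact_mod_cast hr.pos
  have hr1 : (1 : ℝ) ≤ r := by exact_mod_cast hr.one_lt.le
  have h2 : ∀ p ∈ Q, T0 p ≤ (j + 1) * (1 / (r : ℝ)) * T0 (φ p) := by
    intro p hp
    obtain ⟨_, _, _, _, a5, a6⟩ := hQ p hp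
    unfold T0
    rw [a5, a6.card_divisors_mul, Nat.divisors_prime_pow hr, Finset.card_map, Finset.card_range]
    push_cast
    rw [Real.mul_rpow (by positivity) (by positivity)]
    have h3 : ((r : ℝ) ^ j) ^ (-(1 / 2) : ℝ) ≤ 1 / (r : ℝ) := by
      have e1 : (r : ℝ) ^ 2 ≤ (r : ℝ) ^ j := pow_le_pow_right₀ hr1 hj
      calc ((r : ℝ) ^ j) ^ (-(1 / 2) : ℝ) ≤ ((r : ℝ) ^ 2) ^ (-(1 / 2) : ℝ) :=
            Real.rpow_le_rpow_of_nonpos (by positivity) e1 (by norm_num)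
        _ = 1 / (r : ℝ) := by
            rw [← Real.rpow_natCast, ← Real.rpow_mul hr0.le]
            norm_num
            rw [Real.rpow_neg_one]
    calc ((j : ℝ) + 1) * ((((φ p).1 * (φ p).2).divisors.card : ℕ) : ℝ) *
          (((r : ℝ) ^ j) ^ (-(1 / 2) : ℝ) * (((φ p).1 : ℝ) * ((φ p).2 : ℝ)) ^ (-(1 / 2) : ℝ))
        ≤ ((j : ℝ) + 1) * ((((φ p).1 * (φ p).2).divisors.card : ℕ) : ℝ) *
          ((1 / (r : ℝ)) * (((φ p).1 : ℝ) * ((φ p).2 : ℝ)) ^ (-(1 / 2) : ℝ)) := by gcongr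
      _ = _ := by ring
  refine (Finset.sum_le_sum h2).trans ?_
  rw [← Finset.mul_sum]
  gcongr

/-- class with a repeated small prime -/
lemma sum_R2 {q : ℕ} [Fact q.Prime] (hB : Big (Real.log q)) {ε : ℝ} (hε : 0 < ε)
    (H : Subgroup (ZMod q)ˣ) (hH : Real.log (Nat.card H) ≤ (1 / 3 - ε) * Real.log q)
    (P : Finset (ℕ × ℕ))
    (hP : ∀ p ∈ P, CP H 1 p ∧ ((p.1 * p.2 : ℕ) : ℝ) ≤ Real.exp (1 / 10 ^ 8 * Real.log q) ∧
      ∃ r j n', r.Prime ∧ r ≤ zz (Real.log q) ∧ 2 ≤ j ∧ p.1 * p.2 = r ^ j * n' ∧ ¬ r ∣ n' ∧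
        zz (Real.log q) ≤ n' ∧ Few (zz (Real.log q)) n') :
    ∑ p ∈ P, T0 p * (16 * (Real.log q) ^ 4) ≤ 1 := by
  classical
  have hL100 := hB.hL
  have hzq := hB.z_q
  have hzL : (1 : ℝ) + Real.log (zz (Real.log q)) ≤ Real.log q := by
    have hz0 : (0 : ℝ) < zz (Real.log q) := by
      exact_mod_cast (by have := hB.z_two; omega : 0 < zz (Real.log q))
    rw [Real.log_mul (by norm_num) hz0.ne'] at hzq
    have h8 : 0 < Real.log 8 := Real.log_pos (by norm_num)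
    have := hB.logz_100
    linarith
  have hzq' : zz (Real.log q) < q := by
    have hz0 : (0 : ℝ) < zz (Real.log q) := by
      exact_mod_cast (by have := hB.z_two; omega : 0 < zz (Real.log q))
    have hq0 : (0 : ℝ) < q := by exact_mod_cast (Fact.out : q.Prime).pos
    have h1 : Real.log (zz (Real.log q)) < Real.log q := by linarith
    have h2 := (Real.log_lt_log_iff hz0 hq0).mp h1
    exact_mod_cast h2
  set L := Real.log q with hL
  have hLpos : 0 < L := by linarith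
  set J := ⌊L⌋₊ with hJ
  have hJL : (J : ℝ) ≤ L := Nat.floor_le hLpos.le
  set z := zz L with hz
  set I := (Nat.primesLE z ×ˢ Finset.Icc 2 J) ×ˢ (Finset.univ : Finset Bool) with hI
  set R : (ℕ × ℕ) × Bool → ℕ × ℕ → Prop := fun i p =>
    ∃ n', p.1 * p.2 = i.1.1 ^ i.1.2 * n' ∧ ¬ i.1.1 ∣ n' ∧ z ≤ n' ∧ Few z n' ∧
      (if i.2 then i.1.1 ∣ p.1 else i.1.1 ∣ p.2) with hR
  have hcov : ∀ p ∈ P, ∃ i ∈ I, R i p := by
    intro p hp
    obtain ⟨hCP, hn, r, j, n', hr, hrz, hj, hprod, hnd, hzn, hfew⟩ := hP p hp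
    have hdvd : r ∣ p.1 ∨ r ∣ p.2 := by
      have : r ∣ p.1 * p.2 := by rw [hprod]; exact (dvd_pow_self r (by omega)).mul_right _
      exact (Nat.Prime.dvd_mul hr).mp this
    have hjJ : j ≤ J := by
      rw [hJ]
      apply Nat.le_floor
      have hn'0 : 0 < n' := by
        have := hB.z_two
        omega
      have h1 : 2 ^ j ≤ p.1 * p.2 := by
        rw [hprod]
        calc 2 ^ j ≤ r ^ j := Nat.pow_le_pow_left hr.two_le j
          _ ≤ r ^ j * n' := Nat.le_mul_of_pos_right _ hn'0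
      have h2 : ((2 : ℝ)) ^ j ≤ Real.exp (1 / 10 ^ 8 * L) := by
        refine le_trans ?_ hn
        exact_mod_cast h1
      have h3 := Real.log_le_log (by positivity) h2
      rw [Real.log_exp, Real.log_pow] at h3
      have h4 := Real.log_two_gt_d9
      have h5 : (0 : ℝ) ≤ j := by positivity
      nlinarith
    rcases hdvd with h | h
    · exact ⟨((r, j), true), by simp [hI, Nat.mem_primesLE, hr, hrz, hj, hjJ],
        ⟨n', hprod, hnd, hzn, hfew, by simpa using h⟩⟩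
    · exact ⟨((r, j), false), by simp [hI, Nat.mem_primesLE, hr, hrz, hj, hjJ],
        ⟨n', hprod, hnd, hzn, hfew, by simpa using h⟩⟩
  have hmain : ∀ i ∈ I, ∑ p ∈ P.filter (R i), T0 p ≤
      (L + 1) * (1 / (i.1.1 : ℝ)) * (300 * L ^ 3 * (L ^ 26)⁻¹) := by
    rintro ⟨⟨r, j⟩, side⟩ hi
    simp only [hI, mem_product, Nat.mem_primesLE, mem_Icc, mem_univ, and_true] at hi
    obtain ⟨⟨hrz, hr⟩, hj, hjJ⟩ := hi
    have hjL : (j : ℝ) ≤ L := le_trans (by exact_mod_cast hjJ) hJL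
    have hrq : r < q := lt_of_le_of_lt hrz hzq'
    have hru : ((r ^ j : ℕ) : ZMod q) ≠ 0 := by
      intro h0
      rw [ZMod.natCast_eq_zero_iff] at h0
      have := (Fact.out : q.Prime).dvd_of_dvd_pow h0
      exact absurd (Nat.le_of_dvd hr.pos this) (by omega)
    have hle : (↑j + 1) * (1 / (r : ℝ)) * (300 * L ^ 3 * (L ^ 26)⁻¹) ≤
        (L + 1) * (1 / (r : ℝ)) * (300 * L ^ 3 * (L ^ 26)⁻¹) := by gcongr
    refine le_trans ?_ hle
    have hrj : 0 < r ^ j := pow_pos hr.pos j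
    cases side
    · -- r ∣ p.2
      have hst : ∀ p ∈ P.filter (R ((r, j), false)), ∃ b', p.2 = r ^ j * b' ∧ ¬ r ∣ p.1 * b' ∧
          z ≤ p.1 * b' ∧ Few z (p.1 * b') ∧ p.2 / r ^ j = b' := by
        intro p hp
        obtain ⟨hpP, n', hprod, hnd, hzn, hfew, hd⟩ := Finset.mem_filter.mp hp
        simp only [Bool.false_eq_true, if_false] at hprod hnd hd
        obtain ⟨hcop, h1, h2, _⟩ := (hP p hpP).1
        have hr1 : ¬ r ∣ p.1 := fun h => hr.one_lt.ne' (Nat.eq_one_of_dvd_coprimes hcop h hd)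
        have hcr : Nat.Coprime (r ^ j) p.1 := Nat.Coprime.pow_left j ((Nat.Prime.coprime_iff_not_dvd hr).mpr hr1)
        have h3 : r ^ j ∣ p.2 := by
          have : r ^ j ∣ p.1 * p.2 := ⟨n', hprod⟩
          exact hcr.dvd_of_dvd_mul_left this
        obtain ⟨b', hb'⟩ := h3
        have h4 : p.1 * b' = n' := by
          have : r ^ j * (p.1 * b') = r ^ j * n' := by
            calc r ^ j * (p.1 * b') = p.1 * (r ^ j * b') := by ring
              _ = p.1 * p.2 := by rw [← hb']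
              _ = _ := hprod
          exact Nat.eq_of_mul_eq_mul_left hrj this
        refine ⟨b', hb', by rw [h4]; exact hnd, by rw [h4]; exact hzn, by rw [h4]; exact hfew, ?_⟩
        rw [hb']
        exact Nat.mul_div_cancel_left _ hrj
      refine shift_left hB hε H hH 1 ((r ^ j : ℕ) : ZMod q) r j hr hj _ (fun p => (p.1, p.2 / r ^ j)) ?_ ?_
      · intro p hp p' hp' h
        obtain ⟨b, e1, _, _, _, e2⟩ := hst p (Finset.mem_coe.mp hp)
        obtain ⟨b', e1', _, _, _, e2'⟩ := hst p' (Finset.mem_coe.mp hp')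
        simp only [Prod.mk.injEq] at h
        refine Prod.ext h.1 ?_
        rw [e1, e1', ← e2, ← e2', h.2]
      · intro p hp
        obtain ⟨b', e1, e2, e3, e4, e5⟩ := hst p hp
        have hpP := (Finset.mem_filter.mp hp).1
        obtain ⟨⟨hcop, h1, h2, hh, hhH, he⟩, hn, _⟩ := hP p hpP
        simp only [e5]
        have hb'0 : b' ≠ 0 := by rintro rfl; rw [mul_zero] at e1; exact h2 e1
        refine ⟨⟨?_, h1, hb'0, hh, hhH, ?_⟩, e3, ?_, e4, ?_, ?_⟩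
        · rw [e1] at hcop
          exact Nat.Coprime.coprime_dvd_right (Dvd.intro_left _ rfl) hcop
        · rw [he, e1]
          push_cast
          ring
        · refine le_trans ?_ hn
          rw [e1]
          have : p.1 * b' ≤ p.1 * (r ^ j * b') :=
            Nat.mul_le_mul_left _ (Nat.le_mul_of_pos_left _ hrj)
          exact_mod_cast this
        · rw [e1]; ring
        · exact Nat.Coprime.pow_left j ((Nat.Prime.coprime_iff_not_dvd hr).mpr e2)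
    · -- r ∣ p.1
      have hst : ∀ p ∈ P.filter (R ((r, j), true)), ∃ a', p.1 = r ^ j * a' ∧ ¬ r ∣ a' * p.2 ∧
          z ≤ a' * p.2 ∧ Few z (a' * p.2) ∧ p.1 / r ^ j = a' := by
        intro p hp
        obtain ⟨hpP, n', hprod, hnd, hzn, hfew, hd⟩ := Finset.mem_filter.mp hp
        simp only [if_true] at hprod hnd hd
        obtain ⟨hcop, h1, h2, _⟩ := (hP p hpP).1
        have hr1 : ¬ r ∣ p.2 := fun h => hr.one_lt.ne' (Nat.eq_one_of_dvd_coprimes hcop hd h)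
        have hcr : Nat.Coprime (r ^ j) p.2 := Nat.Coprime.pow_left j ((Nat.Prime.coprime_iff_not_dvd hr).mpr hr1)
        have h3 : r ^ j ∣ p.1 := by
          have : r ^ j ∣ p.1 * p.2 := ⟨n', hprod⟩
          exact hcr.dvd_of_dvd_mul_right this
        obtain ⟨a', ha'⟩ := h3
        have h4 : a' * p.2 = n' := by
          have : r ^ j * (a' * p.2) = r ^ j * n' := by
            calc r ^ j * (a' * p.2) = (r ^ j * a') * p.2 := by ring
              _ = p.1 * p.2 := by rw [← ha']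
              _ = _ := hprod
          exact Nat.eq_of_mul_eq_mul_left hrj this
        refine ⟨a', ha', by rw [h4]; exact hnd, by rw [h4]; exact hzn, by rw [h4]; exact hfew, ?_⟩
        rw [ha']
        exact Nat.mul_div_cancel_left _ hrj
      refine shift_left hB hε H hH 1 (((r ^ j : ℕ) : ZMod q)⁻¹) r j hr hj _ (fun p => (p.1 / r ^ j, p.2)) ?_ ?_
      · intro p hp p' hp' h
        obtain ⟨b, e1, _, _, _, e2⟩ := hst p (Finset.mem_coe.mp hp)
        obtain ⟨b', e1', _, _, _, e2'⟩ := hst p' (Finset.mem_coe.mp hp')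
        simp only [Prod.mk.injEq] at h
        refine Prod.ext ?_ h.2
        rw [e1, e1', ← e2, ← e2', h.1]
      · intro p hp
        obtain ⟨a', e1, e2, e3, e4, e5⟩ := hst p hp
        have hpP := (Finset.mem_filter.mp hp).1
        obtain ⟨⟨hcop, h1, h2, hh, hhH, he⟩, hn, _⟩ := hP p hpP
        simp only [e5]
        have ha'0 : a' ≠ 0 := by rintro rfl; rw [mul_zero] at e1; exact h1 e1
        refine ⟨⟨?_, ha'0, h2, hh, hhH, ?_⟩, e3, ?_, e4, ?_, ?_⟩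
        · rw [e1] at hcop
          exact Nat.Coprime.coprime_dvd_left (Dvd.intro_left _ rfl) hcop
        · have h5 : ((r ^ j : ℕ) : ZMod q) * (a' : ZMod q) = 1 * (hh : ZMod q) * (p.2 : ZMod q) := by
            rw [← Nat.cast_mul, ← e1]
            exact he
          calc (a' : ZMod q) = ((r ^ j : ℕ) : ZMod q)⁻¹ * (((r ^ j : ℕ) : ZMod q) * (a' : ZMod q)) := by
                rw [← mul_assoc, inv_mul_cancel₀ hru, one_mul]
            _ = _ := by rw [h5]; ring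
        · refine le_trans ?_ hn
          rw [e1]
          have : a' * p.2 ≤ r ^ j * a' * p.2 :=
            Nat.mul_le_mul_right _ (Nat.le_mul_of_pos_left _ hrj)
          exact_mod_cast this
        · rw [e1]; ring
        · exact Nat.Coprime.pow_left j ((Nat.Prime.coprime_iff_not_dvd hr).mpr e2)
  have hsum : ∑ i ∈ I, (L + 1) * (1 / (i.1.1 : ℝ)) * (300 * L ^ 3 * (L ^ 26)⁻¹) ≤
      1200 * L ^ 6 * (L ^ 26)⁻¹ := by
    rw [hI, Finset.sum_product, Finset.sum_product]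
    simp only [Finset.sum_const, Finset.card_univ, Fintype.card_bool, nsmul_eq_mul, Nat.card_Icc]
    have h1 : ∑ r ∈ Nat.primesLE z, 1 / (r : ℝ) ≤ L := by
      refine le_trans ?_ ((sum_one_div_le z).trans hzL)
      apply Finset.sum_le_sum_of_subset_of_nonneg
      · intro p hp
        obtain ⟨h5, h6⟩ := Nat.mem_primesLE.mp hp
        exact Finset.mem_Icc.mpr ⟨h6.one_lt.le, h5⟩
      · intro _ _ _
        positivity
    have h2 : ((J + 1 - 2 : ℕ) : ℝ) ≤ L := by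
      refine le_trans ?_ hJL
      have : J + 1 - 2 ≤ J := by omega
      exact_mod_cast this
    calc ∑ x ∈ Nat.primesLE z, ((J + 1 - 2 : ℕ) : ℝ) * (((2 : ℕ) : ℝ) *
          ((L + 1) * (1 / (x : ℝ)) * (300 * L ^ 3 * (L ^ 26)⁻¹)))
        = (((J + 1 - 2 : ℕ) : ℝ) * (2 * ((L + 1) * (300 * L ^ 3 * (L ^ 26)⁻¹)))) *
          ∑ x ∈ Nat.primesLE z, 1 / (x : ℝ) := by
          rw [Finset.mul_sum]
          refine Finset.sum_congr rfl fun x _ => by push_cast; ring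
      _ ≤ (L * (2 * ((2 * L) * (300 * L ^ 3 * (L ^ 26)⁻¹)))) * L := by
          have : L + 1 ≤ 2 * L := by linarith
          gcongr
      _ = _ := by ring
  have hall : ∑ p ∈ P, T0 p ≤ 1200 * L ^ 6 * (L ^ 26)⁻¹ :=
    (cover_sum P I R T0 (fun p _ => T0_nonneg p) hcov).trans ((Finset.sum_le_sum hmain).trans hsum)
  rw [← Finset.sum_mul]
  calc (∑ p ∈ P, T0 p) * (16 * L ^ 4) ≤ (1200 * L ^ 6 * (L ^ 26)⁻¹) * (16 * L ^ 4) := by gcongr
    _ = 19200 / L ^ 16 := by field_simp; norm_num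
    _ ≤ 1 := by
        rw [div_le_one (by positivity)]
        calc (19200 : ℝ) ≤ 100 ^ 16 := by norm_num
          _ ≤ L ^ 16 := by gcongr

end Pool.Agent.H14.PT
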