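import Pool.Agent.H14.PT.Cls

/-!
# The class of small prime powers
-/

namespace Pool.Agent.H14.PT

open Finset Pool.Agent.H16

lemma geom_half {r : ℕ} (hr : r.Prime) (J : ℕ) :
    ∑ j ∈ Icc 2 J, ((r : ℝ) ^ j) ^ (-(1 / 2) : ℝ) ≤ 4 * (1 / (r : ℝ)) := by
  have hr0 : (0 : ℝ) < r := by exact_mod_cast hr.pos
  have hr2 : (2 : ℝ) ≤ r := by exact_mod_cast hr.two_le
  set x : ℝ := (r : ℝ) ^ (-(1 / 2) : ℝ) with hx
  have hx0 : 0 < x := by positivity
  have hxs : x * x = 1 / (r : ℝ) := by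
    rw [hx, ← Real.rpow_add hr0]
    norm_num
    rw [Real.rpow_neg_one]
  have hx1 : x ≤ 3 / 4 := by
    by_contra h
    push Not at h
    have h1 : (3 / 4 : ℝ) * (3 / 4) < x * x := by nlinarith
    rw [hxs] at h1
    have h2 : 1 / (r : ℝ) ≤ 1 / 2 := one_div_le_one_div_of_le (by norm_num) hr2
    linarith
  have h1 : ∑ j ∈ Icc 2 J, ((r : ℝ) ^ j) ^ (-(1 / 2) : ℝ) = ∑ j ∈ Ico 2 (J + 1), x ^ j := by
    have : Icc 2 J = Ico 2 (J + 1) := by ext; simp only [mem_Icc, mem_Ico]; omega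
    rw [this]
    refine Finset.sum_congr rfl fun j _ => ?_
    rw [hx, ← Real.rpow_natCast, ← Real.rpow_natCast, ← Real.rpow_mul hr0.le, ← Real.rpow_mul hr0.le,
      mul_comm]
  rw [h1]
  refine (geom_sum_Ico_le_of_lt_one hx0.le (by linarith)).trans ?_
  rw [div_le_iff₀ (by linarith), sq, hxs]
  have : 0 < 1 / (r : ℝ) := by positivity
  nlinarith

lemma P_asymp : ∃ Q0 : ℝ, ∀ L : ℝ, Q0 ≤ L → Big L →
    2 * (32 * (Real.log (zz L)) ^ 3 * L ^ (0.79 : ℝ)) + 8 * (Real.log (zz L) + 2) ≤ L := by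
  refine ⟨10 ^ 100, fun L hL hB => ?_⟩
  have hLpos : 0 < L := by linarith [hB.hL]
  have h1 : Real.log L ≤ 100 * L ^ (0.01 : ℝ) := by
    have h := Real.log_le_rpow_div hLpos.le (show (0 : ℝ) < 0.01 by norm_num)
    calc Real.log L ≤ L ^ (0.01 : ℝ) / 0.01 := h
      _ = _ := by ring
  have h2 := hB.logz_hi
  have h20 : 0 ≤ Real.log (zz L) := by linarith [hB.logz_100]
  have h3 : Real.log (zz L) ≤ 20100 * L ^ (0.01 : ℝ) := by linarith
  have h4 : (Real.log (zz L)) ^ 3 ≤ 20100 ^ 3 * L ^ (0.03 : ℝ) := by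
    calc (Real.log (zz L)) ^ 3 ≤ (20100 * L ^ (0.01 : ℝ)) ^ 3 := by gcongr
      _ = 20100 ^ 3 * L ^ (0.03 : ℝ) := by
          rw [mul_pow, ← Real.rpow_natCast (L ^ (0.01 : ℝ)), ← Real.rpow_mul hLpos.le]
          norm_num
  have h5 : L ^ (0.03 : ℝ) * L ^ (0.79 : ℝ) = L ^ (0.82 : ℝ) := by
    rw [← Real.rpow_add hLpos]; norm_num
  have h6 : L ^ (0.01 : ℝ) ≤ L ^ (0.82 : ℝ) :=
    Real.rpow_le_rpow_of_exponent_le (by linarith [hB.hL]) (by norm_num)
  have h7 : 1 ≤ L ^ (0.82 : ℝ) := Real.one_le_rpow (by linarith [hB.hL]) (by norm_num)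
  have h8 : (10 : ℝ) ^ 18 ≤ L ^ (0.18 : ℝ) := by
    calc (10 : ℝ) ^ 18 = ((10 : ℝ) ^ 100) ^ (0.18 : ℝ) := by
          rw [← Real.rpow_natCast, ← Real.rpow_natCast, ← Real.rpow_mul (by norm_num)]
          norm_num
      _ ≤ _ := Real.rpow_le_rpow (by norm_num) hL (by norm_num)
  have h9 : L ^ (0.82 : ℝ) * L ^ (0.18 : ℝ) = L := by
    rw [← Real.rpow_add hLpos]; norm_num
  calc 2 * (32 * (Real.log (zz L)) ^ 3 * L ^ (0.79 : ℝ)) + 8 * (Real.log (zz L) + 2)
      ≤ 2 * (32 * (20100 ^ 3 * L ^ (0.03 : ℝ)) * L ^ (0.79 : ℝ)) + 8 * (20100 * L ^ (0.82 : ℝ) + 2 * L ^ (0.82 : ℝ)) := by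
        gcongr
        · exact h3.trans (mul_le_mul_of_nonneg_left h6 (by norm_num))
        · linarith
    _ = (64 * 20100 ^ 3) * (L ^ (0.03 : ℝ) * L ^ (0.79 : ℝ)) + 160816 * L ^ (0.82 : ℝ) := by ring
    _ = (64 * 20100 ^ 3 + 160816) * L ^ (0.82 : ℝ) := by rw [h5]; ring
    _ ≤ L ^ (0.18 : ℝ) * L ^ (0.82 : ℝ) := by
        gcongr
        refine le_trans ?_ h8
        norm_num
    _ = L := by rw [mul_comm, h9]

/-- class of small prime powers -/
lemma sum_P : ∃ Q0 : ℝ, ∀ (q : ℕ) [Fact q.Prime], Q0 ≤ Real.log q → Big (Real.log q) →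
    ∀ (ε : ℝ), 0 < ε → ∀ (H : Subgroup (ZMod q)ˣ),
    Real.log (Nat.card H) ≤ (1 / 3 - ε) * Real.log q → ∀ P : Finset (ℕ × ℕ),
    (∀ p ∈ P, CP H 1 p ∧ ((p.1 * p.2 : ℕ) : ℝ) ≤ Real.exp (1 / 10 ^ 8 * Real.log q) ∧
      ∃ r j, r.Prime ∧ r ≤ zz (Real.log q) ∧ 1 ≤ j ∧ p.1 * p.2 = r ^ j) →
    ∑ p ∈ P, (((p.1 * p.2 : ℕ) : ℝ)) ^ (-(1 / 2) : ℝ) *
      (Real.log (Nat.minFac (p.1 * p.2)) / Real.log q) ≤ 2 := by
  classical
  obtain ⟨Q0, hQ0⟩ := P_asymp
  refine ⟨Q0, ?_⟩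
  intro q _ hq hB ε hε H hH P hP
  have hasy := hQ0 _ hq hB
  have hL100 := hB.hL
  have hz2 := hB.z_two
  have hzq := hB.z_q
  have hd := log_two_mul_card hB hε (card_ge_one H) hH
  have hzL := hB.logz_lo
  have hz100 := hB.logz_100
  set L := Real.log q with hL
  have hLpos : 0 < L := by linarith
  set z := zz L with hz
  have hz0 : (0 : ℝ) < z := by exact_mod_cast (by omega : 0 < z)
  set J := ⌊L⌋₊ with hJ
  have hJL : (J : ℝ) ≤ L := Nat.floor_le hLpos.le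
  have hJ1 : 1 ≤ J := by
    rw [hJ]; apply Nat.le_floor; push_cast; linarith
  set f : ℕ × ℕ → ℝ := fun p => (((p.1 * p.2 : ℕ) : ℝ)) ^ (-(1 / 2) : ℝ) *
      (Real.log (Nat.minFac (p.1 * p.2)) / L) with hf
  set I := (Nat.primesLE z ×ˢ Finset.Icc 1 J) ×ˢ (Finset.univ : Finset Bool) with hI
  set pt : (ℕ × ℕ) × Bool → ℕ × ℕ := fun i =>
    if i.2 then (i.1.1 ^ i.1.2, 1) else (1, i.1.1 ^ i.1.2) with hpt
  have hcov : ∀ p ∈ P, ∃ i ∈ I, p = pt i := by
    intro p hp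
    obtain ⟨⟨hcop, h1, h2, _⟩, hn, r, j, hr, hrz, hj, hprod⟩ := hP p hp
    have hjJ : j ≤ J := by
      rw [hJ]
      apply Nat.le_floor
      have h1 : 2 ^ j ≤ p.1 * p.2 := by
        rw [hprod]
        exact Nat.pow_le_pow_left hr.two_le j
      have h2 : ((2 : ℝ)) ^ j ≤ Real.exp (1 / 10 ^ 8 * L) := by
        refine le_trans ?_ hn
        exact_mod_cast h1
      have h3 := Real.log_le_log (by positivity) h2
      rw [Real.log_exp, Real.log_pow] at h3
      have h4 := Real.log_two_gt_d9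
      have h5 : (0 : ℝ) ≤ j := by positivity
      nlinarith
    have hdvd : r ∣ p.1 ∨ r ∣ p.2 := by
      have : r ∣ p.1 * p.2 := by rw [hprod]; exact dvd_pow_self r (by omega)
      exact (Nat.Prime.dvd_mul hr).mp this
    rcases hdvd with h | h
    · have hr1 : ¬ r ∣ p.2 := fun h' => hr.one_lt.ne' (Nat.eq_one_of_dvd_coprimes hcop h h')
      have hcr : Nat.Coprime (r ^ j) p.2 :=
        Nat.Coprime.pow_left j ((Nat.Prime.coprime_iff_not_dvd hr).mpr hr1)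
      have h3 : p.2 = 1 := by
        have : p.2 ∣ r ^ j := ⟨p.1, by rw [← hprod]; ring⟩
        exact Nat.eq_one_of_dvd_coprimes hcr this (dvd_refl _)
      rw [h3, mul_one] at hprod
      refine ⟨((r, j), true), by simp [hI, Nat.mem_primesLE, hr, hrz, hj, hjJ], ?_⟩
      simp only [hpt, if_true]
      exact Prod.ext hprod h3
    · have hr1 : ¬ r ∣ p.1 := fun h' => hr.one_lt.ne' (Nat.eq_one_of_dvd_coprimes hcop h' h)
      have hcr : Nat.Coprime (r ^ j) p.1 :=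
        Nat.Coprime.pow_left j ((Nat.Prime.coprime_iff_not_dvd hr).mpr hr1)
      have h3 : p.1 = 1 := by
        have : p.1 ∣ r ^ j := ⟨p.2, by rw [← hprod]⟩
        exact Nat.eq_one_of_dvd_coprimes hcr this (dvd_refl _)
      rw [h3, one_mul] at hprod
      refine ⟨((r, j), false), by simp [hI, Nat.mem_primesLE, hr, hrz, hj, hjJ], ?_⟩
      simp only [hpt, Bool.false_eq_true, if_false]
      exact Prod.ext h3 hprod
  have hf0 : ∀ p ∈ P, 0 ≤ f p := by
    intro p _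
    simp only [hf]
    have : 0 ≤ Real.log (Nat.minFac (p.1 * p.2)) := Real.log_natCast_nonneg _
    positivity
  have hsum := cover_sum P I (fun i p => p = pt i) f hf0 hcov
  refine hsum.trans ?_
  -- value at the points
  have hval : ∀ i ∈ I, ∑ p ∈ P.filter (fun p => p = pt i), f p ≤
      (if 2 ≤ i.1.2 ∨ InC H 1 i.1.1 1 then ((i.1.1 : ℝ) ^ i.1.2) ^ (-(1 / 2) : ℝ) * (Real.log i.1.1 / L)
        else 0) := by
    rintro ⟨⟨r, j⟩, side⟩ hi
    simp only [hI, mem_product, Nat.mem_primesLE, mem_Icc, mem_univ, and_true] at hi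
    obtain ⟨⟨hrz, hr⟩, hj, hjJ⟩ := hi
    have hlr : 0 ≤ Real.log (r : ℝ) := Real.log_natCast_nonneg _
    rw [Finset.filter_eq']
    by_cases hmem : pt ((r, j), side) ∈ P
    · rw [if_pos hmem, Finset.sum_singleton]
      have hfv : f (pt ((r, j), side)) = ((r : ℝ) ^ j) ^ (-(1 / 2) : ℝ) * (Real.log r / L) := by
        have : (pt ((r, j), side)).1 * (pt ((r, j), side)).2 = r ^ j := by
          simp only [hpt]
          cases side <;> simp
        simp only [hf]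
        rw [this, hr.pow_minFac (by omega)]
        push_cast
        rfl
      rw [hfv]
      by_cases h2 : 2 ≤ j
      · rw [if_pos (Or.inl h2)]
      · have hj1 : j = 1 := by omega
        have hInC : InC H 1 r 1 := by
          obtain ⟨⟨_, _, _, h, hh, he⟩, _⟩ := hP _ hmem
          subst hj1
          cases side
          · simp only [hpt, Bool.false_eq_true, if_false, pow_one, one_mul, Nat.cast_one] at he
            refine ⟨h⁻¹, H.inv_mem hh, ?_⟩
            have h3 : (h : ZMod q) * ((h⁻¹ : (ZMod q)ˣ) : ZMod q) = 1 := by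
              rw [← Units.val_mul, mul_inv_cancel, Units.val_one]
            calc (r : ZMod q) = 1 * (r : ZMod q) := (one_mul _).symm
              _ = ((h : ZMod q) * ((h⁻¹ : (ZMod q)ˣ) : ZMod q)) * (r : ZMod q) := by rw [h3]
              _ = ((h⁻¹ : (ZMod q)ˣ) : ZMod q) * ((h : ZMod q) * (r : ZMod q)) := by ring
              _ = ((h⁻¹ : (ZMod q)ˣ) : ZMod q) * 1 := by rw [← he]
              _ = _ := by push_cast; ring
          · simp only [hpt, if_true, pow_one] at he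
            exact ⟨h, hh, he⟩
        rw [if_pos (Or.inr hInC)]
    · rw [if_neg hmem, Finset.sum_empty]
      split_ifs
      · positivity
      · exact le_rfl
  refine (Finset.sum_le_sum hval).trans ?_
  rw [hI, Finset.sum_product, Finset.sum_product]
  simp only [Finset.sum_const, Finset.card_univ, Fintype.card_bool, nsmul_eq_mul]
  have hsplit : ∀ r ∈ Nat.primesLE z, ∑ j ∈ Icc 1 J, (((2 : ℕ) : ℝ) *
      (if 2 ≤ j ∨ InC H 1 r 1 then ((r : ℝ) ^ j) ^ (-(1 / 2) : ℝ) * (Real.log r / L) else 0)) ≤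
      2 / L * (if InC H 1 r 1 then Real.log r * (r : ℝ) ^ (-(1 / 2) : ℝ) else 0) +
        8 / L * (Real.log r / r) := by
    intro r hr
    obtain ⟨hrz, hrp⟩ := Nat.mem_primesLE.mp hr
    have hr0 : (0 : ℝ) < r := by exact_mod_cast hrp.pos
    have hlr : 0 ≤ Real.log (r : ℝ) := Real.log_natCast_nonneg _
    have hins : Icc 1 J = insert 1 (Icc 2 J) := by ext; simp; omega
    rw [hins, Finset.sum_insert (by simp)]
    have h1 : ((2 : ℕ) : ℝ) * (if 2 ≤ 1 ∨ InC H 1 r 1 then ((r : ℝ) ^ 1) ^ (-(1 / 2) : ℝ) *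
        (Real.log r / L) else 0) =
        2 / L * (if InC H 1 r 1 then Real.log r * (r : ℝ) ^ (-(1 / 2) : ℝ) else 0) := by
      by_cases hc : InC H 1 r 1
      · rw [if_pos (Or.inr hc), if_pos hc, pow_one]; push_cast; ring
      · rw [if_neg (by rintro (h | h) <;> [omega; exact hc h]), if_neg hc]; simp
    have h2 : ∑ j ∈ Icc 2 J, (((2 : ℕ) : ℝ) *
        (if 2 ≤ j ∨ InC H 1 r 1 then ((r : ℝ) ^ j) ^ (-(1 / 2) : ℝ) * (Real.log r / L) else 0)) ≤
        8 / L * (Real.log r / r) := by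
      have h3 : ∀ j ∈ Icc 2 J, (((2 : ℕ) : ℝ) *
        (if 2 ≤ j ∨ InC H 1 r 1 then ((r : ℝ) ^ j) ^ (-(1 / 2) : ℝ) * (Real.log r / L) else 0)) =
        (2 * (Real.log r / L)) * ((r : ℝ) ^ j) ^ (-(1 / 2) : ℝ) := by
        intro j hj
        rw [if_pos (Or.inl (Finset.mem_Icc.mp hj).1)]
        push_cast; ring
      rw [Finset.sum_congr rfl h3, ← Finset.mul_sum]
      calc (2 * (Real.log r / L)) * ∑ j ∈ Icc 2 J, ((r : ℝ) ^ j) ^ (-(1 / 2) : ℝ)
          ≤ (2 * (Real.log r / L)) * (4 * (1 / (r : ℝ))) :=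
            mul_le_mul_of_nonneg_left (geom_half hrp J) (by positivity)
        _ = _ := by ring
    rw [h1]
    exact add_le_add le_rfl h2
  refine (Finset.sum_le_sum hsplit).trans ?_
  rw [Finset.sum_add_distrib, ← Finset.mul_sum, ← Finset.mul_sum, ← Finset.sum_filter]
  have hA := sum_primes H ((Nat.primesLE z).filter (fun r => InC H 1 r 1)) z hz0 hz100 (by linarith)
    hzL hzq hd (fun p hp => by
      obtain ⟨h1, h2⟩ := Finset.mem_filter.mp hp
      obtain ⟨h3, h4⟩ := Nat.mem_primesLE.mp h1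
      exact ⟨h4, by exact_mod_cast h3, h2⟩)
  have hM : ∑ r ∈ Nat.primesLE z, Real.log r / (r : ℝ) ≤ Real.log z + 2 := by
    have h1 := mA_le z (by omega)
    have h4 : Real.log 4 ≤ 2 := by
      rw [show (4 : ℝ) = 2 ^ 2 by norm_num, Real.log_pow]
      have := Real.log_two_lt_d9
      push_cast; linarith
    have h5 : ∑ p ∈ Nat.primesLE z, Real.log p / (p : ℝ) = mA z := rfl
    rw [h5]
    linarith
  calc 2 / L * ∑ r ∈ (Nat.primesLE z).filter (fun r => InC H 1 r 1), Real.log r * (r : ℝ) ^ (-(1 / 2) : ℝ) +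
        8 / L * ∑ r ∈ Nat.primesLE z, Real.log r / (r : ℝ)
      ≤ 2 / L * (32 * Real.log z ^ 3 * L ^ (0.79 : ℝ)) + 8 / L * (Real.log z + 2) := by gcongr
    _ = (2 * (32 * (Real.log z) ^ 3 * L ^ (0.79 : ℝ)) + 8 * (Real.log z + 2)) / L := by ring
    _ ≤ 1 := by rw [div_le_one hLpos]; exact hasy
    _ ≤ 2 := by norm_num

end Pool.Agent.H14.PT
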