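import Pool.Agent.H14.PT.DN2
import Pool.Agent.PC10.MobiusLog

/-!
# Exact evaluation of the inner sum and logarithmic expansion
-/

set_option linter.unusedSectionVars false

namespace Pool.Agent.H14.PT

open Finset

/-- solutions of `m n₁ b = m' n₂ a` -/
lemma inner_sum (m m' a b N : ℕ) (hm : m ≠ 0) (hm' : m' ≠ 0) (ha : a ≠ 0) (hb : b ≠ 0) :
    ∑ n ∈ (hyp N).filter (fun n => m * n.1 * b = m' * n.2 * a),
      (((m * m' * (n.1 * n.2) : ℕ) : ℝ)) ^ (-(1 / 2) : ℝ) =
    (Nat.gcd (a * m') (b * m) : ℝ) / (m * m') * (((a * b : ℕ) : ℝ)) ^ (-(1 / 2) : ℝ) *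
      ∑ j ∈ Icc 1 (Nat.sqrt (N / (a * m' / Nat.gcd (a * m') (b * m) *
        (b * m / Nat.gcd (a * m') (b * m))))), 1 / (j : ℝ) := by
  have hg : 0 < Nat.gcd (a * m') (b * m) :=
    Nat.gcd_pos_of_pos_left _ (Nat.pos_of_ne_zero (Nat.mul_ne_zero ha hm'))
  have hcop := Nat.coprime_div_gcd_div_gcd hg
  have eα : a * m' / Nat.gcd (a * m') (b * m) * Nat.gcd (a * m') (b * m) = a * m' :=
    Nat.div_mul_cancel (Nat.gcd_dvd_left _ _)
  have eβ : b * m / Nat.gcd (a * m') (b * m) * Nat.gcd (a * m') (b * m) = b * m :=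
    Nat.div_mul_cancel (Nat.gcd_dvd_right _ _)
  set g := Nat.gcd (a * m') (b * m) with hgdef
  set α := a * m' / g with hα
  set β := b * m / g with hβ
  have hα0 : 0 < α := by
    rcases Nat.eq_zero_or_pos α with h | h
    · rw [h, zero_mul] at eα; exact absurd eα.symm (Nat.mul_ne_zero ha hm')
    · exact h
  have hβ0 : 0 < β := by
    rcases Nat.eq_zero_or_pos β with h | h
    · rw [h, zero_mul] at eβ; exact absurd eβ.symm (Nat.mul_ne_zero hb hm)
    · exact h
  have hj : ∀ j : ℕ, j ≤ Nat.sqrt (N / (α * β)) ↔ (α * j) * (β * j) ≤ N := by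
    intro j
    rw [Nat.le_sqrt, Nat.le_div_iff_mul_le (Nat.mul_pos hα0 hβ0)]
    constructor
    · intro h; calc (α * j) * (β * j) = j * j * (α * β) := by ring
        _ ≤ N := h
    · intro h; calc j * j * (α * β) = (α * j) * (β * j) := by ring
        _ ≤ N := h
  have hsol : ∀ n : ℕ × ℕ, 1 ≤ n.1 → m * n.1 * b = m' * n.2 * a →
      n.1 = α * (n.1 / α) ∧ n.2 = β * (n.1 / α) := by
    intro n hn1 h
    have h1 : β * n.1 = α * n.2 := by
      have : g * (β * n.1) = g * (α * n.2) := by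
        calc g * (β * n.1) = (β * g) * n.1 := by ring
          _ = b * m * n.1 := by rw [eβ]
          _ = m * n.1 * b := by ring
          _ = m' * n.2 * a := h
          _ = (a * m') * n.2 := by ring
          _ = (α * g) * n.2 := by rw [eα]
          _ = g * (α * n.2) := by ring
      exact Nat.eq_of_mul_eq_mul_left hg this
    have h2 : α ∣ n.1 := by
      have : α ∣ β * n.1 := ⟨n.2, h1⟩
      exact hcop.dvd_of_dvd_mul_left this
    have h3 : α * (n.1 / α) = n.1 := Nat.mul_div_cancel' h2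
    refine ⟨h3.symm, ?_⟩
    have h4 : α * n.2 = α * (β * (n.1 / α)) := by
      calc α * n.2 = β * n.1 := h1.symm
        _ = β * (α * (n.1 / α)) := by rw [h3]
        _ = _ := by ring
    exact Nat.eq_of_mul_eq_mul_left hα0 h4
  rw [Finset.mul_sum]
  refine Finset.sum_bij' (fun n _ => n.1 / α) (fun j _ => (α * j, β * j)) ?_ ?_ ?_ ?_ ?_
  · intro n hn
    obtain ⟨h1, h2⟩ := Finset.mem_filter.mp hn
    obtain ⟨a1, a2, a3⟩ := mem_hyp.mp h1
    obtain ⟨h3, h4⟩ := hsol n a1 h2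
    refine Finset.mem_Icc.mpr ⟨?_, ?_⟩
    · rcases Nat.eq_zero_or_pos (n.1 / α) with h | h
      · rw [h, mul_zero] at h3; omega
      · exact h
    · rw [hj, ← h3, ← h4]
      exact a3
  · intro j hjm
    obtain ⟨h1, h2⟩ := Finset.mem_Icc.mp hjm
    rw [Finset.mem_filter, mem_hyp]
    refine ⟨⟨?_, ?_, (hj j).mp h2⟩, ?_⟩
    · exact Nat.mul_pos hα0 h1
    · exact Nat.mul_pos hβ0 h1
    · calc m * (α * j) * b = α * j * (b * m) := by ring
        _ = α * j * (β * g) := by rw [eβ]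
        _ = (α * g) * (β * j) := by ring
        _ = a * m' * (β * j) := by rw [eα]
        _ = m' * (β * j) * a := by ring
  · intro n hn
    obtain ⟨h1, h2⟩ := Finset.mem_filter.mp hn
    obtain ⟨a1, a2, a3⟩ := mem_hyp.mp h1
    obtain ⟨h3, h4⟩ := hsol n a1 h2
    exact Prod.ext h3.symm h4.symm
  · intro j hjm
    simp only
    exact Nat.mul_div_cancel_left j hα0
  · intro n hn
    obtain ⟨h1, h2⟩ := Finset.mem_filter.mp hn
    obtain ⟨a1, a2, a3⟩ := mem_hyp.mp h1
    obtain ⟨h3, h4⟩ := hsol n a1 h2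
    set j := n.1 / α with hjdef
    have hj1 : 0 < j := by
      rcases Nat.eq_zero_or_pos j with h | h
      · rw [h, mul_zero] at h3; omega
      · exact h
    have hjr : (0 : ℝ) < j := by exact_mod_cast hj1
    have hmr : (0 : ℝ) < m := by exact_mod_cast Nat.pos_of_ne_zero hm
    have hmr' : (0 : ℝ) < m' := by exact_mod_cast Nat.pos_of_ne_zero hm'
    have har : (0 : ℝ) < a := by exact_mod_cast Nat.pos_of_ne_zero ha
    have hbr : (0 : ℝ) < b := by exact_mod_cast Nat.pos_of_ne_zero hb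
    have hgr : (0 : ℝ) < g := by exact_mod_cast hg
    have eα' : (α : ℝ) * g = a * m' := by exact_mod_cast eα
    have eβ' : (β : ℝ) * g = b * m := by exact_mod_cast eβ
    have key : (((m * m' * (n.1 * n.2) : ℕ) : ℝ)) =
        ((a * b : ℕ) : ℝ) * ((m * m' : ℝ) / g * j) ^ 2 := by
      rw [h3, h4]
      push_cast
      have e1 : (α : ℝ) = a * m' / g := by rw [← eα']; field_simp
      have e2 : (β : ℝ) = b * m / g := by rw [← eβ']; field_simp
      rw [e1, e2]
      field_simp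
    rw [key, neg_half_sq (by positivity) (by push_cast; positivity)]
    field_simp

/-- logarithmic expansion of the harmonic sum -/
lemma harm_expand (N u : ℕ) (hu : 0 < u) (huN : u ≤ N) :
    |∑ j ∈ Icc 1 (Nat.sqrt (N / u)), 1 / (j : ℝ) -
      (1 / 2 * Real.log N - 1 / 2 * Real.log u + Real.eulerMascheroniConstant)| ≤
      2 * Real.sqrt ((u : ℝ) / N) := by
  have hur : (0 : ℝ) < u := by exact_mod_cast hu
  have hNr : (0 : ℝ) < N := by exact_mod_cast (lt_of_lt_of_le hu huN)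
  have hx1 : 1 ≤ Real.sqrt ((N : ℝ) / u) := by
    rw [Real.one_le_sqrt, one_le_div hur]
    exact_mod_cast huN
  have h1 := Pool.Agent.PC10.abs_harmonic_sub_le hx1
  have hfl : ⌊Real.sqrt ((N : ℝ) / u)⌋₊ = Nat.sqrt (N / u) := by
    rw [Nat.floor_eq_iff (Real.sqrt_nonneg _)]
    constructor
    · apply Real.le_sqrt_of_sq_le
      rw [le_div_iff₀ hur]
      have h2 : Nat.sqrt (N / u) * Nat.sqrt (N / u) * u ≤ N := by
        have := Nat.sqrt_le (N / u)
        exact (Nat.le_div_iff_mul_le hu).mp this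
      have h3 : ((Nat.sqrt (N / u) * Nat.sqrt (N / u) * u : ℕ) : ℝ) ≤ N := by exact_mod_cast h2
      push_cast at h3
      nlinarith
    · rw [Real.sqrt_lt' (by positivity), div_lt_iff₀ hur]
      have h2 : N < (Nat.sqrt (N / u) + 1) * (Nat.sqrt (N / u) + 1) * u := by
        have := Nat.lt_succ_sqrt (N / u)
        exact (Nat.div_lt_iff_lt_mul hu).mp this
      have h3 : (N : ℝ) < (((Nat.sqrt (N / u) + 1) * (Nat.sqrt (N / u) + 1) * u : ℕ) : ℝ) := by
        exact_mod_cast h2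
      push_cast at h3
      nlinarith
  rw [hfl] at h1
  have h2 : Ioc 0 (Nat.sqrt (N / u)) = Icc 1 (Nat.sqrt (N / u)) := by ext; simp; omega
  rw [h2, Real.log_sqrt (by positivity), Real.log_div hNr.ne' hur.ne'] at h1
  have h3 : 2 / Real.sqrt ((N : ℝ) / u) = 2 * Real.sqrt ((u : ℝ) / N) := by
    rw [Real.sqrt_div hNr.le, Real.sqrt_div hur.le]
    have := Real.sqrt_pos.mpr hNr
    have := Real.sqrt_pos.mpr hur
    field_simp
  rw [h3] at h1
  refine le_trans (le_of_eq ?_) h1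
  congr 1
  ring

/-- **logarithmic form of `DN`** -/
theorem DN_expand (Mf : Finset ℕ) (w : ℕ → ℝ) (N Y a b : ℕ) (ha : a ≠ 0)
    (hb : b ≠ 0) (hM : ∀ m ∈ Mf, 1 ≤ m ∧ m ≤ Y) (hw : ∀ m, |w m| ≤ 1)
    (hN : a * b * Y ^ 2 ≤ N) :
    |DN Mf w N a b - (((a * b : ℕ) : ℝ)) ^ (-(1 / 2) : ℝ) * ∑ m ∈ Mf, ∑ m' ∈ Mf, w m * w m' *
      ((Nat.gcd (a * m') (b * m) : ℝ) / (m * m')) *
      (1 / 2 * Real.log N + Real.eulerMascheroniConstant + 1 / 2 *
        Real.log ((Nat.gcd (a * m') (b * m) : ℝ) ^ 2 / (a * b * m * m')))| ≤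
      2 * (Y : ℝ) ^ 2 / Real.sqrt N := by
  classical
  have har : (0 : ℝ) < a := by exact_mod_cast Nat.pos_of_ne_zero ha
  have hbr : (0 : ℝ) < b := by exact_mod_cast Nat.pos_of_ne_zero hb
  set E := (((a * b : ℕ) : ℝ)) ^ (-(1 / 2) : ℝ) with hE
  set J : ℕ → ℕ → ℝ := fun m m' => ∑ j ∈ Icc 1 (Nat.sqrt (N / (a * m' / Nat.gcd (a * m') (b * m) *
        (b * m / Nat.gcd (a * m') (b * m))))), 1 / (j : ℝ) with hJ
  have h1 : DN Mf w N a b = ∑ m ∈ Mf, ∑ m' ∈ Mf, w m * w m' *
      ((Nat.gcd (a * m') (b * m) : ℝ) / (m * m')) * E * J m m' := by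
    unfold DN quads
    rw [Finset.sum_filter, Finset.sum_product, Finset.sum_product]
    refine Finset.sum_congr rfl fun m hm => Finset.sum_congr rfl fun m' hm' => ?_
    have h2 := inner_sum m m' a b N (by have := (hM m hm).1; omega) (by have := (hM m' hm').1; omega) ha hb
    rw [← Finset.sum_filter]
    simp only [qw]
    rw [← Finset.mul_sum, h2]
    ring
  rw [h1, Finset.mul_sum, ← Finset.sum_sub_distrib]
  have hterm : ∀ m ∈ Mf, ∀ m' ∈ Mf, |w m * w m' * ((Nat.gcd (a * m') (b * m) : ℝ) / (m * m')) * E * J m m' -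
      E * (w m * w m' * ((Nat.gcd (a * m') (b * m) : ℝ) / (m * m')) *
      (1 / 2 * Real.log N + Real.eulerMascheroniConstant + 1 / 2 *
        Real.log ((Nat.gcd (a * m') (b * m) : ℝ) ^ 2 / (a * b * m * m'))))| ≤
      2 * (Real.sqrt N)⁻¹ := by
    intro m hm m' hm'
    obtain ⟨p1, p2⟩ := hM m hm
    obtain ⟨p1', p2'⟩ := hM m' hm'
    have hmr : (0 : ℝ) < m := by exact_mod_cast p1
    have hmr' : (0 : ℝ) < m' := by exact_mod_cast p1'
    have hg : 0 < Nat.gcd (a * m') (b * m) :=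
      Nat.gcd_pos_of_pos_left _ (Nat.mul_pos (Nat.pos_of_ne_zero ha) p1')
    have eα : a * m' / Nat.gcd (a * m') (b * m) * Nat.gcd (a * m') (b * m) = a * m' :=
      Nat.div_mul_cancel (Nat.gcd_dvd_left _ _)
    have eβ : b * m / Nat.gcd (a * m') (b * m) * Nat.gcd (a * m') (b * m) = b * m :=
      Nat.div_mul_cancel (Nat.gcd_dvd_right _ _)
    set g := Nat.gcd (a * m') (b * m) with hgdef
    have hgr : (0 : ℝ) < g := by exact_mod_cast hg
    set u := a * m' / g * (b * m / g) with hu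
    have hu0 : 0 < u := by
      apply Nat.mul_pos
      · exact Nat.div_pos (Nat.le_of_dvd (Nat.mul_pos (Nat.pos_of_ne_zero ha) p1') (Nat.gcd_dvd_left _ _)) hg
      · exact Nat.div_pos (Nat.le_of_dvd (Nat.mul_pos (Nat.pos_of_ne_zero hb) p1) (Nat.gcd_dvd_right _ _)) hg
    have huN : u ≤ N := by
      calc u ≤ (a * m') * (b * m) := Nat.mul_le_mul (Nat.div_le_self _ _) (Nat.div_le_self _ _)
        _ ≤ (a * Y) * (b * Y) := Nat.mul_le_mul (Nat.mul_le_mul_left _ p2') (Nat.mul_le_mul_left _ p2)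
        _ = a * b * Y ^ 2 := by ring
        _ ≤ N := hN
    have hNr : (0 : ℝ) < N := by exact_mod_cast (lt_of_lt_of_le hu0 huN)
    have hur : (u : ℝ) = a * b * m * m' / (g : ℝ) ^ 2 := by
      have eα' : ((a * m' / g : ℕ) : ℝ) * g = a * m' := by exact_mod_cast eα
      have eβ' : ((b * m / g : ℕ) : ℝ) * g = b * m := by exact_mod_cast eβ
      rw [hu, Nat.cast_mul, eq_div_iff (by positivity)]
      calc ((a * m' / g : ℕ) : ℝ) * ((b * m / g : ℕ) : ℝ) * (g : ℝ) ^ 2
          = (((a * m' / g : ℕ) : ℝ) * g) * (((b * m / g : ℕ) : ℝ) * g) := by ring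
        _ = _ := by rw [eα', eβ']; ring
    have hexp := harm_expand N u hu0 huN
    have hJe : J m m' = ∑ j ∈ Icc 1 (Nat.sqrt (N / u)), 1 / (j : ℝ) := by
      simp only [hJ]
      rw [← hgdef]
    have hlog : Real.log ((g : ℝ) ^ 2 / (a * b * m * m')) = - Real.log u := by
      rw [hur, ← Real.log_inv, inv_div]
    rw [hJe, hlog]
    have e1 : w m * w m' * ((g : ℝ) / (m * m')) * E * (∑ j ∈ Icc 1 (Nat.sqrt (N / u)), 1 / (j : ℝ)) -
      E * (w m * w m' * ((g : ℝ) / (m * m')) *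
      (1 / 2 * Real.log N + Real.eulerMascheroniConstant + 1 / 2 * (-Real.log u))) =
      (w m * w m') * ((g : ℝ) / (m * m') * E * ((∑ j ∈ Icc 1 (Nat.sqrt (N / u)), 1 / (j : ℝ)) -
      (1 / 2 * Real.log N - 1 / 2 * Real.log u + Real.eulerMascheroniConstant))) := by ring
    rw [e1, abs_mul, abs_mul (w m)]
    have hww : |w m| * |w m'| ≤ 1 := by
      calc _ ≤ (1 : ℝ) * 1 := by
            gcongr
            · exact hw _
            · exact hw _
        _ = 1 := by norm_num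
    refine (mul_le_of_le_one_left (abs_nonneg _) hww).trans ?_
    have hEpos : 0 < E := by rw [hE]; push_cast; positivity
    rw [abs_mul, abs_of_pos (by positivity : 0 < (g : ℝ) / (m * m') * E)]
    refine (mul_le_mul_of_nonneg_left hexp (by positivity)).trans ?_
    -- (g/(mm')) E * 2 √(u/N) = 2 / √(N m m') ≤ 2/√N
    have hEq : E = (Real.sqrt (a * b))⁻¹ := by
      rw [hE, Real.rpow_neg (by positivity), ← Real.sqrt_eq_rpow]
      push_cast
      rfl
    have hsu : Real.sqrt ((u : ℝ) / N) = Real.sqrt (a * b) * Real.sqrt (m * m') / (g * Real.sqrt N) := by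
      rw [hur, Real.sqrt_div (by positivity), Real.sqrt_div (by positivity), Real.sqrt_sq hgr.le,
        ← Real.sqrt_mul (by positivity)]
      rw [div_div]
      congr 2
      ring
    rw [hEq, hsu]
    have s1 : 0 < Real.sqrt (a * b) := Real.sqrt_pos.mpr (by positivity)
    have s2 : 0 < Real.sqrt (m * m') := Real.sqrt_pos.mpr (by positivity)
    have s3 : 0 < Real.sqrt N := Real.sqrt_pos.mpr hNr
    have s4 : Real.sqrt (m * m') * Real.sqrt (m * m') = m * m' := Real.mul_self_sqrt (by positivity)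
    have e2 : (g : ℝ) / (m * m') * (Real.sqrt (a * b))⁻¹ *
        (2 * (Real.sqrt (a * b) * Real.sqrt (m * m') / (g * Real.sqrt N))) =
        2 * (Real.sqrt (m * m'))⁻¹ * (Real.sqrt N)⁻¹ := by
      nth_rw 1 [← s4]
      field_simp
    rw [e2]
    have s5 : (Real.sqrt (m * m'))⁻¹ ≤ 1 := by
      apply inv_le_one_of_one_le₀
      rw [Real.one_le_sqrt]
      have : (1 : ℝ) ≤ m := by exact_mod_cast p1
      have : (1 : ℝ) ≤ m' := by exact_mod_cast p1'
      nlinarith
    have s6 : 0 < (Real.sqrt N)⁻¹ := by positivity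
    nlinarith
  have hcard : (Mf.card : ℝ) ≤ Y := by
    have : Mf.card ≤ (Icc 1 Y).card := Finset.card_le_card fun m hm => Finset.mem_Icc.mpr (hM m hm)
    rw [Nat.card_Icc] at this
    have h3 : Mf.card ≤ Y := by omega
    exact_mod_cast h3
  calc _ ≤ ∑ m ∈ Mf, ∑ m' ∈ Mf, 2 * (Real.sqrt N)⁻¹ := by
        refine (Finset.abs_sum_le_sum_abs _ _).trans (Finset.sum_le_sum fun m hm => ?_)
        rw [Finset.mul_sum, ← Finset.sum_sub_distrib]
        exact (Finset.abs_sum_le_sum_abs _ _).trans (Finset.sum_le_sum fun m' hm' => hterm m hm m' hm')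
    _ = (Mf.card : ℝ) ^ 2 * (2 * (Real.sqrt N)⁻¹) := by
        rw [Finset.sum_const, Finset.sum_const, nsmul_eq_mul, nsmul_eq_mul]; ring
    _ ≤ (Y : ℝ) ^ 2 * (2 * (Real.sqrt N)⁻¹) := by gcongr
    _ = _ := by ring

end Pool.Agent.H14.PT
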