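import Mathlib

/-!
# Splitting the square of an integral at `t u = 1`
-/

namespace Pool.Agent.H14.PT

open MeasureTheory Set
open scoped Real ComplexConjugate

/-- the measure on the positive half line -/
noncomputable abbrev mu0 : Measure ℝ := volume.restrict (Ioi 0)

lemma integral_inv_sub (h : ℝ → ℂ) :
    ∫ v, ((v ^ (-2 : ℝ) : ℝ) : ℂ) * h (1 / v) ∂mu0 = ∫ u, h u ∂mu0 := by
  rw [← integral_comp_rpow_Ioi h (show (-1 : ℝ) ≠ 0 by norm_num)]
  refine setIntegral_congr_fun measurableSet_Ioi fun v hv => ?_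
  have hv' : (0 : ℝ) < v := hv
  simp only [abs_neg, abs_one, one_mul, Real.rpow_neg_one, one_div]
  rw [show (-1 - 1 : ℝ) = -2 by norm_num]
  rfl

/-- inner integral of the indicator of `1 < t u`. -/
lemma inner_indicator (f : ℝ → ℂ) (c : ℂ) {t : ℝ} (ht : 0 < t) :
    ∫ u, {p : ℝ × ℝ | 1 < p.1 * p.2}.indicator (fun p => c * f p.2) (t, u) ∂mu0
      = c * ∫ u in Ioi (1 / t), f u := by
  rw [← integral_const_mul, ← integral_indicator (measurableSet_Ioi),
    ← integral_indicator (measurableSet_Ioi)]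
  refine integral_congr_ae (Filter.Eventually.of_forall fun u => ?_)
  simp only [Set.indicator_apply]
  have hiff : (t, u) ∈ {p : ℝ × ℝ | 1 < p.1 * p.2} ↔ u ∈ Ioi (1 / t) := by
    change 1 < t * u ↔ 1 / t < u
    rw [div_lt_iff₀ ht, mul_comm u t]
  by_cases h1 : u ∈ Ioi (1 / t)
  · have h0 : u ∈ Ioi (0 : ℝ) := lt_trans (by positivity) (mem_Ioi.mp h1)
    rw [if_pos h0, if_pos (hiff.mpr h1), if_pos h1]
  · rw [if_neg h1, if_neg (fun h => h1 (hiff.mp h))]
    split_ifs <;> rfl

/-- symmetrisation at `t u = 1`. -/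
theorem norm_sq_integral {g : ℝ → ℂ} (hg : Integrable g mu0) {ε : ℂ} (hε : ‖ε‖ = 1)
    (hfe : ∀ t : ℝ, 0 < t → ((t ^ (-2 : ℝ) : ℝ) : ℂ) * g (1 / t) = ε * conj (g t)) :
    ‖∫ t, g t ∂mu0‖ ^ 2
      = 2 * (∫ p : ℝ × ℝ, {p : ℝ × ℝ | 1 < p.1 * p.2}.indicator
          (fun p => g p.1 * conj (g p.2)) p ∂(mu0.prod mu0)).re := by
  have hgc : Integrable (fun u => conj (g u)) mu0 := by
    have := hg.norm
    refine ⟨?_, ?_⟩
    · exact Complex.continuous_conj.comp_aestronglyMeasurable hg.1
    · refine hg.2.mono ?_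
      filter_upwards with a
      simp
  have hprod : Integrable (fun p : ℝ × ℝ => g p.1 * conj (g p.2)) (mu0.prod mu0) := hg.mul_prod hgc
  have hms : MeasurableSet {p : ℝ × ℝ | 1 < p.1 * p.2} := by
    apply measurableSet_lt measurable_const (measurable_fst.mul measurable_snd)
  have hA : ∫ p : ℝ × ℝ, {p : ℝ × ℝ | 1 < p.1 * p.2}.indicator
          (fun p => g p.1 * conj (g p.2)) p ∂(mu0.prod mu0)
      = ∫ t, g t * (∫ u in Ioi (1 / t), conj (g u)) ∂mu0 := by
    rw [integral_prod _ (hprod.indicator hms)]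
    refine setIntegral_congr_fun measurableSet_Ioi fun t ht => ?_
    exact inner_indicator (fun u => conj (g u)) (g t) ht
  rw [hA]
  set A := ∫ t, g t * (∫ u in Ioi (1 / t), conj (g u)) ∂mu0 with hAdef
  -- the tail integrals
  have htail : ∀ t : ℝ, 0 < t → ∫ u in Ioc 0 (1 / t), conj (g u) = conj ε * ∫ v in Ioi t, g v := by
    intro t ht
    have e1 : ∫ u in Ioc 0 (1 / t), conj (g u) = ∫ u, (Iic (1 / t)).indicator (fun u => conj (g u)) u ∂mu0 := by
      rw [integral_indicator measurableSet_Iic, Measure.restrict_restrict measurableSet_Iic]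
      congr 2
      ext x
      simp only [mem_inter_iff, mem_Iic, mem_Ioi, mem_Ioc]
      tauto
    rw [e1, ← integral_inv_sub]
    have e2 : conj ε * ∫ v in Ioi t, g v = ∫ v, (Ici t).indicator (fun v => conj ε * g v) v ∂mu0 := by
      rw [integral_indicator measurableSet_Ici, Measure.restrict_restrict measurableSet_Ici,
        integral_const_mul]
      congr 1
      have : Ici t ∩ Ioi 0 = Ici t := by
        ext x
        simp only [mem_inter_iff, mem_Ici, mem_Ioi]
        constructor
        · exact fun h => h.1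
        · exact fun h => ⟨h, lt_of_lt_of_le ht h⟩
      rw [this, integral_Ici_eq_integral_Ioi]
    rw [e2]
    refine setIntegral_congr_fun measurableSet_Ioi fun v hv => ?_
    have hv' : (0 : ℝ) < v := hv
    simp only [indicator, mem_Iic, mem_Ici]
    have hiff : 1 / v ≤ 1 / t ↔ t ≤ v := by
      rw [one_div_le_one_div hv' ht]
    by_cases h1 : t ≤ v
    · rw [if_pos (hiff.mpr h1), if_pos h1]
      have h2 := congrArg conj (hfe v hv')
      simp only [map_mul, Complex.conj_ofReal, Complex.conj_conj] at h2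
      exact h2
    · rw [if_neg (fun h => h1 (hiff.mp h)), if_neg h1, mul_zero]
  -- split
  have hsplit : ∀ t : ℝ, 0 < t → conj (∫ u, g u ∂mu0)
      = (∫ u in Ioi (1 / t), conj (g u)) + conj ε * ∫ v in Ioi t, g v := by
    intro t ht
    rw [← htail t ht, ← integral_conj]
    have hU : Ioi (0 : ℝ) = Ioc 0 (1 / t) ∪ Ioi (1 / t) := by
      rw [Ioc_union_Ioi_eq_Ioi (by positivity)]
    have hi1 : IntegrableOn (fun u => conj (g u)) (Ioc 0 (1 / t)) :=
      IntegrableOn.mono_set (s := Ioc 0 (1 / t)) (t := Ioi 0) hgc (fun x hx => hx.1)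
    have hi2 : IntegrableOn (fun u => conj (g u)) (Ioi (1 / t)) :=
      IntegrableOn.mono_set (s := Ioi (1 / t)) (t := Ioi 0) hgc
        (fun x hx => lt_trans (by positivity) (mem_Ioi.mp hx))
    have : ∫ u, conj (g u) ∂mu0 = ∫ u in Ioc 0 (1 / t) ∪ Ioi (1 / t), conj (g u) := by
      rw [← hU]
    rw [this, setIntegral_union (Ioc_disjoint_Ioi le_rfl) measurableSet_Ioi hi1 hi2]
    ring
  -- integrability of the two pieces
  have hI1 : Integrable (fun t => g t * (∫ u in Ioi (1 / t), conj (g u))) mu0 := by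
    have := (hprod.indicator hms).integral_prod_left
    refine this.congr ?_
    rw [Filter.EventuallyEq, ae_restrict_iff' measurableSet_Ioi]
    refine Filter.Eventually.of_forall fun t ht => ?_
    exact inner_indicator (fun u => conj (g u)) (g t) ht
  have hI0 : Integrable (fun t => g t * conj (∫ u, g u ∂mu0)) mu0 := hg.mul_const _
  have hI2 : Integrable (fun t => g t * (conj ε * ∫ v in Ioi t, g v)) mu0 := by
    refine (hI0.sub hI1).congr ?_
    rw [Filter.EventuallyEq, ae_restrict_iff' measurableSet_Ioi]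
    refine Filter.Eventually.of_forall fun t ht => ?_
    have ht' : (0 : ℝ) < t := ht
    simp only [Pi.sub_apply]
    rw [hsplit t ht']
    ring
  have hB : ∫ t, g t * (conj ε * ∫ v in Ioi t, g v) ∂mu0 = conj A := by
    rw [hAdef, ← integral_conj, ← integral_inv_sub]
    refine setIntegral_congr_fun measurableSet_Ioi fun s hs => ?_
    have hs' : (0 : ℝ) < s := hs
    simp only [map_mul]
    rw [← mul_assoc, hfe s hs', ← integral_conj]
    have h1 : ε * conj ε = 1 := by
      rw [Complex.mul_conj, Complex.normSq_eq_norm_sq, hε]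
      norm_num
    have h2 : ∫ u in Ioi (1 / s), conj (conj (g u)) = ∫ v in Ioi (1 / s), g v := by
      simp
    rw [h2]
    linear_combination (conj (g s) * ∫ v in Ioi (1 / s), g v) * h1
  have hfin : (∫ t, g t ∂mu0) * conj (∫ t, g t ∂mu0) = A + conj A := by
    rw [← integral_mul_const, ← hB, hAdef, ← integral_add hI1 hI2]
    refine setIntegral_congr_fun measurableSet_Ioi fun t ht => ?_
    have ht' : (0 : ℝ) < t := ht
    rw [hsplit t ht']
    ring
  rw [Complex.mul_conj, Complex.normSq_eq_norm_sq, Complex.add_conj] at hfin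
  exact_mod_cast hfin

end Pool.Agent.H14.PT
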