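import Pool.Agent.H14.PT.S1a

/-!
# The first moment
-/

set_option linter.unusedSectionVars false

namespace Pool.Agent.H14.PT

open Finset
open scoped ComplexConjugate Real

lemma Pr_dvd_iff {A : Finset ℕ} (hA : ∀ p ∈ A, p.Prime) (x : ℕ) : Pr A ∣ x ↔ ∀ p ∈ A, p ∣ x := by
  constructor
  · intro h p hp
    exact (Finset.dvd_prod_of_mem (fun p => p) hp).trans h
  · intro h
    exact Finset.prod_primes_dvd x (fun p hp => (hA p hp).prime) h

lemma beta_zero {z Y x r : ℕ} (hx0 : x ≠ 0) (hxY : x ≤ Y) (hr : r.Prime) (hrz : r ≤ z) (hrx : r ∣ x) :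
    ∑ m ∈ MfS z Y Y, (if m ∣ x then wS z Y Y m else 0) = 0 := by
  rw [sum_MfS, Finset.sum_comm]
  refine Finset.sum_eq_zero fun B hB => ?_
  obtain ⟨b1, b2⟩ := mem_T2.mp hB
  have hBp : ∀ p ∈ B, p.Prime := fun p hp => (prime_rough b1 p hp).1
  have h1 : ∀ A ∈ T1 z Y, (if Pr A * Pr B ∣ x then wS z Y Y (Pr A * Pr B) else 0) =
      (if Pr B ∣ x then cf Y B else 0) * (if Pr A ∣ x then ((-1 : ℝ)) ^ A.card else 0) := by
    intro A hA
    obtain ⟨a1, a2⟩ := mem_T1.mp hA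
    have hAp : ∀ p ∈ A, p.Prime := fun p hp => (prime_small a1 p hp).1
    have hU := union_prime a1 b1
    have h2 : Pr A * Pr B ∣ x ↔ Pr A ∣ x ∧ Pr B ∣ x := by
      rw [← Pr_union (disj_AB a1 b1), Pr_dvd_iff hU, Pr_dvd_iff hAp, Pr_dvd_iff hBp]
      constructor
      · intro h
        exact ⟨fun p hp => h p (Finset.mem_union_left _ hp), fun p hp => h p (Finset.mem_union_right _ hp)⟩
      · rintro ⟨h3, h4⟩ p hp
        rcases Finset.mem_union.mp hp with h | h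
        · exact h3 p h
        · exact h4 p h
    rw [wS_eq hA hB]
    by_cases h3 : Pr A ∣ x
    · by_cases h4 : Pr B ∣ x
      · rw [if_pos (h2.mpr ⟨h3, h4⟩), if_pos h3, if_pos h4]; ring
      · rw [if_neg (fun h => h4 (h2.mp h).2), if_neg h4]; ring
    · rw [if_neg (fun h => h3 (h2.mp h).1), if_neg h3]; ring
  rw [Finset.sum_congr rfl h1, ← Finset.mul_sum]
  have h2 : ∑ A ∈ T1 z Y, (if Pr A ∣ x then ((-1 : ℝ)) ^ A.card else 0) = 0 := by
    rw [← Finset.sum_filter]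
    have h3 : (T1 z Y).filter (fun A => Pr A ∣ x) = ((Nat.primesLE z).filter (fun p => p ∣ x)).powerset := by
      ext A
      rw [Finset.mem_filter, mem_T1, Finset.mem_powerset]
      constructor
      · rintro ⟨⟨a1, a2⟩, a3⟩ p hp
        exact Finset.mem_filter.mpr ⟨a1 hp, (Pr_dvd_iff (fun p hp => (prime_small a1 p hp).1) x).mp a3 p hp⟩
      · intro h
        have a1 : A ⊆ Nat.primesLE z := fun p hp => (Finset.mem_filter.mp (h hp)).1
        have a3 : Pr A ∣ x := (Pr_dvd_iff (fun p hp => (prime_small a1 p hp).1) x).mpr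
          (fun p hp => (Finset.mem_filter.mp (h hp)).2)
        exact ⟨⟨a1, (Nat.le_of_dvd (Nat.pos_of_ne_zero hx0) a3).trans hxY⟩, a3⟩
    rw [h3]
    have h4 : ((Nat.primesLE z).filter (fun p => p ∣ x)).Nonempty :=
      ⟨r, Finset.mem_filter.mpr ⟨Nat.mem_primesLE.mpr ⟨hrz, hr⟩, hrx⟩⟩
    have h5 := Finset.sum_powerset_neg_one_pow_card_of_nonempty h4
    exact_mod_cast h5
  rw [h2, mul_zero]

variable {q : ℕ} [Fact q.Prime]

/-- adding back the principal character -/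
lemma sum_Xn_ge (X : Subgroup (DirichletCharacter ℂ q)) (χ0 : DirichletCharacter ℂ q)
    (F : DirichletCharacter ℂ q → ℂ) {E : ℝ} (hE : ‖F 1‖ ≤ E) :
    ‖∑ χ ∈ Xs X, F (χ0 * χ)‖ ≤ ‖∑ χ ∈ Xn X χ0, F (χ0 * χ)‖ + E := by
  classical
  have h1 : ∑ χ ∈ Xs X, F (χ0 * χ) = ∑ χ ∈ Xn X χ0, F (χ0 * χ) +
      ∑ χ ∈ (Xs X).filter (fun χ => ¬ (χ0 * χ ≠ 1)), F (χ0 * χ) := by
    unfold Xn
    rw [Finset.sum_filter_add_sum_filter_not]
  have h2 : ‖∑ χ ∈ (Xs X).filter (fun χ => ¬ (χ0 * χ ≠ 1)), F (χ0 * χ)‖ ≤ E := by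
    have hsub : (Xs X).filter (fun χ => ¬ (χ0 * χ ≠ 1)) ⊆ {χ0⁻¹} := by
      intro χ hχ
      have := (Finset.mem_filter.mp hχ).2
      push Not at this
      rw [Finset.mem_singleton]
      exact eq_inv_of_mul_eq_one_right this
    rcases Finset.subset_singleton_iff.mp hsub with h | h
    · rw [h, Finset.sum_empty, norm_zero]
      exact (norm_nonneg _).trans hE
    · rw [h, Finset.sum_singleton, mul_inv_cancel]
      exact hE
  rw [h1]
  exact (norm_add_le _ _).trans (by linarith)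

/-- crude bound at the principal character -/
lemma norm_LFunction_half_le (χ : DirichletCharacter ℂ q) :
    ‖χ.LFunction (1 / 2)‖ ≤ √q * (4 + Real.log q) := by
  have hqp : q.Prime := Fact.out
  have hq0 : (0 : ℝ) < q := by exact_mod_cast hqp.pos
  have hsq : 0 < √(q : ℝ) := Real.sqrt_pos.mpr hq0
  rw [LFunction_half_nat]
  refine (norm_sum_le _ _).trans ?_
  have h1 : ∀ k ∈ Icc 1 (q - 1), ‖((cZ q k : ℝ) : ℂ) * χ (k : ZMod q)‖ ≤
      √q * (1 / (k : ℝ)) + 3 / √q := by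
    intro k hk
    obtain ⟨a, b⟩ := Finset.mem_Icc.mp hk
    have hk0 : (0 : ℝ) < k := by exact_mod_cast a
    have hkq : (k : ℝ) ≤ q := by exact_mod_cast (by omega : k ≤ q)
    rw [norm_mul, Complex.norm_real, Real.norm_eq_abs]
    have e1 := norm_chi_le χ (k : ZMod q)
    have e2 := cZ_sub k hk
    have e3 : |cZ q k| ≤ (k : ℝ) ^ (-(1 / 2) : ℝ) + 3 / √q := by
      have : |cZ q k| ≤ |(k : ℝ) ^ (-(1 / 2) : ℝ)| + |cZ q k - (k : ℝ) ^ (-(1 / 2) : ℝ)| := by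
        have := abs_add_le ((k : ℝ) ^ (-(1 / 2) : ℝ)) (cZ q k - (k : ℝ) ^ (-(1 / 2) : ℝ))
        rwa [add_sub_cancel] at this
      rw [abs_of_nonneg (by positivity : (0 : ℝ) ≤ (k : ℝ) ^ (-(1 / 2) : ℝ))] at this
      linarith
    have e4 : (k : ℝ) ^ (-(1 / 2) : ℝ) ≤ √q * (1 / (k : ℝ)) := by
      rw [Real.rpow_neg hk0.le, ← Real.sqrt_eq_rpow]
      have h5 : √(k : ℝ) ≤ √(q : ℝ) := Real.sqrt_le_sqrt hkq
      have h6 : 0 < √(k : ℝ) := Real.sqrt_pos.mpr hk0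
      rw [mul_one_div, inv_eq_one_div, div_le_div_iff₀ h6 hk0, one_mul]
      calc (k : ℝ) = √k * √k := (Real.mul_self_sqrt hk0.le).symm
        _ ≤ √q * √k := by gcongr
    calc |cZ q k| * ‖χ (k : ZMod q)‖ ≤ |cZ q k| * 1 := by gcongr
      _ = |cZ q k| := mul_one _
      _ ≤ _ := e3.trans (by linarith)
  refine (Finset.sum_le_sum h1).trans ?_
  rw [Finset.sum_add_distrib, ← Finset.mul_sum, Finset.sum_const, nsmul_eq_mul, Nat.card_Icc]
  have h2 : ∑ k ∈ Icc 1 (q - 1), 1 / (k : ℝ) ≤ 1 + Real.log q := by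
    refine (sum_one_div_le (q - 1)).trans ?_
    have : Real.log ((q - 1 : ℕ) : ℝ) ≤ Real.log q := by
      apply Real.log_le_log
      · have := hqp.one_lt
        exact_mod_cast (by omega : 0 < q - 1)
      · exact_mod_cast Nat.sub_le q 1
    linarith
  have h3 : ((q - 1 + 1 - 1 : ℕ) : ℝ) * (3 / √q) ≤ 3 * √q := by
    have : ((q - 1 + 1 - 1 : ℕ) : ℝ) ≤ q := by exact_mod_cast (by omega)
    calc _ ≤ (q : ℝ) * (3 / √q) := by gcongr
      _ = 3 * (q / √q) := by ring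
      _ = 3 * √q := by rw [Real.div_sqrt]
  nlinarith

/-- the main term of the first moment -/
lemma main_term (z Y : ℕ) (H : Subgroup (ZMod q)ˣ) (χ0 : DirichletCharacter ℂ q) (U : ℝ)
    (hY2 : 2 ≤ Y) (hUY : U ≤ Y) (hYq : Y < q) (P : Finset ℕ)
    (hP : ∀ x, x ∈ P ↔ ∃ m ∈ MfS z Y Y, ∃ k ∈ Icc 1 (q - 1), x = m * k ∧ InC H 1 (m * k) 1)
    [DecidablePred fun i : ℕ × ℕ => InC H 1 (i.1 * i.2) 1] [DecidablePred fun x : ℕ => (x : ℝ) ≤ U ∧
      ∃ r, r.Prime ∧ r ≤ z ∧ r ∣ x] :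
    ‖∑ i ∈ (MfS z Y Y ×ˢ Icc 1 (q - 1)).filter (fun i => InC H 1 (i.1 * i.2) 1),
        ((wS z Y Y i.1 * (((i.1 * i.2 : ℕ) : ℝ)) ^ (-(1 / 2) : ℝ) : ℝ) : ℂ) *
          χ0 ((i.1 * i.2 : ℕ) : ZMod q) - 1‖ ≤
      ∑ x ∈ (P.erase 1).filter (fun x : ℕ => ¬ ((x : ℝ) ≤ U ∧ ∃ r, r.Prime ∧ r ≤ z ∧ r ∣ x)), T0 (x, 1) := by
  classical
  set I := (MfS z Y Y ×ˢ Icc 1 (q - 1)).filter (fun i => InC H 1 (i.1 * i.2) 1) with hI
  have hqp : q.Prime := Fact.out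
  have hmem : ∀ i ∈ I, (1 ≤ i.1 ∧ i.1 ∈ MfS z Y Y) ∧ (1 ≤ i.2 ∧ i.2 ≤ q - 1) ∧ InC H 1 (i.1 * i.2) 1 := by
    intro i hi
    obtain ⟨h1, h2⟩ := Finset.mem_filter.mp hi
    obtain ⟨h3, h4⟩ := Finset.mem_product.mp h1
    exact ⟨⟨(MfS_bounds h3).1, h3⟩, Finset.mem_Icc.mp h4, h2⟩
  have hmaps : ∀ i ∈ I, i.1 * i.2 ∈ P := by
    intro i hi
    obtain ⟨⟨_, h1⟩, h2, h3⟩ := hmem i hi
    exact (hP _).mpr ⟨i.1, h1, i.2, Finset.mem_Icc.mpr h2, rfl, h3⟩
  set β : ℕ → ℝ := fun x => ∑ i ∈ I.filter (fun i => i.1 * i.2 = x), wS z Y Y i.1 with hβ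
  have hsum : ∑ i ∈ I, ((wS z Y Y i.1 * (((i.1 * i.2 : ℕ) : ℝ)) ^ (-(1 / 2) : ℝ) : ℝ) : ℂ) *
          χ0 ((i.1 * i.2 : ℕ) : ZMod q) =
      ∑ x ∈ P, ((β x * (x : ℝ) ^ (-(1 / 2) : ℝ) : ℝ) : ℂ) * χ0 (x : ZMod q) := by
    rw [← Finset.sum_fiberwise_of_maps_to hmaps]
    refine Finset.sum_congr rfl fun x _ => ?_
    simp only [hβ]
    rw [Finset.sum_mul]
    push_cast
    rw [Finset.sum_mul]
    refine Finset.sum_congr rfl fun i hi => ?_
    have := (Finset.mem_filter.mp hi).2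
    rw [← this]
    push_cast
    ring
  have h11 : ((1, 1) : ℕ × ℕ) ∈ I := by
    rw [hI, Finset.mem_filter, Finset.mem_product]
    refine ⟨⟨one_mem_MfS (by omega) hY2, Finset.mem_Icc.mpr ⟨le_rfl, ?_⟩⟩, ?_⟩
    · have := hqp.two_le; omega
    · exact ⟨1, H.one_mem, by simp⟩
  have h1P : 1 ∈ P := by
    have := hmaps _ h11
    simpa using this
  have hβ1 : β 1 = 1 := by
    simp only [hβ]
    have : I.filter (fun i => i.1 * i.2 = 1) = {((1, 1) : ℕ × ℕ)} := by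
      ext i
      rw [Finset.mem_filter, Finset.mem_singleton]
      constructor
      · rintro ⟨_, h⟩
        have h' : i.1 = 1 := Nat.dvd_one.mp ⟨i.2, h.symm⟩
        have h'' : i.2 = 1 := Nat.dvd_one.mp ⟨i.1, by rw [mul_comm]; exact h.symm⟩
        exact Prod.ext h' h''
      · rintro rfl
        exact ⟨h11, by simp⟩
    rw [this, Finset.sum_singleton]
    exact wS_one (by omega) hY2
  rw [hsum, ← Finset.add_sum_erase _ _ h1P, hβ1]
  have e1 : ((1 * ((1 : ℕ) : ℝ) ^ (-(1 / 2) : ℝ) : ℝ) : ℂ) * χ0 ((1 : ℕ) : ZMod q) = 1 := by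
    simp
  rw [e1, add_sub_cancel_left]
  have hP0 : ∀ x ∈ P, x ≠ 0 := by
    intro x hx
    obtain ⟨m, hm, k, hk, rfl, _⟩ := (hP x).mp hx
    exact Nat.mul_ne_zero (by have := (MfS_bounds hm).1; omega)
      (by have := (Finset.mem_Icc.mp hk).1; omega)
  -- vanishing
  have hvan : ∀ x ∈ P.erase 1, ((x : ℝ) ≤ U ∧ ∃ r, r.Prime ∧ r ≤ z ∧ r ∣ x) → β x = 0 := by
    rintro x hx ⟨hxU, r, hr, hrz, hrx⟩
    have hxP := Finset.mem_of_mem_erase hx
    have hx0 := hP0 x hxP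
    have hxY : x ≤ Y := by exact_mod_cast hxU.trans hUY
    have hCx : InC H 1 x 1 := by
      obtain ⟨m, _, k, _, rfl, h⟩ := (hP x).mp hxP
      exact h
    rw [← beta_zero (z := z) hx0 hxY hr hrz hrx, ← Finset.sum_filter]
    simp only [hβ]
    refine Finset.sum_bij' (fun i _ => i.1) (fun m _ => (m, x / m)) ?_ ?_ ?_ ?_ ?_
    · intro i hi
      obtain ⟨h1, h2⟩ := Finset.mem_filter.mp hi
      exact Finset.mem_filter.mpr ⟨(hmem i h1).1.2, ⟨i.2, h2.symm⟩⟩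
    · intro m hm
      obtain ⟨h1, h2⟩ := Finset.mem_filter.mp hm
      have hm1 := (MfS_bounds h1).1
      have h3 : m * (x / m) = x := Nat.mul_div_cancel' h2
      have h4 : m ≤ x := Nat.le_of_dvd (Nat.pos_of_ne_zero hx0) h2
      have h5 : 0 < x / m := Nat.div_pos h4 (by omega)
      have h6 : x / m ≤ x := Nat.div_le_self _ _
      refine Finset.mem_filter.mpr ⟨?_, h3⟩
      rw [hI, Finset.mem_filter, Finset.mem_product]
      refine ⟨⟨h1, Finset.mem_Icc.mpr ⟨by omega, ?_⟩⟩, ?_⟩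
      · show x / m ≤ q - 1
        omega
      · show InC H 1 (m * (x / m)) 1
        rw [h3]; exact hCx
    · intro i hi
      obtain ⟨h1, h2⟩ := Finset.mem_filter.mp hi
      have hm1 := (hmem i h1).1.1
      refine Prod.ext rfl ?_
      show x / i.1 = i.2
      rw [← h2]
      exact Nat.mul_div_cancel_left _ (by omega)
    · intro m _; rfl
    · intro i _; rfl
  have hle : ∀ x ∈ P.erase 1, |β x| ≤ (x.divisors.card : ℝ) := by
    intro x hx
    have hx0 := hP0 x (Finset.mem_of_mem_erase hx)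
    simp only [hβ]
    refine (Finset.abs_sum_le_sum_abs _ _).trans ?_
    calc _ ≤ ∑ _i ∈ I.filter (fun i => i.1 * i.2 = x), (1 : ℝ) :=
          Finset.sum_le_sum fun i _ => abs_wS_le hY2 _
      _ = ((I.filter (fun i => i.1 * i.2 = x)).card : ℝ) := by simp
      _ ≤ _ := by exact_mod_cast card_filter_mul_eq_le I x hx0
  refine (norm_sum_le _ _).trans ?_
  rw [Finset.sum_filter]
  refine Finset.sum_le_sum fun x hx => ?_
  rw [norm_mul, Complex.norm_real, Real.norm_eq_abs, abs_mul,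
    abs_of_nonneg (by positivity : (0 : ℝ) ≤ (x : ℝ) ^ (-(1 / 2) : ℝ))]
  have hchi := norm_chi_le χ0 (x : ZMod q)
  by_cases hc : ((x : ℝ) ≤ U ∧ ∃ r, r.Prime ∧ r ≤ z ∧ r ∣ x)
  · rw [if_neg (not_not.mpr hc), hvan x hx hc]
    simp
  · rw [if_pos hc]
    unfold T0
    simp only [mul_one]
    have h2 := hle x hx
    calc |β x| * (x : ℝ) ^ (-(1 / 2) : ℝ) * ‖χ0 (x : ZMod q)‖
        ≤ (x.divisors.card : ℝ) * (x : ℝ) ^ (-(1 / 2) : ℝ) * 1 := by gcongr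
      _ = _ := mul_one _

end Pool.Agent.H14.PT
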