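import Pool.Agent.H14.PT.S2c

/-!
# The total mollified second moment
-/

set_option linter.unusedSectionVars false

namespace Pool.Agent.H14.PT

open Finset
open scoped ComplexConjugate Real

lemma TT_zero {q : ℕ} [Fact q.Prime] (χ : DirichletCharacter ℂ q) : TT χ 0 = 0 := by
  unfold TT
  have : hyp 0 = ∅ := by
    ext n
    rw [mem_hyp]
    simp only [notMem_empty, iff_false, not_and]
    intro h1 h2 h3
    have := Nat.mul_pos h1 h2
    omega
  rw [this, sum_empty]

/-- the far tail of the weights -/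
lemma pik_far {q : ℕ} [Fact q.Prime] (hB : Big (Real.log q)) (κ : ℕ) {k : ℕ}
    (hk : Real.exp (1.001 * Real.log q) < k) :
    pik q κ k ≤ (Real.Gamma (ex κ + 5000) / Real.Gamma (ex κ)) ^ 2 * (1 / (k : ℝ) ^ 5) := by
  have hqp : q.Prime := Fact.out
  have hq0 : (0 : ℝ) < q := by exact_mod_cast hqp.pos
  have hk0 : (0 : ℝ) < k := lt_trans (Real.exp_pos _) hk
  have h1 := (pik_le (q := q) κ k).trans (Wt_upper (q := q) κ (A := 5000) (by norm_num) hk0)
  refine h1.trans ?_
  refine mul_le_mul_of_nonneg_left ?_ (sq_nonneg _)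
  have hL := hB.hL
  have h2 : 1.001 * Real.log q ≤ Real.log k := by
    have := Real.log_le_log (Real.exp_pos _) hk.le
    rwa [Real.log_exp] at this
  have h3 : (k : ℝ) ^ (1 / 2000 : ℝ) ≤ k / q := by
    rw [le_div_iff₀ hq0]
    calc (k : ℝ) ^ (1 / 2000 : ℝ) * q = Real.exp (Real.log k * (1 / 2000)) * Real.exp (Real.log q) := by
          rw [Real.rpow_def_of_pos hk0, Real.exp_log hq0]
      _ = Real.exp (Real.log k * (1 / 2000) + Real.log q) := by rw [Real.exp_add]
      _ ≤ Real.exp (Real.log k) := Real.exp_le_exp.mpr (by linarith)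
      _ = k := Real.exp_log hk0
  calc ((k : ℝ) / q) ^ (-(2 * 5000) : ℝ) ≤ ((k : ℝ) ^ (1 / 2000 : ℝ)) ^ (-(2 * 5000) : ℝ) := by
        rw [Real.rpow_neg (by positivity), Real.rpow_neg (by positivity)]
        apply inv_anti₀ (by positivity)
        exact Real.rpow_le_rpow (by positivity) h3 (by norm_num)
    _ = (k : ℝ) ^ (-5 : ℝ) := by
        rw [← Real.rpow_mul hk0.le]; norm_num
    _ = 1 / (k : ℝ) ^ 5 := by
        rw [Real.rpow_neg hk0.le, one_div]
        congr 1
        exact_mod_cast Real.rpow_natCast (k : ℝ) 5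

/-- the initial mass of the weights -/
lemma Wt_init {q : ℕ} [Fact q.Prime] (hL2 : 2000 ≤ Real.log q) (κ : ℕ) :
    1 - Wt q κ (⌈Real.exp (0.999 * Real.log q)⌉₊ : ℕ) ≤
      2 / (Real.Gamma (ex κ) * ex κ) * (7 * Real.exp (-(0.00025 * Real.log q))) := by
  have hqp : q.Prime := Fact.out
  have hq0 : (0 : ℝ) < q := by exact_mod_cast hqp.pos
  have hG := Real.Gamma_pos_of_pos (ex_pos κ)
  have hex := ex_pos κ
  set L := Real.log q with hL
  set K : ℕ := ⌈Real.exp (0.999 * L)⌉₊ with hK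
  have h1 := Wt_lower (q := q) κ (x := (K : ℝ)) (by positivity)
  refine h1.trans ?_
  refine mul_le_mul_of_nonneg_left ?_ (by positivity)
  have hK1 : (K : ℝ) ≤ 2 * Real.exp (0.999 * L) := by
    have h2 : (K : ℝ) < Real.exp (0.999 * L) + 1 := Nat.ceil_lt_add_one (Real.exp_pos _).le
    have h3 : 1 ≤ Real.exp (0.999 * L) := Real.one_le_exp (by linarith)
    linarith
  have hqe : (q : ℝ) = Real.exp L := (Real.exp_log hq0).symm
  have h4 : π * K / q ≤ 7 * Real.exp (-(0.001 * L)) := by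
    rw [div_le_iff₀ hq0, hqe, mul_assoc, ← Real.exp_add]
    have hp : π < 3.15 := Real.pi_lt_d2
    have e1 : Real.exp (-(0.001 * L) + L) = Real.exp (0.999 * L) := by congr 1; ring
    rw [e1]
    have := Real.exp_pos (0.999 * L)
    calc π * K ≤ 3.15 * (2 * Real.exp (0.999 * L)) := by gcongr
      _ ≤ _ := by nlinarith
  have h5 : 7 * Real.exp (-(0.001 * L)) ≤ 1 := by
    have e1 : Real.exp (-(0.001 * L)) ≤ Real.exp (-2) := Real.exp_le_exp.mpr (by linarith)
    have e2 : Real.exp (-2) * Real.exp 2 = 1 := by rw [← Real.exp_add]; norm_num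
    have e3 : 7 ≤ Real.exp 2 := by
      have := Real.exp_one_gt_d9
      have e4 : Real.exp 2 = Real.exp 1 * Real.exp 1 := by rw [← Real.exp_add]; norm_num
      rw [e4]
      nlinarith
    have e5 := Real.exp_pos (-2)
    nlinarith
  have hex4 : 1 / 4 ≤ ex κ := by unfold ex; have : (0 : ℝ) ≤ κ := by positivity
                                 linarith
  have hpos : 0 < 7 * Real.exp (-(0.001 * L)) := by positivity
  calc (π * K / q) ^ (ex κ) ≤ (7 * Real.exp (-(0.001 * L))) ^ (ex κ) :=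
        Real.rpow_le_rpow (by positivity) h4 hex.le
    _ ≤ (7 * Real.exp (-(0.001 * L))) ^ (1 / 4 : ℝ) :=
        Real.rpow_le_rpow_of_exponent_ge hpos h5 hex4
    _ = (7 : ℝ) ^ (1 / 4 : ℝ) * (Real.exp (-(0.001 * L))) ^ (1 / 4 : ℝ) :=
        Real.mul_rpow (by norm_num) (Real.exp_pos _).le
    _ ≤ 7 * Real.exp (-(0.00025 * L)) := by
        have e1 : (Real.exp (-(0.001 * L))) ^ (1 / 4 : ℝ) = Real.exp (-(0.00025 * L)) := by
          rw [← Real.exp_mul]; congr 1; ring
        have e2 : (7 : ℝ) ^ (1 / 4 : ℝ) ≤ (7 : ℝ) ^ (1 : ℝ) :=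
          Real.rpow_le_rpow_of_exponent_le (by norm_num) (by norm_num)
        rw [Real.rpow_one] at e2
        rw [e1]
        gcongr

/-- the mollified second moment -/
theorem S2_total (ε : ℝ) (hε : 0 < ε) (hε1 : ε ≤ 1 / 3) : ∃ C Q0 : ℝ, 0 < C ∧ ∀ (q : ℕ) [Fact q.Prime],
    Q0 ≤ Real.log q → Big (Real.log q) → ∀ (X : Subgroup (DirichletCharacter ℂ q))
    (χ0 : DirichletCharacter ℂ q) (κ : ℕ),
    Real.log (Nat.card (ann X)) ≤ (1 / 3 - ε) * Real.log q →
    (∀ χ ∈ Xs X, Par κ (χ0 * χ)) →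
    ∑ χ ∈ Xn X χ0, ‖Mol (MfS (zz (Real.log q)) (YY (Real.log q)) (YY (Real.log q)))
        (wS (zz (Real.log q)) (YY (Real.log q)) (YY (Real.log q))) (χ0 * χ)‖ ^ 2 *
        ‖DirichletCharacter.LFunction (χ0 * χ) (1 / 2)‖ ^ 2 ≤ C * (Xs X).card := by
  obtain ⟨C2, Q1, hC2, hG⟩ := G_bounds ε hε hε1
  set c1 : ℝ := 2 / (Real.Gamma (ex 0) * ex 0) + 2 / (Real.Gamma (ex 1) * ex 1) with hc1
  set D : ℝ := (Real.Gamma (ex 0 + 5000) / Real.Gamma (ex 0)) ^ 2 +
    (Real.Gamma (ex 1 + 5000) / Real.Gamma (ex 1)) ^ 2 with hD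
  have hsq : Summable (fun k : ℕ => 1 / (k : ℝ) ^ 2) :=
    Real.summable_one_div_nat_pow.mpr (by norm_num)
  set S : ℝ := ∑' k : ℕ, 1 / (k : ℝ) ^ 2 with hS
  have hSnn : 0 ≤ S := tsum_nonneg fun k => by positivity
  have hexp0 := Real.Gamma_pos_of_pos (ex_pos 0)
  have hexp1 := Real.Gamma_pos_of_pos (ex_pos 1)
  have hex0 := ex_pos 0
  have hex1 := ex_pos 1
  have hc1nn : 0 ≤ c1 := by positivity
  have hDnn : 0 ≤ D := by positivity
  refine ⟨28 * c1 + 2 * C2 + 2 * D * S, max Q1 2000, by positivity, ?_⟩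
  intro q _ hq hB X χ0 κ hH hpar
  have hq1 : Q1 ≤ Real.log q := (le_max_left _ _).trans hq
  have hq2 : 2000 ≤ Real.log q := (le_max_right _ _).trans hq
  have hG' := hG q hq1 hB X χ0 hH
  have hκ1 : κ = 0 ∨ κ = 1 := by
    have h1 : (1 : DirichletCharacter ℂ q) ∈ Xs X := mem_Xs.mpr X.one_mem
    rcases hpar 1 h1 with h | h
    · exact Or.inl h.1
    · exact Or.inr h.1
  have hDκ : (Real.Gamma (ex κ + 5000) / Real.Gamma (ex κ)) ^ 2 ≤ D := by
    rcases hκ1 with rfl | rfl
    · rw [hD]; linarith [sq_nonneg (Real.Gamma (ex 1 + 5000) / Real.Gamma (ex 1))]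
    · rw [hD]; linarith [sq_nonneg (Real.Gamma (ex 0 + 5000) / Real.Gamma (ex 0))]
  have hcκ : 2 / (Real.Gamma (ex κ) * ex κ) ≤ c1 := by
    rcases hκ1 with rfl | rfl
    · rw [hc1]; have : 0 ≤ 2 / (Real.Gamma (ex 1) * ex 1) := by positivity
      linarith
    · rw [hc1]; have : 0 ≤ 2 / (Real.Gamma (ex 0) * ex 0) := by positivity
      linarith
  set L := Real.log q with hL
  set Y := YY L with hY
  set z := zz L with hz
  have hY2 : 2 ≤ Y := hB.z_two.trans hB.zY
  have hYhi := hB.Y_hi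
  have hXc : (0 : ℝ) ≤ ((Xs X).card : ℝ) := by positivity
  set B1 : ℝ := 2 * Real.exp (3 / 10 ^ 8 * L) * (Xs X).card with hB1
  set B2 : ℝ := C2 * (Xs X).card with hB2
  set G : ℕ → ℂ := fun k => ∑ χ ∈ Xn X χ0, ((‖Mol (MfS z Y Y) (wS z Y Y) (χ0 * χ)‖ ^ 2 : ℝ) : ℂ) *
    TT (χ0 * χ) k with hGdef
  set K1 : ℕ := ⌈Real.exp (0.999 * L)⌉₊ with hK1
  -- the series
  have hsum : HasSum (fun k : ℕ => pik q κ k * (2 * (G k).re))
      (∑ χ ∈ Xn X χ0, ‖Mol (MfS z Y Y) (wS z Y Y) (χ0 * χ)‖ ^ 2 *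
        ‖DirichletCharacter.LFunction (χ0 * χ) (1 / 2)‖ ^ 2) := by
    have h1 : HasSum (fun k : ℕ => ∑ χ ∈ Xn X χ0, ‖Mol (MfS z Y Y) (wS z Y Y) (χ0 * χ)‖ ^ 2 *
        (pik q κ k * (2 * (TT (χ0 * χ) k).re)))
        (∑ χ ∈ Xn X χ0, ‖Mol (MfS z Y Y) (wS z Y Y) (χ0 * χ)‖ ^ 2 *
        ‖DirichletCharacter.LFunction (χ0 * χ) (1 / 2)‖ ^ 2) := by
      apply hasSum_sum
      intro χ hχ
      have hχ' : χ ∈ Xs X ∧ χ0 * χ ≠ 1 := by
        unfold Xn at hχ
        exact Finset.mem_filter.mp hχ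
      exact (afe_discrete hχ'.2 (hpar χ hχ'.1)).mul_left _
    refine h1.congr_fun fun k => ?_
    simp only [hGdef]
    rw [Complex.re_sum, Finset.mul_sum, Finset.mul_sum]
    refine Finset.sum_congr rfl fun χ _ => ?_
    rw [Complex.re_ofReal_mul]
    ring
  -- majorants
  have hu : HasSum (fun k : ℕ => if k < K1 then pik q κ k * (2 * B1) else 0) ((1 - Wt q κ K1) * (2 * B1)) := by
    have h1 : ∀ k ∉ range K1, (if k < K1 then pik q κ k * (2 * B1) else 0) = 0 := by
      intro k hk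
      rw [if_neg (by simpa using hk)]
    have h2 : HasSum (fun k : ℕ => if k < K1 then pik q κ k * (2 * B1) else 0)
        (∑ k ∈ range K1, if k < K1 then pik q κ k * (2 * B1) else 0) :=
      hasSum_sum_of_ne_finset_zero h1
    convert h2 using 1
    rw [← sum_pik_range, Finset.sum_mul]
    refine Finset.sum_congr rfl fun k hk => ?_
    rw [if_pos (by simpa using hk)]
  have hv : HasSum (fun k : ℕ => pik q κ k * (2 * B2)) (1 * (2 * B2)) := (hasSum_pik κ).mul_right _
  have hw : HasSum (fun k : ℕ => (2 * D * (Xs X).card) * (1 / (k : ℝ) ^ 2)) ((2 * D * (Xs X).card) * S) :=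
    hsq.hasSum.mul_left _
  have hall := (hu.add hv).add hw
  have hle := hasSum_le (fun k => ?_) hsum hall
  · refine hle.trans ?_
    have h1 := Wt_init (q := q) hq2 κ
    rw [← hL, ← hK1] at h1
    have h2 : (1 - Wt q κ K1) * (2 * B1) ≤ 28 * c1 * (Xs X).card := by
      have h3 : 1 - Wt q κ K1 ≤ c1 * (7 * Real.exp (-(0.00025 * L))) := by
        refine h1.trans ?_
        gcongr
      have h4 : Real.exp (-(0.00025 * L)) * Real.exp (3 / 10 ^ 8 * L) ≤ 1 := by
        rw [← Real.exp_add]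
        apply Real.exp_le_one_iff.mpr
        nlinarith
      calc (1 - Wt q κ K1) * (2 * B1) ≤ (c1 * (7 * Real.exp (-(0.00025 * L)))) * (2 * B1) := by
            gcongr
        _ = (Real.exp (-(0.00025 * L)) * Real.exp (3 / 10 ^ 8 * L)) * (28 * c1 * (Xs X).card) := by
            rw [hB1]; ring
        _ ≤ 1 * (28 * c1 * (Xs X).card) := by
            gcongr
        _ = _ := by ring
    rw [hB2]
    calc _ ≤ 28 * c1 * (Xs X).card + 1 * (2 * (C2 * (Xs X).card)) + (2 * D * (Xs X).card) * S := by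
          linarith
      _ = _ := by ring
  · -- termwise
    have hpn := pik_nonneg (q := q) κ k
    have hB1n : 0 ≤ B1 := by rw [hB1]; positivity
    have hB2n : 0 ≤ B2 := by rw [hB2]; positivity
    have hwn : 0 ≤ (2 * D * (Xs X).card) * (1 / (k : ℝ) ^ 2) := by positivity
    have hun : 0 ≤ (if k < K1 then pik q κ k * (2 * B1) else 0) := by
      split_ifs
      · positivity
      · exact le_rfl
    have hvn : 0 ≤ pik q κ k * (2 * B2) := by positivity
    have hre : (G k).re ≤ ‖G k‖ := Complex.re_le_norm _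
    rcases Nat.eq_zero_or_pos k with rfl | hk
    · have : G 0 = 0 := by
        simp only [hGdef]
        simp [TT_zero]
      rw [this]
      simp only [Complex.zero_re, mul_zero]
      linarith
    · by_cases hk2 : (k : ℝ) ≤ Real.exp (1.001 * L)
      · obtain ⟨g1, g2⟩ := hG' k hk hk2
        by_cases hk3 : Real.exp (0.999 * L) ≤ k
        · have g3 := g2 hk3
          have : pik q κ k * (2 * (G k).re) ≤ pik q κ k * (2 * B2) := by
            refine mul_le_mul_of_nonneg_left ?_ hpn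
            have : ‖G k‖ ≤ B2 := g3
            linarith
          linarith
        · push Not at hk3
          have hk4 : k < K1 := by
            rw [hK1]
            exact Nat.lt_ceil.mpr hk3
          have : pik q κ k * (2 * (G k).re) ≤ (if k < K1 then pik q κ k * (2 * B1) else 0) := by
            rw [if_pos hk4]
            refine mul_le_mul_of_nonneg_left ?_ hpn
            have : ‖G k‖ ≤ B1 := g1
            linarith
          linarith
      · push Not at hk2
        have hk0 : (0 : ℝ) < k := by exact_mod_cast hk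
        have hfar := pik_far (q := q) hB κ hk2
        have hGk : ‖G k‖ ≤ (Xs X).card * (k : ℝ) ^ 3 := by
          simp only [hGdef]
          calc _ ≤ ∑ χ ∈ Xn X χ0, ‖((‖Mol (MfS z Y Y) (wS z Y Y) (χ0 * χ)‖ ^ 2 : ℝ) : ℂ) * TT (χ0 * χ) k‖ :=
                norm_sum_le _ _
            _ ≤ ∑ χ ∈ Xn X χ0, (k : ℝ) ^ 3 := by
                refine Finset.sum_le_sum fun χ _ => ?_
                rw [norm_mul, Complex.norm_real, Real.norm_of_nonneg (by positivity)]
                have h1 := norm_Mol_le (MfS z Y Y) (wS z Y Y) (χ0 * χ) (Y := Y * Y)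
                  (fun m hm => MfS_bounds hm) (fun m => abs_wS_le hY2 m)
                have h2 := norm_TT_le (χ0 * χ) k
                have h3 : (((Y * Y : ℕ) : ℝ)) ^ 2 ≤ k := by
                  push_cast
                  calc ((Y : ℝ) * Y) ^ 2 ≤ (Real.exp (L / 1000) * Real.exp (L / 1000)) ^ 2 := by gcongr
                    _ = Real.exp (4 * (L / 1000)) := by
                        rw [← Real.exp_add, ← Real.exp_nat_mul]; congr 1; push_cast; ring
                    _ ≤ Real.exp (1.001 * L) := Real.exp_le_exp.mpr (by linarith)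
                    _ ≤ k := hk2.le
                calc ‖Mol (MfS z Y Y) (wS z Y Y) (χ0 * χ)‖ ^ 2 * ‖TT (χ0 * χ) k‖
                    ≤ (((Y * Y : ℕ) : ℝ)) ^ 2 * (k : ℝ) ^ 2 := by gcongr
                  _ ≤ k * (k : ℝ) ^ 2 := by gcongr
                  _ = (k : ℝ) ^ 3 := by ring
            _ = ((Xn X χ0).card : ℝ) * (k : ℝ) ^ 3 := by rw [Finset.sum_const, nsmul_eq_mul]
            _ ≤ _ := by
                have : (Xn X χ0).card ≤ (Xs X).card := by
                  unfold Xn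
                  exact Finset.card_filter_le _ _
                gcongr
        have : pik q κ k * (2 * (G k).re) ≤ (2 * D * (Xs X).card) * (1 / (k : ℝ) ^ 2) := by
          calc pik q κ k * (2 * (G k).re) ≤ pik q κ k * (2 * ((Xs X).card * (k : ℝ) ^ 3)) := by
                refine mul_le_mul_of_nonneg_left ?_ hpn
                linarith
            _ ≤ (D * (1 / (k : ℝ) ^ 5)) * (2 * ((Xs X).card * (k : ℝ) ^ 3)) := by
                refine mul_le_mul_of_nonneg_right (hfar.trans ?_) (by positivity)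
                gcongr
            _ = _ := by
                field_simp
        linarith

end Pool.Agent.H14.PT
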