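import Pool.Agent.H14.PT.Count

/-!
# The `k`-fold product trick
-/

namespace Pool.Agent.H14.PT

open Finset
open scoped ArithmeticFunction.Omega

/-- number of ordered factorisations into `k` factors -/
def dk (k x : ℕ) : ℕ := (Nat.finMulAntidiag k x).card

lemma dk_le_tau (k x : ℕ) : dk k x ≤ x.divisors.card ^ k := by
  classical
  unfold dk
  have h : Nat.finMulAntidiag k x ⊆ Fintype.piFinset (fun _ : Fin k => x.divisors) := by
    intro f hf
    rw [Fintype.mem_piFinset]
    intro i
    rw [Nat.mem_divisors]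
    refine ⟨Nat.dvd_of_mem_finMulAntidiag hf i, ?_⟩
    exact (Nat.mem_finMulAntidiag.mp hf).2
  calc _ ≤ _ := Finset.card_le_card h
    _ = _ := by simp [Fintype.card_piFinset]

lemma dk_mul_prime_le (k p y : ℕ) (hp : p.Prime) : dk k (p * y) ≤ k * dk k y := by
  classical
  unfold dk
  have h : Nat.finMulAntidiag k (p * y) ⊆
      ((Finset.univ : Finset (Fin k)) ×ˢ Nat.finMulAntidiag k y).image
        (fun x => Function.update x.2 x.1 (p * x.2 x.1)) := by
    intro f hf
    obtain ⟨hf1, hf2⟩ := Nat.mem_finMulAntidiag.mp hf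
    have hpd : p ∣ ∏ i, f i := by rw [hf1]; exact Dvd.intro _ rfl
    obtain ⟨i, _, hi⟩ := (Prime.dvd_finset_prod_iff hp.prime _).mp hpd
    obtain ⟨c, hc⟩ := hi
    rw [mem_image]
    refine ⟨(i, Function.update f i c), ?_, ?_⟩
    · rw [mem_product]
      refine ⟨mem_univ _, ?_⟩
      rw [Nat.mem_finMulAntidiag]
      have hy : y ≠ 0 := by
        rintro rfl; simp at hf2
      refine ⟨?_, hy⟩
      have h1 : p * ∏ j, Function.update f i c j = p * y := by
        rw [← hf1, Finset.prod_update_of_mem (mem_univ i), ← mul_assoc, ← hc]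
        rw [← Finset.mul_prod_erase _ _ (mem_univ i)]
        congr 1
        refine Finset.prod_congr ?_ fun _ _ => rfl
        ext; simp
      exact Nat.eq_of_mul_eq_mul_left hp.pos h1
    · simp only [Function.update_self, Function.update_idem]
      rw [← hc, Function.update_eq_self]
  calc _ ≤ _ := Finset.card_le_card h
    _ ≤ _ := Finset.card_image_le
    _ = _ := by rw [Finset.card_product, Finset.card_univ, Fintype.card_fin]

lemma dk_one (k : ℕ) : dk k 1 = 1 := by
  unfold dk
  rw [Nat.finMulAntidiag_one]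
  simp

lemma dk_le_pow (k : ℕ) : ∀ x : ℕ, x ≠ 0 → dk k x ≤ k ^ (Ω x) := by
  intro x
  induction x using Nat.recOnMul with
  | zero => intro h; exact absurd rfl h
  | one => intro _; rw [dk_one]; simp
  | prime p hp =>
    intro _
    have := dk_mul_prime_le k p 1 hp
    rw [mul_one, dk_one, mul_one] at this
    rw [ArithmeticFunction.cardFactors_apply_prime hp, pow_one]
    exact this
  | mul a b ha hb =>
    intro hab
    have ha0 : a ≠ 0 := left_ne_zero_of_mul hab
    have hb0 : b ≠ 0 := right_ne_zero_of_mul hab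
    -- multiply the primes of `a` one at a time onto `b`
    have key : ∀ a : ℕ, a ≠ 0 → dk k (a * b) ≤ k ^ (Ω a) * dk k b := by
      intro a
      induction a using induction_on_primes with
      | zero => intro h; exact absurd rfl h
      | one => intro _; simp
      | prime_mul p c hp ih =>
        intro hpc
        have hc : c ≠ 0 := right_ne_zero_of_mul hpc
        rw [mul_assoc, ArithmeticFunction.cardFactors_mul hp.ne_zero hc,
          ArithmeticFunction.cardFactors_apply_prime hp, pow_add, pow_one]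
        calc dk k (p * (c * b)) ≤ k * dk k (c * b) := dk_mul_prime_le k p _ hp
          _ ≤ k * (k ^ (Ω c) * dk k b) := Nat.mul_le_mul_left _ (ih hc)
          _ = _ := by ring
    rw [ArithmeticFunction.cardFactors_mul ha0 hb0, pow_add]
    calc dk k (a * b) ≤ k ^ (Ω a) * dk k b := key a ha0
      _ ≤ _ := Nat.mul_le_mul_left _ (hb hb0)

/-- the `k`-fold product bound -/
theorem kfold {q : ℕ} [NeZero q] (H : Subgroup (ZMod q)ˣ) (g : ZMod q) (P : Finset (ℕ × ℕ))
    (A B : ℝ) (hA : 0 < A) (hB : 0 < B) (k : ℕ)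
    (hcop : ∀ p ∈ P, ∀ p' ∈ P, Nat.Coprime p.1 p'.2)
    (hbox : ∀ p ∈ P, (p.1 : ℝ) ≤ 2 * A ∧ B ≤ (p.2 : ℝ) ∧ (p.2 : ℝ) ≤ 2 * B ∧ InC H g p.1 p.2)
    (hne : ∀ p ∈ P, p.1 ≠ 0 ∧ p.2 ≠ 0)
    (D : ℕ) (hD : ∀ t : Fin k → ℕ × ℕ, (∀ i, t i ∈ P) →
      dk k (∏ i, (t i).1) * dk k (∏ i, (t i).2) ≤ D) :
    (P.card : ℝ) ^ k ≤ D * (Nat.card H * (1 + (8 * A * B) ^ k / q)) := by
  classical
  set T : Finset (Fin k → ℕ × ℕ) := Fintype.piFinset (fun _ => P) with hT
  set Φ : (Fin k → ℕ × ℕ) → ℕ × ℕ := fun t => (∏ i, (t i).1, ∏ i, (t i).2) with hΦ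
  have hTcard : T.card = P.card ^ k := by
    rw [hT, Fintype.card_piFinset]; simp
  have hmem : ∀ t ∈ T, ∀ i, t i ∈ P := fun t ht i => Fintype.mem_piFinset.mp ht i
  have hfib : ∀ b ∈ T.image Φ, (T.filter (fun t => Φ t = b)).card ≤ D := by
    intro b hb
    obtain ⟨t, ht, rfl⟩ := mem_image.mp hb
    refine le_trans ?_ (hD t (hmem t ht))
    unfold dk
    rw [← Finset.card_product]
    refine Finset.card_le_card_of_injOn (fun s => (fun i => (s i).1, fun i => (s i).2)) ?_ ?_
    · intro s hs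
      have hs' := Finset.mem_filter.mp (Finset.mem_coe.mp hs)
      simp only [hΦ, Prod.mk.injEq] at hs'
      simp only [coe_product, Set.mem_prod, mem_coe, Nat.mem_finMulAntidiag]
      refine ⟨⟨hs'.2.1, ?_⟩, hs'.2.2, ?_⟩
      · exact Finset.prod_ne_zero_iff.mpr fun i _ => (hne _ (hmem t ht i)).1
      · exact Finset.prod_ne_zero_iff.mpr fun i _ => (hne _ (hmem t ht i)).2
    · intro s _ s' _ hss
      simp only [Prod.mk.injEq] at hss
      funext i
      exact Prod.ext (congrFun hss.1 i) (congrFun hss.2 i)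
  have h1 := Finset.card_le_mul_card_image T D hfib
  have h2 : ((T.image Φ).card : ℝ) ≤ Nat.card H * (1 + (2 : ℝ) ^ k * (2 * A) ^ k * (2 * B) ^ k / q) := by
    refine coset_count H (g ^ k) _ ((2 * A) ^ k) ((2 * B) ^ k) (2 ^ k) (by positivity) (by positivity)
      (by positivity) ?_
    intro b hb
    obtain ⟨t, ht, rfl⟩ := mem_image.mp hb
    have htm := hmem t ht
    simp only [hΦ]
    refine ⟨?_, ?_, ?_, ?_, ?_⟩
    · exact Nat.Coprime.prod_left fun i _ => Nat.Coprime.prod_right fun j _ =>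
        hcop _ (htm i) _ (htm j)
    · push_cast
      calc ∏ i, ((t i).1 : ℝ) ≤ ∏ _i : Fin k, (2 * A) :=
            Finset.prod_le_prod (fun i _ => by positivity) fun i _ => (hbox _ (htm i)).1
        _ = (2 * A) ^ k := by simp
    · push_cast
      calc (2 * B) ^ k / 2 ^ k = ∏ _i : Fin k, B := by
            rw [Finset.prod_const, Finset.card_univ, Fintype.card_fin, mul_pow]
            field_simp
        _ ≤ ∏ i, ((t i).2 : ℝ) :=
            Finset.prod_le_prod (fun i _ => hB.le) fun i _ => (hbox _ (htm i)).2.1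
    · push_cast
      calc ∏ i, ((t i).2 : ℝ) ≤ ∏ _i : Fin k, (2 * B) :=
            Finset.prod_le_prod (fun i _ => by positivity) fun i _ => (hbox _ (htm i)).2.2.1
        _ = (2 * B) ^ k := by simp
    · exact InC.prod fun i => (hbox _ (htm i)).2.2.2
  rw [hTcard] at h1
  have h1' : (P.card : ℝ) ^ k ≤ D * (T.image Φ).card := by exact_mod_cast h1
  refine h1'.trans ?_
  have h3 : (2 : ℝ) ^ k * (2 * A) ^ k * (2 * B) ^ k = (8 * A * B) ^ k := by
    rw [← mul_pow, ← mul_pow]; congr 1; ring
  rw [h3] at h2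
  exact mul_le_mul_of_nonneg_left h2 (by positivity)

end Pool.Agent.H14.PT
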