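import Pool.Agent.H14.PT.S1c

/-!
# Positive proportion of nonvanishing in cosets of thin groups of characters
-/

set_option linter.unusedSectionVars false

namespace Pool.Agent.H14.PT

open Finset
open scoped ComplexConjugate Real

/-- coset of fixed parity -/
theorem count_par (ε : ℝ) (hε : 0 < ε) (hε1 : ε ≤ 1 / 3) : ∃ c Q0 : ℝ, 0 < c ∧ ∀ (q : ℕ) [Fact q.Prime],
    Q0 ≤ Real.log q → ∀ (X : Subgroup (DirichletCharacter ℂ q)) (χ0 : DirichletCharacter ℂ q) (κ : ℕ),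
    Real.log (Nat.card (ann X)) ≤ (1 / 3 - ε) * Real.log q →
    (∀ χ ∈ Xs X, Par κ (χ0 * χ)) → ∀ (S : Finset (DirichletCharacter ℂ q)),
    (∀ χ ∈ X, χ0 * χ ≠ 1 → (χ0 * χ).LFunction (1 / 2) ≠ 0 → χ0 * χ ∈ S) →
    c * (Xs X).card ≤ (S.card : ℝ) := by
  classical
  obtain ⟨C, Q1, hC, hS2⟩ := S2_total ε hε hε1
  obtain ⟨Q2, hS1⟩ := S1_total ε hε hε1
  obtain ⟨Q3, _, hbig⟩ := big_facts
  refine ⟨1 / (4 * C), max (max Q1 Q2) Q3, by positivity, ?_⟩
  intro q _ hq X χ0 κ hH hpar S hS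
  have hq1 : Q1 ≤ Real.log q := (le_max_left _ _).trans ((le_max_left _ _).trans hq)
  have hq2 : Q2 ≤ Real.log q := (le_max_right _ _).trans ((le_max_left _ _).trans hq)
  have hB : Big (Real.log q) := hbig _ ((le_max_right _ _).trans hq)
  have h2 := hS2 q hq1 hB X χ0 κ hH hpar
  have h1 := hS1 q hq2 hB X χ0 hH
  set f : DirichletCharacter ℂ q → ℂ := fun χ =>
    Mol (MfS (zz (Real.log q)) (YY (Real.log q)) (YY (Real.log q)))
        (wS (zz (Real.log q)) (YY (Real.log q)) (YY (Real.log q))) (χ0 * χ) *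
        DirichletCharacter.LFunction (χ0 * χ) (1 / 2) with hf
  have hcs := sq_norm_sum_le (Xn X χ0) f
  have hf2 : ∑ χ ∈ Xn X χ0, ‖f χ‖ ^ 2 ≤ C * (Xs X).card := by
    refine le_trans (le_of_eq ?_) h2
    refine Finset.sum_congr rfl fun χ _ => ?_
    simp only [hf]
    rw [norm_mul, mul_pow]
  have hcard : ((Xn X χ0).filter fun χ => f χ ≠ 0).card ≤ S.card := by
    refine Finset.card_le_card_of_injOn (fun χ => χ0 * χ) ?_ ?_
    · intro χ hχ
      obtain ⟨a1, a2⟩ := Finset.mem_filter.mp (Finset.mem_coe.mp hχ)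
      unfold Xn at a1
      obtain ⟨a3, a4⟩ := Finset.mem_filter.mp a1
      refine Finset.mem_coe.mpr (hS χ (mem_Xs.mp a3) a4 ?_)
      intro h0
      apply a2
      simp only [hf]
      rw [h0, mul_zero]
    · intro χ _ χ' _ h
      exact mul_left_cancel h
  have hXpos : (0 : ℝ) < (Xs X).card := by exact_mod_cast card_Xs_pos X
  have hnn : 0 ≤ ‖∑ χ ∈ Xn X χ0, f χ‖ := norm_nonneg _
  have h3 : ((Xs X).card : ℝ) ^ 2 / 4 ≤ ‖∑ χ ∈ Xn X χ0, f χ‖ ^ 2 := by
    have : ((Xs X).card : ℝ) / 2 ≤ ‖∑ χ ∈ Xn X χ0, f χ‖ := h1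
    nlinarith
  have hScard : (((Xn X χ0).filter fun χ => f χ ≠ 0).card : ℝ) ≤ S.card := by exact_mod_cast hcard
  have h4 : ((Xs X).card : ℝ) ^ 2 / 4 ≤ (S.card : ℝ) * (C * (Xs X).card) := by
    refine h3.trans (hcs.trans ?_)
    have h5 : 0 ≤ ∑ χ ∈ Xn X χ0, ‖f χ‖ ^ 2 := Finset.sum_nonneg fun _ _ => by positivity
    calc _ ≤ (S.card : ℝ) * ∑ χ ∈ Xn X χ0, ‖f χ‖ ^ 2 := by gcongr
      _ ≤ _ := by gcongr
  have h5 : ((Xs X).card : ℝ) / 4 ≤ S.card * C := by
    have h6 : ((Xs X).card : ℝ) / 4 * (Xs X).card ≤ (S.card * C) * (Xs X).card := by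
      calc _ = ((Xs X).card : ℝ) ^ 2 / 4 := by ring
        _ ≤ _ := h4
        _ = _ := by ring
    exact le_of_mul_le_mul_right h6 hXpos
  rw [div_mul_eq_mul_div, one_mul, div_le_iff₀ (by positivity)]
  linarith

/-- the even characters of a group -/
def evenPart {q : ℕ} (X : Subgroup (DirichletCharacter ℂ q)) : Subgroup (DirichletCharacter ℂ q) where
  carrier := {χ | χ ∈ X ∧ χ (-1) = 1}
  mul_mem' := by
    rintro a b ⟨ha, ha'⟩ ⟨hb, hb'⟩
    exact ⟨X.mul_mem ha hb, by rw [MulChar.mul_apply, ha', hb', one_mul]⟩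
  one_mem' := ⟨X.one_mem, by
    rw [MulChar.one_apply]
    exact isUnit_one.neg⟩
  inv_mem' := by
    rintro a ⟨ha, ha'⟩
    refine ⟨X.inv_mem ha, ?_⟩
    have h : (a * a⁻¹) (-1) = (1 : DirichletCharacter ℂ q) (-1) := by rw [mul_inv_cancel]
    rw [MulChar.mul_apply, ha', one_mul, MulChar.one_apply isUnit_one.neg] at h
    exact h

lemma card_evenPart {q : ℕ} [Fact q.Prime] (X : Subgroup (DirichletCharacter ℂ q)) :
    (Xs X).card ≤ 2 * (Xs (evenPart X)).card := by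
  classical
  have h1 : (Xs X).filter (fun χ => χ (-1) = 1) = Xs (evenPart X) := by
    ext χ
    rw [Finset.mem_filter, mem_Xs, mem_Xs]
    rfl
  have h2 : (Xs X).card = ((Xs X).filter (fun χ => χ (-1) = 1)).card +
      ((Xs X).filter (fun χ => ¬ χ (-1) = 1)).card :=
    (Finset.card_filter_add_card_filter_not _).symm
  have hodd : ∀ χ : DirichletCharacter ℂ q, ¬ χ (-1) = 1 → χ (-1) = -1 := by
    intro χ h
    rcases χ.even_or_odd with h3 | h3
    · exact absurd h3 h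
    · exact h3
  have h3 : ((Xs X).filter (fun χ => ¬ χ (-1) = 1)).card ≤ (Xs (evenPart X)).card := by
    rcases ((Xs X).filter (fun χ => ¬ χ (-1) = 1)).eq_empty_or_nonempty with he | ⟨ψ, hψ⟩
    · rw [he, Finset.card_empty]; exact Nat.zero_le _
    · obtain ⟨p1, p2⟩ := Finset.mem_filter.mp hψ
      refine Finset.card_le_card_of_injOn (fun χ => ψ * χ) ?_ ?_
      · intro χ hχ
        obtain ⟨a1, a2⟩ := Finset.mem_filter.mp (Finset.mem_coe.mp hχ)
        refine Finset.mem_coe.mpr (mem_Xs.mpr ⟨X.mul_mem (mem_Xs.mp p1) (mem_Xs.mp a1), ?_⟩)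
        rw [MulChar.mul_apply, hodd _ p2, hodd _ a2]
        norm_num
      · intro χ _ χ' _ h
        exact mul_left_cancel h
  rw [h1] at h2
  omega

/-- **positive proportion of nonvanishing in every coset of a thin group of characters** -/
theorem count_coset (ε : ℝ) (hε : 0 < ε) (hε1 : ε ≤ 1 / 3) :
    ∃ c Q0 : ℝ, 0 < c ∧ ∀ (q : ℕ) [Fact q.Prime], Q0 ≤ Real.log q →
    ∀ (X : Subgroup (DirichletCharacter ℂ q)) (χ0 : DirichletCharacter ℂ q),
    (q : ℝ) ^ (2 / 3 + ε) ≤ Nat.card X → ∀ (S : Finset (DirichletCharacter ℂ q)),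
    (∀ χ ∈ X, χ0 * χ ≠ 1 → (χ0 * χ).LFunction (1 / 2) ≠ 0 → χ0 * χ ∈ S) →
    c * Nat.card X ≤ (S.card : ℝ) := by
  classical
  obtain ⟨c, Q1, hc, hmain⟩ := count_par (ε / 2) (by positivity) (by linarith)
  refine ⟨c / 2, max Q1 (2 / ε), by positivity, ?_⟩
  intro q _ hq X χ0 hX S hS
  have hqp : q.Prime := Fact.out
  have hq0 : (0 : ℝ) < q := by exact_mod_cast hqp.pos
  have hq1 : Q1 ≤ Real.log q := (le_max_left _ _).trans hq
  have hq2 : 2 / ε ≤ Real.log q := (le_max_right _ _).trans hq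
  have hLε : 2 ≤ Real.log q * ε := (div_le_iff₀ hε).mp hq2
  have hcardX := card_evenPart X
  -- size of the annihilator
  have h1 := card_Xs_mul_card_Hs (evenPart X)
  rw [Nat.totient_prime hqp, ← card_ann] at h1
  have hXs : (Nat.card X : ℝ) = (Xs X).card := by rw [card_Xs]
  have hann : Real.log (Nat.card (ann (evenPart X))) ≤ (1 / 3 - ε / 2) * Real.log q := by
    have hd1 := card_ge_one (ann (evenPart X))
    have h2 : (((Xs (evenPart X)).card * Nat.card (ann (evenPart X)) : ℕ) : ℝ) ≤ q := by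
      rw [h1]; exact_mod_cast Nat.sub_le q 1
    rw [Nat.cast_mul] at h2
    have h3 : (q : ℝ) ^ (2 / 3 + ε) ≤ 2 * (Xs (evenPart X)).card := by
      refine hX.trans ?_
      rw [hXs]
      exact_mod_cast hcardX
    have h4 : (q : ℝ) ^ (2 / 3 + ε) * Nat.card (ann (evenPart X)) ≤ 2 * q := by
      calc _ ≤ (2 * ((Xs (evenPart X)).card : ℝ)) * Nat.card (ann (evenPart X)) := by gcongr
        _ = 2 * ((Xs (evenPart X)).card * Nat.card (ann (evenPart X))) := by ring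
        _ ≤ _ := by linarith
    have h5 := Real.log_le_log (by positivity) h4
    rw [Real.log_mul (by positivity) (by positivity), Real.log_mul (by norm_num) hq0.ne',
      Real.log_rpow hq0] at h5
    have h6 := Real.log_two_lt_d9
    nlinarith
  -- parity
  have hpar : ∃ κ, ∀ χ ∈ Xs (evenPart X), Par κ (χ0 * χ) := by
    rcases χ0.even_or_odd with h | h
    · refine ⟨0, fun χ hχ => Or.inl ⟨rfl, ?_⟩⟩
      have h2 : χ (-1) = 1 := (mem_Xs.mp hχ).2
      show (χ0 * χ) (-1) = 1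
      rw [MulChar.mul_apply, h2, mul_one]
      exact h
    · refine ⟨1, fun χ hχ => Or.inr ⟨rfl, ?_⟩⟩
      have h2 : χ (-1) = 1 := (mem_Xs.mp hχ).2
      show (χ0 * χ) (-1) = -1
      rw [MulChar.mul_apply, h2, mul_one]
      exact h
  obtain ⟨κ, hκ⟩ := hpar
  have h2 := hmain q hq1 (evenPart X) χ0 κ hann hκ S (fun χ hχ => hS χ hχ.1)
  have h3 : (Nat.card X : ℝ) ≤ 2 * (Xs (evenPart X)).card := by
    rw [hXs]; exact_mod_cast hcardX
  calc c / 2 * (Nat.card X : ℝ) ≤ c / 2 * (2 * (Xs (evenPart X)).card) := by gcongr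
    _ = c * (Xs (evenPart X)).card := by ring
    _ ≤ _ := h2

end Pool.Agent.H14.PT
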