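import Pool.Agent.H14.PT.Rough2

/-!
# Final bounds for the rough double sums
-/

namespace Pool.Agent.H14.PT

open Finset Pool.Agent.PC10 Pool.Agent.H16

lemma eulerFac_primesLE (z : ℕ) : eulerFac (Nat.primesLE z) = (Vp z)⁻¹ := by
  unfold eulerFac Vp
  rw [Finset.prod_inv_distrib]

lemma rs_eq (z Y : ℕ) : rs (Nat.primesLE z) Y = primesIoc z Y := by
  ext p
  rw [rs, Finset.mem_sdiff, Nat.mem_primesLE, Nat.mem_primesLE, mem_primesIoc]
  constructor
  · rintro ⟨⟨h1, h2⟩, h3⟩
    refine ⟨?_, h1, h2⟩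
    by_contra h
    exact h3 ⟨by omega, h2⟩
  · rintro ⟨h1, h2, h3⟩
    exact ⟨⟨h2, h3⟩, fun h => by omega⟩

lemma prod_rs (z Y : ℕ) (hzY : z ≤ Y) :
    ∏ p ∈ rs (Nat.primesLE z) Y, (1 - 1 / (p : ℝ))⁻¹ = Vp z / Vp Y := by
  rw [rs_eq, Finset.prod_inv_distrib, ← Vp_mul z Y hzY]
  have h1 := Vp_pos z
  have h2 : 0 < ∏ p ∈ primesIoc z Y, (1 - 1 / (p : ℝ)) :=
    Finset.prod_pos fun p hp => one_sub_inv_pos (mem_primesIoc.mp hp).2.2
  field_simp

/-- **bounds for the rough sums** -/
theorem rough_bounds : ∃ C : ℝ, 0 < C ∧ ∀ z Y : ℕ, 2 ≤ z → z ≤ Y → ∀ a b : ℕ,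
    (∀ p ∈ rs (Nat.primesLE z) Y, ¬ (p ∣ a ∨ p ∣ b)) →
    |R0 a b (Nat.primesLE z) Y| ≤ C * (Real.log z / Real.log Y) ∧
      |R1 a b (Nat.primesLE z) Y| ≤ C * Real.log z := by
  obtain ⟨c, hc, hVp⟩ := Vp_ge
  refine ⟨400 / c ^ 2, by positivity, ?_⟩
  intro z Y hz hzY a b hn
  have hS : ∀ p ∈ Nat.primesLE z, p.Prime := fun p hp => (Nat.mem_primesLE.mp hp).2
  set S := Nat.primesLE z with hSdef
  have hz1 : (1 : ℝ) < z := by exact_mod_cast hz
  have hY2 : (2 : ℝ) ≤ Y := by exact_mod_cast hz.trans hzY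
  have hlz : 0 < Real.log z := Real.log_pos hz1
  have hlY : 0 < Real.log Y := Real.log_pos (by linarith)
  have hVz := Vp_pos z
  have hVY := Vp_pos Y
  have hE : eulerFac S = (Vp z)⁻¹ := eulerFac_primesLE z
  have hW : ∏ p ∈ Nat.primesLE Y \ S, (1 - 1 / (p : ℝ))⁻¹ = Vp z / Vp Y := prod_rs z Y hzY
  have hVz2 : c / Real.log z ≤ Vp z := hVp z hz
  have hVY2 : c / Real.log Y ≤ Vp Y := hVp Y (hz.trans hzY)
  have hfl : ⌊(Y : ℝ)⌋₊ ≤ Y := by rw [Nat.floor_natCast]
  have hEW : eulerFac S ^ 2 * (Vp z / Vp Y) ≤ Real.log z * Real.log Y / c ^ 2 := by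
    have e1 : eulerFac S ^ 2 * (Vp z / Vp Y) = 1 / (Vp z * Vp Y) := by
      rw [hE]; field_simp
    rw [e1]
    calc 1 / (Vp z * Vp Y) ≤ 1 / ((c / Real.log z) * (c / Real.log Y)) := by
          apply one_div_le_one_div_of_le (by positivity)
          gcongr
      _ = _ := by field_simp
  constructor
  · rw [R0_eq hS hn, abs_div, abs_of_pos (by positivity : (0 : ℝ) < Real.log Y ^ 2)]
    have h1 := abs_Qf_le hS (Y : ℝ) Y Y hfl
    rw [hW] at h1
    rw [div_le_iff₀ (by positivity)]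
    calc |Qf S Y Y| ≤ 16 * eulerFac S ^ 2 * (Vp z / Vp Y) := h1
      _ = 16 * (eulerFac S ^ 2 * (Vp z / Vp Y)) := by ring
      _ ≤ 16 * (Real.log z * Real.log Y / c ^ 2) := by gcongr
      _ ≤ 400 * (Real.log z * Real.log Y / c ^ 2) := by
          have : 0 ≤ Real.log z * Real.log Y / c ^ 2 := by positivity
          linarith
      _ = _ := by field_simp
  · rw [R1_eq hn, abs_mul]
    have hterm : ∀ p ∈ rs S Y, |Real.log p * Xp S Y p| ≤
        (Real.log p / p) * (64 * (Real.log z * Real.log Y / c ^ 2) / Real.log Y ^ 2) := by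
      intro p hp
      have hpp : p.Prime := rs_prime hp
      have hp0 : (0 : ℝ) < p := by exact_mod_cast hpp.pos
      have hlp : 0 ≤ Real.log p := Real.log_nonneg (by exact_mod_cast hpp.one_lt.le)
      have hpS : p ∉ S := (Finset.mem_sdiff.mp hp).2
      have hS' : ∀ r ∈ insert p S, r.Prime := by
        intro r hr
        rcases Finset.mem_insert.mp hr with h | h
        · rw [h]; exact hpp
        · exact hS r h
      have hfl2 : ⌊(Y : ℝ) / p⌋₊ ≤ Y := by
        rw [Nat.floor_div_natCast, Nat.floor_natCast]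
        exact Nat.div_le_self _ _
      have h1 := abs_Qf_le hS' ((Y : ℝ) / p) Y Y hfl2
      have h2 : eulerFac (insert p S) ≤ 2 * eulerFac S := by
        unfold eulerFac
        rw [Finset.prod_insert hpS]
        have h3 : (1 - 1 / (p : ℝ))⁻¹ ≤ 2 := by
          rw [inv_le_comm₀ (one_sub_inv_pos hpp) (by norm_num)]
          have h2 : (2 : ℝ) ≤ p := by exact_mod_cast hpp.two_le
          have : 1 / (p : ℝ) ≤ 1 / 2 := one_div_le_one_div_of_le (by norm_num) h2
          linarith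
        have h4 : 0 < ∏ p ∈ S, (1 - 1 / (p : ℝ))⁻¹ := eulerFac_pos' hS
        nlinarith
      have h3 : ∏ r ∈ Nat.primesLE Y \ insert p S, (1 - 1 / (r : ℝ))⁻¹ ≤ Vp z / Vp Y := by
        rw [← hW]
        have hsub : Nat.primesLE Y \ insert p S ⊆ Nat.primesLE Y \ S :=
          Finset.sdiff_subset_sdiff (le_refl _) (Finset.subset_insert _ _)
        have hpr : ∀ r ∈ Nat.primesLE Y \ S, r.Prime := fun r hr => rs_prime (S := S) hr
        rw [← Finset.prod_sdiff hsub]
        have hge : ∀ r ∈ (Nat.primesLE Y \ S) \ (Nat.primesLE Y \ insert p S),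
            (1 : ℝ) ≤ (1 - 1 / (r : ℝ))⁻¹ := by
          intro r hr
          have hrp := hpr r (Finset.mem_sdiff.mp hr).1
          rw [one_le_inv₀ (one_sub_inv_pos hrp)]
          have : 0 < 1 / (r : ℝ) := by
            have : (0 : ℝ) < r := by exact_mod_cast hrp.pos
            positivity
          linarith
        have h5 := Finset.prod_le_prod (f := fun _ : ℕ => (1 : ℝ)) (fun _ _ => zero_le_one) hge
        rw [Finset.prod_const_one] at h5
        refine le_mul_of_one_le_left ?_ h5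
        exact Finset.prod_nonneg fun r hr => by
          have := one_sub_inv_pos (rs_prime (S := insert p S) hr)
          positivity
      have hE0 : 0 < eulerFac S := eulerFac_pos' hS
      have hE0' : 0 < eulerFac (insert p S) := eulerFac_pos' hS'
      have hprodpos : 0 ≤ ∏ r ∈ Nat.primesLE Y \ insert p S, (1 - 1 / (r : ℝ))⁻¹ :=
        Finset.prod_nonneg fun r hr => by
          have := one_sub_inv_pos (rs_prime (S := insert p S) hr)
          positivity
      have h4 : |Qf (insert p S) ((Y : ℝ) / p) Y| ≤ 64 * (Real.log z * Real.log Y / c ^ 2) := by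
        calc |Qf (insert p S) ((Y : ℝ) / p) Y| ≤ 16 * eulerFac (insert p S) ^ 2 *
              ∏ r ∈ Nat.primesLE Y \ insert p S, (1 - 1 / (r : ℝ))⁻¹ := h1
          _ ≤ 16 * (2 * eulerFac S) ^ 2 * (Vp z / Vp Y) := by gcongr
          _ = 64 * (eulerFac S ^ 2 * (Vp z / Vp Y)) := by ring
          _ ≤ _ := by gcongr
      rw [Xp_eq hS hp, abs_mul, abs_of_nonneg hlp, abs_mul, abs_mul, abs_neg,
        abs_of_pos (by positivity : (0 : ℝ) < 1 / (p : ℝ)),
        abs_of_pos (by positivity : (0 : ℝ) < 1 / Real.log Y ^ 2)]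
      calc Real.log p * (1 / (p : ℝ) * (1 / Real.log Y ^ 2) * |Qf (insert p S) ((Y : ℝ) / p) Y|)
          ≤ Real.log p * (1 / (p : ℝ) * (1 / Real.log Y ^ 2) *
            (64 * (Real.log z * Real.log Y / c ^ 2))) := by gcongr
        _ = _ := by ring
    have hsum : |∑ p ∈ rs S Y, Real.log p * Xp S Y p| ≤
        (3 * Real.log Y) * (64 * (Real.log z * Real.log Y / c ^ 2) / Real.log Y ^ 2) := by
      refine (Finset.abs_sum_le_sum_abs _ _).trans ((Finset.sum_le_sum hterm).trans ?_)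
      rw [← Finset.sum_mul]
      refine mul_le_mul_of_nonneg_right ?_ (by positivity)
      have h5 : ∑ p ∈ rs S Y, Real.log p / (p : ℝ) ≤ mA Y := by
        unfold mA
        apply Finset.sum_le_sum_of_subset_of_nonneg
        · exact Finset.sdiff_subset
        · intro p hp _
          have : 0 ≤ Real.log p := Real.log_nonneg (by
            exact_mod_cast (Nat.mem_primesLE.mp hp).2.one_lt.le)
          positivity
      have h6 := mA_le Y (by omega)
      have h7 : Real.log 4 ≤ 2 * Real.log Y := by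
        rw [show (4 : ℝ) = 2 ^ 2 by norm_num, Real.log_pow]
        have := Real.log_le_log (by norm_num) hY2
        push_cast
        linarith
      linarith
    rw [show |(-2 : ℝ)| = 2 by norm_num]
    calc 2 * |∑ p ∈ rs S Y, Real.log p * Xp S Y p| ≤
        2 * ((3 * Real.log Y) * (64 * (Real.log z * Real.log Y / c ^ 2) / Real.log Y ^ 2)) := by gcongr
      _ = 384 / c ^ 2 * Real.log z := by field_simp; ring
      _ ≤ 400 / c ^ 2 * Real.log z := by gcongr; norm_num

end Pool.Agent.H14.PT
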