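import Pool.Agent.H14.PT.Moll2
import Pool.Agent.H14.PT.DN3
import Pool.Agent.H14.PT.Rough3

/-!
# `DN` for the mollifier: main term plus power-saving error
-/

namespace Pool.Agent.H14.PT

open Finset Pool.Agent.H16

lemma prod_filter_le {n : ℕ} (hn : n ≠ 0) {T : Finset ℕ} (hT : T ⊆ n.primeFactors) {σ : ℝ} (hσ : 0 ≤ σ) :
    ∏ p ∈ T, (4 * (p : ℝ) ^ σ) ≤ (n.divisors.card : ℝ) ^ 2 * (n : ℝ) ^ σ := by
  rw [Finset.prod_mul_distrib, Finset.prod_const, Real.finsetProd_rpow _ _ (fun p _ => by positivity)]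
  have h1 : (4 : ℝ) ^ T.card ≤ (n.divisors.card : ℝ) ^ 2 := by
    have h2 : 2 ^ n.primeFactors.card ≤ n.divisors.card := two_pow_omega_le n hn
    have h3 : (2 : ℝ) ^ n.primeFactors.card ≤ (n.divisors.card : ℝ) := by exact_mod_cast h2
    calc (4 : ℝ) ^ T.card ≤ 4 ^ n.primeFactors.card :=
          pow_le_pow_right₀ (by norm_num) (Finset.card_le_card hT)
      _ = ((2 : ℝ) ^ n.primeFactors.card) ^ 2 := by
          rw [← pow_mul, mul_comm, pow_mul]; norm_num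
      _ ≤ _ := by gcongr
  have h2 : ∏ p ∈ T, (p : ℝ) ≤ n := by
    have h3 : ∏ p ∈ T, p ∣ n :=
      (Finset.prod_dvd_prod_of_subset T n.primeFactors (fun p => p) hT).trans (Nat.prod_primeFactors_dvd n)
    have h4 := Nat.le_of_dvd (Nat.pos_of_ne_zero hn) h3
    have h5 : ((∏ p ∈ T, p : ℕ) : ℝ) ≤ n := by exact_mod_cast h4
    rwa [Nat.cast_prod] at h5
  gcongr

lemma filter_subset_pf {a b : ℕ} (ha : a ≠ 0) (hb : b ≠ 0) {s : Finset ℕ} (hs : ∀ p ∈ s, p.Prime) :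
    s.filter (fun p => p ∣ a ∨ p ∣ b) ⊆ (a * b).primeFactors := by
  intro p hp
  obtain ⟨h1, h2⟩ := Finset.mem_filter.mp hp
  refine Nat.mem_primeFactors.mpr ⟨hs p h1, ?_, Nat.mul_ne_zero ha hb⟩
  rcases h2 with h | h
  · exact Dvd.dvd.mul_right h b
  · exact Dvd.dvd.mul_left h a

lemma Rt_le {a b z Y : ℕ} (ha : a ≠ 0) (hb : b ≠ 0) (hz : 15 ≤ Real.log z) (hzY : z ≤ Y) :
    Rt a b z Y ≤ (3 * (Real.log Y) ^ 3) * ((a * b).divisors.card : ℝ) ^ 2 := by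
  have hz2 : 2 ≤ z := by
    by_contra h
    have : z = 0 ∨ z = 1 := by omega
    rcases this with h | h <;> rw [h] at hz <;> norm_num at hz
  have hz1 : (1 : ℝ) < z := by exact_mod_cast hz2
  have hzYr : (z : ℝ) ≤ Y := by exact_mod_cast hzY
  have hlz : 0 < Real.log z := by linarith
  have hlzY : Real.log z ≤ Real.log Y := Real.log_le_log (by linarith) hzYr
  have hs : ∀ p ∈ rs (Nat.primesLE z) Y, p.Prime := fun p hp => rs_prime hp
  have h0 : Rt a b z Y = ∑ A ∈ (rs (Nat.primesLE z) Y).powerset, ∑ B ∈ (rs (Nat.primesLE z) Y).powerset,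
      GG a b (rs (Nat.primesLE z) Y) A B * ((Pr A : ℝ) * (Pr B : ℝ)) ^ (0 : ℝ) := by
    unfold Rt
    simp
  rw [h0]
  refine (rankin a b hs (le_refl 0) zero_le_one).trans ?_
  have h1 := prod_filter_le (Nat.mul_ne_zero ha hb) (filter_subset_pf ha hb hs) (le_refl (0 : ℝ))
  rw [Real.rpow_zero, mul_one] at h1
  have h2 : ∏ p ∈ rs (Nat.primesLE z) Y, (1 + 3 * (p : ℝ) ^ (2 * (0 : ℝ) - 1)) ≤ 3 * Real.log Y ^ 3 := by
    have h3 : ∏ p ∈ rs (Nat.primesLE z) Y, (1 + 3 * (p : ℝ) ^ (2 * (0 : ℝ) - 1)) ≤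
        Real.exp (3 * ∑ p ∈ rs (Nat.primesLE z) Y, (1 : ℝ) / p) := by
      rw [Finset.mul_sum, Real.exp_sum]
      refine Finset.prod_le_prod (fun p _ => by positivity) fun p hp => ?_
      have e1 : (p : ℝ) ^ (2 * (0 : ℝ) - 1) = 1 / (p : ℝ) := by
        rw [show (2 * (0 : ℝ) - 1) = -1 by norm_num, Real.rpow_neg_one, one_div]
      rw [e1, add_comm]
      exact Real.add_one_le_exp _
    refine h3.trans ?_
    rw [rs_eq]
    have h4 := sum_inv_primes_le z Y hz2 hzY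
    have h5 : 5 / Real.log z ≤ 1 / 3 := by
      rw [div_le_div_iff₀ hlz (by norm_num)]
      linarith
    have h6 : Real.exp (3 * ∑ p ∈ primesIoc z Y, (1 : ℝ) / p) ≤
        Real.exp (3 * Real.log (Real.log Y / Real.log z) + 1) := by
      apply Real.exp_le_exp.mpr
      linarith
    refine h6.trans ?_
    rw [Real.exp_add, show (3 : ℝ) * Real.log (Real.log Y / Real.log z) =
      ((3 : ℕ) : ℝ) * Real.log (Real.log Y / Real.log z) by norm_num, ← Real.log_pow,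
      Real.exp_log (pow_pos (div_pos (by linarith) hlz) 3)]
    have h7 : Real.exp 1 ≤ 3 := by have := Real.exp_one_lt_d9; linarith
    have h8 : (Real.log Y / Real.log z) ^ 3 ≤ Real.log Y ^ 3 := by
      apply pow_le_pow_left₀ (by positivity)
      rw [div_le_iff₀ hlz]
      nlinarith
    calc (Real.log Y / Real.log z) ^ 3 * Real.exp 1 ≤ Real.log Y ^ 3 * 3 := by gcongr
      _ = _ := by ring
  gcongr

lemma Rk_le {a b z : ℕ} (ha : a ≠ 0) (hb : b ≠ 0) (hz : 1 ≤ z) {σ : ℝ} (hσ : 0 ≤ σ) (hσ1 : σ ≤ 1) :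
    Rk a b z σ ≤ Real.exp (3 * (z : ℝ) ^ (2 * σ) * (1 + Real.log z)) *
      (((a * b).divisors.card : ℝ) ^ 2 * ((a * b : ℕ) : ℝ) ^ σ) := by
  have hs : ∀ p ∈ Nat.primesLE z, p.Prime := fun p hp => (Nat.mem_primesLE.mp hp).2
  unfold Rk
  refine (rankin a b hs hσ hσ1).trans ?_
  have h1 := prod_filter_le (Nat.mul_ne_zero ha hb) (filter_subset_pf ha hb hs) hσ
  have hz0 : (0 : ℝ) < z := by exact_mod_cast hz
  have h2 : ∏ p ∈ Nat.primesLE z, (1 + 3 * (p : ℝ) ^ (2 * σ - 1)) ≤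
      Real.exp (3 * (z : ℝ) ^ (2 * σ) * (1 + Real.log z)) := by
    have h3 : ∏ p ∈ Nat.primesLE z, (1 + 3 * (p : ℝ) ^ (2 * σ - 1)) ≤
        Real.exp (∑ p ∈ Nat.primesLE z, 3 * (p : ℝ) ^ (2 * σ - 1)) := by
      rw [Real.exp_sum]
      refine Finset.prod_le_prod (fun p _ => by positivity) fun p hp => ?_
      rw [add_comm]
      exact Real.add_one_le_exp _
    refine h3.trans (Real.exp_le_exp.mpr ?_)
    have h4 : ∀ p ∈ Nat.primesLE z, 3 * (p : ℝ) ^ (2 * σ - 1) ≤ 3 * (z : ℝ) ^ (2 * σ) * (1 / (p : ℝ)) := by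
      intro p hp
      obtain ⟨h5, h6⟩ := Nat.mem_primesLE.mp hp
      have hp0 : (0 : ℝ) < p := by exact_mod_cast h6.pos
      have hpz : (p : ℝ) ≤ z := by exact_mod_cast h5
      rw [Real.rpow_sub hp0, Real.rpow_one, mul_div_assoc', mul_one_div]
      have : (p : ℝ) ^ (2 * σ) ≤ (z : ℝ) ^ (2 * σ) := Real.rpow_le_rpow hp0.le hpz (by positivity)
      gcongr
    refine (Finset.sum_le_sum h4).trans ?_
    rw [← Finset.mul_sum]
    refine mul_le_mul_of_nonneg_left ?_ (by positivity)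
    refine le_trans ?_ (sum_one_div_le z)
    apply Finset.sum_le_sum_of_subset_of_nonneg
    · intro p hp
      obtain ⟨h5, h6⟩ := Nat.mem_primesLE.mp hp
      exact Finset.mem_Icc.mpr ⟨h6.one_lt.le, h5⟩
    · intro _ _ _
      positivity
  gcongr

/-- the untruncated main term -/
noncomputable def Full (z Y N a b : ℕ) : ℝ :=
  cc N a b * S0 a b (Nat.primesLE z) * R0 a b (Nat.primesLE z) Y +
      1 / 2 * S1 a b (Nat.primesLE z) * R0 a b (Nat.primesLE z) Y +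
      1 / 2 * S0 a b (Nat.primesLE z) * R1 a b (Nat.primesLE z) Y

/-- **evaluation of `DN`** -/
theorem DN_eval {z Y N a b : ℕ} (ha : a ≠ 0) (hb : b ≠ 0) (hab : Nat.Coprime a b)
    (hz : 15 ≤ Real.log z) (hzY : z ≤ Y) (hN : a * b * (Y * Y) ^ 2 ≤ N) {σ : ℝ} (hσ : 0 ≤ σ)
    (hσ1 : σ ≤ 1) :
    |DN (MfS z Y Y) (wS z Y Y) N a b - ((a * b : ℕ) : ℝ) ^ (-(1 / 2) : ℝ) * Full z Y N a b| ≤
      2 * (Y : ℝ) ^ 4 / Real.sqrt N + ((a * b : ℕ) : ℝ) ^ (-(1 / 2) : ℝ) *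
      ((|cc N a b| + z * Real.log 4 + Real.log Y) * ((3 * (Real.log Y) ^ 3) * (Y : ℝ) ^ (-σ) *
        Real.exp (3 * (z : ℝ) ^ (2 * σ) * (1 + Real.log z))) *
        (((a * b).divisors.card : ℝ) ^ 4 * ((a * b : ℕ) : ℝ) ^ σ)) := by
  have hz2 : 2 ≤ z := by
    by_contra h
    have : z = 0 ∨ z = 1 := by omega
    rcases this with h | h <;> rw [h] at hz <;> norm_num at hz
  have hY2 : 2 ≤ Y := hz2.trans hzY
  have hYr : (1 : ℝ) < Y := by exact_mod_cast hY2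
  have hlY : 0 < Real.log Y := Real.log_pos hYr
  have hl4 : 0 < Real.log 4 := Real.log_pos (by norm_num)
  have h1 := DN_expand (MfS z Y Y) (wS z Y Y) N (Y * Y) a b ha hb
    (fun m hm => MfS_bounds hm) (fun m => abs_wS_le hY2 m) hN
  have h2 := MM_full (z := z) (Y1 := Y) (Y2 := Y) (N := N) ha hb hab (by omega) hY2 hσ
  have hRt := Rt_le (a := a) (b := b) (z := z) (Y := Y) ha hb hz hzY
  have hRk := Rk_le (a := a) (b := b) (z := z) ha hb (by omega) hσ hσ1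
  have hE : 0 < ((a * b : ℕ) : ℝ) ^ (-(1 / 2) : ℝ) := by
    have : (0 : ℝ) < ((a * b : ℕ) : ℝ) := by
      exact_mod_cast Nat.pos_of_ne_zero (Nat.mul_ne_zero ha hb)
    positivity
  have hRt0 : 0 ≤ Rt a b z Y := (abs_nonneg _).trans (abs_R0_le (z := z) hY2)
  have hRk0 : 0 ≤ Rk a b z σ := Finset.sum_nonneg fun _ _ => Finset.sum_nonneg fun _ _ =>
    mul_nonneg (GG_nonneg _ _ _ _ _) (by positivity)
  have h3 : |MM z Y Y N a b - Full z Y N a b| ≤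
      (|cc N a b| + z * Real.log 4 + Real.log Y) * ((3 * (Real.log Y) ^ 3) * (Y : ℝ) ^ (-σ) *
        Real.exp (3 * (z : ℝ) ^ (2 * σ) * (1 + Real.log z))) *
        (((a * b).divisors.card : ℝ) ^ 4 * ((a * b : ℕ) : ℝ) ^ σ) := by
    refine h2.trans ?_
    calc (|cc N a b| + z * Real.log 4 + Real.log Y) * Rt a b z Y * ((Y : ℝ) ^ (-σ) * Rk a b z σ)
        ≤ (|cc N a b| + z * Real.log 4 + Real.log Y) *
          ((3 * (Real.log Y) ^ 3) * ((a * b).divisors.card : ℝ) ^ 2) * ((Y : ℝ) ^ (-σ) *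
          (Real.exp (3 * (z : ℝ) ^ (2 * σ) * (1 + Real.log z)) *
            (((a * b).divisors.card : ℝ) ^ 2 * ((a * b : ℕ) : ℝ) ^ σ))) := by gcongr
      _ = _ := by ring
  have h4 : |DN (MfS z Y Y) (wS z Y Y) N a b - ((a * b : ℕ) : ℝ) ^ (-(1 / 2) : ℝ) * MM z Y Y N a b| ≤
      2 * (Y : ℝ) ^ 4 / Real.sqrt N := by
    refine h1.trans (le_of_eq ?_)
    push_cast
    ring
  calc |DN (MfS z Y Y) (wS z Y Y) N a b - ((a * b : ℕ) : ℝ) ^ (-(1 / 2) : ℝ) * Full z Y N a b|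
      = |(DN (MfS z Y Y) (wS z Y Y) N a b - ((a * b : ℕ) : ℝ) ^ (-(1 / 2) : ℝ) * MM z Y Y N a b) +
        ((a * b : ℕ) : ℝ) ^ (-(1 / 2) : ℝ) * (MM z Y Y N a b - Full z Y N a b)| := by
        congr 1; ring
    _ ≤ |DN (MfS z Y Y) (wS z Y Y) N a b - ((a * b : ℕ) : ℝ) ^ (-(1 / 2) : ℝ) * MM z Y Y N a b| +
        |((a * b : ℕ) : ℝ) ^ (-(1 / 2) : ℝ) * (MM z Y Y N a b - Full z Y N a b)| := abs_add_le _ _
    _ ≤ _ := by
        rw [abs_mul, abs_of_pos hE]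
        exact add_le_add h4 (mul_le_mul_of_nonneg_left h3 hE.le)

end Pool.Agent.H14.PT
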