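import Pool.Agent.H14.PT.Rough2

/-!
# The mollifier
-/

namespace Pool.Agent.H14.PT

open Finset ArithmeticFunction
open scoped ArithmeticFunction.Moebius

/-- sets of small primes with product at most `Y1` -/
noncomputable def T1 (z Y1 : ℕ) : Finset (Finset ℕ) :=
  (Nat.primesLE z).powerset.filter (fun A => Pr A ≤ Y1)

/-- sets of rough primes with product at most `Y2` -/
noncomputable def T2 (z Y2 : ℕ) : Finset (Finset ℕ) := TS (Nat.primesLE z) Y2 Y2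

/-- support of the mollifier -/
noncomputable def MfS (z Y1 Y2 : ℕ) : Finset ℕ :=
  ((T1 z Y1) ×ˢ (T2 z Y2)).image (fun X => Pr X.1 * Pr X.2)

/-- coefficients of the mollifier -/
noncomputable def wS (z Y1 Y2 : ℕ) (m : ℕ) : ℝ :=
  if m ∈ MfS z Y1 Y2 then (μ m : ℝ) * Lam Y2 (Pr (m.primeFactors.filter (fun p => z < p))) else 0

lemma mem_T1 {z Y1 : ℕ} {A : Finset ℕ} : A ∈ T1 z Y1 ↔ A ⊆ Nat.primesLE z ∧ Pr A ≤ Y1 := by
  unfold T1
  rw [Finset.mem_filter, Finset.mem_powerset]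

lemma mem_T2 {z Y2 : ℕ} {A : Finset ℕ} :
    A ∈ T2 z Y2 ↔ A ⊆ rs (Nat.primesLE z) Y2 ∧ (Pr A : ℝ) ≤ Y2 := mem_TS

lemma prime_small {z : ℕ} {A : Finset ℕ} (hA : A ⊆ Nat.primesLE z) : ∀ p ∈ A, p.Prime ∧ p ≤ z :=
  fun p hp => ⟨(Nat.mem_primesLE.mp (hA hp)).2, (Nat.mem_primesLE.mp (hA hp)).1⟩

lemma prime_rough {z Y : ℕ} {A : Finset ℕ} (hA : A ⊆ rs (Nat.primesLE z) Y) :
    ∀ p ∈ A, p.Prime ∧ z < p ∧ p ≤ Y := by
  intro p hp
  have h := hA hp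
  rw [rs, Finset.mem_sdiff, Nat.mem_primesLE, Nat.mem_primesLE] at h
  refine ⟨h.1.2, ?_, h.1.1⟩
  by_contra h2
  exact h.2 ⟨by omega, h.1.2⟩

lemma disj_AB {z Y : ℕ} {A B : Finset ℕ} (hA : A ⊆ Nat.primesLE z)
    (hB : B ⊆ rs (Nat.primesLE z) Y) : Disjoint A B := by
  rw [Finset.disjoint_left]
  intro p hp hp'
  have h1 := (prime_small hA p hp).2
  have h2 := (prime_rough hB p hp').2.1
  omega

lemma Pr_union {A B : Finset ℕ} (h : Disjoint A B) : Pr (A ∪ B) = Pr A * Pr B := by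
  unfold Pr
  exact Finset.prod_union h

lemma rough_filter {z Y : ℕ} {A B : Finset ℕ} (hA : A ⊆ Nat.primesLE z)
    (hB : B ⊆ rs (Nat.primesLE z) Y) : (A ∪ B).filter (fun p => z < p) = B := by
  ext p
  rw [Finset.mem_filter, Finset.mem_union]
  constructor
  · rintro ⟨h | h, h2⟩
    · have := (prime_small hA p h).2; omega
    · exact h
  · intro h
    exact ⟨Or.inr h, (prime_rough hB p h).2.1⟩

lemma small_filter {z Y : ℕ} {A B : Finset ℕ} (hA : A ⊆ Nat.primesLE z)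
    (hB : B ⊆ rs (Nat.primesLE z) Y) : (A ∪ B).filter (fun p => ¬ z < p) = A := by
  ext p
  rw [Finset.mem_filter, Finset.mem_union]
  constructor
  · rintro ⟨h | h, h2⟩
    · exact h
    · exact absurd (prime_rough hB p h).2.1 h2
  · intro h
    refine ⟨Or.inl h, ?_⟩
    have := (prime_small hA p h).2; omega

lemma pf_union {z Y : ℕ} {A B : Finset ℕ} (hA : A ⊆ Nat.primesLE z)
    (hB : B ⊆ rs (Nat.primesLE z) Y) : (Pr A * Pr B).primeFactors = A ∪ B := by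
  rw [← Pr_union (disj_AB hA hB)]
  apply primeFactors_Pr
  intro p hp
  rcases Finset.mem_union.mp hp with h | h
  · exact (prime_small hA p h).1
  · exact (prime_rough hB p h).1

lemma union_prime {z Y : ℕ} {A B : Finset ℕ} (hA : A ⊆ Nat.primesLE z)
    (hB : B ⊆ rs (Nat.primesLE z) Y) : ∀ p ∈ A ∪ B, p.Prime := by
  intro p hp
  rcases Finset.mem_union.mp hp with h | h
  · exact (prime_small hA p h).1
  · exact (prime_rough hB p h).1

/-- conversion of sums over the support -/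
lemma sum_MfS (z Y1 Y2 : ℕ) (F : ℕ → ℝ) :
    ∑ m ∈ MfS z Y1 Y2, F m = ∑ A ∈ T1 z Y1, ∑ B ∈ T2 z Y2, F (Pr A * Pr B) := by
  unfold MfS
  rw [Finset.sum_image, Finset.sum_product]
  intro X hX X' hX' h
  simp only [Finset.coe_product, Set.mem_prod, Finset.mem_coe] at hX hX'
  have a1 := (mem_T1.mp hX.1).1
  have a2 := (mem_T2.mp hX.2).1
  have b1 := (mem_T1.mp hX'.1).1
  have b2 := (mem_T2.mp hX'.2).1
  have h' : Pr X.1 * Pr X.2 = Pr X'.1 * Pr X'.2 := h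
  have e1 : X.1 ∪ X.2 = X'.1 ∪ X'.2 := by rw [← pf_union a1 a2, ← pf_union b1 b2, h']
  have e2 : X.2 = X'.2 := by rw [← rough_filter a1 a2, ← rough_filter b1 b2, e1]
  have e3 : X.1 = X'.1 := by rw [← small_filter a1 a2, ← small_filter b1 b2, e1]
  exact Prod.ext e3 e2

lemma mem_MfS {z Y1 Y2 : ℕ} {A B : Finset ℕ} (hA : A ∈ T1 z Y1) (hB : B ∈ T2 z Y2) :
    Pr A * Pr B ∈ MfS z Y1 Y2 :=
  Finset.mem_image.mpr ⟨(A, B), Finset.mem_product.mpr ⟨hA, hB⟩, rfl⟩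

lemma wS_eq {z Y1 Y2 : ℕ} {A B : Finset ℕ} (hA : A ∈ T1 z Y1) (hB : B ∈ T2 z Y2) :
    wS z Y1 Y2 (Pr A * Pr B) = (-1) ^ A.card * cf Y2 B := by
  have a1 := (mem_T1.mp hA).1
  have a2 := (mem_T2.mp hB).1
  unfold wS
  rw [if_pos (mem_MfS hA hB), pf_union a1 a2, rough_filter a1 a2, ← Pr_union (disj_AB a1 a2),
    moebius_Pr (union_prime a1 a2), Finset.card_union_of_disjoint (disj_AB a1 a2)]
  unfold cf
  rw [pow_add]
  ring

lemma Lam_bounds {Y n : ℕ} (hn : 1 ≤ n) (hnY : n ≤ Y) (hY : 2 ≤ Y) : 0 ≤ Lam Y n ∧ Lam Y n ≤ 1 := by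
  have hY1 : (1 : ℝ) < Y := by exact_mod_cast hY
  have hn0 : (0 : ℝ) < n := by exact_mod_cast hn
  have hn1 : (1 : ℝ) ≤ n := by exact_mod_cast hn
  have hnY' : (n : ℝ) ≤ Y := by exact_mod_cast hnY
  have hlY : 0 < Real.log Y := Real.log_pos hY1
  unfold Lam
  constructor
  · apply div_nonneg _ hlY.le
    apply Real.log_nonneg
    rw [le_div_iff₀ hn0, one_mul]
    exact hnY'
  · rw [div_le_one hlY]
    apply Real.log_le_log (by positivity)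
    rw [div_le_iff₀ hn0]
    nlinarith

lemma MfS_bounds {z Y1 Y2 m : ℕ} (hm : m ∈ MfS z Y1 Y2) : 1 ≤ m ∧ m ≤ Y1 * Y2 := by
  obtain ⟨X, hX, rfl⟩ := Finset.mem_image.mp hm
  obtain ⟨h1, h2⟩ := Finset.mem_product.mp hX
  obtain ⟨a1, a2⟩ := mem_T1.mp h1
  obtain ⟨b1, b2⟩ := mem_T2.mp h2
  refine ⟨Nat.mul_pos (Pr_pos fun p hp => (prime_small a1 p hp).1)
    (Pr_pos fun p hp => (prime_rough b1 p hp).1), Nat.mul_le_mul a2 ?_⟩
  exact_mod_cast b2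

lemma abs_wS_le {z Y1 Y2 : ℕ} (hY : 2 ≤ Y2) (m : ℕ) : |wS z Y1 Y2 m| ≤ 1 := by
  by_cases hm : m ∈ MfS z Y1 Y2
  · obtain ⟨X, hX, rfl⟩ := Finset.mem_image.mp hm
    obtain ⟨h1, h2⟩ := Finset.mem_product.mp hX
    rw [wS_eq h1 h2]
    unfold cf
    obtain ⟨b1, b2⟩ := mem_T2.mp h2
    have hb2 : Pr X.2 ≤ Y2 := by exact_mod_cast b2
    obtain ⟨l1, l2⟩ := Lam_bounds (Pr_pos fun p hp => (prime_rough b1 p hp).1) hb2 hY
    rw [abs_mul, abs_mul, abs_pow, abs_pow, abs_neg, abs_one, one_pow, one_pow, one_mul, one_mul,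
      abs_of_nonneg l1]
    exact l2
  · unfold wS
    rw [if_neg hm]
    simp

lemma empty_mem_T1 {z Y1 : ℕ} (hY : 1 ≤ Y1) : ∅ ∈ T1 z Y1 := by
  rw [mem_T1]
  exact ⟨Finset.empty_subset _, by simpa [Pr] using hY⟩

lemma empty_mem_T2 {z Y2 : ℕ} (hY : 1 ≤ Y2) : ∅ ∈ T2 z Y2 := by
  rw [mem_T2]
  refine ⟨Finset.empty_subset _, ?_⟩
  simp only [Pr, Finset.prod_empty, Nat.cast_one]
  exact_mod_cast hY

lemma one_mem_MfS {z Y1 Y2 : ℕ} (hY1 : 1 ≤ Y1) (hY : 2 ≤ Y2) : 1 ∈ MfS z Y1 Y2 := by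
  have := mem_MfS (z := z) (empty_mem_T1 (z := z) hY1) (empty_mem_T2 (z := z) (show 1 ≤ Y2 by omega))
  simpa [Pr] using this

lemma wS_one {z Y1 Y2 : ℕ} (hY1 : 1 ≤ Y1) (hY : 2 ≤ Y2) : wS z Y1 Y2 1 = 1 := by
  have h := wS_eq (z := z) (empty_mem_T1 (z := z) hY1) (empty_mem_T2 (z := z) (show 1 ≤ Y2 by omega))
  simp only [Pr, Finset.prod_empty, mul_one, Finset.card_empty, pow_zero, one_mul, cf, Lam] at h
  rw [h]
  have hY1' : (1 : ℝ) < Y2 := by exact_mod_cast hY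
  have hlY : 0 < Real.log Y2 := Real.log_pos hY1'
  simp only [Nat.cast_one, div_one]
  exact div_self hlY.ne'

end Pool.Agent.H14.PT
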