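import Pool.Agent.H14.PT.Moll

/-!
# Factorisation of the main term into small and rough parts
-/

namespace Pool.Agent.H14.PT

open Finset ArithmeticFunction
open scoped ArithmeticFunction.Moebius

lemma decide_union_left {z Y : ℕ} {A1 A2 : Finset ℕ}
    (hA2 : A2 ⊆ rs (Nat.primesLE z) Y) {p : ℕ} (hp : p ∈ Nat.primesLE z) :
    decide (p ∈ A1 ∪ A2) = decide (p ∈ A1) := by
  have h : p ∉ A2 := fun h => by
    have h1 := (prime_rough hA2 p h).2.1
    have h2 := (Nat.mem_primesLE.mp hp).1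
    omega
  simp [h]

lemma decide_union_right {z Y : ℕ} {A1 A2 : Finset ℕ}
    (hA1 : A1 ⊆ Nat.primesLE z) {p : ℕ} (hp : p ∈ rs (Nat.primesLE z) Y) :
    decide (p ∈ A1 ∪ A2) = decide (p ∈ A2) := by
  have h : p ∉ A1 := fun h => (Finset.mem_sdiff.mp hp).2 (hA1 h)
  simp [h]

lemma GG_union (a b : ℕ) {z Y : ℕ} {A1 A2 B1 B2 : Finset ℕ} (hA1 : A1 ⊆ Nat.primesLE z)
    (hA2 : A2 ⊆ rs (Nat.primesLE z) Y) (hB1 : B1 ⊆ Nat.primesLE z)
    (hB2 : B2 ⊆ rs (Nat.primesLE z) Y) :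
    GG a b (Nat.primesLE z ∪ rs (Nat.primesLE z) Y) (A1 ∪ A2) (B1 ∪ B2) =
      GG a b (Nat.primesLE z) A1 B1 * GG a b (rs (Nat.primesLE z) Y) A2 B2 := by
  unfold GG
  rw [Finset.prod_union (disj_AB (Finset.Subset.refl _) (Finset.Subset.refl _))]
  congr 1
  · refine Finset.prod_congr rfl fun p hp => ?_
    rw [decide_union_left hA2 hp, decide_union_left hB2 hp]
  · refine Finset.prod_congr rfl fun p hp => ?_
    rw [decide_union_right hA1 hp, decide_union_right hB1 hp]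

lemma LL_union (a b : ℕ) {z Y : ℕ} {A1 A2 B1 B2 : Finset ℕ} (hA1 : A1 ⊆ Nat.primesLE z)
    (hA2 : A2 ⊆ rs (Nat.primesLE z) Y) (hB1 : B1 ⊆ Nat.primesLE z)
    (hB2 : B2 ⊆ rs (Nat.primesLE z) Y) :
    LL a b (Nat.primesLE z ∪ rs (Nat.primesLE z) Y) (A1 ∪ A2) (B1 ∪ B2) =
      LL a b (Nat.primesLE z) A1 B1 + LL a b (rs (Nat.primesLE z) Y) A2 B2 := by
  unfold LL
  rw [Finset.sum_union (disj_AB (Finset.Subset.refl _) (Finset.Subset.refl _))]
  congr 1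
  · refine Finset.sum_congr rfl fun p hp => ?_
    rw [decide_union_left hA2 hp, decide_union_left hB2 hp]
  · refine Finset.sum_congr rfl fun p hp => ?_
    rw [decide_union_right hA1 hp, decide_union_right hB1 hp]

/-- the main term of `DN` -/
noncomputable def MM (z Y1 Y2 N a b : ℕ) : ℝ :=
  ∑ m ∈ MfS z Y1 Y2, ∑ m' ∈ MfS z Y1 Y2, wS z Y1 Y2 m * wS z Y1 Y2 m' *
      ((Nat.gcd (a * m') (b * m) : ℝ) / (m * m')) *
      (1 / 2 * Real.log N + Real.eulerMascheroniConstant + 1 / 2 *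
        Real.log ((Nat.gcd (a * m') (b * m) : ℝ) ^ 2 / (a * b * m * m')))

/-- the constant -/
noncomputable def cc (N a b : ℕ) : ℝ :=
  1 / 2 * Real.log N + Real.eulerMascheroniConstant - 1 / 2 * Real.log ((a : ℝ) * b)

lemma MM_eq {z Y1 Y2 N a b : ℕ} (ha : a ≠ 0) (hb : b ≠ 0) (hab : Nat.Coprime a b) :
    MM z Y1 Y2 N a b = ∑ A1 ∈ T1 z Y1, ∑ B1 ∈ T1 z Y1,
      (-1) ^ A1.card * (-1) ^ B1.card * GG a b (Nat.primesLE z) A1 B1 *
      ((cc N a b + 1 / 2 * LL a b (Nat.primesLE z) A1 B1) * R0 a b (Nat.primesLE z) Y2 +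
        1 / 2 * R1 a b (Nat.primesLE z) Y2) := by
  have har : (0 : ℝ) < a := by exact_mod_cast Nat.pos_of_ne_zero ha
  have hbr : (0 : ℝ) < b := by exact_mod_cast Nat.pos_of_ne_zero hb
  unfold MM
  rw [sum_MfS]
  have hterm : ∀ A1 ∈ T1 z Y1, ∀ A2 ∈ T2 z Y2, ∀ B1 ∈ T1 z Y1, ∀ B2 ∈ T2 z Y2,
      wS z Y1 Y2 (Pr A1 * Pr A2) * wS z Y1 Y2 (Pr B1 * Pr B2) *
      ((Nat.gcd (a * (Pr B1 * Pr B2)) (b * (Pr A1 * Pr A2)) : ℝ) /
        (((Pr A1 * Pr A2 : ℕ) : ℝ) * ((Pr B1 * Pr B2 : ℕ) : ℝ))) *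
      (1 / 2 * Real.log N + Real.eulerMascheroniConstant + 1 / 2 *
        Real.log ((Nat.gcd (a * (Pr B1 * Pr B2)) (b * (Pr A1 * Pr A2)) : ℝ) ^ 2 /
          (a * b * ((Pr A1 * Pr A2 : ℕ) : ℝ) * ((Pr B1 * Pr B2 : ℕ) : ℝ)))) =
      ((-1) ^ A1.card * (-1) ^ B1.card * GG a b (Nat.primesLE z) A1 B1) *
        ((cc N a b + 1 / 2 * LL a b (Nat.primesLE z) A1 B1) *
          (cf Y2 A2 * cf Y2 B2 * GG a b (rs (Nat.primesLE z) Y2) A2 B2) + 1 / 2 *
          (cf Y2 A2 * cf Y2 B2 * GG a b (rs (Nat.primesLE z) Y2) A2 B2 *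
            LL a b (rs (Nat.primesLE z) Y2) A2 B2)) := by
    intro A1 hA1 A2 hA2 B1 hB1 B2 hB2
    have a1 := (mem_T1.mp hA1).1
    have a2 := (mem_T2.mp hA2).1
    have b1 := (mem_T1.mp hB1).1
    have b2 := (mem_T2.mp hB2).1
    have hs : ∀ p ∈ Nat.primesLE z ∪ rs (Nat.primesLE z) Y2, p.Prime :=
      union_prime (Finset.Subset.refl _) (Finset.Subset.refl _)
    have hA : A1 ∪ A2 ⊆ Nat.primesLE z ∪ rs (Nat.primesLE z) Y2 := Finset.union_subset_union a1 a2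
    have hB : B1 ∪ B2 ⊆ Nat.primesLE z ∪ rs (Nat.primesLE z) Y2 := Finset.union_subset_union b1 b2
    have hPA : Pr (A1 ∪ A2) ≠ 0 := Pr_ne_zero (union_prime a1 a2)
    have hPB : Pr (B1 ∪ B2) ≠ 0 := Pr_ne_zero (union_prime b1 b2)
    have hPAr : (0 : ℝ) < Pr (A1 ∪ A2) := by exact_mod_cast Nat.pos_of_ne_zero hPA
    have hPBr : (0 : ℝ) < Pr (B1 ∪ B2) := by exact_mod_cast Nat.pos_of_ne_zero hPB
    have hg : (0 : ℝ) < (Nat.gcd (a * Pr (B1 ∪ B2)) (b * Pr (A1 ∪ A2)) : ℝ) := by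
      exact_mod_cast Nat.gcd_pos_of_pos_left _ (Nat.pos_of_ne_zero (Nat.mul_ne_zero ha hPB))
    rw [wS_eq hA1 hA2, wS_eq hB1 hB2, ← Pr_union (disj_AB a1 a2), ← Pr_union (disj_AB b1 b2)]
    have hlog : Real.log ((Nat.gcd (a * Pr (B1 ∪ B2)) (b * Pr (A1 ∪ A2)) : ℝ) ^ 2 /
          (a * b * (Pr (A1 ∪ A2) : ℝ) * (Pr (B1 ∪ B2) : ℝ))) =
        LL a b (Nat.primesLE z) A1 B1 + LL a b (rs (Nat.primesLE z) Y2) A2 B2 -
          Real.log ((a : ℝ) * b) := by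
      have e1 : (Nat.gcd (a * Pr (B1 ∪ B2)) (b * Pr (A1 ∪ A2)) : ℝ) ^ 2 /
          (a * b * (Pr (A1 ∪ A2) : ℝ) * (Pr (B1 ∪ B2) : ℝ)) =
          ((Nat.gcd (a * Pr (B1 ∪ B2)) (b * Pr (A1 ∪ A2)) : ℝ) ^ 2 /
          ((Pr (A1 ∪ A2) : ℝ) * (Pr (B1 ∪ B2) : ℝ))) / ((a : ℝ) * b) := by
        field_simp
      rw [e1, Real.log_div (by positivity) (by positivity), log_eq hs hA hB ha hb hab,
        LL_union a b a1 a2 b1 b2]
    rw [hlog, ratio_eq hs hA hB ha hb hab, GG_union a b a1 a2 b1 b2]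
    unfold cc
    ring
  have hstep : ∑ A1 ∈ T1 z Y1, ∑ A2 ∈ T2 z Y2, ∑ m' ∈ MfS z Y1 Y2,
      wS z Y1 Y2 (Pr A1 * Pr A2) * wS z Y1 Y2 m' *
      ((Nat.gcd (a * m') (b * (Pr A1 * Pr A2)) : ℝ) / (((Pr A1 * Pr A2 : ℕ) : ℝ) * m')) *
      (1 / 2 * Real.log N + Real.eulerMascheroniConstant + 1 / 2 *
        Real.log ((Nat.gcd (a * m') (b * (Pr A1 * Pr A2)) : ℝ) ^ 2 /
          (a * b * ((Pr A1 * Pr A2 : ℕ) : ℝ) * m'))) =
      ∑ A1 ∈ T1 z Y1, ∑ A2 ∈ T2 z Y2, ∑ B1 ∈ T1 z Y1, ∑ B2 ∈ T2 z Y2,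
      ((-1) ^ A1.card * (-1) ^ B1.card * GG a b (Nat.primesLE z) A1 B1) *
        ((cc N a b + 1 / 2 * LL a b (Nat.primesLE z) A1 B1) *
          (cf Y2 A2 * cf Y2 B2 * GG a b (rs (Nat.primesLE z) Y2) A2 B2) + 1 / 2 *
          (cf Y2 A2 * cf Y2 B2 * GG a b (rs (Nat.primesLE z) Y2) A2 B2 *
            LL a b (rs (Nat.primesLE z) Y2) A2 B2)) := by
    refine Finset.sum_congr rfl fun A1 hA1 => Finset.sum_congr rfl fun A2 hA2 => ?_
    rw [sum_MfS]
    refine Finset.sum_congr rfl fun B1 hB1 => Finset.sum_congr rfl fun B2 hB2 => ?_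
    exact hterm A1 hA1 A2 hA2 B1 hB1 B2 hB2
  rw [hstep]
  refine Finset.sum_congr rfl fun A1 hA1 => ?_
  rw [Finset.sum_comm]
  refine Finset.sum_congr rfl fun B1 hB1 => ?_
  unfold R0 R1 T2
  simp_rw [← Finset.mul_sum, Finset.sum_add_distrib, ← Finset.mul_sum]

/-- absolute rough double sum -/
noncomputable def Rt (a b z Y2 : ℕ) : ℝ :=
  ∑ A ∈ (rs (Nat.primesLE z) Y2).powerset, ∑ B ∈ (rs (Nat.primesLE z) Y2).powerset,
    GG a b (rs (Nat.primesLE z) Y2) A B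

/-- weighted absolute small double sum -/
noncomputable def Rk (a b z : ℕ) (σ : ℝ) : ℝ :=
  ∑ A ∈ (Nat.primesLE z).powerset, ∑ B ∈ (Nat.primesLE z).powerset,
    GG a b (Nat.primesLE z) A B * ((Pr A : ℝ) * (Pr B : ℝ)) ^ σ

lemma abs_le'_le (a b p : ℕ) (x y : Bool) : |(le' a b p x y : ℝ)| ≤ x.toNat + y.toNat := by
  have : |le' a b p x y| ≤ (x.toNat + y.toNat : ℤ) := by
    unfold le' ee
    cases x <;> cases y <;> split_ifs <;> simp
  exact_mod_cast this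

lemma abs_LL_le (a b : ℕ) {s A B : Finset ℕ} (hs : ∀ p ∈ s, p.Prime) (hA : A ⊆ s) (hB : B ⊆ s) :
    |LL a b s A B| ≤ Real.log (Pr A) + Real.log (Pr B) := by
  have hlog : ∀ A ⊆ s, Real.log (Pr A : ℝ) = ∑ p ∈ s, Real.log p * ((decide (p ∈ A)).toNat : ℝ) := by
    intro A hA
    rw [Pr_eq_prod hA]
    push_cast
    rw [Real.log_prod (fun p hp => pow_ne_zero _ (by exact_mod_cast (hs p hp).ne_zero))]
    refine Finset.sum_congr rfl fun p _ => by rw [Real.log_pow]; ring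
  rw [hlog A hA, hlog B hB, ← Finset.sum_add_distrib]
  unfold LL
  refine (Finset.abs_sum_le_sum_abs _ _).trans (Finset.sum_le_sum fun p hp => ?_)
  have hlp : 0 ≤ Real.log p := Real.log_nonneg (by exact_mod_cast (hs p hp).one_lt.le)
  rw [abs_mul, abs_of_nonneg hlp, ← mul_add]
  exact mul_le_mul_of_nonneg_left (abs_le'_le a b p _ _) hlp

lemma abs_cf_le {z Y2 : ℕ} (hY : 2 ≤ Y2) {A : Finset ℕ} (hA : A ∈ T2 z Y2) : |cf Y2 A| ≤ 1 := by
  obtain ⟨b1, b2⟩ := mem_T2.mp hA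
  have hb2 : Pr A ≤ Y2 := by exact_mod_cast b2
  obtain ⟨l1, l2⟩ := Lam_bounds (Pr_pos fun p hp => (prime_rough b1 p hp).1) hb2 hY
  unfold cf
  rw [abs_mul, abs_pow, abs_neg, abs_one, one_pow, one_mul, abs_of_nonneg l1]
  exact l2

lemma abs_R0_le {a b z Y2 : ℕ} (hY : 2 ≤ Y2) : |R0 a b (Nat.primesLE z) Y2| ≤ Rt a b z Y2 := by
  unfold R0 Rt
  have hsub : TS (Nat.primesLE z) Y2 Y2 ⊆ (rs (Nat.primesLE z) Y2).powerset := Finset.filter_subset _ _
  calc _ ≤ ∑ A ∈ TS (Nat.primesLE z) Y2 Y2, ∑ B ∈ TS (Nat.primesLE z) Y2 Y2,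
        GG a b (rs (Nat.primesLE z) Y2) A B := by
        refine (Finset.abs_sum_le_sum_abs _ _).trans (Finset.sum_le_sum fun A hA => ?_)
        refine (Finset.abs_sum_le_sum_abs _ _).trans (Finset.sum_le_sum fun B hB => ?_)
        rw [abs_mul, abs_mul, abs_of_nonneg (GG_nonneg _ _ _ _ _)]
        have h1 : |cf Y2 A| * |cf Y2 B| ≤ 1 * 1 := by
          gcongr
          · exact abs_cf_le hY hA
          · exact abs_cf_le hY hB
        rw [one_mul] at h1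
        exact mul_le_of_le_one_left (GG_nonneg _ _ _ _ _) h1
    _ ≤ _ := by
        refine (Finset.sum_le_sum fun A _ => Finset.sum_le_sum_of_subset_of_nonneg hsub
          fun _ _ _ => GG_nonneg _ _ _ _ _).trans
          (Finset.sum_le_sum_of_subset_of_nonneg hsub fun _ _ _ =>
            Finset.sum_nonneg fun _ _ => GG_nonneg _ _ _ _ _)

lemma abs_R1_le {a b z Y2 : ℕ} (hY : 2 ≤ Y2) :
    |R1 a b (Nat.primesLE z) Y2| ≤ 2 * Real.log Y2 * Rt a b z Y2 := by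
  unfold R1 Rt
  have hsub : TS (Nat.primesLE z) Y2 Y2 ⊆ (rs (Nat.primesLE z) Y2).powerset := Finset.filter_subset _ _
  have hY1 : (1 : ℝ) < Y2 := by exact_mod_cast hY
  have hlY : 0 < Real.log Y2 := Real.log_pos hY1
  calc _ ≤ ∑ A ∈ TS (Nat.primesLE z) Y2 Y2, ∑ B ∈ TS (Nat.primesLE z) Y2 Y2,
        2 * Real.log Y2 * GG a b (rs (Nat.primesLE z) Y2) A B := by
        refine (Finset.abs_sum_le_sum_abs _ _).trans (Finset.sum_le_sum fun A hA => ?_)
        refine (Finset.abs_sum_le_sum_abs _ _).trans (Finset.sum_le_sum fun B hB => ?_)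
        rw [abs_mul, abs_mul, abs_mul, abs_of_nonneg (GG_nonneg _ _ _ _ _)]
        have h1 : |cf Y2 A| * |cf Y2 B| ≤ 1 * 1 := by
          gcongr
          · exact abs_cf_le hY hA
          · exact abs_cf_le hY hB
        rw [one_mul] at h1
        have hA' := mem_TS.mp hA
        have hB' := mem_TS.mp hB
        have h2 := abs_LL_le a b (fun p hp => rs_prime hp) hA'.1 hB'.1
        have hPA : (0 : ℝ) < Pr A := by exact_mod_cast Pr_pos fun p hp => rs_prime (hA'.1 hp)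
        have hPB : (0 : ℝ) < Pr B := by exact_mod_cast Pr_pos fun p hp => rs_prime (hB'.1 hp)
        have h3 := Real.log_le_log hPA hA'.2
        have h4 := Real.log_le_log hPB hB'.2
        have hG := GG_nonneg a b (rs (Nat.primesLE z) Y2) A B
        calc |cf Y2 A| * |cf Y2 B| * GG a b (rs (Nat.primesLE z) Y2) A B *
              |LL a b (rs (Nat.primesLE z) Y2) A B|
            ≤ 1 * GG a b (rs (Nat.primesLE z) Y2) A B * (2 * Real.log Y2) := by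
              gcongr
              linarith
          _ = _ := by ring
    _ ≤ _ := by
        rw [Finset.mul_sum]
        simp_rw [Finset.mul_sum]
        refine (Finset.sum_le_sum fun A _ => Finset.sum_le_sum_of_subset_of_nonneg hsub
          fun _ _ _ => mul_nonneg (by positivity) (GG_nonneg _ _ _ _ _)).trans
          (Finset.sum_le_sum_of_subset_of_nonneg hsub fun _ _ _ =>
            Finset.sum_nonneg fun _ _ => mul_nonneg (by positivity) (GG_nonneg _ _ _ _ _))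

lemma log_Pr_small {z : ℕ} {A : Finset ℕ} (hA : A ⊆ Nat.primesLE z) :
    Real.log (Pr A) ≤ z * Real.log 4 := by
  have h1 : Pr A ≤ primorial z := by
    unfold Pr primorial
    have h2 : A ⊆ (range (z + 1)).filter Nat.Prime := by
      intro p hp
      have := prime_small hA p hp
      simp only [mem_filter, mem_range]
      exact ⟨by omega, this.1⟩
    exact Finset.prod_le_prod_of_subset_of_one_le' h2 fun p hp _ =>
      (Finset.mem_filter.mp hp).2.one_lt.le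
  have h2 : Pr A ≤ 4 ^ z := h1.trans (primorial_le_four_pow z)
  have h3 : (0 : ℝ) < Pr A := by exact_mod_cast Pr_pos fun p hp => (prime_small hA p hp).1
  have h4 : (Pr A : ℝ) ≤ 4 ^ z := by exact_mod_cast h2
  have h5 := Real.log_le_log h3 h4
  rwa [Real.log_pow] at h5

/-- **comparison with the untruncated main term** -/
theorem MM_full {z Y1 Y2 N a b : ℕ} (ha : a ≠ 0) (hb : b ≠ 0) (hab : Nat.Coprime a b)
    (hY1 : 1 ≤ Y1) (hY : 2 ≤ Y2) {σ : ℝ} (hσ : 0 ≤ σ) :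
    |MM z Y1 Y2 N a b - (cc N a b * S0 a b (Nat.primesLE z) * R0 a b (Nat.primesLE z) Y2 +
      1 / 2 * S1 a b (Nat.primesLE z) * R0 a b (Nat.primesLE z) Y2 +
      1 / 2 * S0 a b (Nat.primesLE z) * R1 a b (Nat.primesLE z) Y2)| ≤
      (|cc N a b| + z * Real.log 4 + Real.log Y2) * Rt a b z Y2 * ((Y1 : ℝ) ^ (-σ) * Rk a b z σ) := by
  classical
  set s1 := Nat.primesLE z with hs1
  set U := s1.powerset with hU
  set E : Finset ℕ → Finset ℕ → ℝ := fun A1 B1 => (-1) ^ A1.card * (-1) ^ B1.card * GG a b s1 A1 B1 *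
      ((cc N a b + 1 / 2 * LL a b s1 A1 B1) * R0 a b s1 Y2 + 1 / 2 * R1 a b s1 Y2) with hE
  have hT : T1 z Y1 ⊆ U := Finset.filter_subset _ _
  have hfull : cc N a b * S0 a b s1 * R0 a b s1 Y2 + 1 / 2 * S1 a b s1 * R0 a b s1 Y2 +
      1 / 2 * S0 a b s1 * R1 a b s1 Y2 = ∑ A1 ∈ U, ∑ B1 ∈ U, E A1 B1 := by
    have e1 : ∀ A1 B1, E A1 B1 = (cc N a b * R0 a b s1 Y2 + 1 / 2 * R1 a b s1 Y2) *
        ((-1) ^ A1.card * (-1) ^ B1.card * GG a b s1 A1 B1) + (1 / 2 * R0 a b s1 Y2) *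
        ((-1) ^ A1.card * (-1) ^ B1.card * GG a b s1 A1 B1 * LL a b s1 A1 B1) := by
      intro A1 B1
      simp only [hE]
      ring
    simp_rw [e1, Finset.sum_add_distrib, ← Finset.mul_sum]
    unfold S0 S1
    ring
  have hMM : MM z Y1 Y2 N a b = ∑ A1 ∈ U, ∑ B1 ∈ U,
      (if A1 ∈ T1 z Y1 ∧ B1 ∈ T1 z Y1 then E A1 B1 else 0) := by
    rw [MM_eq ha hb hab]
    rw [← Finset.sum_subset hT (f := fun A1 => ∑ B1 ∈ U,
      (if A1 ∈ T1 z Y1 ∧ B1 ∈ T1 z Y1 then E A1 B1 else 0))]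
    · refine Finset.sum_congr rfl fun A1 hA1 => ?_
      rw [← Finset.sum_subset hT]
      · refine Finset.sum_congr rfl fun B1 hB1 => ?_
        rw [if_pos ⟨hA1, hB1⟩]
      · intro B1 _ hB1
        rw [if_neg (fun h => hB1 h.2)]
    · intro A1 _ hA1
      refine Finset.sum_eq_zero fun B1 _ => ?_
      rw [if_neg (fun h => hA1 h.1)]
  rw [hfull, hMM, ← Finset.sum_sub_distrib]
  have hY1r : (0 : ℝ) < Y1 := by exact_mod_cast hY1
  have hl4 : 0 < Real.log 4 := Real.log_pos (by norm_num)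
  have hY2r : (1 : ℝ) < Y2 := by exact_mod_cast hY
  have hlY : 0 < Real.log Y2 := Real.log_pos hY2r
  have hRt : 0 ≤ Rt a b z Y2 := (abs_nonneg _).trans (abs_R0_le (z := z) hY)
  set K := (|cc N a b| + z * Real.log 4 + Real.log Y2) * Rt a b z Y2 with hK
  have hK0 : 0 ≤ K := by rw [hK]; positivity
  have hterm : ∀ A1 ∈ U, ∀ B1 ∈ U,
      |(if A1 ∈ T1 z Y1 ∧ B1 ∈ T1 z Y1 then E A1 B1 else 0) - E A1 B1| ≤
      K * (Y1 : ℝ) ^ (-σ) * (GG a b s1 A1 B1 * ((Pr A1 : ℝ) * (Pr B1 : ℝ)) ^ σ) := by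
    intro A1 hA1 B1 hB1
    have hA1' := Finset.mem_powerset.mp hA1
    have hB1' := Finset.mem_powerset.mp hB1
    have hG := GG_nonneg a b s1 A1 B1
    have hPA : 1 ≤ Pr A1 := Pr_pos fun p hp => (prime_small hA1' p hp).1
    have hPB : 1 ≤ Pr B1 := Pr_pos fun p hp => (prime_small hB1' p hp).1
    have hPAr : (1 : ℝ) ≤ Pr A1 := by exact_mod_cast hPA
    have hPBr : (1 : ℝ) ≤ Pr B1 := by exact_mod_cast hPB
    split_ifs with h
    · rw [sub_self, abs_zero]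
      positivity
    · rw [zero_sub, abs_neg]
      have hbig : (Y1 : ℝ) ≤ (Pr A1 : ℝ) * Pr B1 := by
        rcases not_and_or.mp h with h1 | h1
        · have h2 : Y1 < Pr A1 := by
            by_contra h3
            exact h1 (mem_T1.mpr ⟨hA1', by omega⟩)
          have h3 : (Y1 : ℝ) ≤ Pr A1 := by exact_mod_cast h2.le
          nlinarith
        · have h2 : Y1 < Pr B1 := by
            by_contra h3
            exact h1 (mem_T1.mpr ⟨hB1', by omega⟩)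
          have h3 : (Y1 : ℝ) ≤ Pr B1 := by exact_mod_cast h2.le
          nlinarith
      have h1 : 1 ≤ (Y1 : ℝ) ^ (-σ) * ((Pr A1 : ℝ) * (Pr B1 : ℝ)) ^ σ := by
        have e1 : (Y1 : ℝ) ^ σ ≤ ((Pr A1 : ℝ) * (Pr B1 : ℝ)) ^ σ :=
          Real.rpow_le_rpow hY1r.le hbig hσ
        calc (1 : ℝ) = (Y1 : ℝ) ^ (-σ) * (Y1 : ℝ) ^ σ := by
              rw [← Real.rpow_add hY1r]; simp
          _ ≤ _ := by gcongr
      have h2 : |E A1 B1| ≤ GG a b s1 A1 B1 * K := by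
        simp only [hE]
        rw [abs_mul, abs_mul, abs_mul, abs_pow, abs_pow, abs_neg, abs_one, one_pow, one_pow, one_mul,
          one_mul, abs_of_nonneg hG]
        refine mul_le_mul_of_nonneg_left ?_ hG
        have h3 : |LL a b s1 A1 B1| ≤ 2 * (z * Real.log 4) := by
          have e1 := abs_LL_le a b (fun p hp => (Nat.mem_primesLE.mp hp).2) hA1' hB1'
          have e2 := log_Pr_small hA1'
          have e3 := log_Pr_small hB1'
          linarith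
        have h4 := abs_R0_le (a := a) (b := b) (z := z) hY
        have h5 := abs_R1_le (a := a) (b := b) (z := z) hY
        calc |(cc N a b + 1 / 2 * LL a b s1 A1 B1) * R0 a b s1 Y2 + 1 / 2 * R1 a b s1 Y2|
            ≤ |(cc N a b + 1 / 2 * LL a b s1 A1 B1) * R0 a b s1 Y2| + |1 / 2 * R1 a b s1 Y2| :=
              abs_add_le _ _
          _ = |cc N a b + 1 / 2 * LL a b s1 A1 B1| * |R0 a b s1 Y2| + 1 / 2 * |R1 a b s1 Y2| := by
              rw [abs_mul, abs_mul, abs_of_pos (by norm_num : (0 : ℝ) < 1 / 2)]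
          _ ≤ (|cc N a b| + z * Real.log 4) * Rt a b z Y2 + 1 / 2 * (2 * Real.log Y2 * Rt a b z Y2) := by
              have e4 : |cc N a b + 1 / 2 * LL a b s1 A1 B1| ≤ |cc N a b| + z * Real.log 4 := by
                refine (abs_add_le _ _).trans ?_
                rw [abs_mul, abs_of_pos (by norm_num : (0 : ℝ) < 1 / 2)]
                linarith
              gcongr
          _ = K := by rw [hK]; ring
      calc |E A1 B1| ≤ GG a b s1 A1 B1 * K := h2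
        _ = GG a b s1 A1 B1 * K * 1 := by ring
        _ ≤ GG a b s1 A1 B1 * K * ((Y1 : ℝ) ^ (-σ) * ((Pr A1 : ℝ) * (Pr B1 : ℝ)) ^ σ) :=
            mul_le_mul_of_nonneg_left h1 (by positivity)
        _ = _ := by ring
  calc _ ≤ ∑ A1 ∈ U, ∑ B1 ∈ U, K * (Y1 : ℝ) ^ (-σ) *
        (GG a b s1 A1 B1 * ((Pr A1 : ℝ) * (Pr B1 : ℝ)) ^ σ) := by
        refine (Finset.abs_sum_le_sum_abs _ _).trans (Finset.sum_le_sum fun A1 hA1 => ?_)
        rw [← Finset.sum_sub_distrib]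
        exact (Finset.abs_sum_le_sum_abs _ _).trans (Finset.sum_le_sum fun B1 hB1 => hterm A1 hA1 B1 hB1)
    _ = _ := by
        simp_rw [← Finset.mul_sum]
        unfold Rk
        ring

end Pool.Agent.H14.PT
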