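import Pool.Agent.H14.PT.S2

/-!
# Trivial bounds
-/

set_option linter.unusedSectionVars false

namespace Pool.Agent.H14.PT

open Finset
open scoped ComplexConjugate

/-- **second moment, small range** -/
theorem S2_small (ε : ℝ) (hε : 0 < ε) (hε1 : ε ≤ 1 / 3) : ∃ Q0 : ℝ, ∀ (q : ℕ) [Fact q.Prime],
    Q0 ≤ Real.log q → Big (Real.log q) → ∀ (H : Subgroup (ZMod q)ˣ),
    Real.log (Nat.card H) ≤ (1 / 3 - ε) * Real.log q → ∀ N : ℕ,
    1 ≤ N → (N : ℝ) ≤ Real.exp (1.001 * Real.log q) →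
    ∑ p ∈ RP H ((YY (Real.log q) * YY (Real.log q)) ^ 2 * N),
      |DN (MfS (zz (Real.log q)) (YY (Real.log q)) (YY (Real.log q)))
        (wS (zz (Real.log q)) (YY (Real.log q)) (YY (Real.log q))) N p.1 p.2| ≤
      Real.exp (3 / 10 ^ 8 * Real.log q) := by
  classical
  obtain ⟨C, hC, hdiv⟩ := divisor_bound (1 / 2) (by norm_num)
  obtain ⟨Ql, hsumL⟩ := sum_L ε hε hε1
  obtain ⟨Q1, _, hQ1⟩ := poly_le_exp 4 (16 * C + 1) (1 / 10 ^ 8) (by norm_num)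
  refine ⟨max Ql Q1, ?_⟩
  intro q _ hq hB H hH N hN1 hN2
  have hql : Ql ≤ Real.log q := (le_max_left _ _).trans hq
  have hq1 : Q1 ≤ Real.log q := (le_max_right _ _).trans hq
  have hsL := hsumL q hql H hH
  set L := Real.log q with hL
  have hL100 := hB.hL
  have hLpos : 0 < L := by linarith
  have hpoly := hQ1 L hq1
  set Ex := Real.exp (1 / 10 ^ 8 * L) with hEx
  set z := zz L with hz
  set Y := YY L with hY
  set P := RP H ((Y * Y) ^ 2 * N) with hP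
  set D : ℕ × ℕ → ℝ := fun p => |DN (MfS z Y Y) (wS z Y Y) N p.1 p.2| with hD
  have hCPall : ∀ p ∈ P, CP H 1 p := fun p hp => (mem_RP.mp hp).1
  have hup : ∀ p ∈ P, ((p.1 * p.2 : ℕ) : ℝ) ≤ Real.exp (1.05 * L) := by
    intro p hp
    have h1 := (mem_RP.mp hp).2
    have h2 : ((p.1 * p.2 : ℕ) : ℝ) ≤ (((Y * Y) ^ 2 * N : ℕ) : ℝ) := by exact_mod_cast h1
    refine h2.trans ?_
    push_cast
    have hY' := hB.Y_hi
    calc ((Y : ℝ) * Y) ^ 2 * N ≤ (Real.exp (L / 1000) * Real.exp (L / 1000)) ^ 2 * Real.exp (1.001 * L) := by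
          gcongr
      _ = Real.exp (1.005 * L) := by
          rw [← Real.exp_add, ← Real.exp_nat_mul, ← Real.exp_add]; congr 1; push_cast; ring
      _ ≤ _ := Real.exp_le_exp.mpr (by nlinarith)
  have hpt : ∀ p ∈ P, D p ≤ (if Ex ≤ ((p.1 * p.2 : ℕ) : ℝ) then T0 p * (16 * L ^ 4) else 0) +
      (if ((p.1 * p.2 : ℕ) : ℝ) ≤ Ex then C * (16 * L ^ 4) else 0) := by
    intro p hp
    obtain ⟨hcop, h1, h2, _⟩ := hCPall p hp
    have hT : D p ≤ T0 p * (16 * L ^ 4) := DN_T0 hB h1 h2 hcop hN1 hN2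
    have hT0 : 0 ≤ T0 p * (16 * L ^ 4) := mul_nonneg (T0_nonneg p) (by positivity)
    have hn0 : p.1 * p.2 ≠ 0 := Nat.mul_ne_zero h1 h2
    have hn0r : (0 : ℝ) < ((p.1 * p.2 : ℕ) : ℝ) := by exact_mod_cast Nat.pos_of_ne_zero hn0
    by_cases hbig : Ex ≤ ((p.1 * p.2 : ℕ) : ℝ)
    · rw [if_pos hbig]
      have : 0 ≤ (if ((p.1 * p.2 : ℕ) : ℝ) ≤ Ex then C * (16 * L ^ 4) else 0) := by
        split_ifs <;> positivity
      linarith
    · rw [if_neg hbig]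
      push Not at hbig
      rw [if_pos hbig.le]
      have hTC : T0 p ≤ C := by
        unfold T0
        calc _ ≤ (C * (((p.1 * p.2 : ℕ) : ℝ)) ^ (1 / 2 : ℝ)) * (((p.1 * p.2 : ℕ) : ℝ)) ^ (-(1 / 2) : ℝ) := by
              gcongr
              exact hdiv _ hn0
          _ = C := by
              rw [mul_assoc, ← Real.rpow_add hn0r]; norm_num
      have : T0 p * (16 * L ^ 4) ≤ C * (16 * L ^ 4) := by gcongr
      linarith
  refine (Finset.sum_le_sum hpt).trans ?_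
  rw [Finset.sum_add_distrib]
  have s2 : ∑ p ∈ P, (if Ex ≤ ((p.1 * p.2 : ℕ) : ℝ) then T0 p * (16 * L ^ 4) else 0) ≤ 1 := by
    rw [← Finset.sum_filter]
    apply hsL
    intro p hp
    obtain ⟨h1, h2⟩ := Finset.mem_filter.mp hp
    exact ⟨hCPall p h1, h2, hup p h1⟩
  have s3 : ∑ p ∈ P, (if ((p.1 * p.2 : ℕ) : ℝ) ≤ Ex then C * (16 * L ^ 4) else 0) ≤
      Ex ^ 2 * (C * (16 * L ^ 4)) := by
    rw [← Finset.sum_filter, Finset.sum_const, nsmul_eq_mul]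
    have h1 := count_small (E := Ex) (Real.exp_pos _).le (P.filter (fun p => ((p.1 * p.2 : ℕ) : ℝ) ≤ Ex))
      (fun p hp => by
        obtain ⟨h1, h2⟩ := Finset.mem_filter.mp hp
        obtain ⟨_, h3, h4, _⟩ := hCPall p h1
        exact ⟨h3, h4, h2⟩)
    gcongr
  have hEx1 : 1 ≤ Ex ^ 2 := one_le_pow₀ (Real.one_le_exp (by positivity))
  have hL4 : 1 ≤ L ^ 4 := one_le_pow₀ (by linarith)
  calc _ ≤ 1 + Ex ^ 2 * (C * (16 * L ^ 4)) := add_le_add s2 s3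
    _ ≤ Ex ^ 2 * ((16 * C + 1) * L ^ 4) := by nlinarith
    _ ≤ Ex ^ 2 * Real.exp (1 / 10 ^ 8 * L) := by gcongr
    _ = Real.exp (3 / 10 ^ 8 * L) := by
        rw [hEx, ← Real.exp_nat_mul, ← Real.exp_add]; congr 1; push_cast; ring

variable {q : ℕ} [Fact q.Prime]

/-- trivial bound for the mollifier -/
lemma norm_Mol_le (Mf : Finset ℕ) (w : ℕ → ℝ) (χ : DirichletCharacter ℂ q) {Y : ℕ}
    (hM : ∀ m ∈ Mf, 1 ≤ m ∧ m ≤ Y) (hw : ∀ m, |w m| ≤ 1) : ‖Mol Mf w χ‖ ≤ Y := by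
  unfold Mol
  refine (norm_sum_le _ _).trans ?_
  have h1 : ∀ m ∈ Mf, ‖((w m * (m : ℝ) ^ (-(1 / 2) : ℝ) : ℝ) : ℂ) * χ (m : ZMod q)‖ ≤ 1 := by
    intro m hm
    rw [norm_mul, Complex.norm_real, Real.norm_eq_abs, abs_mul,
      abs_of_nonneg (by positivity : (0 : ℝ) ≤ (m : ℝ) ^ (-(1 / 2) : ℝ))]
    have h2 : (m : ℝ) ^ (-(1 / 2) : ℝ) ≤ 1 :=
      Real.rpow_le_one_of_one_le_of_nonpos (by exact_mod_cast (hM m hm).1) (by norm_num)
    calc |w m| * (m : ℝ) ^ (-(1 / 2) : ℝ) * ‖χ (m : ZMod q)‖ ≤ 1 * 1 * 1 := by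
          gcongr
          · exact hw m
          · exact norm_chi_le _ _
      _ = 1 := by norm_num
  refine (Finset.sum_le_sum h1).trans ?_
  rw [Finset.sum_const, nsmul_eq_mul, mul_one]
  have : Mf.card ≤ (Icc 1 Y).card := Finset.card_le_card fun m hm => Finset.mem_Icc.mpr (hM m hm)
  rw [Nat.card_Icc] at this
  have h3 : Mf.card ≤ Y := by omega
  exact_mod_cast h3

lemma norm_TT_term (χ : DirichletCharacter ℂ q) (n : ℕ × ℕ) :
    ‖χ (n.1 : ZMod q) * conj (χ (n.2 : ZMod q)) * (((((n.1 * n.2 : ℕ) : ℝ)) ^ (-(1 / 2) : ℝ) : ℝ) : ℂ)‖ ≤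
      (((n.1 * n.2 : ℕ) : ℝ)) ^ (-(1 / 2) : ℝ) := by
  rw [norm_mul, norm_mul, RCLike.norm_conj, Complex.norm_real, Real.norm_of_nonneg (by positivity)]
  have h2 : ‖χ (n.1 : ZMod q)‖ * ‖χ (n.2 : ZMod q)‖ ≤ 1 := by
    calc _ ≤ (1 : ℝ) * 1 := by
          gcongr
          · exact norm_chi_le _ _
          · exact norm_chi_le _ _
      _ = 1 := by norm_num
  exact mul_le_of_le_one_left (by positivity) h2

lemma norm_TT_le (χ : DirichletCharacter ℂ q) (N : ℕ) : ‖TT χ N‖ ≤ (N : ℝ) ^ 2 := by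
  unfold TT
  refine (norm_sum_le _ _).trans ?_
  have h1 : ∀ n ∈ hyp N, ‖χ (n.1 : ZMod q) * conj (χ (n.2 : ZMod q)) *
      (((((n.1 * n.2 : ℕ) : ℝ)) ^ (-(1 / 2) : ℝ) : ℝ) : ℂ)‖ ≤ 1 := by
    intro n hn
    refine (norm_TT_term χ n).trans ?_
    obtain ⟨h1, h2, _⟩ := mem_hyp.mp hn
    apply Real.rpow_le_one_of_one_le_of_nonpos _ (by norm_num)
    exact_mod_cast Nat.mul_pos h1 h2
  refine (Finset.sum_le_sum h1).trans ?_
  rw [Finset.sum_const, nsmul_eq_mul, mul_one]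
  have : (hyp N).card ≤ N * N := by
    unfold hyp
    refine (Finset.card_filter_le _ _).trans ?_
    rw [card_product, Nat.card_Icc]
    simp
  calc ((hyp N).card : ℝ) ≤ ((N * N : ℕ) : ℝ) := by exact_mod_cast this
    _ = _ := by push_cast; ring

lemma norm_TT_le2 (χ : DirichletCharacter ℂ q) (N : ℕ) :
    ‖TT χ N‖ ≤ Real.sqrt N * (1 + Real.log N) ^ 2 := by
  unfold TT
  refine (norm_sum_le _ _).trans ?_
  have h1 : ∀ n ∈ hyp N, ‖χ (n.1 : ZMod q) * conj (χ (n.2 : ZMod q)) *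
      (((((n.1 * n.2 : ℕ) : ℝ)) ^ (-(1 / 2) : ℝ) : ℝ) : ℂ)‖ ≤ Real.sqrt N * ((1 / (n.1 : ℝ)) * (1 / (n.2 : ℝ))) := by
    intro n hn
    refine (norm_TT_term χ n).trans ?_
    obtain ⟨h1, h2, h3⟩ := mem_hyp.mp hn
    have h4 : (0 : ℝ) < ((n.1 * n.2 : ℕ) : ℝ) := by exact_mod_cast Nat.mul_pos h1 h2
    have h5 : ((n.1 * n.2 : ℕ) : ℝ) ≤ N := by exact_mod_cast h3
    have h6 : (((n.1 * n.2 : ℕ) : ℝ)) ^ (-(1 / 2) : ℝ) =
        (((n.1 * n.2 : ℕ) : ℝ)) ^ (1 / 2 : ℝ) * (((n.1 * n.2 : ℕ) : ℝ))⁻¹ := by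
      rw [← Real.rpow_neg_one, ← Real.rpow_add h4]; norm_num
    rw [h6, ← Real.sqrt_eq_rpow, one_div_mul_one_div]
    push_cast at h5 ⊢
    rw [one_div]
    gcongr
  refine (Finset.sum_le_sum h1).trans ?_
  rw [← Finset.mul_sum]
  refine mul_le_mul_of_nonneg_left ?_ (Real.sqrt_nonneg _)
  calc ∑ n ∈ hyp N, (1 / (n.1 : ℝ)) * (1 / (n.2 : ℝ)) ≤
        ∑ n ∈ (Icc 1 N) ×ˢ (Icc 1 N), (1 / (n.1 : ℝ)) * (1 / (n.2 : ℝ)) :=
        Finset.sum_le_sum_of_subset_of_nonneg (Finset.filter_subset _ _) (fun _ _ _ => by positivity)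
    _ = (∑ n ∈ Icc 1 N, 1 / (n : ℝ)) ^ 2 := by
        rw [Finset.sum_product, sq, Finset.sum_mul_sum]
    _ ≤ (1 + Real.log N) ^ 2 :=
        pow_le_pow_left₀ (Finset.sum_nonneg fun _ _ => by positivity) (sum_one_div_le N) 2

/-- the part of the coset without the principal character -/
noncomputable def Xn (X : Subgroup (DirichletCharacter ℂ q)) (χ0 : DirichletCharacter ℂ q) :
    Finset (DirichletCharacter ℂ q) :=
  open Classical in (Xs X).filter (fun χ => χ0 * χ ≠ 1)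

/-- removing the principal character -/
lemma sum_Xn_le (X : Subgroup (DirichletCharacter ℂ q)) (χ0 : DirichletCharacter ℂ q)
    (F : DirichletCharacter ℂ q → ℂ) {E : ℝ} (hE : ‖F 1‖ ≤ E) :
    ‖∑ χ ∈ Xn X χ0, F (χ0 * χ)‖ ≤ ‖∑ χ ∈ Xs X, F (χ0 * χ)‖ + E := by
  classical
  have h1 : ∑ χ ∈ Xs X, F (χ0 * χ) = ∑ χ ∈ Xn X χ0, F (χ0 * χ) +
      ∑ χ ∈ (Xs X).filter (fun χ => ¬ (χ0 * χ ≠ 1)), F (χ0 * χ) := by
    unfold Xn
    rw [Finset.sum_filter_add_sum_filter_not]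
  have h2 : ‖∑ χ ∈ (Xs X).filter (fun χ => ¬ (χ0 * χ ≠ 1)), F (χ0 * χ)‖ ≤ E := by
    have hsub : (Xs X).filter (fun χ => ¬ (χ0 * χ ≠ 1)) ⊆ {χ0⁻¹} := by
      intro χ hχ
      have := (Finset.mem_filter.mp hχ).2
      push Not at this
      rw [Finset.mem_singleton]
      exact (eq_inv_of_mul_eq_one_right this)
    rcases Finset.subset_singleton_iff.mp hsub with h | h
    · rw [h, Finset.sum_empty, norm_zero]
      exact (norm_nonneg _).trans hE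
    · rw [h, Finset.sum_singleton, mul_inv_cancel]
      exact hE
  have h3 : ∑ χ ∈ Xn X χ0, F (χ0 * χ) = ∑ χ ∈ Xs X, F (χ0 * χ) -
      ∑ χ ∈ (Xs X).filter (fun χ => ¬ (χ0 * χ ≠ 1)), F (χ0 * χ) := by
    rw [h1]; ring
  rw [h3]
  exact (norm_sub_le _ _).trans (add_le_add le_rfl h2)

end Pool.Agent.H14.PT
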