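import Pool.Agent.H14.PT.Small

/-!
# Evaluation of the double sums
-/

namespace Pool.Agent.H14.PT

open Finset

/-- sign -/
def sgb (x : Bool) : ℝ := if x then -1 else 1

lemma sg_eq {s A : Finset ℕ} (hA : A ⊆ s) : (-1 : ℝ) ^ A.card = ∏ p ∈ s, sgb (decide (p ∈ A)) := by
  classical
  rw [← Finset.prod_const, ← Finset.prod_subset hA (f := fun p => sgb (decide (p ∈ A)))]
  · refine Finset.prod_congr rfl fun p hp => by simp [sgb, hp]
  · intro p _ hp
    simp [sgb, hp]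

/-- local factor of `S0` -/
noncomputable def sp (a b p : ℕ) : ℝ := if p ∣ a ∨ p ∣ b then 0 else 1 - 1 / (p : ℝ)

/-- local factor of `S1` -/
noncomputable def tp (a b p : ℕ) : ℝ :=
  if p ∣ a ∨ p ∣ b then -(1 - 1 / (p : ℝ)) * Real.log p else 2 / (p : ℝ) * Real.log p

lemma local_sum (a b : ℕ) {p : ℕ} (hp : p ≠ 0) :
    (sgb false * sgb false * rr a b p false false + sgb false * sgb true * rr a b p false true) +
    (sgb true * sgb false * rr a b p true false + sgb true * sgb true * rr a b p true true) = sp a b p := by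
  have hp' : (p : ℝ) ≠ 0 := by exact_mod_cast hp
  unfold sp rr ee sgb
  by_cases ha : p ∣ a
  · simp [ha]
    field_simp
    ring
  · by_cases hb : p ∣ b
    · simp [ha, hb]
      field_simp
      ring
    · simp [ha, hb]
      field_simp
      ring

lemma local_sum_log (a b : ℕ) {p : ℕ} (hp : p ≠ 0) :
    (sgb false * sgb false * rr a b p false false * (Real.log p * (le' a b p false false : ℝ)) +
      sgb false * sgb true * rr a b p false true * (Real.log p * (le' a b p false true : ℝ))) +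
    (sgb true * sgb false * rr a b p true false * (Real.log p * (le' a b p true false : ℝ)) +
      sgb true * sgb true * rr a b p true true * (Real.log p * (le' a b p true true : ℝ))) = tp a b p := by
  have hp' : (p : ℝ) ≠ 0 := by exact_mod_cast hp
  unfold tp rr le' ee sgb
  by_cases ha : p ∣ a
  · simp [ha]
    field_simp
    ring
  · by_cases hb : p ∣ b
    · simp [ha, hb]
      field_simp
      ring
    · simp [ha, hb]
      field_simp
      ring

/-- untruncated double sum -/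
noncomputable def S0 (a b : ℕ) (s : Finset ℕ) : ℝ :=
  ∑ A ∈ s.powerset, ∑ B ∈ s.powerset, (-1) ^ A.card * (-1) ^ B.card * GG a b s A B

/-- untruncated double sum with the logarithm -/
noncomputable def S1 (a b : ℕ) (s : Finset ℕ) : ℝ :=
  ∑ A ∈ s.powerset, ∑ B ∈ s.powerset, (-1) ^ A.card * (-1) ^ B.card * GG a b s A B * LL a b s A B

lemma S0_eq (a b : ℕ) {s : Finset ℕ} (hs : ∀ p ∈ s, p.Prime) : S0 a b s = ∏ p ∈ s, sp a b p := by
  unfold S0
  have h1 : ∀ A ∈ s.powerset, ∀ B ∈ s.powerset, (-1 : ℝ) ^ A.card * (-1) ^ B.card * GG a b s A B =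
      ∏ p ∈ s, (sgb (decide (p ∈ A)) * sgb (decide (p ∈ B)) *
        rr a b p (decide (p ∈ A)) (decide (p ∈ B))) := by
    intro A hA B hB
    rw [sg_eq (Finset.mem_powerset.mp hA), sg_eq (Finset.mem_powerset.mp hB)]
    unfold GG
    rw [← Finset.prod_mul_distrib, ← Finset.prod_mul_distrib]
  rw [Finset.sum_congr rfl fun A hA => Finset.sum_congr rfl fun B hB => h1 A hA B hB,
    double_prod s (fun p x y => sgb x * sgb y * rr a b p x y)]
  exact Finset.prod_congr rfl fun p hp => local_sum a b (hs p hp).ne_zero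

lemma S1_eq (a b : ℕ) {s : Finset ℕ} (hs : ∀ p ∈ s, p.Prime) :
    S1 a b s = ∑ r ∈ s, tp a b r * ∏ p ∈ s.erase r, sp a b p := by
  unfold S1
  have h1 : ∀ A ∈ s.powerset, ∀ B ∈ s.powerset,
      (-1 : ℝ) ^ A.card * (-1) ^ B.card * GG a b s A B * LL a b s A B =
      ∑ r ∈ s, ∏ p ∈ s, (sgb (decide (p ∈ A)) * sgb (decide (p ∈ B)) *
        rr a b p (decide (p ∈ A)) (decide (p ∈ B)) *
        (if p = r then Real.log p * (le' a b p (decide (p ∈ A)) (decide (p ∈ B)) : ℝ) else 1)) := by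
    intro A hA B hB
    rw [sg_eq (Finset.mem_powerset.mp hA), sg_eq (Finset.mem_powerset.mp hB)]
    unfold GG LL
    rw [← Finset.prod_mul_distrib, ← Finset.prod_mul_distrib, Finset.mul_sum]
    refine Finset.sum_congr rfl fun r hr => ?_
    rw [Finset.prod_mul_distrib (g := fun p => if p = r then
      Real.log p * (le' a b p (decide (p ∈ A)) (decide (p ∈ B)) : ℝ) else 1),
      Finset.prod_ite_eq' s r, if_pos hr]
  rw [Finset.sum_congr rfl fun A hA => Finset.sum_congr rfl fun B hB => h1 A hA B hB]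
  have h2 : ∑ A ∈ s.powerset, ∑ B ∈ s.powerset, ∑ r ∈ s, ∏ p ∈ s,
      (sgb (decide (p ∈ A)) * sgb (decide (p ∈ B)) *
        rr a b p (decide (p ∈ A)) (decide (p ∈ B)) *
        (if p = r then Real.log p * (le' a b p (decide (p ∈ A)) (decide (p ∈ B)) : ℝ) else 1)) =
      ∑ r ∈ s, ∑ A ∈ s.powerset, ∑ B ∈ s.powerset, ∏ p ∈ s,
      (sgb (decide (p ∈ A)) * sgb (decide (p ∈ B)) *
        rr a b p (decide (p ∈ A)) (decide (p ∈ B)) *
        (if p = r then Real.log p * (le' a b p (decide (p ∈ A)) (decide (p ∈ B)) : ℝ) else 1)) := by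
    rw [Finset.sum_congr rfl fun A _ => Finset.sum_comm, Finset.sum_comm]
  rw [h2]
  refine Finset.sum_congr rfl fun r hr => ?_
  rw [double_prod s (fun p x y => sgb x * sgb y * rr a b p x y *
    (if p = r then Real.log p * (le' a b p x y : ℝ) else 1)), ← Finset.mul_prod_erase s _ hr]
  congr 1
  · rw [← local_sum_log a b (hs r hr).ne_zero]
    simp
  · refine Finset.prod_congr rfl fun p hp => ?_
    have hpr := Finset.mem_erase.mp hp
    rw [← local_sum a b (hs p hpr.2).ne_zero]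
    simp [hpr.1]

lemma S0_zero {a b : ℕ} {s : Finset ℕ} (hs : ∀ p ∈ s, p.Prime) {r : ℕ} (hr : r ∈ s)
    (hd : r ∣ a ∨ r ∣ b) : S0 a b s = 0 := by
  rw [S0_eq a b hs]
  exact Finset.prod_eq_zero hr (by simp [sp, hd])

lemma S1_zero {a b : ℕ} {s : Finset ℕ} (hs : ∀ p ∈ s, p.Prime) {r r' : ℕ} (hr : r ∈ s)
    (hr' : r' ∈ s) (hne : r ≠ r') (hd : r ∣ a ∨ r ∣ b) (hd' : r' ∣ a ∨ r' ∣ b) : S1 a b s = 0 := by
  rw [S1_eq a b hs]
  refine Finset.sum_eq_zero fun t ht => ?_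
  by_cases h : t = r
  · rw [Finset.prod_eq_zero (Finset.mem_erase.mpr ⟨by rw [h]; exact hne.symm, hr'⟩) (by simp [sp, hd']),
      mul_zero]
  · rw [Finset.prod_eq_zero (Finset.mem_erase.mpr ⟨fun h' => h h'.symm, hr⟩) (by simp [sp, hd]),
      mul_zero]

lemma S0_none {a b : ℕ} {s : Finset ℕ} (hs : ∀ p ∈ s, p.Prime)
    (hn : ∀ p ∈ s, ¬ (p ∣ a ∨ p ∣ b)) : S0 a b s = ∏ p ∈ s, (1 - 1 / (p : ℝ)) := by
  rw [S0_eq a b hs]
  exact Finset.prod_congr rfl fun p hp => by simp only [sp, if_neg (hn p hp)]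

lemma S1_single {a b : ℕ} {s : Finset ℕ} (hs : ∀ p ∈ s, p.Prime) {r : ℕ} (hr : r ∈ s)
    (hd : r ∣ a ∨ r ∣ b) (hn : ∀ p ∈ s, p ≠ r → ¬ (p ∣ a ∨ p ∣ b)) :
    S1 a b s = - Real.log r * ∏ p ∈ s, (1 - 1 / (p : ℝ)) := by
  rw [S1_eq a b hs, Finset.sum_eq_single r]
  · rw [← Finset.mul_prod_erase s (fun p : ℕ => 1 - 1 / (p : ℝ)) hr]
    have h1 : ∏ p ∈ s.erase r, sp a b p = ∏ p ∈ s.erase r, (1 - 1 / (p : ℝ)) := by
      refine Finset.prod_congr rfl fun p hp => ?_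
      obtain ⟨h2, h3⟩ := Finset.mem_erase.mp hp
      simp only [sp, if_neg (hn p h3 h2)]
    rw [h1]
    unfold tp
    rw [if_pos hd]
    ring
  · intro t ht hne
    rw [Finset.prod_eq_zero (Finset.mem_erase.mpr ⟨fun h' => hne h'.symm, hr⟩) (by simp [sp, hd]),
      mul_zero]
  · intro h
    exact absurd hr h

lemma S1_none {a b : ℕ} {s : Finset ℕ} (hs : ∀ p ∈ s, p.Prime)
    (hn : ∀ p ∈ s, ¬ (p ∣ a ∨ p ∣ b)) :
    |S1 a b s| ≤ 4 * (∏ p ∈ s, (1 - 1 / (p : ℝ))) * ∑ p ∈ s, Real.log p / p := by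
  have hpos : ∀ p ∈ s, (1 / 2 : ℝ) ≤ 1 - 1 / (p : ℝ) := by
    intro p hp
    have h2 : (2 : ℝ) ≤ p := by exact_mod_cast (hs p hp).two_le
    have : 1 / (p : ℝ) ≤ 1 / 2 := one_div_le_one_div_of_le (by norm_num) h2
    linarith
  have hV : 0 ≤ ∏ p ∈ s, (1 - 1 / (p : ℝ)) :=
    Finset.prod_nonneg fun p hp => by have := hpos p hp; linarith
  rw [S1_eq a b hs, Finset.mul_sum]
  refine (Finset.abs_sum_le_sum_abs _ _).trans (Finset.sum_le_sum fun r hr => ?_)
  have h1 : ∏ p ∈ s.erase r, sp a b p = ∏ p ∈ s.erase r, (1 - 1 / (p : ℝ)) := by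
    refine Finset.prod_congr rfl fun p hp => ?_
    obtain ⟨h2, h3⟩ := Finset.mem_erase.mp hp
    simp only [sp, if_neg (hn p h3)]
  have h2 := Finset.mul_prod_erase s (fun p : ℕ => 1 - 1 / (p : ℝ)) hr
  have hE : 0 ≤ ∏ p ∈ s.erase r, (1 - 1 / (p : ℝ)) :=
    Finset.prod_nonneg fun p hp => by
      have := hpos p (Finset.mem_of_mem_erase hp)
      linarith
  have h3 : ∏ p ∈ s.erase r, (1 - 1 / (p : ℝ)) ≤ 2 * ∏ p ∈ s, (1 - 1 / (p : ℝ)) := by
    rw [← h2]
    have := hpos r hr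
    nlinarith
  have hlog : 0 ≤ Real.log r := Real.log_nonneg (by exact_mod_cast (hs r hr).one_lt.le)
  have hr0 : (0 : ℝ) < r := by exact_mod_cast (hs r hr).pos
  rw [h1]
  unfold tp
  rw [if_neg (hn r hr), abs_of_nonneg (by positivity)]
  calc 2 / (r : ℝ) * Real.log r * ∏ p ∈ s.erase r, (1 - 1 / (p : ℝ))
      ≤ 2 / (r : ℝ) * Real.log r * (2 * ∏ p ∈ s, (1 - 1 / (p : ℝ))) := by gcongr
    _ = _ := by ring

lemma GG_nonneg (a b : ℕ) (s A B : Finset ℕ) : 0 ≤ GG a b s A B :=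
  Finset.prod_nonneg fun p _ => by unfold rr; positivity

/-- Rankin-type bound for the absolute double sum -/
lemma rankin (a b : ℕ) {s : Finset ℕ} (hs : ∀ p ∈ s, p.Prime) {σ : ℝ} (hσ : 0 ≤ σ) (hσ1 : σ ≤ 1) :
    ∑ A ∈ s.powerset, ∑ B ∈ s.powerset, GG a b s A B * ((Pr A : ℝ) * (Pr B : ℝ)) ^ σ ≤
      (∏ p ∈ s, (1 + 3 * (p : ℝ) ^ (2 * σ - 1))) *
        ∏ p ∈ s.filter (fun p => p ∣ a ∨ p ∣ b), (4 * (p : ℝ) ^ σ) := by
  classical
  have h1 : ∀ A ∈ s.powerset, ∀ B ∈ s.powerset, GG a b s A B * ((Pr A : ℝ) * (Pr B : ℝ)) ^ σ =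
      ∏ p ∈ s, (rr a b p (decide (p ∈ A)) (decide (p ∈ B)) *
        (((p : ℝ) ^ (decide (p ∈ A)).toNat) ^ σ * ((p : ℝ) ^ (decide (p ∈ B)).toNat) ^ σ)) := by
    intro A hA B hB
    rw [Real.mul_rpow (by positivity) (by positivity), Pr_eq_prod (Finset.mem_powerset.mp hA),
      Pr_eq_prod (Finset.mem_powerset.mp hB)]
    push_cast
    rw [← Real.finsetProd_rpow _ _ (fun p _ => by positivity),
      ← Real.finsetProd_rpow _ _ (fun p _ => by positivity)]
    unfold GG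
    rw [← Finset.prod_mul_distrib, ← Finset.prod_mul_distrib]
  rw [Finset.sum_congr rfl fun A hA => Finset.sum_congr rfl fun B hB => h1 A hA B hB,
    double_prod s (fun p x y => rr a b p x y * (((p : ℝ) ^ x.toNat) ^ σ * ((p : ℝ) ^ y.toNat) ^ σ)),
    Finset.prod_filter, ← Finset.prod_mul_distrib]
  refine Finset.prod_le_prod (fun p _ => by unfold rr; positivity) fun p hp => ?_
  have hp1 : (1 : ℝ) < p := by exact_mod_cast (hs p hp).one_lt
  have hp0 : (0 : ℝ) < p := by linarith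
  have hpσ : 1 ≤ (p : ℝ) ^ σ := Real.one_le_rpow hp1.le hσ
  have e1 : (p : ℝ) ^ (2 * σ - 1) = (p : ℝ) ^ σ * (p : ℝ) ^ σ / p := by
    rw [Real.rpow_sub hp0, Real.rpow_one, two_mul, Real.rpow_add hp0]
  have e2 : (p : ℝ) ^ σ * (p : ℝ) ^ σ / p ≤ (p : ℝ) ^ σ := by
    rw [div_le_iff₀ hp0]
    have : (p : ℝ) ^ σ ≤ p := by
      calc (p : ℝ) ^ σ ≤ (p : ℝ) ^ (1 : ℝ) := Real.rpow_le_rpow_of_exponent_le hp1.le hσ1
        _ = p := Real.rpow_one _
    nlinarith
  have e3 : (p : ℝ) ^ σ / p ≤ (p : ℝ) ^ σ * (p : ℝ) ^ σ / p := by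
    gcongr
    nlinarith
  have e4 : 0 ≤ (p : ℝ) ^ (2 * σ - 1) := by positivity
  by_cases ha : p ∣ a
  · have hd : p ∣ a ∨ p ∣ b := Or.inl ha
    rw [if_pos hd]
    have e7 := mul_nonneg e4 (zero_le_one.trans hpσ)
    simp only [rr, ee, ha, if_true]
    simp only [Bool.toNat_false, Bool.toNat_true, pow_zero, pow_one, Real.one_rpow, mul_one, one_mul,
      div_one, div_self hp0.ne']
    have e5 : (p : ℝ) / (p * p) * ((p : ℝ) ^ σ * (p : ℝ) ^ σ) = (p : ℝ) ^ σ * (p : ℝ) ^ σ / p := by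
      field_simp
    rw [e5]
    have e6 : 1 / (p : ℝ) * (p : ℝ) ^ σ = (p : ℝ) ^ σ / p := by ring
    rw [e6]
    nlinarith
  · by_cases hb : p ∣ b
    · have hd : p ∣ a ∨ p ∣ b := Or.inr hb
      rw [if_pos hd]
      have e7 := mul_nonneg e4 (zero_le_one.trans hpσ)
      simp only [rr, ee, ha, hb, if_true, if_false]
      simp only [Bool.toNat_false, Bool.toNat_true, pow_zero, pow_one, Real.one_rpow, mul_one, one_mul,
        div_one, div_self hp0.ne']
      have e5 : (p : ℝ) / (p * p) * ((p : ℝ) ^ σ * (p : ℝ) ^ σ) = (p : ℝ) ^ σ * (p : ℝ) ^ σ / p := by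
        field_simp
      rw [e5]
      have e6 : 1 / (p : ℝ) * (p : ℝ) ^ σ = (p : ℝ) ^ σ / p := by ring
      rw [e6]
      nlinarith
    · have hd : ¬ (p ∣ a ∨ p ∣ b) := by tauto
      simp only [rr, ee, ha, hb, if_false, or_self]
      simp only [Bool.toNat_false, Bool.toNat_true, pow_zero, pow_one, Real.one_rpow, mul_one, one_mul,
        div_one, div_self hp0.ne', Bool.and_false, Bool.and_true, Bool.false_and, Bool.and_self]
      have e5 : (p : ℝ) / (p * p) * ((p : ℝ) ^ σ * (p : ℝ) ^ σ) = (p : ℝ) ^ σ * (p : ℝ) ^ σ / p := by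
        field_simp
      rw [e5]
      have e6 : 1 / (p : ℝ) * (p : ℝ) ^ σ = (p : ℝ) ^ σ / p := by ring
      rw [e6, e1]
      nlinarith

end Pool.Agent.H14.PT
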