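import Pool.Agent.H16.Euler

/-!
# Mertens products (copied from `Pool.Agent.H16.Vprod`, `Pool.Agent.H16.Smooth`, by helper16,
to keep the import chain short)
-/

namespace Pool.Agent.H14.PT

open Finset Real Pool.Agent.H16

lemma one_sub_inv_pos {p : ℕ} (hp : p.Prime) : 0 < 1 - 1 / (p : ℝ) := by
  have h2 : (2 : ℝ) ≤ p := by exact_mod_cast hp.two_le
  have : 1 / (p : ℝ) ≤ 1 / 2 := one_div_le_one_div_of_le (by norm_num) h2
  linarith

lemma inv_one_sub_le_exp {x : ℝ} (hx0 : 0 ≤ x) (hx1 : x ≤ 3 / 5) :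
    (1 - x)⁻¹ ≤ Real.exp (x + 2 * x ^ 2) := by
  have h1 : 0 < 1 - x := by linarith
  have hy : 0 ≤ x + 2 * x ^ 2 := by positivity
  have h2 := Real.quadratic_le_exp_of_nonneg hy
  have h3 : 1 ≤ (1 - x) * (1 + (x + 2 * x ^ 2) + (x + 2 * x ^ 2) ^ 2 / 2) := by
    have h5 : (x + 2 * x ^ 2) ^ 2 = x ^ 2 + 4 * x ^ 3 + 4 * x ^ 4 := by ring
    have h6 : (x + 2 * x ^ 2) ^ 2 / 2 ≥ x ^ 2 / 2 + 2 * x ^ 3 := by
      rw [h5]
      have : 0 ≤ x ^ 4 := by positivity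
      linarith
    have h7 : 1 ≤ (1 - x) * (1 + (x + 2 * x ^ 2) + (x ^ 2 / 2 + 2 * x ^ 3)) := by
      have e : (1 - x) * (1 + (x + 2 * x ^ 2) + (x ^ 2 / 2 + 2 * x ^ 3)) =
        1 + x ^ 2 * (3 / 2 - x / 2 - 2 * x ^ 2) := by ring
      rw [e]
      have : 0 ≤ 3 / 2 - x / 2 - 2 * x ^ 2 := by nlinarith
      have h8 : 0 ≤ x ^ 2 := by positivity
      nlinarith
    nlinarith
  rw [inv_eq_one_div, div_le_iff₀ h1]
  nlinarith

/-- Mertens product -/
noncomputable def Vp (n : ℕ) : ℝ := ∏ p ∈ Nat.primesLE n, (1 - 1 / (p : ℝ))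

lemma Vp_pos (n : ℕ) : 0 < Vp n :=
  Finset.prod_pos (fun _ hp => one_sub_inv_pos (Nat.mem_primesLE.mp hp).2)

lemma Vp_le (n : ℕ) (hn : 2 ≤ n) : Vp n ≤ 1 / Real.log n := by
  have h1 : (1 : ℝ) < n := by exact_mod_cast hn
  refine (prod_primes_le n (by omega)).trans ?_
  apply one_div_le_one_div_of_le (Real.log_pos h1)
  apply Real.log_le_log (by linarith)
  linarith

lemma primesLE_eq_union (z y : ℕ) (hzy : z ≤ y) :
    Nat.primesLE y = Nat.primesLE z ∪ primesIoc z y := by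
  ext p
  rw [Finset.mem_union, Nat.mem_primesLE, Nat.mem_primesLE, mem_primesIoc]
  constructor
  · rintro ⟨h1, h2⟩
    by_cases h : p ≤ z
    · exact Or.inl ⟨h, h2⟩
    · exact Or.inr ⟨by omega, h1, h2⟩
  · rintro (⟨h1, h2⟩ | ⟨_, h1, h2⟩)
    · exact ⟨h1.trans hzy, h2⟩
    · exact ⟨h1, h2⟩

lemma disj_primes (z y : ℕ) : Disjoint (Nat.primesLE z) (primesIoc z y) := by
  rw [Finset.disjoint_left]
  intro p h1 h2
  rw [Nat.mem_primesLE] at h1
  rw [mem_primesIoc] at h2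
  omega

lemma Vp_mul (z y : ℕ) (hzy : z ≤ y) :
    Vp z * ∏ p ∈ primesIoc z y, (1 - 1 / (p : ℝ)) = Vp y := by
  unfold Vp
  rw [primesLE_eq_union z y hzy, Finset.prod_union (disj_primes z y)]

lemma sum_inv_sq_Ioc (m n : ℕ) (hm : 1 ≤ m) : ∑ k ∈ Ioc m n, 1 / (k : ℝ) ^ 2 ≤ 1 / (m : ℝ) := by
  have key : ∀ n, m ≤ n → ∑ k ∈ Ioc m n, 1 / (k : ℝ) ^ 2 ≤ 1 / (m : ℝ) - 1 / (n : ℝ) := by
    intro n hn
    induction n, hn using Nat.le_induction with
    | base => simp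
    | succ n hn ih =>
      rw [Finset.sum_Ioc_succ_top hn]
      have hn0 : (0 : ℝ) < n := by exact_mod_cast (lt_of_lt_of_le hm hn)
      have h1 : 1 / ((n + 1 : ℕ) : ℝ) ^ 2 ≤ 1 / n - 1 / ((n + 1 : ℕ) : ℝ) := by
        push_cast
        rw [div_sub_div _ _ hn0.ne' (by positivity), div_le_div_iff₀ (by positivity) (by positivity)]
        ring_nf
        nlinarith
      linarith
  by_cases h : m ≤ n
  · have := key n h
    have h2 : 0 ≤ 1 / (n : ℝ) := by positivity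
    linarith
  · rw [Finset.Ioc_eq_empty (by omega)]
    simp

/-- lower bound for the Mertens product -/
theorem Vp_ge : ∃ c : ℝ, 0 < c ∧ ∀ n : ℕ, 2 ≤ n → c / Real.log n ≤ Vp n := by
  have hl2 : 0 < Real.log 2 := Real.log_pos (by norm_num)
  refine ⟨1 / 2 * (Real.log 2 / Real.exp (5 / Real.log 2 + 1)), by positivity, fun n hn => ?_⟩
  have hn1 : (1 : ℝ) < n := by exact_mod_cast hn
  have hln : 0 < Real.log n := Real.log_pos hn1
  have h1 : Vp n = Vp 2 * ∏ p ∈ primesIoc 2 n, (1 - 1 / (p : ℝ)) := (Vp_mul 2 n hn).symm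
  have h2 : Vp 2 = 1 / 2 := by
    unfold Vp
    have : Nat.primesLE 2 = {2} := by decide
    rw [this, Finset.prod_singleton]; norm_num
  have h3 : Real.exp (-(∑ p ∈ primesIoc 2 n, (1 : ℝ) / p) - 1) ≤ ∏ p ∈ primesIoc 2 n, (1 - 1 / (p : ℝ)) := by
    have h4 : ∀ p ∈ primesIoc 2 n, Real.exp (-(1 / (p : ℝ)) - 2 * (1 / (p : ℝ) ^ 2)) ≤ 1 - 1 / (p : ℝ) := by
      intro p hp
      rw [mem_primesIoc] at hp
      have hp3 : (3 : ℝ) ≤ p := by exact_mod_cast hp.1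
      have hx : 1 / (p : ℝ) ≤ 3 / 5 := by
        rw [div_le_div_iff₀ (by linarith) (by norm_num)]; linarith
      have h5 := inv_one_sub_le_exp (x := 1 / (p : ℝ)) (by positivity) hx
      have hpos : 0 < 1 - 1 / (p : ℝ) := by linarith
      have h6 : Real.exp (-(1 / (p : ℝ)) - 2 * (1 / (p : ℝ) ^ 2)) =
          (Real.exp (1 / (p : ℝ) + 2 * (1 / (p : ℝ)) ^ 2))⁻¹ := by
        rw [← Real.exp_neg]; congr 1; ring
      rw [h6]
      exact inv_le_of_inv_le₀ hpos h5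
    have h7 : ∏ p ∈ primesIoc 2 n, Real.exp (-(1 / (p : ℝ)) - 2 * (1 / (p : ℝ) ^ 2)) ≤
        ∏ p ∈ primesIoc 2 n, (1 - 1 / (p : ℝ)) :=
      Finset.prod_le_prod (fun p _ => (Real.exp_pos _).le) h4
    refine le_trans ?_ h7
    rw [← Real.exp_sum]
    apply Real.exp_le_exp.mpr
    rw [Finset.sum_sub_distrib, Finset.sum_neg_distrib, ← Finset.mul_sum]
    have h8 : ∑ p ∈ primesIoc 2 n, 1 / (p : ℝ) ^ 2 ≤ 1 / ((2 : ℕ) : ℝ) := by
      refine le_trans ?_ (sum_inv_sq_Ioc 2 n (by norm_num))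
      apply Finset.sum_le_sum_of_subset_of_nonneg
      · intro p hp
        rw [mem_primesIoc] at hp
        rw [Finset.mem_Ioc]; exact ⟨hp.1, hp.2.1⟩
      · intro _ _ _; positivity
    push_cast at h8
    linarith
  have h9 := sum_inv_primes_le 2 n le_rfl hn
  push_cast at h9
  have h10 : Real.exp (-(Real.log (Real.log n / Real.log 2) + 5 / Real.log 2) - 1) ≤
      Real.exp (-(∑ p ∈ primesIoc 2 n, (1 : ℝ) / p) - 1) := Real.exp_le_exp.mpr (by linarith)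
  have h11 : Real.exp (-(Real.log (Real.log n / Real.log 2) + 5 / Real.log 2) - 1) =
      Real.log 2 / Real.exp (5 / Real.log 2 + 1) / Real.log n := by
    rw [show -(Real.log (Real.log n / Real.log 2) + 5 / Real.log 2) - 1 =
      -(Real.log (Real.log n / Real.log 2)) - (5 / Real.log 2 + 1) by ring, Real.exp_sub,
      Real.exp_neg, Real.exp_log (by positivity)]
    field_simp
  rw [h1, h2]
  have h12 := (h11 ▸ h10).trans h3
  calc 1 / 2 * (Real.log 2 / Real.exp (5 / Real.log 2 + 1)) / Real.log n =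
      1 / 2 * (Real.log 2 / Real.exp (5 / Real.log 2 + 1) / Real.log n) := by ring
    _ ≤ _ := mul_le_mul_of_nonneg_left h12 (by norm_num)

end Pool.Agent.H14.PT
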