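import Pool.Agent.H14.PT.Rough
import Pool.Agent.H14.PT.Small2
import Pool.Agent.H14.PT.Vp

/-!
# The rough part of the mollified diagonal
-/

namespace Pool.Agent.H14.PT

open Finset ArithmeticFunction Pool.Agent.PC10 Pool.Agent.H16
open scoped ArithmeticFunction.Moebius

lemma primeFactors_Pr {A : Finset ℕ} (hA : ∀ p ∈ A, p.Prime) : (Pr A).primeFactors = A := by
  unfold Pr
  exact Nat.primeFactors_prod hA

lemma squarefree_Pr {A : Finset ℕ} (hA : ∀ p ∈ A, p.Prime) : Squarefree (Pr A) := by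
  rw [Nat.squarefree_iff_factorization_le_one (Pr_ne_zero hA)]
  intro p
  rw [factorization_Pr hA]
  split_ifs <;> omega

lemma moebius_Pr {A : Finset ℕ} (hA : ∀ p ∈ A, p.Prime) : (μ (Pr A) : ℝ) = (-1) ^ A.card := by
  unfold Pr
  rw [isMultiplicative_moebius.map_prod_of_prime A hA,
    Finset.prod_congr rfl (fun p hp => moebius_apply_prime (hA p hp)), Finset.prod_const]
  push_cast
  rfl

lemma Pr_inj {A B : Finset ℕ} (hA : ∀ p ∈ A, p.Prime) (hB : ∀ p ∈ B, p.Prime) (h : Pr A = Pr B) :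
    A = B := by
  rw [← primeFactors_Pr hA, ← primeFactors_Pr hB, h]

/-- conversion of a sum over sets of primes into a sum over integers -/
lemma conv (S : Finset ℕ) (hS : ∀ p ∈ S, p.Prime) (Y : ℕ) (u : ℝ) (hu0 : 0 ≤ u) (hu : ⌊u⌋₊ ≤ Y) (f : ℕ → ℝ) :
    ∑ A ∈ ((Nat.primesLE Y) \ S).powerset.filter (fun A => (Pr A : ℝ) ≤ u), (-1) ^ A.card * f (Pr A) =
      ∑ m ∈ DS S ⌊u⌋₊, (μ m : ℝ) * f m := by
  classical
  set T := ((Nat.primesLE Y) \ S).powerset.filter (fun A => (Pr A : ℝ) ≤ u) with hT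
  have hmem : ∀ A ∈ T, (∀ p ∈ A, p.Prime ∧ p ∉ S) ∧ (Pr A : ℝ) ≤ u := by
    intro A hA
    rw [hT, Finset.mem_filter, Finset.mem_powerset] at hA
    refine ⟨fun p hp => ?_, hA.2⟩
    have := hA.1 hp
    rw [Finset.mem_sdiff, Nat.mem_primesLE] at this
    exact ⟨this.1.2, this.2⟩
  have hP : ∀ A ∈ T, ∀ p ∈ A, p.Prime := fun A hA p hp => ((hmem A hA).1 p hp).1
  have h1 : ∑ A ∈ T, (-1 : ℝ) ^ A.card * f (Pr A) = ∑ A ∈ T, (μ (Pr A) : ℝ) * f (Pr A) :=
    Finset.sum_congr rfl fun A hA => by rw [moebius_Pr (hP A hA)]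
  have hinj : Set.InjOn Pr (T : Set (Finset ℕ)) := by
    intro A hA B hB h
    exact Pr_inj (hP A hA) (hP B hB) h
  rw [h1, ← Finset.sum_image (f := fun m : ℕ => (μ m : ℝ) * f m) hinj]
  apply Finset.sum_subset
  · intro m hm
    obtain ⟨A, hA, rfl⟩ := Finset.mem_image.mp hm
    rw [DS, Finset.mem_filter, Finset.mem_Ioc]
    refine ⟨⟨Pr_pos (hP A hA), Nat.le_floor (hmem A hA).2⟩, ?_⟩
    intro p hpS hpd
    have : p ∈ (Pr A).primeFactors := Nat.mem_primeFactors.mpr ⟨hS p hpS, hpd, Pr_ne_zero (hP A hA)⟩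
    rw [primeFactors_Pr (hP A hA)] at this
    exact ((hmem A hA).1 p this).2 hpS
  · intro m hm hm2
    rw [DS, Finset.mem_filter, Finset.mem_Ioc] at hm
    rw [moebius_eq_zero_of_not_squarefree]
    · simp
    intro hsq
    apply hm2
    rw [Finset.mem_image]
    refine ⟨m.primeFactors, ?_, Nat.prod_primeFactors_of_squarefree hsq⟩
    rw [hT, Finset.mem_filter, Finset.mem_powerset]
    constructor
    · intro p hp
      have hpd := Nat.dvd_of_mem_primeFactors hp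
      rw [Finset.mem_sdiff, Nat.mem_primesLE]
      exact ⟨⟨((Nat.le_of_dvd hm.1.1 hpd).trans hm.1.2).trans hu, Nat.prime_of_mem_primeFactors hp⟩,
        fun h => hm.2 p h hpd⟩
    · have : Pr m.primeFactors = m := Nat.prod_primeFactors_of_squarefree hsq
      rw [this]
      exact (Nat.le_floor_iff hu0).mp hm.1.2

/-- rough primes -/
def rs (S : Finset ℕ) (Y : ℕ) : Finset ℕ := (Nat.primesLE Y) \ S

/-- sets of rough primes with product at most `u` -/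
noncomputable def TS (S : Finset ℕ) (Y : ℕ) (u : ℝ) : Finset (Finset ℕ) :=
  (rs S Y).powerset.filter (fun A => (Pr A : ℝ) ≤ u)

lemma mem_TS {S : Finset ℕ} {Y : ℕ} {u : ℝ} {A : Finset ℕ} :
    A ∈ TS S Y u ↔ A ⊆ rs S Y ∧ (Pr A : ℝ) ≤ u := by
  unfold TS
  rw [Finset.mem_filter, Finset.mem_powerset]

lemma rs_prime {S : Finset ℕ} {Y p : ℕ} (hp : p ∈ rs S Y) : p.Prime :=
  (Nat.mem_primesLE.mp (Finset.mem_sdiff.mp hp).1).2

/-- the weight -/
noncomputable def Lam (Y n : ℕ) : ℝ := Real.log ((Y : ℝ) / n) / Real.log Y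

/-- coefficient -/
noncomputable def cf (Y : ℕ) (A : Finset ℕ) : ℝ := (-1) ^ A.card * Lam Y (Pr A)

/-- rough double sum -/
noncomputable def R0 (a b : ℕ) (S : Finset ℕ) (Y : ℕ) : ℝ :=
  ∑ A ∈ TS S Y Y, ∑ B ∈ TS S Y Y, cf Y A * cf Y B * GG a b (rs S Y) A B

/-- rough double sum with logarithm -/
noncomputable def R1 (a b : ℕ) (S : Finset ℕ) (Y : ℕ) : ℝ :=
  ∑ A ∈ TS S Y Y, ∑ B ∈ TS S Y Y, cf Y A * cf Y B * GG a b (rs S Y) A B * LL a b (rs S Y) A B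

lemma ee_none {a b p : ℕ} (hp : p.Prime) (hn : ¬ (p ∣ a ∨ p ∣ b)) (x y : Bool) :
    ee a b p x y = ee 1 1 p x y := by
  push Not at hn
  unfold ee
  have h1 : ¬ p ∣ 1 := hp.one_lt.ne' ∘ Nat.dvd_one.mp
  rw [if_neg hn.1, if_neg hn.2, if_neg h1, if_neg h1]

lemma GG_none {a b : ℕ} {s : Finset ℕ} (hs : ∀ p ∈ s, p.Prime) (hn : ∀ p ∈ s, ¬ (p ∣ a ∨ p ∣ b))
    (A B : Finset ℕ) : GG a b s A B = GG 1 1 s A B := by
  unfold GG rr
  exact Finset.prod_congr rfl fun p hp => by rw [ee_none (hs p hp) (hn p hp)]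

lemma LL_none {a b : ℕ} {s : Finset ℕ} (hs : ∀ p ∈ s, p.Prime) (hn : ∀ p ∈ s, ¬ (p ∣ a ∨ p ∣ b))
    (A B : Finset ℕ) : LL a b s A B = LL 1 1 s A B := by
  unfold LL le'
  exact Finset.sum_congr rfl fun p hp => by rw [ee_none (hs p hp) (hn p hp)]

lemma GG_one {s A B : Finset ℕ} (hs : ∀ p ∈ s, p.Prime) (hA : A ⊆ s) (hB : B ⊆ s) :
    GG 1 1 s A B = (Nat.gcd (Pr A) (Pr B) : ℝ) / ((Pr A : ℝ) * (Pr B : ℝ)) := by
  rw [← ratio_eq hs hA hB one_ne_zero one_ne_zero (Nat.coprime_one_left 1), one_mul, one_mul,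
    Nat.gcd_comm]

lemma double_conv (S : Finset ℕ) (hS : ∀ p ∈ S, p.Prime) (Y : ℕ) (u v : ℝ) (hu0 : 0 ≤ u) (hv0 : 0 ≤ v)
    (hu : ⌊u⌋₊ ≤ Y) (hv : ⌊v⌋₊ ≤ Y) :
    ∑ A ∈ TS S Y u, ∑ B ∈ TS S Y v, ((-1) ^ A.card * Real.log (u / Pr A)) *
      ((-1) ^ B.card * Real.log (v / Pr B)) *
      ((Nat.gcd (Pr A) (Pr B) : ℝ) / ((Pr A : ℝ) * (Pr B : ℝ))) = Qf S u v := by
  have h1 : ∀ A ∈ TS S Y u, ∑ B ∈ TS S Y v, ((-1) ^ A.card * Real.log (u / Pr A)) *
      ((-1) ^ B.card * Real.log (v / Pr B)) *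
      ((Nat.gcd (Pr A) (Pr B) : ℝ) / ((Pr A : ℝ) * (Pr B : ℝ))) =
      (-1) ^ A.card * (∑ n ∈ DS S ⌊v⌋₊, (μ n : ℝ) * (Real.log (u / Pr A) * Real.log (v / n) *
        ((Nat.gcd (Pr A) n : ℝ) / ((Pr A : ℝ) * (n : ℝ))))) := by
    intro A _
    rw [← conv S hS Y v hv0 hv (fun n => Real.log (u / Pr A) * Real.log (v / n) *
        ((Nat.gcd (Pr A) n : ℝ) / ((Pr A : ℝ) * (n : ℝ)))), Finset.mul_sum]
    refine Finset.sum_congr rfl fun B _ => by ring
  rw [Finset.sum_congr rfl h1]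
  have h2 := conv S hS Y u hu0 hu (fun m => ∑ n ∈ DS S ⌊v⌋₊, (μ n : ℝ) * (Real.log (u / m) *
    Real.log (v / n) * ((Nat.gcd m n : ℝ) / ((m : ℝ) * (n : ℝ)))))
  unfold TS rs
  rw [h2]
  unfold Qf
  refine Finset.sum_congr rfl fun m _ => ?_
  rw [Finset.mul_sum]
  refine Finset.sum_congr rfl fun n _ => ?_
  ring

lemma R0_eq {a b : ℕ} {S : Finset ℕ} (hS : ∀ p ∈ S, p.Prime) {Y : ℕ}
    (hn : ∀ p ∈ rs S Y, ¬ (p ∣ a ∨ p ∣ b)) : R0 a b S Y = Qf S Y Y / (Real.log Y) ^ 2 := by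
  have hfl : ⌊(Y : ℝ)⌋₊ ≤ Y := by rw [Nat.floor_natCast]
  rw [← double_conv S hS Y Y Y (by positivity) (by positivity) hfl hfl]
  unfold R0
  rw [Finset.sum_div]
  refine Finset.sum_congr rfl fun A hA => ?_
  rw [Finset.sum_div]
  refine Finset.sum_congr rfl fun B hB => ?_
  rw [GG_none (fun p hp => rs_prime hp) hn, GG_one (fun p hp => rs_prime hp) (mem_TS.mp hA).1 (mem_TS.mp hB).1]
  unfold cf Lam
  ring

/-- cross term at a prime -/
noncomputable def Xp (S : Finset ℕ) (Y p : ℕ) : ℝ :=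
  ∑ A ∈ (TS S Y Y).filter (fun A => p ∈ A), ∑ B ∈ (TS S Y Y).filter (fun B => p ∉ B),
    cf Y A * cf Y B * GG 1 1 (rs S Y) A B

lemma GG_one_symm {s A B : Finset ℕ} (hs : ∀ p ∈ s, p.Prime) (hA : A ⊆ s) (hB : B ⊆ s) :
    GG 1 1 s A B = GG 1 1 s B A := by
  rw [GG_one hs hA hB, GG_one hs hB hA, Nat.gcd_comm, mul_comm (Pr A : ℝ)]

lemma R1_eq {a b : ℕ} {S : Finset ℕ} {Y : ℕ}
    (hn : ∀ p ∈ rs S Y, ¬ (p ∣ a ∨ p ∣ b)) :
    R1 a b S Y = -2 * ∑ p ∈ rs S Y, Real.log p * Xp S Y p := by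
  classical
  have hsp : ∀ p ∈ rs S Y, p.Prime := fun p hp => rs_prime hp
  have h1 : ∀ A B : Finset ℕ, LL a b (rs S Y) A B = - ∑ p ∈ rs S Y, Real.log p *
      ((if p ∈ A ∧ p ∉ B then 1 else 0) + (if p ∉ A ∧ p ∈ B then 1 else 0)) := by
    intro A B
    rw [LL_none hsp hn]
    unfold LL le' ee
    rw [← Finset.sum_neg_distrib]
    refine Finset.sum_congr rfl fun p hp => ?_
    have h1 : ¬ p ∣ 1 := (hsp p hp).one_lt.ne' ∘ Nat.dvd_one.mp
    rw [if_neg h1, if_neg h1]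
    by_cases hA : p ∈ A <;> by_cases hB : p ∈ B <;> simp [hA, hB]
  have h2 : ∀ A ∈ TS S Y Y, ∀ B ∈ TS S Y Y,
      cf Y A * cf Y B * GG a b (rs S Y) A B * LL a b (rs S Y) A B =
      ∑ p ∈ rs S Y, - Real.log p * ((if p ∈ A ∧ p ∉ B then cf Y A * cf Y B * GG 1 1 (rs S Y) A B else 0) +
        (if p ∉ A ∧ p ∈ B then cf Y A * cf Y B * GG 1 1 (rs S Y) A B else 0)) := by
    intro A _ B _
    rw [h1, GG_none hsp hn, mul_neg, Finset.mul_sum, ← Finset.sum_neg_distrib]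
    refine Finset.sum_congr rfl fun p _ => ?_
    by_cases hA : p ∈ A <;> by_cases hB : p ∈ B <;> simp [hA, hB] <;> ring
  unfold R1
  rw [Finset.sum_congr rfl fun A hA => Finset.sum_congr rfl fun B hB => h2 A hA B hB]
  rw [Finset.sum_congr rfl fun A _ => Finset.sum_comm, Finset.sum_comm, Finset.mul_sum]
  refine Finset.sum_congr rfl fun p _ => ?_
  have h3 : ∑ A ∈ TS S Y Y, ∑ B ∈ TS S Y Y,
      (if p ∈ A ∧ p ∉ B then cf Y A * cf Y B * GG 1 1 (rs S Y) A B else 0) = Xp S Y p := by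
    unfold Xp
    rw [Finset.sum_filter]
    refine Finset.sum_congr rfl fun A _ => ?_
    by_cases hA : p ∈ A
    · rw [if_pos hA, Finset.sum_filter]
      refine Finset.sum_congr rfl fun B _ => ?_
      simp [hA]
    · simp [hA]
  have h4 : ∑ A ∈ TS S Y Y, ∑ B ∈ TS S Y Y,
      (if p ∉ A ∧ p ∈ B then cf Y A * cf Y B * GG 1 1 (rs S Y) A B else 0) = Xp S Y p := by
    rw [Finset.sum_comm, ← h3]
    refine Finset.sum_congr rfl fun A hA => Finset.sum_congr rfl fun B hB => ?_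
    rw [GG_one_symm hsp (mem_TS.mp hB).1 (mem_TS.mp hA).1, mul_comm (cf Y B) (cf Y A)]
    by_cases hA : p ∈ A <;> by_cases hB : p ∈ B <;> simp [hA, hB]
  calc ∑ A ∈ TS S Y Y, ∑ B ∈ TS S Y Y, - Real.log p *
        ((if p ∈ A ∧ p ∉ B then cf Y A * cf Y B * GG 1 1 (rs S Y) A B else 0) +
        (if p ∉ A ∧ p ∈ B then cf Y A * cf Y B * GG 1 1 (rs S Y) A B else 0))
      = - Real.log p * (∑ A ∈ TS S Y Y, ∑ B ∈ TS S Y Y,
          (if p ∈ A ∧ p ∉ B then cf Y A * cf Y B * GG 1 1 (rs S Y) A B else 0) +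
          ∑ A ∈ TS S Y Y, ∑ B ∈ TS S Y Y,
          (if p ∉ A ∧ p ∈ B then cf Y A * cf Y B * GG 1 1 (rs S Y) A B else 0)) := by
        rw [← Finset.sum_add_distrib, Finset.mul_sum]
        refine Finset.sum_congr rfl fun A _ => ?_
        rw [← Finset.sum_add_distrib, Finset.mul_sum]
    _ = _ := by rw [h3, h4]; ring

lemma Xp_eq {S : Finset ℕ} (hS : ∀ p ∈ S, p.Prime) {Y p : ℕ} (hp : p ∈ rs S Y) :
    Xp S Y p = -(1 / (p : ℝ)) * (1 / (Real.log Y) ^ 2) * Qf (insert p S) ((Y : ℝ) / p) Y := by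
  classical
  have hpp : p.Prime := rs_prime hp
  have hp0 : (0 : ℝ) < p := by exact_mod_cast hpp.pos
  have hS' : ∀ r ∈ insert p S, r.Prime := by
    intro r hr
    rcases Finset.mem_insert.mp hr with h | h
    · rw [h]; exact hpp
    · exact hS r h
  have hfl : ⌊(Y : ℝ)⌋₊ ≤ Y := by rw [Nat.floor_natCast]
  have hfl2 : ⌊(Y : ℝ) / p⌋₊ ≤ Y := by
    rw [Nat.floor_div_natCast, Nat.floor_natCast]
    exact Nat.div_le_self _ _
  rw [← double_conv (insert p S) hS' Y ((Y : ℝ) / p) Y (by positivity) (by positivity) hfl2 hfl]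
  have hrs : rs (insert p S) Y = (rs S Y).erase p := by
    ext r
    simp only [rs, Finset.mem_sdiff, Finset.mem_insert, Finset.mem_erase]
    tauto
  -- the two reindexings
  have hA : ∀ F : Finset ℕ → ℝ, ∑ A ∈ (TS S Y Y).filter (fun A => p ∈ A), F A =
      ∑ A ∈ TS (insert p S) Y ((Y : ℝ) / p), F (insert p A) := by
    intro F
    symm
    refine Finset.sum_bij' (fun A _ => insert p A) (fun A _ => A.erase p) ?_ ?_ ?_ ?_ ?_
    · intro A hA
      obtain ⟨h1, h2⟩ := mem_TS.mp hA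
      rw [hrs] at h1
      have hpA : p ∉ A := fun h => (Finset.mem_erase.mp (h1 h)).1 rfl
      rw [Finset.mem_filter, mem_TS]
      refine ⟨⟨?_, ?_⟩, Finset.mem_insert_self _ _⟩
      · intro r hr
        rcases Finset.mem_insert.mp hr with h | h
        · rw [h]; exact hp
        · exact Finset.mem_of_mem_erase (h1 h)
      · unfold Pr at h2 ⊢
        rw [Finset.prod_insert hpA]
        push_cast at h2 ⊢
        rw [le_div_iff₀ hp0] at h2
        linarith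
    · intro A hA
      rw [Finset.mem_filter, mem_TS] at hA
      obtain ⟨⟨h1, h2⟩, h3⟩ := hA
      rw [mem_TS, hrs]
      refine ⟨Finset.erase_subset_erase p h1, ?_⟩
      unfold Pr at h2 ⊢
      rw [← Finset.mul_prod_erase A (fun p => p) h3] at h2
      push_cast at h2 ⊢
      rw [le_div_iff₀ hp0]
      linarith
    · intro A hA
      obtain ⟨h1, h2⟩ := mem_TS.mp hA
      rw [hrs] at h1
      have hpA : p ∉ A := fun h => (Finset.mem_erase.mp (h1 h)).1 rfl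
      exact Finset.erase_insert hpA
    · intro A hA
      rw [Finset.mem_filter] at hA
      exact Finset.insert_erase hA.2
    · intro A _
      rfl
  have hB : (TS S Y Y).filter (fun B => p ∉ B) = TS (insert p S) Y Y := by
    ext B
    rw [Finset.mem_filter, mem_TS, mem_TS, hrs]
    constructor
    · rintro ⟨⟨h1, h2⟩, h3⟩
      exact ⟨fun r hr => Finset.mem_erase.mpr ⟨fun h => h3 (h ▸ hr), h1 hr⟩, h2⟩
    · rintro ⟨h1, h2⟩
      exact ⟨⟨fun r hr => Finset.mem_of_mem_erase (h1 hr), h2⟩,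
        fun h => (Finset.mem_erase.mp (h1 h)).1 rfl⟩
  unfold Xp
  rw [hA (fun A => ∑ B ∈ (TS S Y Y).filter (fun B => p ∉ B), cf Y A * cf Y B * GG 1 1 (rs S Y) A B), hB,
    Finset.mul_sum]
  refine Finset.sum_congr rfl fun A hA => ?_
  rw [Finset.mul_sum]
  refine Finset.sum_congr rfl fun B hB => ?_
  obtain ⟨a1, a2⟩ := mem_TS.mp hA
  obtain ⟨b1, b2⟩ := mem_TS.mp hB
  rw [hrs] at a1 b1
  have hpA : p ∉ A := fun h => (Finset.mem_erase.mp (a1 h)).1 rfl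
  have hpB : p ∉ B := fun h => (Finset.mem_erase.mp (b1 h)).1 rfl
  have hAs : insert p A ⊆ rs S Y := by
    intro r hr
    rcases Finset.mem_insert.mp hr with h | h
    · rw [h]; exact hp
    · exact Finset.mem_of_mem_erase (a1 h)
  have hBs : B ⊆ rs S Y := fun r hr => Finset.mem_of_mem_erase (b1 hr)
  have hAs' : A ⊆ rs S Y := fun r hr => Finset.mem_of_mem_erase (a1 hr)
  have hPrA : Pr (insert p A) = p * Pr A := by unfold Pr; rw [Finset.prod_insert hpA]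
  have hA0 : (0 : ℝ) < Pr A := by exact_mod_cast Pr_pos (fun r hr => rs_prime (hAs' hr))
  have hB0 : (0 : ℝ) < Pr B := by exact_mod_cast Pr_pos (fun r hr => rs_prime (hBs hr))
  have hcop : Nat.Coprime p (Pr B) := by
    rw [Nat.Prime.coprime_iff_not_dvd hpp]
    intro h
    have : p ∈ (Pr B).primeFactors :=
      Nat.mem_primeFactors.mpr ⟨hpp, h, Pr_ne_zero (fun r hr => rs_prime (hBs hr))⟩
    rw [primeFactors_Pr (fun r hr => rs_prime (hBs hr))] at this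
    exact hpB this
  rw [GG_one (fun r hr => rs_prime hr) hAs hBs, hPrA, Nat.Coprime.gcd_mul_left_cancel _ hcop]
  unfold cf Lam
  rw [Finset.card_insert_of_notMem hpA, hPrA]
  push_cast
  rw [← div_div (Y : ℝ), pow_succ]
  field_simp

end Pool.Agent.H14.PT
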