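import Pool.Agent.H14.PT.ClsP

/-!
# The mollified second moment in the middle range
-/

namespace Pool.Agent.H14.PT

open Finset Pool.Agent.H16
open scoped ArithmeticFunction.Omega

lemma rough_Omega {z : ℕ} : ∀ m : ℕ, m ≠ 0 → (∀ p, p.Prime → p ∣ m → z < p) →
    (Ω m : ℝ) * Real.log z ≤ Real.log m := by
  intro m
  induction m using Nat.recOnMul with
  | zero => intro h; exact absurd rfl h
  | one => intro _ _; simp
  | prime p hp =>
      intro _ h
      rw [ArithmeticFunction.cardFactors_apply_prime hp]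
      have h1 := h p hp (dvd_refl p)
      rcases Nat.eq_zero_or_pos z with h0 | h0
      · rw [h0]; simp [Real.log_natCast_nonneg]
      · have hz0 : (0 : ℝ) < z := by exact_mod_cast h0
        have : Real.log z ≤ Real.log p := Real.log_le_log hz0 (by exact_mod_cast h1.le)
        push_cast
        linarith
  | mul a b iha ihb =>
      intro hn h
      have ha : a ≠ 0 := left_ne_zero_of_mul hn
      have hb : b ≠ 0 := right_ne_zero_of_mul hn
      rw [ArithmeticFunction.cardFactors_mul ha hb]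
      push_cast
      rw [Real.log_mul (by exact_mod_cast ha) (by exact_mod_cast hb), add_mul]
      exact add_le_add (iha ha fun p hp hd => h p hp (hd.mul_right b))
        (ihb hb fun p hp hd => h p hp (hd.mul_left a))

lemma rough_ge {z m : ℕ} (hm0 : m ≠ 0) (hm1 : m ≠ 1) (h : ∀ p, p.Prime → p ∣ m → z < p) : z ≤ m := by
  have h1 := h m.minFac (Nat.minFac_prime hm1) (Nat.minFac_dvd m)
  exact h1.le.trans (Nat.minFac_le (Nat.pos_of_ne_zero hm0))

lemma classify {z n : ℕ} (hz : 1 ≤ Real.log z) (hn : n ≠ 0) :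
    n = 1 ∨ (∃ r r', r.Prime ∧ r ≤ z ∧ r'.Prime ∧ r' ≤ z ∧ r ≠ r' ∧ r ∣ n ∧ r' ∣ n) ∨
    (∃ r j, r.Prime ∧ r ≤ z ∧ 1 ≤ j ∧ n = r ^ j) ∨ (z ≤ n ∧ Few z n) ∨
    (∃ r j n', r.Prime ∧ r ≤ z ∧ 2 ≤ j ∧ n = r ^ j * n' ∧ ¬ r ∣ n' ∧ z ≤ n' ∧ Few z n') := by
  have hlz : 0 < Real.log z := by linarith
  by_cases h2 : ∃ r r', r.Prime ∧ r ≤ z ∧ r'.Prime ∧ r' ≤ z ∧ r ≠ r' ∧ r ∣ n ∧ r' ∣ n
  · exact Or.inr (Or.inl h2)
  by_cases h1 : ∃ r, r.Prime ∧ r ≤ z ∧ r ∣ n
  · obtain ⟨r, hr, hrz, hrn⟩ := h1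
    have hprod : n = r ^ n.factorization r * (n / r ^ n.factorization r) :=
      (Nat.ordProj_mul_ordCompl_eq_self n r).symm
    have hnd : ¬ r ∣ n / r ^ n.factorization r := Nat.not_dvd_ordCompl hr hn
    set j := n.factorization r with hj
    set n' := n / r ^ j with hn'
    have hj1 : 1 ≤ j := hr.factorization_pos_of_dvd hn hrn
    have hn'0 : n' ≠ 0 := by
      intro h0; rw [h0, mul_zero] at hprod; exact hn hprod
    have hrough : ∀ p, p.Prime → p ∣ n' → z < p := by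
      intro p hp hpd
      by_contra hpz
      apply h2
      have hne : r ≠ p := fun h => hnd (h ▸ hpd)
      exact ⟨r, p, hr, hrz, hp, by omega, hne, hrn, by rw [hprod]; exact hpd.mul_left _⟩
    by_cases hn'1 : n' = 1
    · rw [hn'1, mul_one] at hprod
      exact Or.inr (Or.inr (Or.inl ⟨r, j, hr, hrz, hj1, hprod⟩))
    · have hzn' := rough_ge hn'0 hn'1 hrough
      have hO := rough_Omega n' hn'0 hrough
      have hn'r : (1 : ℝ) ≤ n' := by exact_mod_cast Nat.one_le_iff_ne_zero.mpr hn'0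
      by_cases hj2 : 2 ≤ j
      · refine Or.inr (Or.inr (Or.inr (Or.inr ⟨r, j, n', hr, hrz, hj2, hprod, hnd, hzn', ?_⟩)))
        unfold Few
        have : (Ω n' : ℝ) ≤ Real.log n' / Real.log z := by rw [le_div_iff₀ hlz]; exact hO
        linarith
      · have hj1' : j = 1 := by omega
        rw [hj1', pow_one] at hprod
        have hn'n : n' ≤ n := by rw [hprod]; exact Nat.le_mul_of_pos_left _ hr.pos
        refine Or.inr (Or.inr (Or.inr (Or.inl ⟨hzn'.trans hn'n, ?_⟩)))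
        unfold Few
        have h3 : (Ω n : ℝ) = 1 + Ω n' := by
          conv_lhs => rw [hprod]
          rw [ArithmeticFunction.cardFactors_mul hr.ne_zero hn'0,
            ArithmeticFunction.cardFactors_apply_prime hr]
          push_cast; ring
        rw [h3]
        have h4 : Real.log n' ≤ Real.log n := Real.log_le_log (by linarith) (by exact_mod_cast hn'n)
        have : (Ω n' : ℝ) ≤ Real.log n / Real.log z := by rw [le_div_iff₀ hlz]; linarith
        linarith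
  · by_cases hn1 : n = 1
    · exact Or.inl hn1
    have hrough : ∀ p, p.Prime → p ∣ n → z < p := by
      intro p hp hpd
      by_contra hpz
      exact h1 ⟨p, hp, by omega, hpd⟩
    refine Or.inr (Or.inr (Or.inr (Or.inl ⟨rough_ge hn hn1 hrough, ?_⟩)))
    unfold Few
    have hO := rough_Omega n hn hrough
    have : (Ω n : ℝ) ≤ Real.log n / Real.log z := by rw [le_div_iff₀ hlz]; exact hO
    linarith

/-- trivial bound in terms of `T0` -/
lemma DN_T0 {L : ℝ} (hB : Big L) {N a b : ℕ} (ha : a ≠ 0) (hb : b ≠ 0) (hab : Nat.Coprime a b)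
    (hN1 : 1 ≤ N) (hN2 : (N : ℝ) ≤ Real.exp (1.001 * L)) :
    |DN (MfS (zz L) (YY L) (YY L)) (wS (zz L) (YY L) (YY L)) N a b| ≤ T0 (a, b) * (16 * L ^ 4) := by
  have hL := hB.hL
  have hY2 : 2 ≤ YY L := hB.z_two.trans hB.zY
  have hYpos := hB.Y_pos
  have h := DN_trivial (MfS (zz L) (YY L) (YY L)) (wS (zz L) (YY L) (YY L)) N (YY L * YY L)
    ((YY L * YY L) * N) a b hab ha hb (fun m hm => MfS_bounds hm) (fun m => abs_wS_le hY2 m)
    (by
      calc (YY L * YY L) ^ 2 * N ≤ (YY L * YY L) ^ 2 * (N * N) :=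
            Nat.mul_le_mul_left _ (Nat.le_mul_of_pos_left _ hN1)
        _ = (YY L * YY L * N) ^ 2 := by ring)
  refine h.trans ?_
  unfold T0
  refine mul_le_mul_of_nonneg_left ?_ (by positivity)
  have hNr : (0 : ℝ) < N := by exact_mod_cast hN1
  have h1 : Real.log ((YY L * YY L * N : ℕ) : ℝ) ≤ 1.003 * L := by
    push_cast
    rw [Real.log_mul (by positivity) hNr.ne', Real.log_mul hYpos.ne' hYpos.ne']
    have h2 := hB.logY_hi
    have h3 := Real.log_le_log hNr hN2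
    rw [Real.log_exp] at h3
    linarith
  have h0 : 0 ≤ Real.log ((YY L * YY L * N : ℕ) : ℝ) := Real.log_natCast_nonneg _
  calc (1 + Real.log ((YY L * YY L * N : ℕ) : ℝ)) ^ 4 ≤ (2 * L) ^ 4 := by
        apply pow_le_pow_left₀ (by linarith)
        linarith
    _ = 16 * L ^ 4 := by ring

/-- number of pairs with small product -/
lemma count_small {E : ℝ} (hE : 0 ≤ E) (P : Finset (ℕ × ℕ)) (hP : ∀ p ∈ P, p.1 ≠ 0 ∧ p.2 ≠ 0 ∧
    ((p.1 * p.2 : ℕ) : ℝ) ≤ E) : (P.card : ℝ) ≤ E ^ 2 := by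
  have h1 : P ⊆ (Icc 1 ⌊E⌋₊) ×ˢ (Icc 1 ⌊E⌋₊) := by
    intro p hp
    obtain ⟨h1, h2, h3⟩ := hP p hp
    have h4 : p.1 * p.2 ≤ ⌊E⌋₊ := Nat.le_floor h3
    have h5 : p.1 ≤ p.1 * p.2 := Nat.le_mul_of_pos_right _ (Nat.pos_of_ne_zero h2)
    have h6 : p.2 ≤ p.1 * p.2 := Nat.le_mul_of_pos_left _ (Nat.pos_of_ne_zero h1)
    simp only [mem_product, mem_Icc]
    omega
  have h2 := Finset.card_le_card h1
  rw [card_product, Nat.card_Icc] at h2
  have h3 : (⌊E⌋₊ : ℝ) ≤ E := Nat.floor_le hE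
  calc (P.card : ℝ) ≤ ((⌊E⌋₊ + 1 - 1) * (⌊E⌋₊ + 1 - 1) : ℕ) := by exact_mod_cast h2
    _ = (⌊E⌋₊ : ℝ) ^ 2 := by rw [Nat.add_sub_cancel]; push_cast; ring
    _ ≤ E ^ 2 := by gcongr

/-- **second moment, middle range** -/
theorem S2_mid (ε : ℝ) (hε : 0 < ε) (hε1 : ε ≤ 1 / 3) : ∃ C Q0 : ℝ, 0 < C ∧ ∀ (q : ℕ) [Fact q.Prime],
    Q0 ≤ Real.log q → Big (Real.log q) → ∀ (H : Subgroup (ZMod q)ˣ),
    Real.log (Nat.card H) ≤ (1 / 3 - ε) * Real.log q → ∀ N : ℕ,
    Real.exp (0.999 * Real.log q) ≤ N → (N : ℝ) ≤ Real.exp (1.001 * Real.log q) →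
    ∑ p ∈ RP H ((YY (Real.log q) * YY (Real.log q)) ^ 2 * N),
      |DN (MfS (zz (Real.log q)) (YY (Real.log q)) (YY (Real.log q)))
        (wS (zz (Real.log q)) (YY (Real.log q)) (YY (Real.log q))) N p.1 p.2| ≤ C := by
  classical
  obtain ⟨C1, hC1, hfull⟩ := full_bounds
  obtain ⟨Qe, herr⟩ := err_bound
  obtain ⟨Ql, hsumL⟩ := sum_L ε hε hε1
  obtain ⟨Qp, hsumP⟩ := sum_P
  refine ⟨3 * C1 + 4, max (max Qe Ql) Qp, by positivity, ?_⟩
  intro q _ hq hB H hH N hN1 hN2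
  have hqe : Qe ≤ Real.log q := (le_max_left _ _).trans ((le_max_left _ _).trans hq)
  have hql : Ql ≤ Real.log q := (le_max_right _ _).trans ((le_max_left _ _).trans hq)
  have hqp : Qp ≤ Real.log q := (le_max_right _ _).trans hq
  have hsP := hsumP q hqp hB ε hε H hH
  have hsL := hsumL q hql H hH
  have hsR1 := sum_R1 hB hε H hH
  have hsR2 := sum_R2 hB hε H hH
  set L := Real.log q with hL
  have hL100 := hB.hL
  have hLpos : 0 < L := by linarith
  have hN1' : 1 ≤ N := by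
    have : (1 : ℝ) ≤ N := (Real.one_le_exp (by positivity)).trans hN1
    exact_mod_cast this
  have hful := hfull L hB N hN1' hN2
  set Ex := Real.exp (1 / 10 ^ 8 * L) with hEx
  set z := zz L with hz
  set Y := YY L with hY
  set P := RP H ((Y * Y) ^ 2 * N) with hP
  set D : ℕ × ℕ → ℝ := fun p => |DN (MfS z Y Y) (wS z Y Y) N p.1 p.2| with hD
  set clsP : ℕ × ℕ → Prop := fun p => ((p.1 * p.2 : ℕ) : ℝ) ≤ Ex ∧
    ∃ r j, r.Prime ∧ r ≤ z ∧ 1 ≤ j ∧ p.1 * p.2 = r ^ j with hclsP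
  set clsR1 : ℕ × ℕ → Prop := fun p => ((p.1 * p.2 : ℕ) : ℝ) ≤ Ex ∧ z ≤ p.1 * p.2 ∧ Few z (p.1 * p.2)
    with hclsR1
  set clsR2 : ℕ × ℕ → Prop := fun p => ((p.1 * p.2 : ℕ) : ℝ) ≤ Ex ∧
    ∃ r j n', r.Prime ∧ r ≤ z ∧ 2 ≤ j ∧ p.1 * p.2 = r ^ j * n' ∧ ¬ r ∣ n' ∧ z ≤ n' ∧ Few z n' with hclsR2
  have hpt : ∀ p ∈ P, D p ≤ (if p = (1, 1) then C1 else 0) +
      (if Ex ≤ ((p.1 * p.2 : ℕ) : ℝ) then T0 p * (16 * L ^ 4) else 0) +
      (if ((p.1 * p.2 : ℕ) : ℝ) ≤ Ex then Real.exp (-(5 / 10 ^ 7) * L) else 0) +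
      (if clsP p then C1 * ((((p.1 * p.2 : ℕ) : ℝ)) ^ (-(1 / 2) : ℝ) *
        (Real.log (Nat.minFac (p.1 * p.2)) / L)) else 0) +
      (if clsR1 p then T0 p * (16 * L ^ 4) else 0) + (if clsR2 p then T0 p * (16 * L ^ 4) else 0) := by
    intro p hp
    obtain ⟨⟨hcop, h1, h2, _⟩, _⟩ := mem_RP.mp hp
    have hT := DN_T0 hB h1 h2 hcop hN1' hN2
    have hT0 : 0 ≤ T0 p * (16 * L ^ 4) := mul_nonneg (T0_nonneg p) (by positivity)
    have hn0 : p.1 * p.2 ≠ 0 := Nat.mul_ne_zero h1 h2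
    have hmf : 0 ≤ Real.log (Nat.minFac (p.1 * p.2)) := Real.log_natCast_nonneg _
    have g1 : 0 ≤ (if p = (1, 1) then C1 else 0) := by split_ifs <;> positivity
    have g2 : 0 ≤ (if Ex ≤ ((p.1 * p.2 : ℕ) : ℝ) then T0 p * (16 * L ^ 4) else 0) := by
      split_ifs <;> positivity
    have g3 : 0 ≤ (if ((p.1 * p.2 : ℕ) : ℝ) ≤ Ex then Real.exp (-(5 / 10 ^ 7) * L) else 0) := by
      split_ifs <;> positivity
    have g4 : 0 ≤ (if clsP p then C1 * ((((p.1 * p.2 : ℕ) : ℝ)) ^ (-(1 / 2) : ℝ) *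
        (Real.log (Nat.minFac (p.1 * p.2)) / L)) else 0) := by
      split_ifs <;> positivity
    have g5 : 0 ≤ (if clsR1 p then T0 p * (16 * L ^ 4) else 0) := by split_ifs <;> positivity
    have g6 : 0 ≤ (if clsR2 p then T0 p * (16 * L ^ 4) else 0) := by split_ifs <;> positivity
    by_cases hbig : Ex ≤ ((p.1 * p.2 : ℕ) : ℝ)
    · rw [if_pos hbig] at g2 ⊢
      have : D p ≤ T0 p * (16 * L ^ 4) := hT
      linarith
    · push Not at hbig
      have hle := hbig.le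
      have herr' := herr L hqe hB N p.1 p.2 h1 h2 hcop hN1 hN2 hle
      have hDmain : D p ≤ (((p.1 * p.2 : ℕ) : ℝ)) ^ (-(1 / 2) : ℝ) * |Full z Y N p.1 p.2| +
          Real.exp (-(5 / 10 ^ 7) * L) := by
        have e1 : D p ≤ |(((p.1 * p.2 : ℕ) : ℝ)) ^ (-(1 / 2) : ℝ) * Full z Y N p.1 p.2| +
            |DN (MfS z Y Y) (wS z Y Y) N p.1 p.2 -
              (((p.1 * p.2 : ℕ) : ℝ)) ^ (-(1 / 2) : ℝ) * Full z Y N p.1 p.2| := by
          have := abs_add_le ((((p.1 * p.2 : ℕ) : ℝ)) ^ (-(1 / 2) : ℝ) * Full z Y N p.1 p.2)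
            (DN (MfS z Y Y) (wS z Y Y) N p.1 p.2 -
              (((p.1 * p.2 : ℕ) : ℝ)) ^ (-(1 / 2) : ℝ) * Full z Y N p.1 p.2)
          rw [add_sub_cancel] at this
          exact this
        rw [abs_mul, abs_of_nonneg (by positivity : (0 : ℝ) ≤ (((p.1 * p.2 : ℕ) : ℝ)) ^ (-(1 / 2) : ℝ))] at e1
        linarith
      rw [if_pos hle] at g3 ⊢
      rcases classify (z := z) (by linarith [hB.logz_100]) hn0 with hc | hc | hc | hc | hc
      · -- p = (1,1)
        have e1 : p.1 = 1 := Nat.eq_one_of_mul_eq_one_right hc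
        have e2 : p.2 = 1 := Nat.eq_one_of_mul_eq_one_left hc
        have e3 : p = (1, 1) := Prod.ext e1 e2
        rw [if_pos e3]
        have h5 : (((p.1 * p.2 : ℕ) : ℝ)) ^ (-(1 / 2) : ℝ) * |Full z Y N p.1 p.2| ≤ C1 := by
          rw [hc, e1, e2]
          simpa using hful.1
        linarith
      · -- two small primes
        obtain ⟨r, r', hr, hrz, hr', hrz', hne, hd, hd'⟩ := hc
        have h6 : Full z Y N p.1 p.2 = 0 :=
          full_M hr hrz hr' hrz' hne ((Nat.Prime.dvd_mul hr).mp hd) ((Nat.Prime.dvd_mul hr').mp hd')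
        rw [h6, abs_zero, mul_zero, zero_add] at hDmain
        linarith
      · -- prime power
        obtain ⟨r, j, hr, hrz, hj, hprod⟩ := hc
        have h6 : clsP p := ⟨hle, r, j, hr, hrz, hj, hprod⟩
        rw [if_pos h6]
        have h7 := hful.2 p.1 p.2 r j hr hrz hj hprod
        have h8 : Nat.minFac (p.1 * p.2) = r := by rw [hprod]; exact hr.pow_minFac (by omega)
        rw [h8]
        have h9 : (((p.1 * p.2 : ℕ) : ℝ)) ^ (-(1 / 2) : ℝ) * |Full z Y N p.1 p.2| ≤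
            C1 * ((((p.1 * p.2 : ℕ) : ℝ)) ^ (-(1 / 2) : ℝ) * (Real.log r / L)) := by
          calc _ ≤ (((p.1 * p.2 : ℕ) : ℝ)) ^ (-(1 / 2) : ℝ) * (C1 * (Real.log r / L)) := by gcongr
            _ = _ := by ring
        linarith
      · have h6 : clsR1 p := ⟨hle, hc.1, hc.2⟩
        rw [if_pos h6]
        have : D p ≤ T0 p * (16 * L ^ 4) := hT
        have := (Real.exp_pos (-(5 / 10 ^ 7) * L)).le
        linarith
      · have h6 : clsR2 p := ⟨hle, hc⟩
        rw [if_pos h6]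
        have : D p ≤ T0 p * (16 * L ^ 4) := hT
        have := (Real.exp_pos (-(5 / 10 ^ 7) * L)).le
        linarith
  refine (Finset.sum_le_sum hpt).trans ?_
  rw [Finset.sum_add_distrib, Finset.sum_add_distrib, Finset.sum_add_distrib, Finset.sum_add_distrib,
    Finset.sum_add_distrib]
  have hCPall : ∀ p ∈ P, CP H 1 p := fun p hp => (mem_RP.mp hp).1
  have hup : ∀ p ∈ P, ((p.1 * p.2 : ℕ) : ℝ) ≤ Real.exp (1.05 * L) := by
    intro p hp
    have h1 := (mem_RP.mp hp).2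
    have h2 : ((p.1 * p.2 : ℕ) : ℝ) ≤ (((Y * Y) ^ 2 * N : ℕ) : ℝ) := by exact_mod_cast h1
    refine h2.trans ?_
    push_cast
    have hY' := hB.Y_hi
    calc ((Y : ℝ) * Y) ^ 2 * N ≤ (Real.exp (L / 1000) * Real.exp (L / 1000)) ^ 2 * Real.exp (1.001 * L) := by
          gcongr
      _ = Real.exp (1.005 * L) := by
          rw [← Real.exp_add, ← Real.exp_nat_mul, ← Real.exp_add]; congr 1; push_cast; ring
      _ ≤ _ := Real.exp_le_exp.mpr (by nlinarith)
  have s1 : ∑ p ∈ P, (if p = (1, 1) then C1 else 0) ≤ C1 := by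
    rw [Finset.sum_ite_eq']
    split_ifs <;> linarith
  have s2 : ∑ p ∈ P, (if Ex ≤ ((p.1 * p.2 : ℕ) : ℝ) then T0 p * (16 * L ^ 4) else 0) ≤ 1 := by
    rw [← Finset.sum_filter]
    apply hsL
    intro p hp
    obtain ⟨h1, h2⟩ := Finset.mem_filter.mp hp
    exact ⟨hCPall p h1, h2, hup p h1⟩
  have s3 : ∑ p ∈ P, (if ((p.1 * p.2 : ℕ) : ℝ) ≤ Ex then Real.exp (-(5 / 10 ^ 7) * L) else 0) ≤ 1 := by
    rw [← Finset.sum_filter, Finset.sum_const, nsmul_eq_mul]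
    have h1 := count_small (E := Ex) (Real.exp_pos _).le (P.filter (fun p => ((p.1 * p.2 : ℕ) : ℝ) ≤ Ex))
      (fun p hp => by
        obtain ⟨h1, h2⟩ := Finset.mem_filter.mp hp
        obtain ⟨_, h3, h4, _⟩ := hCPall p h1
        exact ⟨h3, h4, h2⟩)
    calc _ ≤ Ex ^ 2 * Real.exp (-(5 / 10 ^ 7) * L) := by gcongr
      _ = Real.exp (2 / 10 ^ 8 * L + -(5 / 10 ^ 7) * L) := by
          rw [hEx, ← Real.exp_nat_mul, Real.exp_add]; congr 2; push_cast; ring
      _ ≤ 1 := by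
          rw [Real.exp_le_one_iff]
          linarith
  have s4 : ∑ p ∈ P, (if clsP p then C1 * ((((p.1 * p.2 : ℕ) : ℝ)) ^ (-(1 / 2) : ℝ) *
        (Real.log (Nat.minFac (p.1 * p.2)) / L)) else 0) ≤ C1 * 2 := by
    rw [← Finset.sum_filter, ← Finset.mul_sum]
    refine mul_le_mul_of_nonneg_left ?_ hC1.le
    apply hsP
    intro p hp
    obtain ⟨h1, h2, h3⟩ := Finset.mem_filter.mp hp
    exact ⟨hCPall p h1, h2, h3⟩
  have s5 : ∑ p ∈ P, (if clsR1 p then T0 p * (16 * L ^ 4) else 0) ≤ 1 := by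
    rw [← Finset.sum_filter]
    apply hsR1
    intro p hp
    obtain ⟨h1, h2, h3, h4⟩ := Finset.mem_filter.mp hp
    exact ⟨hCPall p h1, h3, h2, h4⟩
  have s6 : ∑ p ∈ P, (if clsR2 p then T0 p * (16 * L ^ 4) else 0) ≤ 1 := by
    rw [← Finset.sum_filter]
    apply hsR2
    intro p hp
    obtain ⟨h1, h2, h3⟩ := Finset.mem_filter.mp hp
    exact ⟨hCPall p h1, h2, h3⟩
  linarith

end Pool.Agent.H14.PT
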