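import Mathlib

/-!
# Double sums over subsets of a set of primes
-/

namespace Pool.Agent.H14.PT

open Finset

lemma single_prod (s : Finset ℕ) (F : ℕ → Bool → ℝ) :
    ∑ A ∈ s.powerset, ∏ p ∈ s, F p (decide (p ∈ A)) = ∏ p ∈ s, (F p false + F p true) := by
  classical
  induction s using Finset.induction_on with
  | empty => simp
  | insert a s ha ih =>
    rw [Finset.sum_powerset_insert ha, Finset.prod_insert ha, ← ih]
    have h1 : ∀ A ∈ s.powerset, ∏ p ∈ insert a s, F p (decide (p ∈ A)) =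
        F a false * ∏ p ∈ s, F p (decide (p ∈ A)) := by
      intro A hA
      rw [Finset.prod_insert ha]
      have : a ∉ A := fun h => ha (Finset.mem_powerset.mp hA h)
      simp [this]
    have h2 : ∀ A ∈ s.powerset, ∏ p ∈ insert a s, F p (decide (p ∈ insert a A)) =
        F a true * ∏ p ∈ s, F p (decide (p ∈ A)) := by
      intro A hA
      rw [Finset.prod_insert ha]
      simp only [Finset.mem_insert_self, decide_true]
      congr 1
      refine Finset.prod_congr rfl fun p hp => ?_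
      have : p ≠ a := fun h => ha (h ▸ hp)
      simp [this]
    rw [Finset.sum_congr rfl h1, Finset.sum_congr rfl h2, ← Finset.mul_sum, ← Finset.mul_sum]
    ring

lemma double_prod (s : Finset ℕ) (F : ℕ → Bool → Bool → ℝ) :
    ∑ A ∈ s.powerset, ∑ B ∈ s.powerset, ∏ p ∈ s, F p (decide (p ∈ A)) (decide (p ∈ B)) =
      ∏ p ∈ s, (F p false false + F p false true + (F p true false + F p true true)) := by
  have h1 : ∀ A ∈ s.powerset, ∑ B ∈ s.powerset, ∏ p ∈ s, F p (decide (p ∈ A)) (decide (p ∈ B)) =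
      ∏ p ∈ s, (F p (decide (p ∈ A)) false + F p (decide (p ∈ A)) true) := fun A _ =>
    single_prod s (fun p y => F p (decide (p ∈ A)) y)
  rw [Finset.sum_congr rfl h1]
  exact single_prod s (fun p x => F p x false + F p x true)

/-- product of a finite set of naturals -/
def Pr (A : Finset ℕ) : ℕ := ∏ p ∈ A, p

/-- local exponent of the gcd -/
def ee (a b p : ℕ) (x y : Bool) : ℕ :=
  if p ∣ a then x.toNat else if p ∣ b then y.toNat else (x && y).toNat

lemma Pr_ne_zero {A : Finset ℕ} (hA : ∀ p ∈ A, p.Prime) : Pr A ≠ 0 :=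
  Finset.prod_ne_zero_iff.mpr fun p hp => (hA p hp).ne_zero

lemma Pr_pos {A : Finset ℕ} (hA : ∀ p ∈ A, p.Prime) : 0 < Pr A := Nat.pos_of_ne_zero (Pr_ne_zero hA)

lemma factorization_Pr {A : Finset ℕ} (hA : ∀ p ∈ A, p.Prime) (r : ℕ) :
    (Pr A).factorization r = if r ∈ A then 1 else 0 := by
  unfold Pr
  rw [Nat.factorization_prod (fun p hp => (hA p hp).ne_zero), Finsupp.finsetSum_apply]
  have h1 : ∀ p ∈ A, (p.factorization) r = if p = r then 1 else 0 := by
    intro p hp
    rw [(hA p hp).factorization, Finsupp.single_apply]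
  rw [Finset.sum_congr rfl h1, Finset.sum_ite_eq' A r]

lemma factorization_prod_pow {s : Finset ℕ} (hs : ∀ p ∈ s, p.Prime) (e : ℕ → ℕ) (r : ℕ) :
    (∏ p ∈ s, p ^ e p).factorization r = if r ∈ s then e r else 0 := by
  rw [Nat.factorization_prod (fun p hp => pow_ne_zero _ (hs p hp).ne_zero), Finsupp.finsetSum_apply]
  have h1 : ∀ p ∈ s, ((p ^ e p).factorization) r = if p = r then e r else 0 := by
    intro p hp
    rw [Nat.factorization_pow, (hs p hp).factorization, Finsupp.smul_apply, Finsupp.single_apply]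
    split_ifs with h
    · rw [h]; simp
    · simp
  rw [Finset.sum_congr rfl h1, Finset.sum_ite_eq' s r]

/-- the gcd as a product of local factors -/
lemma gcd_eq {s A B : Finset ℕ} (hs : ∀ p ∈ s, p.Prime) (hA : A ⊆ s) (hB : B ⊆ s) {a b : ℕ}
    (ha : a ≠ 0) (hb : b ≠ 0) (hab : Nat.Coprime a b) :
    Nat.gcd (a * Pr B) (b * Pr A) = ∏ p ∈ s, p ^ (ee a b p (decide (p ∈ A)) (decide (p ∈ B))) := by
  have hA' : ∀ p ∈ A, p.Prime := fun p hp => hs p (hA hp)
  have hB' : ∀ p ∈ B, p.Prime := fun p hp => hs p (hB hp)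
  have h1 : a * Pr B ≠ 0 := Nat.mul_ne_zero ha (Pr_ne_zero hB')
  have h2 : b * Pr A ≠ 0 := Nat.mul_ne_zero hb (Pr_ne_zero hA')
  apply Nat.eq_of_factorization_eq (Nat.gcd_pos_of_pos_left _ (Nat.pos_of_ne_zero h1)).ne'
    (Finset.prod_ne_zero_iff.mpr fun p hp => pow_ne_zero _ (hs p hp).ne_zero)
  intro r
  rw [Nat.factorization_gcd h1 h2, factorization_prod_pow hs, Finsupp.inf_apply,
    Nat.factorization_mul ha (Pr_ne_zero hB'), Nat.factorization_mul hb (Pr_ne_zero hA'),
    Finsupp.add_apply, Finsupp.add_apply, factorization_Pr hA', factorization_Pr hB']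
  by_cases hr : r.Prime
  · have hnot : ¬ (r ∣ a ∧ r ∣ b) := by
      rintro ⟨h3, h4⟩
      exact hr.one_lt.ne' (Nat.eq_one_of_dvd_coprimes hab h3 h4)
    by_cases ha' : r ∣ a
    · have hb' : ¬ r ∣ b := fun h => hnot ⟨ha', h⟩
      have e1 : b.factorization r = 0 := Nat.factorization_eq_zero_of_not_dvd hb'
      have e2 : 1 ≤ a.factorization r := hr.factorization_pos_of_dvd ha ha'
      by_cases hrs : r ∈ s
      · rw [if_pos hrs, e1]
        unfold ee
        rw [if_pos ha']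
        by_cases hrA : r ∈ A <;> by_cases hrB : r ∈ B <;> simp [hrA, hrB] <;> omega
      · have hrA : r ∉ A := fun h => hrs (hA h)
        rw [if_neg hrs, e1, if_neg hrA]
        simp
    · have e2 : a.factorization r = 0 := Nat.factorization_eq_zero_of_not_dvd ha'
      by_cases hb' : r ∣ b
      · have e1 : 1 ≤ b.factorization r := hr.factorization_pos_of_dvd hb hb'
        by_cases hrs : r ∈ s
        · rw [if_pos hrs, e2]
          unfold ee
          rw [if_neg ha', if_pos hb']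
          by_cases hrA : r ∈ A <;> by_cases hrB : r ∈ B <;> simp [hrA, hrB] <;> omega
        · have hrB : r ∉ B := fun h => hrs (hB h)
          rw [if_neg hrs, e2, if_neg hrB]
          simp
      · have e1 : b.factorization r = 0 := Nat.factorization_eq_zero_of_not_dvd hb'
        by_cases hrs : r ∈ s
        · rw [if_pos hrs, e1, e2]
          unfold ee
          rw [if_neg ha', if_neg hb']
          by_cases hrA : r ∈ A <;> by_cases hrB : r ∈ B <;> simp [hrA, hrB]
        · have hrA : r ∉ A := fun h => hrs (hA h)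
          rw [if_neg hrs, e1, e2, if_neg hrA]
          simp
  · have e1 : a.factorization r = 0 := Nat.factorization_eq_zero_of_not_prime _ hr
    have e2 : b.factorization r = 0 := Nat.factorization_eq_zero_of_not_prime _ hr
    have hrs : r ∉ s := fun h => hr (hs r h)
    have hrA : r ∉ A := fun h => hrs (hA h)
    have hrB : r ∉ B := fun h => hrs (hB h)
    rw [if_neg hrs, e1, e2, if_neg hrA, if_neg hrB]
    simp

lemma Pr_eq_prod {s A : Finset ℕ} (hA : A ⊆ s) :
    Pr A = ∏ p ∈ s, p ^ ((decide (p ∈ A)).toNat) := by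
  classical
  unfold Pr
  rw [← Finset.prod_subset hA (f := fun p => p ^ ((decide (p ∈ A)).toNat))]
  · refine Finset.prod_congr rfl fun p hp => by simp [hp]
  · intro p _ hp
    simp [hp]

/-- local ratio `g/(m m')` -/
noncomputable def rr (a b p : ℕ) (x y : Bool) : ℝ :=
  (p : ℝ) ^ (ee a b p x y) / ((p : ℝ) ^ x.toNat * (p : ℝ) ^ y.toNat)

/-- `g / (m m')` -/
noncomputable def GG (a b : ℕ) (s A B : Finset ℕ) : ℝ :=
  ∏ p ∈ s, rr a b p (decide (p ∈ A)) (decide (p ∈ B))

/-- local log exponent -/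
def le' (a b p : ℕ) (x y : Bool) : ℤ := 2 * (ee a b p x y : ℤ) - x.toNat - y.toNat

/-- `log (g² / (m m'))` -/
noncomputable def LL (a b : ℕ) (s A B : Finset ℕ) : ℝ :=
  ∑ p ∈ s, Real.log p * (le' a b p (decide (p ∈ A)) (decide (p ∈ B)) : ℝ)

lemma ratio_eq {s A B : Finset ℕ} (hs : ∀ p ∈ s, p.Prime) (hA : A ⊆ s) (hB : B ⊆ s) {a b : ℕ}
    (ha : a ≠ 0) (hb : b ≠ 0) (hab : Nat.Coprime a b) :
    (Nat.gcd (a * Pr B) (b * Pr A) : ℝ) / ((Pr A : ℝ) * (Pr B : ℝ)) = GG a b s A B := by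
  rw [gcd_eq hs hA hB ha hb hab, Pr_eq_prod hA, Pr_eq_prod hB]
  unfold GG rr
  push_cast
  rw [Finset.prod_div_distrib, Finset.prod_mul_distrib]

lemma log_eq {s A B : Finset ℕ} (hs : ∀ p ∈ s, p.Prime) (hA : A ⊆ s) (hB : B ⊆ s) {a b : ℕ}
    (ha : a ≠ 0) (hb : b ≠ 0) (hab : Nat.Coprime a b) :
    Real.log ((Nat.gcd (a * Pr B) (b * Pr A) : ℝ) ^ 2 / ((Pr A : ℝ) * (Pr B : ℝ))) = LL a b s A B := by
  rw [gcd_eq hs hA hB ha hb hab, Pr_eq_prod hA, Pr_eq_prod hB]
  push_cast
  have hp : ∀ p ∈ s, (p : ℝ) ≠ 0 := fun p hp => by exact_mod_cast (hs p hp).ne_zero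
  have h1 : ∀ e : ℕ → ℕ, Real.log (∏ p ∈ s, (p : ℝ) ^ e p) = ∑ p ∈ s, (e p : ℝ) * Real.log p := by
    intro e
    rw [Real.log_prod (fun p hps => pow_ne_zero _ (hp p hps))]
    refine Finset.sum_congr rfl fun p _ => by rw [Real.log_pow]
  have h2 : ∀ e : ℕ → ℕ, (∏ p ∈ s, (p : ℝ) ^ e p) ≠ 0 := fun e =>
    Finset.prod_ne_zero_iff.mpr fun p hps => pow_ne_zero _ (hp p hps)
  rw [Real.log_div (pow_ne_zero _ (h2 _)) (mul_ne_zero (h2 _) (h2 _)), Real.log_mul (h2 _) (h2 _),
    Real.log_pow, h1, h1, h1]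
  unfold LL le'
  push_cast
  rw [Finset.mul_sum, ← Finset.sum_add_distrib, ← Finset.sum_sub_distrib]
  refine Finset.sum_congr rfl fun p _ => by ring

end Pool.Agent.H14.PT
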