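import Pool.Agent.H14.PT.Box

/-!
# Box bounds, large regime
-/

namespace Pool.Agent.H14.PT

open Finset

/-- box bound with the divisor bound for the multiplicities -/
lemma box_tau (η C : ℝ) (hη : 0 < η) (hC : 1 ≤ C)
    (hdiv : ∀ n : ℕ, n ≠ 0 → (n.divisors.card : ℝ) ≤ C * (n : ℝ) ^ η)
    {q : ℕ} [NeZero q] (H : Subgroup (ZMod q)ˣ) (g : ZMod q) (P : Finset (ℕ × ℕ))
    (A B : ℝ) (hA : 1 ≤ A) (hB : 1 ≤ B) (k : ℕ) (hk : 1 ≤ k)
    (hP : ∀ p ∈ P, InBox H g A B p) :
    (P.card : ℝ) ≤ C ^ 3 * (8 * A * B) ^ ((k + 1) * η) *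
      (Nat.card H * (1 + (8 * A * B) ^ k / q)) ^ (1 / (k : ℝ)) := by
  classical
  have hk0 : (0 : ℝ) < k := by exact_mod_cast hk
  have h8 : (8 : ℝ) ≤ 8 * A * B := by nlinarith [mul_le_mul hA hB (by norm_num) (by linarith)]
  have hprod : ∀ p ∈ P, ((p.1 * p.2 : ℕ) : ℝ) ≤ 8 * A * B := by
    intro p hp
    obtain ⟨_, h1, h2, h3, _, h5, _⟩ := hP p hp
    push_cast
    calc (p.1 : ℝ) * p.2 ≤ (2 * A) * (2 * B) := by gcongr
      _ ≤ 8 * A * B := by nlinarith
  set w := ⌊Real.log (C * (8 * A * B) ^ η) / Real.log 2⌋₊ with hw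
  have hl2 : 0 < Real.log 2 := Real.log_pos (by norm_num)
  have hCT : 1 ≤ C * (8 * A * B) ^ η := by
    have : (1 : ℝ) ≤ (8 * A * B) ^ η := Real.one_le_rpow (by linarith) hη.le
    nlinarith
  have hwP : ∀ p ∈ P, (p.1 * p.2).primeFactors.card ≤ w := by
    intro p hp
    obtain ⟨_, h1, h2, _⟩ := hP p hp
    have hn : p.1 * p.2 ≠ 0 := Nat.mul_ne_zero h1 h2
    rw [hw]
    apply Nat.le_floor
    rw [le_div_iff₀ hl2, ← Real.log_pow]
    apply Real.log_le_log (by positivity)
    have e1 : ((2 : ℝ) ^ (p.1 * p.2).primeFactors.card) ≤ ((p.1 * p.2).divisors.card : ℝ) := by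
      exact_mod_cast two_pow_omega_le _ hn
    refine e1.trans ((hdiv _ hn).trans ?_)
    gcongr
    exact hprod p hp
  have h2w : (2 : ℝ) ^ w ≤ C * (8 * A * B) ^ η := by
    have e1 := Nat.floor_le (show 0 ≤ Real.log (C * (8 * A * B) ^ η) / Real.log 2 from
      div_nonneg (Real.log_nonneg hCT) hl2.le)
    rw [← hw, le_div_iff₀ hl2, ← Real.log_pow] at e1
    exact (Real.log_le_log_iff (by positivity) (by positivity)).mp e1
  set D := ⌊C ^ (2 * k) * ((8 * A * B) ^ η) ^ (k * k)⌋₊ with hD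
  have hDt : ∀ t : Fin k → ℕ × ℕ, (∀ i, t i ∈ P) →
      dk k (∏ i, (t i).1) * dk k (∏ i, (t i).2) ≤ D := by
    intro t ht
    have hx : ∏ i, (t i).1 ≠ 0 := Finset.prod_ne_zero_iff.mpr fun i _ => (hP _ (ht i)).2.1
    have hy : ∏ i, (t i).2 ≠ 0 := Finset.prod_ne_zero_iff.mpr fun i _ => (hP _ (ht i)).2.2.1
    apply Nat.le_floor
    push_cast
    have e1 : (dk k (∏ i, (t i).1) : ℝ) ≤ (C * ((∏ i, (t i).1 : ℕ) : ℝ) ^ η) ^ k := by
      have := dk_le_tau k (∏ i, (t i).1)
      calc (dk k (∏ i, (t i).1) : ℝ) ≤ (((∏ i, (t i).1).divisors.card : ℕ) : ℝ) ^ k := by exact_mod_cast this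
        _ ≤ _ := pow_le_pow_left₀ (by positivity) (hdiv _ hx) k
    have e2 : (dk k (∏ i, (t i).2) : ℝ) ≤ (C * ((∏ i, (t i).2 : ℕ) : ℝ) ^ η) ^ k := by
      have := dk_le_tau k (∏ i, (t i).2)
      calc (dk k (∏ i, (t i).2) : ℝ) ≤ (((∏ i, (t i).2).divisors.card : ℕ) : ℝ) ^ k := by exact_mod_cast this
        _ ≤ _ := pow_le_pow_left₀ (by positivity) (hdiv _ hy) k
    have e3 : ((∏ i, (t i).1 : ℕ) : ℝ) ^ η * ((∏ i, (t i).2 : ℕ) : ℝ) ^ η ≤ ((8 * A * B) ^ η) ^ k := by
      rw [← Real.mul_rpow (by positivity) (by positivity), ← Real.rpow_natCast ((8 * A * B) ^ η),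
        ← Real.rpow_mul (by positivity), mul_comm η, Real.rpow_mul (by positivity)]
      apply Real.rpow_le_rpow (by positivity) _ hη.le
      rw [Real.rpow_natCast]
      push_cast
      rw [← Finset.prod_mul_distrib]
      calc ∏ i, ((t i).1 : ℝ) * (t i).2 ≤ ∏ _i : Fin k, (8 * A * B) := by
            refine Finset.prod_le_prod (fun i _ => by positivity) fun i _ => ?_
            have := hprod _ (ht i)
            push_cast at this
            exact this
        _ = _ := by simp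
    calc (dk k (∏ i, (t i).1) : ℝ) * dk k (∏ i, (t i).2)
        ≤ (C * ((∏ i, (t i).1 : ℕ) : ℝ) ^ η) ^ k * (C * ((∏ i, (t i).2 : ℕ) : ℝ) ^ η) ^ k := by gcongr
      _ = C ^ (2 * k) * (((∏ i, (t i).1 : ℕ) : ℝ) ^ η * ((∏ i, (t i).2 : ℕ) : ℝ) ^ η) ^ k := by
          rw [mul_pow, mul_pow, mul_pow, two_mul, pow_add]; ring
      _ ≤ C ^ (2 * k) * (((8 * A * B) ^ η) ^ k) ^ k := by gcongr
      _ = _ := by rw [← pow_mul]
  have hbb := box_bound H g P A B (by linarith) (by linarith) k hk w D hP hwP hDt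
  have hq : (0 : ℝ) < q := by exact_mod_cast Nat.pos_of_ne_zero (NeZero.ne q)
  have hcH : (1 : ℝ) ≤ Nat.card H := by
    have : 0 < Nat.card H := Nat.card_pos
    exact_mod_cast this
  set S : ℝ := Nat.card H * (1 + (8 * A * B) ^ k / q) with hS
  have hSpos : 0 < S := by positivity
  have hDle : (D : ℝ) ≤ C ^ (2 * k) * ((8 * A * B) ^ η) ^ (k * k) := Nat.floor_le (by positivity)
  have e4 : (C ^ (2 * k) * ((8 * A * B) ^ η) ^ (k * k)) ^ (1 / (k : ℝ)) = C ^ 2 * (8 * A * B) ^ (k * η) := by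
    rw [Real.mul_rpow (by positivity) (by positivity)]
    congr 1
    · rw [← Real.rpow_natCast, ← Real.rpow_mul (by positivity), ← Real.rpow_natCast]
      congr 1; push_cast; field_simp
    · rw [← Real.rpow_natCast, ← Real.rpow_mul (by positivity), ← Real.rpow_mul (by positivity)]
      congr 1; push_cast; field_simp
  calc (P.card : ℝ) ≤ 2 ^ w * ((D : ℝ) * S) ^ (1 / (k : ℝ)) := hbb
    _ ≤ (C * (8 * A * B) ^ η) * ((C ^ (2 * k) * ((8 * A * B) ^ η) ^ (k * k)) * S) ^ (1 / (k : ℝ)) := by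
        gcongr
    _ = (C * (8 * A * B) ^ η) * ((C ^ 2 * (8 * A * B) ^ (k * η)) * S ^ (1 / (k : ℝ))) := by
        rw [Real.mul_rpow (x := C ^ (2 * k) * ((8 * A * B) ^ η) ^ (k * k)) (y := S)
          (by positivity) (by positivity), e4]
    _ = C ^ 3 * ((8 * A * B) ^ η * (8 * A * B) ^ (k * η)) * S ^ (1 / (k : ℝ)) := by ring
    _ = _ := by
        rw [← Real.rpow_add (by positivity)]
        congr 3; ring

/-- logarithmic form -/
lemma box_tau_log (η C : ℝ) (hη : 0 < η) (hC : 1 ≤ C)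
    (hdiv : ∀ n : ℕ, n ≠ 0 → (n.divisors.card : ℝ) ≤ C * (n : ℝ) ^ η)
    {q : ℕ} [NeZero q] (H : Subgroup (ZMod q)ˣ) (g : ZMod q) (P : Finset (ℕ × ℕ))
    (A B : ℝ) (hA : 1 ≤ A) (hB : 1 ≤ B) (k : ℕ) (hk : 1 ≤ k)
    (hP : ∀ p ∈ P, InBox H g A B p) (hne : P.Nonempty) :
    Real.log P.card ≤ 3 * Real.log C + (k + 1) * η * Real.log (8 * A * B) +
      (Real.log (Nat.card H) + Real.log 2 + max 0 (k * Real.log (8 * A * B) - Real.log q)) / k := by
  have hk0 : (0 : ℝ) < k := by exact_mod_cast hk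
  have h := box_tau η C hη hC hdiv H g P A B hA hB k hk hP
  have hq : (0 : ℝ) < q := by exact_mod_cast Nat.pos_of_ne_zero (NeZero.ne q)
  have hcH : (1 : ℝ) ≤ Nat.card H := by
    have : 0 < Nat.card H := Nat.card_pos
    exact_mod_cast this
  have hT : 0 < 8 * A * B := by positivity
  have hPc : (0 : ℝ) < P.card := by exact_mod_cast hne.card_pos
  have h1 : 1 + (8 * A * B) ^ k / q ≤ 2 * Real.exp (max 0 (k * Real.log (8 * A * B) - Real.log q)) := by
    have e1 : (8 * A * B) ^ k / q = Real.exp (k * Real.log (8 * A * B) - Real.log q) := by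
      rw [Real.exp_sub, Real.exp_nat_mul, Real.exp_log hT, Real.exp_log hq]
    have e2 : Real.exp (k * Real.log (8 * A * B) - Real.log q)
        ≤ Real.exp (max 0 (k * Real.log (8 * A * B) - Real.log q)) :=
      Real.exp_le_exp.mpr (le_max_right _ _)
    have e3 : 1 ≤ Real.exp (max 0 (k * Real.log (8 * A * B) - Real.log q)) :=
      Real.one_le_exp (le_max_left _ _)
    rw [e1]
    linarith
  have h2 : (P.card : ℝ) ≤ C ^ 3 * (8 * A * B) ^ ((k + 1) * η) *
      (Nat.card H * (2 * Real.exp (max 0 (k * Real.log (8 * A * B) - Real.log q)))) ^ (1 / (k : ℝ)) := by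
    refine h.trans ?_
    gcongr
  have h3 := Real.log_le_log hPc h2
  refine h3.trans (le_of_eq ?_)
  generalize 8 * A * B = T at hT ⊢
  rw [Real.log_mul (by positivity) (by positivity), Real.log_mul (by positivity) (by positivity),
    Real.log_pow, Real.log_rpow hT, Real.log_rpow (by positivity),
    Real.log_mul (by positivity) (by positivity), Real.log_mul (by norm_num) (by positivity),
    Real.log_exp]
  push_cast
  ring

/-- **box bound, large regime** -/
theorem box_large (ε ε3 : ℝ) (hε : 0 < ε) (hε3 : 0 < ε3) (hε1 : ε ≤ 1 / 3) (hε31 : ε3 ≤ 1 / 3) :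
    ∃ c : ℝ, 0 < c ∧ c ≤ 1 / 100 ∧ ∃ Q0 : ℝ, ∀ (q : ℕ) [NeZero q], Q0 ≤ Real.log q →
      ∀ (H : Subgroup (ZMod q)ˣ) (g : ZMod q) (P : Finset (ℕ × ℕ)) (A B : ℝ), 1 ≤ A → 1 ≤ B →
      Real.log (Nat.card H) ≤ (1 / 3 - ε) * Real.log q →
      ε3 * Real.log q ≤ Real.log (A * B) → Real.log (A * B) ≤ 1.1 * Real.log q →
      (∀ p ∈ P, InBox H g A B p) →
      (P.card : ℝ) ≤ (A * B) ^ (1 / 2 : ℝ) * (q : ℝ) ^ (-c) := by
  set m := min ε ε3 with hm
  have hm0 : 0 < m := lt_min hε hε3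
  have hmε : m ≤ ε := min_le_left _ _
  have hmε3 : m ≤ ε3 := min_le_right _ _
  have hm1 : m ≤ 1 / 3 := hmε.trans hε1
  obtain ⟨C, hC, hdiv⟩ := divisor_bound (m / 400) (by positivity)
  set K0 : ℝ := 3 * Real.log C + Real.log 2 + 2 * Real.log 8 with hK0
  refine ⟨m / 100, by positivity, by linarith, (400 / m) * K0 + 1, ?_⟩
  intro q _ hq H g P A B hA hB hH hlow hup hP
  set L := Real.log q with hL
  have hl8 : 0 < Real.log 8 := Real.log_pos (by norm_num)
  have hl2 : 0 < Real.log 2 := Real.log_pos (by norm_num)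
  have hlC : 0 ≤ Real.log C := Real.log_nonneg hC
  have hK00 : 0 < K0 := by rw [hK0]; positivity
  have hL1 : 1 ≤ L := by
    have : 0 ≤ (400 / m) * K0 := by positivity
    linarith
  have hKL : K0 ≤ (m / 400) * L := by
    have : (400 / m) * K0 ≤ L := by linarith
    calc K0 = (m / 400) * ((400 / m) * K0) := by field_simp
      _ ≤ (m / 400) * L := by gcongr
  rcases P.eq_empty_or_nonempty with hemp | hne
  · rw [hemp]; simp only [card_empty, Nat.cast_zero]; positivity
  have hAB : 0 < A * B := by positivity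
  have hqpos : (0 : ℝ) < q := by exact_mod_cast Nat.pos_of_ne_zero (NeZero.ne q)
  have hPc : (0 : ℝ) < P.card := by exact_mod_cast hne.card_pos
  set lam := Real.log (A * B) with hlam
  have h8AB : Real.log (8 * A * B) = Real.log 8 + lam := by
    rw [mul_assoc, Real.log_mul (by norm_num) (by positivity)]
  -- reduce to logs
  have hgoal : Real.log P.card ≤ 1 / 2 * lam - m / 100 * L → 
      (P.card : ℝ) ≤ (A * B) ^ (1 / 2 : ℝ) * (q : ℝ) ^ (-(m / 100)) := by
    intro h
    have e1 : (A * B) ^ (1 / 2 : ℝ) * (q : ℝ) ^ (-(m / 100)) = Real.exp (1 / 2 * lam - m / 100 * L) := by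
      rw [Real.rpow_def_of_pos hAB, Real.rpow_def_of_pos hqpos, ← Real.exp_add]
      congr 1; ring
    rw [e1, ← Real.exp_log hPc]
    exact Real.exp_le_exp.mpr h
  apply hgoal
  have hbt := fun k hk => box_tau_log (m / 400) C (by positivity) hC hdiv H g P A B hA hB k hk hP hne
  rw [h8AB] at hbt
  have hlam0 : 0 ≤ lam := by nlinarith
  by_cases hc1 : 2 / 3 * L ≤ lam + Real.log 8
  · -- k = 1
    have h := hbt 1 le_rfl
    push_cast at h
    rw [div_one] at h
    have h1 : (1 + 1) * (m / 400) * (Real.log 8 + lam) ≤ m / 200 * (1.2 * L) := by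
      have : Real.log 8 + lam ≤ 1.2 * L := by nlinarith
      nlinarith
    rcases max_choice 0 (1 * (Real.log 8 + lam) - L) with hmx | hmx
    · rw [hmx] at h
      nlinarith
    · rw [hmx] at h
      nlinarith
  · push_neg at hc1
    by_cases hc2 : 1 / 3 * L ≤ lam + Real.log 8
    · -- k = 2
      have h := hbt 2 (by norm_num)
      push_cast at h
      have h1 : (2 + 1) * (m / 400) * (Real.log 8 + lam) ≤ 3 * (m / 400) * (2 / 3 * L) := by
        nlinarith
      rcases max_choice 0 (2 * (Real.log 8 + lam) - L) with hmx | hmx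
      · rw [hmx] at h
        nlinarith
      · rw [hmx] at h
        nlinarith
    · push_neg at hc2
      -- k ≥ 3
      set T := Real.log 8 + lam with hT
      have hT0 : 0 < T := by positivity
      set k := ⌊L / T⌋₊ with hk
      have hk3 : 3 ≤ k := by
        rw [hk]
        apply Nat.le_floor
        rw [le_div_iff₀ hT0]
        push_cast
        linarith
      have hk0 : (0 : ℝ) < k := by
        have : 0 < k := by omega
        exact_mod_cast this
      have hk3' : (3 : ℝ) ≤ k := by exact_mod_cast hk3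
      have hkl : (k : ℝ) * T ≤ L := by
        have := Nat.floor_le (show 0 ≤ L / T by positivity)
        rw [← hk, le_div_iff₀ hT0] at this
        exact this
      have hkl2 : L ≤ (k + 1) * T := by
        have := Nat.lt_floor_add_one (L / T)
        rw [← hk, div_lt_iff₀ hT0] at this
        linarith
      have h := hbt k (by omega)
      have hmx : max 0 ((k : ℝ) * T - L) = 0 := max_eq_left (by linarith)
      rw [hmx] at h
      have h1 : ((k : ℝ) + 1) * (m / 400) * T ≤ (m / 400) * (4 / 3 * L) := by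
        have : ((k : ℝ) + 1) * T ≤ 4 / 3 * L := by nlinarith
        nlinarith
      have h2 : (Real.log (Nat.card H) + Real.log 2 + 0) / k ≤ 4 / 9 * T + Real.log 2 := by
        rw [div_le_iff₀ hk0]
        have e1 : Real.log (Nat.card H) ≤ 1 / 3 * L := by nlinarith
        have e2 : (1 / 3 : ℝ) * L ≤ 4 / 9 * T * k := by nlinarith
        nlinarith
      have h3 : m * L ≤ lam := by nlinarith
      nlinarith

end Pool.Agent.H14.PT
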