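import Pool.Agent.H14.PT.Afe2

/-!
# The approximate functional equation for `|L(1/2, χ)|²`, discrete probabilistic form
-/

set_option linter.unusedSectionVars false

namespace Pool.Agent.H14.PT

open Complex ZMod Finset MeasureTheory
open scoped Real ComplexConjugate

variable {q : ℕ} [Fact q.Prime]

/-- the discrete weights -/
noncomputable def pik (q κ k : ℕ) : ℝ := Wt q κ k - Wt q κ ((k + 1 : ℕ) : ℝ)

lemma pik_nonneg (κ k : ℕ) : 0 ≤ pik q κ k := by
  unfold pik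
  have := Wt_anti (q := q) κ (x := (k : ℝ)) (y := ((k + 1 : ℕ) : ℝ)) (by positivity) (by push_cast; linarith)
  linarith

lemma pik_le (κ k : ℕ) : pik q κ k ≤ Wt q κ k := by
  unfold pik
  linarith [Wt_nonneg (q := q) κ (((k + 1 : ℕ) : ℝ))]

lemma Wt_tendsto (κ : ℕ) : Filter.Tendsto (fun k : ℕ => Wt q κ (k : ℝ)) Filter.atTop (nhds 0) := by
  have hq0 : (0 : ℝ) < q := by exact_mod_cast (Fact.out : q.Prime).pos
  set C : ℝ := (Real.Gamma (ex κ + 1 / 2) / Real.Gamma (ex κ)) ^ 2 * q with hC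
  have h1 : Filter.Tendsto (fun k : ℕ => C * ((k : ℝ))⁻¹) Filter.atTop (nhds (C * 0)) :=
    (tendsto_inv_atTop_nhds_zero_nat).const_mul C
  rw [mul_zero] at h1
  refine squeeze_zero' (Filter.Eventually.of_forall fun k => Wt_nonneg κ _) ?_ h1
  filter_upwards [Filter.eventually_gt_atTop 0] with k hk
  have hk' : (0 : ℝ) < k := by exact_mod_cast hk
  have h3 := Wt_upper (q := q) κ (A := 1 / 2) (by norm_num) hk'
  have h4 : ((k : ℝ) / q) ^ (-(2 * (1 / 2)) : ℝ) = q * (k : ℝ)⁻¹ := by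
    rw [show (-(2 * (1 / 2)) : ℝ) = -1 by norm_num, Real.rpow_neg_one]
    field_simp
  rw [h4] at h3
  calc _ ≤ _ := h3
    _ = _ := by rw [hC]; ring

lemma sum_pik_range (κ K : ℕ) : ∑ k ∈ range K, pik q κ k = 1 - Wt q κ K := by
  unfold pik
  rw [Finset.sum_range_sub' (fun k : ℕ => Wt q κ (k : ℝ))]
  simp [Wt_zero]

lemma hasSum_pik_tail (κ n : ℕ) :
    HasSum (fun k : ℕ => if n ≤ k then pik q κ k else 0) (Wt q κ n) := by
  rw [hasSum_iff_tendsto_nat_of_nonneg]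
  · have h1 : ∀ K, n ≤ K → ∑ k ∈ range K, (if n ≤ k then pik q κ k else 0) = Wt q κ n - Wt q κ K := by
      intro K hK
      rw [← Finset.sum_filter]
      have : (range K).filter (fun k => n ≤ k) = Finset.Ico n K := by
        ext k; simp; omega
      rw [this]
      unfold pik
      rw [Finset.sum_Ico_eq_sub _ hK, Finset.sum_range_sub' (fun k : ℕ => Wt q κ (k : ℝ)),
        Finset.sum_range_sub' (fun k : ℕ => Wt q κ (k : ℝ))]
      ring
    have h2 : Filter.Tendsto (fun K : ℕ => Wt q κ n - Wt q κ (K : ℝ)) Filter.atTop (nhds (Wt q κ n - 0)) :=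
      (Wt_tendsto κ).const_sub _
    rw [sub_zero] at h2
    refine h2.congr' ?_
    filter_upwards [Filter.eventually_ge_atTop n] with K hK
    rw [h1 K hK]
  · intro k
    split_ifs
    · exact pik_nonneg κ k
    · exact le_rfl

lemma hasSum_pik (κ : ℕ) : HasSum (pik q κ) 1 := by
  have := hasSum_pik_tail (q := q) κ 0
  simpa [Wt_zero] using this

/-- index set -/
def hyp (N : ℕ) : Finset (ℕ × ℕ) := ((Icc 1 N) ×ˢ (Icc 1 N)).filter (fun n => n.1 * n.2 ≤ N)

lemma mem_hyp {N : ℕ} {n : ℕ × ℕ} : n ∈ hyp N ↔ 1 ≤ n.1 ∧ 1 ≤ n.2 ∧ n.1 * n.2 ≤ N := by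
  unfold hyp
  simp only [mem_filter, mem_product, mem_Icc]
  constructor
  · rintro ⟨⟨⟨h1, _⟩, h2, _⟩, h3⟩; exact ⟨h1, h2, h3⟩
  · rintro ⟨h1, h2, h3⟩
    refine ⟨⟨⟨h1, ?_⟩, h2, ?_⟩, h3⟩
    · nlinarith
    · nlinarith

/-- truncated sum -/
noncomputable def TT (χ : DirichletCharacter ℂ q) (N : ℕ) : ℂ :=
  ∑ n ∈ hyp N, χ (n.1 : ZMod q) * conj (χ (n.2 : ZMod q)) * (((((n.1 * n.2 : ℕ) : ℝ)) ^ (-(1 / 2) : ℝ) : ℝ) : ℂ)

/-- discrete form of the approximate functional equation -/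
theorem afe_discrete {κ : ℕ} {χ : DirichletCharacter ℂ q} (hχ : χ ≠ 1) (hκ : Par κ χ) :
    HasSum (fun k : ℕ => pik q κ k * (2 * (TT χ k).re)) (‖DirichletCharacter.LFunction χ (1 / 2)‖ ^ 2) := by
  set c : ℕ × ℕ → ℂ := fun p => χ ((p.1 + 1 : ℕ) : ZMod q) * conj (χ ((p.2 + 1 : ℕ) : ZMod q)) *
      (((((p.1 + 1) * (p.2 + 1) : ℕ) : ℝ) ^ (-(1 / 2) : ℝ) : ℝ) : ℂ) with hc
  set N : ℕ × ℕ → ℕ := fun p => (p.1 + 1) * (p.2 + 1) with hN
  set f : (ℕ × ℕ) × ℕ → ℂ := fun x => c x.1 * ((if N x.1 ≤ x.2 then pik q κ x.2 else 0 : ℝ) : ℂ) with hf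
  have hcn : ∀ p, ‖c p‖ ≤ (((p.1 + 1) * (p.2 + 1) : ℕ) : ℝ) ^ (-(1 / 2) : ℝ) := by
    intro p
    simp only [hc]
    rw [norm_mul, norm_mul, RCLike.norm_conj, Complex.norm_real, Real.norm_of_nonneg (by positivity)]
    have h2 : ‖χ ((p.1 + 1 : ℕ) : ZMod q)‖ * ‖χ ((p.2 + 1 : ℕ) : ZMod q)‖ ≤ 1 := by
      calc _ ≤ (1 : ℝ) * 1 := by
            gcongr
            · exact norm_chi_le _ _
            · exact norm_chi_le _ _
        _ = 1 := by norm_num
    exact mul_le_of_le_one_left (by positivity) h2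
  have hf1 : ∀ p, HasSum (fun k => f (p, k)) (c p * (Wt q κ (N p) : ℂ)) := by
    intro p
    exact (hasSum_ofReal.mpr (hasSum_pik_tail κ (N p))).mul_left (c p)
  have hsum : Summable f := by
    refine Summable.of_norm ?_
    have hnn : ∀ x, 0 ≤ ‖f x‖ := fun x => norm_nonneg _
    rw [summable_prod_of_nonneg hnn]
    constructor
    · intro p
      exact (hf1 p).summable.norm
    · have h1 : ∀ p, ∑' k, ‖f (p, k)‖ = ‖c p‖ * Wt q κ (N p) := by
        intro p
        have : ∀ k, ‖f (p, k)‖ = ‖c p‖ * (if N p ≤ k then pik q κ k else 0) := by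
          intro k
          simp only [hf]
          rw [norm_mul, Complex.norm_real, Real.norm_of_nonneg]
          split_ifs
          · exact pik_nonneg κ k
          · exact le_rfl
        simp_rw [this]
        exact ((hasSum_pik_tail κ (N p)).mul_left ‖c p‖).tsum_eq
      simp_rw [h1]
      refine Summable.of_nonneg_of_le (fun p => mul_nonneg (norm_nonneg _) (Wt_nonneg κ _)) (fun p => ?_)
        (summable_Wt (q := q) κ)
      exact mul_le_mul_of_nonneg_right (hcn p) (Wt_nonneg κ _)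
  have h2 : ∑' x, f x = ∑' p, c p * (Wt q κ (N p) : ℂ) := by
    rw [hsum.tsum_prod]
    exact tsum_congr fun p => (hf1 p).tsum_eq
  have hswap : HasSum (fun x : ℕ × (ℕ × ℕ) => f x.swap) (∑' x, f x) :=
    (Equiv.prodComm ℕ (ℕ × ℕ)).hasSum_iff.mpr hsum.hasSum
  have hfib : ∀ k : ℕ, HasSum (fun p : ℕ × ℕ => f (p, k)) ((pik q κ k : ℂ) * TT χ k) := by
    intro k
    have h3 : ∀ p : ℕ × ℕ, (p.1 + 1, p.2 + 1) ∉ hyp k → f (p, k) = 0 := by
      intro p hp
      simp only [hf]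
      have : ¬ (N p ≤ k) := by
        intro h
        apply hp
        rw [mem_hyp]
        exact ⟨by omega, by omega, h⟩
      rw [if_neg this]
      simp
    set S : Finset (ℕ × ℕ) := (hyp k).image (fun n => (n.1 - 1, n.2 - 1)) with hS
    have h4 : ∀ p ∉ S, f (p, k) = 0 := by
      intro p hp
      apply h3
      intro h
      apply hp
      rw [hS, mem_image]
      exact ⟨_, h, by simp⟩
    have h5 : HasSum (fun p : ℕ × ℕ => f (p, k)) (∑ p ∈ S, f (p, k)) :=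
      hasSum_sum_of_ne_finset_zero h4
    convert h5 using 1
    rw [hS, Finset.sum_image]
    · unfold TT
      rw [Finset.mul_sum]
      refine Finset.sum_congr rfl fun n hn => ?_
      rw [mem_hyp] at hn
      simp only [hf, hc, hN]
      rw [Nat.sub_add_cancel hn.1, Nat.sub_add_cancel hn.2.1, if_pos hn.2.2]
      ring
    · intro x hx y hy hxy
      have hx' := mem_hyp.mp (Finset.mem_coe.mp hx)
      have hy' := mem_hyp.mp (Finset.mem_coe.mp hy)
      simp only [Prod.mk.injEq] at hxy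
      ext
      · omega
      · omega
  have h6 : HasSum (fun k : ℕ => (pik q κ k : ℂ) * TT χ k) (∑' x, f x) :=
    HasSum.prod_fiberwise hswap (fun k => hfib k)
  have h7 := (Complex.hasSum_re h6).mul_left 2
  have h8 := afe_series hχ hκ
  have h9 : (∑' x, f x) = ∑' p : ℕ × ℕ,
      χ ((p.1 + 1 : ℕ) : ZMod q) * conj (χ ((p.2 + 1 : ℕ) : ZMod q)) *
      ((((((p.1 + 1) * (p.2 + 1) : ℕ) : ℝ)) ^ (-(1 / 2) : ℝ) *
        Wt q κ (((p.1 + 1) * (p.2 + 1) : ℕ) : ℝ) : ℝ) : ℂ) := by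
    rw [h2]
    refine tsum_congr fun p => ?_
    simp only [hc, hN]
    push_cast
    ring
  rw [h8, ← h9]
  refine h7.congr_fun fun k => ?_
  rw [Complex.re_ofReal_mul]
  ring

end Pool.Agent.H14.PT
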