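import Pool.Agent.H14.PT.Mellin
import Pool.Agent.H14.PT.Kernel

/-!
# The approximate functional equation for `|L(1/2, χ)|²`
-/

namespace Pool.Agent.H14.PT

open Complex ZMod Finset MeasureTheory Set
open scoped Real ComplexConjugate

variable {q : ℕ} [Fact q.Prime]

/-- parity `κ` of a character -/
def Par {q : ℕ} (κ : ℕ) (χ : DirichletCharacter ℂ q) : Prop :=
  (κ = 0 ∧ χ.Even) ∨ (κ = 1 ∧ χ.Odd)

/-- exponent `a = κ/2 + 1/4` -/
noncomputable def ex (κ : ℕ) : ℝ := (κ : ℝ) / 2 + 1 / 4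

lemma ex_pos (κ : ℕ) : 0 < ex κ := by unfold ex; positivity

lemma two_ex (κ : ℕ) : 2 * ex κ = κ + 1 / 2 := by unfold ex; ring

/-- the integrand -/
noncomputable def gth (κ : ℕ) (χ : DirichletCharacter ℂ q) (t : ℝ) : ℂ :=
  ((t ^ (ex κ - 1) : ℝ) : ℂ) * th κ χ t

lemma gth_props {κ : ℕ} {χ : DirichletCharacter ℂ q} (hχ : χ ≠ 1) (hκ : Par κ χ) :
    Integrable (gth κ χ) mu0 ∧
    ‖∫ t, gth κ χ t ∂mu0‖ = ((q : ℝ) / π) ^ (ex κ) * Real.Gamma (ex κ) *
      ‖DirichletCharacter.LFunction χ (1 / 2)‖ := by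
  have hq0 : (0 : ℝ) < q := by exact_mod_cast (Fact.out : q.Prime).pos
  have hqc : (q : ℂ) ≠ 0 := by exact_mod_cast hq0.ne'
  rcases hκ with ⟨rfl, he⟩ | ⟨rfl, ho⟩
  · have h := hasMellin_even hχ he
    have hex : ex 0 = 1 / 4 := by unfold ex; norm_num
    have hcongr : ∀ t ∈ Ioi (0 : ℝ), gth 0 χ t = (t : ℂ) ^ ((1 / 4 : ℂ) - 1) • th 0 χ t := by
      intro t ht
      have ht' : (0 : ℝ) < t := ht
      rw [gth, hex, smul_eq_mul, Complex.ofReal_cpow ht'.le]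
      push_cast
      rfl
    have hint : ∫ t, gth 0 χ t ∂mu0 = mellin (th 0 χ) (1 / 4) :=
      setIntegral_congr_fun measurableSet_Ioi hcongr
    refine ⟨?_, ?_⟩
    · have h1 : IntegrableOn (fun t : ℝ => (t : ℂ) ^ ((1 / 4 : ℂ) - 1) • th 0 χ t) (Ioi 0) := h.1
      exact (integrableOn_congr_fun hcongr measurableSet_Ioi).mpr h1
    · rw [hint, h.2, hex]
      have he' : Function.Even (χ : ZMod q → ℂ) := fun j => DirichletCharacter.Even.eval_neg χ j he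
      have hL := ZMod.LFunction_eq_completed_div_gammaFactor_even he' (1 / 2) (Or.inl (by norm_num))
      have hG : Gammaℝ (1 / 2) = (((π : ℝ) ^ (-(1 / 4) : ℝ) * Real.Gamma (1 / 4) : ℝ) : ℂ) := by
        rw [Gammaℝ_def]
        rw [show (1 / 2 / 2 : ℂ) = ((1 / 4 : ℝ) : ℂ) by push_cast; norm_num,
          show (-(1 / 2) / 2 : ℂ) = ((-(1 / 4) : ℝ) : ℂ) by push_cast; norm_num,
          ← Complex.ofReal_cpow Real.pi_pos.le, Complex.Gamma_ofReal]
        push_cast; rfl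
      have hLn : ‖DirichletCharacter.LFunction χ (1 / 2)‖ = ‖ZMod.completedLFunction χ (1 / 2)‖ /
          ((π : ℝ) ^ (-(1 / 4) : ℝ) * Real.Gamma (1 / 4)) := by
        rw [DirichletCharacter.LFunction, hL, norm_div, hG, Complex.norm_real, Real.norm_of_nonneg]
        have := Real.Gamma_pos_of_pos (show (0 : ℝ) < 1 / 4 by norm_num)
        positivity
      have hGp := Real.Gamma_pos_of_pos (show (0 : ℝ) < 1 / 4 by norm_num)
      rw [hLn, norm_mul, norm_mul]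
      have e1 : ‖(q : ℂ) ^ (-(1 / 4) : ℂ)‖ = (q : ℝ) ^ (-(1 / 4) : ℝ) := by
        rw [show (-(1 / 4) : ℂ) = ((-(1 / 4) : ℝ) : ℂ) by push_cast; norm_num,
          show (q : ℂ) = ((q : ℝ) : ℂ) by simp, Complex.norm_cpow_eq_rpow_re_of_pos hq0]
        simp
      have e2 : ‖(q : ℂ) ^ (1 / 2 : ℂ)‖ = (q : ℝ) ^ (1 / 2 : ℝ) := by
        rw [show (1 / 2 : ℂ) = ((1 / 2 : ℝ) : ℂ) by push_cast; norm_num,
          show (q : ℂ) = ((q : ℝ) : ℂ) by simp, Complex.norm_cpow_eq_rpow_re_of_pos hq0]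
        simp
      rw [e1, e2, ← Real.rpow_add hq0, Real.div_rpow hq0.le Real.pi_pos.le, Real.rpow_neg Real.pi_pos.le]
      rw [show (-(1 / 4) + 1 / 2 : ℝ) = 1 / 4 by norm_num]
      field_simp
  · have h := hasMellin_odd (q := q) ho
    have hex : ex 1 = 3 / 4 := by unfold ex; norm_num
    have hcongr : ∀ t ∈ Ioi (0 : ℝ), gth 1 χ t = (t : ℂ) ^ ((3 / 4 : ℂ) - 1) • th 1 χ t := by
      intro t ht
      have ht' : (0 : ℝ) < t := ht
      rw [gth, hex, smul_eq_mul, Complex.ofReal_cpow ht'.le]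
      push_cast
      rfl
    have hint : ∫ t, gth 1 χ t ∂mu0 = mellin (th 1 χ) (3 / 4) :=
      setIntegral_congr_fun measurableSet_Ioi hcongr
    refine ⟨?_, ?_⟩
    · have h1 : IntegrableOn (fun t : ℝ => (t : ℂ) ^ ((3 / 4 : ℂ) - 1) • th 1 χ t) (Ioi 0) := h.1
      exact (integrableOn_congr_fun hcongr measurableSet_Ioi).mpr h1
    · rw [hint, h.2, hex]
      have he' : Function.Odd (χ : ZMod q → ℂ) := fun j => DirichletCharacter.Odd.eval_neg χ j ho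
      have hL := ZMod.LFunction_eq_completed_div_gammaFactor_odd he' (1 / 2)
      have hG : Gammaℝ (1 / 2 + 1) = (((π : ℝ) ^ (-(3 / 4) : ℝ) * Real.Gamma (3 / 4) : ℝ) : ℂ) := by
        rw [Gammaℝ_def]
        rw [show ((1 / 2 + 1) / 2 : ℂ) = ((3 / 4 : ℝ) : ℂ) by push_cast; norm_num,
          show (-(1 / 2 + 1) / 2 : ℂ) = ((-(3 / 4) : ℝ) : ℂ) by push_cast; norm_num,
          ← Complex.ofReal_cpow Real.pi_pos.le, Complex.Gamma_ofReal]
        push_cast; rfl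
      have hGp := Real.Gamma_pos_of_pos (show (0 : ℝ) < 3 / 4 by norm_num)
      have hLn : ‖DirichletCharacter.LFunction χ (1 / 2)‖ = ‖ZMod.completedLFunction χ (1 / 2)‖ /
          ((π : ℝ) ^ (-(3 / 4) : ℝ) * Real.Gamma (3 / 4)) := by
        rw [DirichletCharacter.LFunction, hL, norm_div, hG, Complex.norm_real, Real.norm_of_nonneg]
        positivity
      rw [hLn, norm_mul, norm_mul, norm_mul]
      have e1 : ‖(q : ℂ) ^ (-(3 / 4) : ℂ)‖ = (q : ℝ) ^ (-(3 / 4) : ℝ) := by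
        rw [show (-(3 / 4) : ℂ) = ((-(3 / 4) : ℝ) : ℂ) by push_cast; norm_num,
          show (q : ℂ) = ((q : ℝ) : ℂ) by simp, Complex.norm_cpow_eq_rpow_re_of_pos hq0]
        simp
      have e2 : ‖(q : ℂ) ^ (1 / 2 : ℂ)‖ = (q : ℝ) ^ (1 / 2 : ℝ) := by
        rw [show (1 / 2 : ℂ) = ((1 / 2 : ℝ) : ℂ) by push_cast; norm_num,
          show (q : ℂ) = ((q : ℝ) : ℂ) by simp, Complex.norm_cpow_eq_rpow_re_of_pos hq0]
        simp
      have e3 : ‖(q : ℂ)‖ = (q : ℝ) ^ (1 : ℝ) := by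
        rw [Real.rpow_one]; simp
      rw [e1, e2, e3, ← Real.rpow_add hq0, ← Real.rpow_add hq0, Real.div_rpow hq0.le Real.pi_pos.le,
        Real.rpow_neg Real.pi_pos.le]
      rw [show (-(3 / 4) + (1 + 1 / 2) : ℝ) = 3 / 4 by norm_num]
      field_simp

lemma gth_fe {κ : ℕ} {χ : DirichletCharacter ℂ q} (hχ : χ ≠ 1) (hκ : Par κ χ) :
    ∃ ε : ℂ, ‖ε‖ = 1 ∧ ∀ t : ℝ, 0 < t →
      ((t ^ (-2 : ℝ) : ℝ) : ℂ) * gth κ χ (1 / t) = ε * conj (gth κ χ t) := by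
  have hq0 : (0 : ℝ) < q := by exact_mod_cast (Fact.out : q.Prime).pos
  have hgs : ‖gs χ‖ = Real.sqrt q := by
    rw [← norm_gs_sq hχ, Real.sqrt_sq (norm_nonneg _)]
  have hsq : 0 < Real.sqrt q := Real.sqrt_pos.mpr hq0
  have key : ∀ ε : ℂ, (∀ t : ℝ, 0 < t → th κ χ (1 / t) = ε * ((t ^ (2 * ex κ) : ℝ) : ℂ) *
      conj (th κ χ t)) → ∀ t : ℝ, 0 < t →
      ((t ^ (-2 : ℝ) : ℝ) : ℂ) * gth κ χ (1 / t) = ε * conj (gth κ χ t) := by
    intro ε h t ht
    unfold gth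
    rw [h t ht, map_mul, Complex.conj_ofReal]
    have e1 : (1 / t) ^ (ex κ - 1) = t ^ (1 - ex κ) := by
      rw [one_div, Real.inv_rpow ht.le, ← Real.rpow_neg ht.le]
      congr 1; ring
    have e2 : t ^ (-2 : ℝ) * t ^ (1 - ex κ) * t ^ (2 * ex κ) = t ^ (ex κ - 1) := by
      rw [← Real.rpow_add ht, ← Real.rpow_add ht]
      congr 1; ring
    rw [e1, ← e2]
    push_cast
    ring
  rcases hκ with ⟨rfl, he⟩ | ⟨rfl, ho⟩
  · refine ⟨gs χ / (Real.sqrt q : ℂ), ?_, key _ ?_⟩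
    · rw [norm_div, hgs, Complex.norm_real, Real.norm_of_nonneg hsq.le, div_self hsq.ne']
    · intro t ht
      rw [two_ex]
      have := th_feq_even hχ he ht
      simpa using this
  · refine ⟨-I * gs χ / (Real.sqrt q : ℂ), ?_, key _ ?_⟩
    · rw [norm_div, norm_mul, hgs, Complex.norm_real, Real.norm_of_nonneg hsq.le, norm_neg, norm_I,
        one_mul, div_self hsq.ne']
    · intro t ht
      rw [two_ex]
      have := th_feq_odd hχ ho ht
      rw [show ((1 : ℕ) : ℝ) + 1 / 2 = 3 / 2 by norm_num]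
      exact this

end Pool.Agent.H14.PT
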