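import Pool.Agent.H14.PT.Afe

/-!
# The approximate functional equation for `|L(1/2, χ)|²`, series form
-/

set_option linter.unusedSectionVars false

namespace Pool.Agent.H14.PT

open Complex ZMod Finset MeasureTheory Set
open scoped Real ComplexConjugate

variable {q : ℕ} [Fact q.Prime]

/-- building block -/
noncomputable def bb (q κ n : ℕ) (t : ℝ) : ℝ :=
  (((n + 1 : ℕ) : ℝ) ^ κ * Real.exp (-π * ((n + 1 : ℕ) : ℝ) ^ 2 * (t / q))) * t ^ (ex κ - 1)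

lemma bb_nonneg (q κ n : ℕ) {t : ℝ} (ht : 0 < t) : 0 ≤ bb q κ n t := by
  unfold bb; positivity

/-- `α_n = π (n+1)² / q` -/
noncomputable def al (q n : ℕ) : ℝ := π * ((n + 1 : ℕ) : ℝ) ^ 2 / q

lemma al_pos (n : ℕ) : 0 < al q n := by
  have hq0 : (0 : ℝ) < q := by exact_mod_cast (Fact.out : q.Prime).pos
  unfold al; positivity

lemma bb_eq (κ n : ℕ) (t : ℝ) :
    bb q κ n t = ((n + 1 : ℕ) : ℝ) ^ κ * (Real.exp (-(al q n * t)) * t ^ (ex κ - 1)) := by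
  unfold bb al
  have : -π * ((n + 1 : ℕ) : ℝ) ^ 2 * (t / q) = -(π * ((n + 1 : ℕ) : ℝ) ^ 2 / q * t) := by ring
  rw [this]; ring

lemma bb_integrable (κ n : ℕ) : Integrable (bb q κ n) mu0 := by
  have h0 := gamma_int (ex κ) (ex_pos κ)
  have h1 : IntegrableOn (fun t : ℝ => Real.exp (-(al q n * t)) * (al q n * t) ^ (ex κ - 1)) (Ioi 0) := by
    have := (integrableOn_Ioi_comp_mul_left_iff
      (fun x : ℝ => Real.exp (-x) * x ^ (ex κ - 1)) 0 (al_pos (q := q) n)).mpr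
    rw [mul_zero] at this
    exact this h0
  have h2 : IntegrableOn (fun t : ℝ => (((n + 1 : ℕ) : ℝ) ^ κ * (al q n) ^ (1 - ex κ)) *
      (Real.exp (-(al q n * t)) * (al q n * t) ^ (ex κ - 1))) (Ioi 0) := h1.const_mul _
  refine (integrableOn_congr_fun ?_ measurableSet_Ioi).mpr h2
  intro t ht
  have ht' : (0 : ℝ) < t := ht
  simp only
  rw [bb_eq, Real.mul_rpow (al_pos n).le ht'.le]
  have : (al q n) ^ (1 - ex κ) * (al q n) ^ (ex κ - 1) = 1 := by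
    rw [← Real.rpow_add (al_pos n)]; simp
  linear_combination (-(((n + 1 : ℕ) : ℝ) ^ κ * (Real.exp (-(al q n * t)) * t ^ (ex κ - 1)))) * this

/-- the mass of the double integral -/
lemma double_mass (κ n m : ℕ) :
    ∫ p : ℝ × ℝ, {p : ℝ × ℝ | 1 < p.1 * p.2}.indicator (fun p => bb q κ n p.1 * bb q κ m p.2) p
      ∂(mu0.prod mu0)
      = ((n + 1 : ℕ) : ℝ) ^ κ * ((m + 1 : ℕ) : ℝ) ^ κ * ((al q n) ^ (-ex κ) * (al q m) ^ (-ex κ)) *
        Psi (ex κ) (al q n * al q m) := by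
  have hms : MeasurableSet {p : ℝ × ℝ | 1 < p.1 * p.2} := by
    apply measurableSet_lt measurable_const (measurable_fst.mul measurable_snd)
  have hprod : Integrable (fun p : ℝ × ℝ => bb q κ n p.1 * bb q κ m p.2) (mu0.prod mu0) :=
    (bb_integrable κ n).mul_prod (bb_integrable κ m)
  rw [integral_prod _ (hprod.indicator hms)]
  have h1 : ∫ t, ∫ u, {p : ℝ × ℝ | 1 < p.1 * p.2}.indicator
      (fun p => bb q κ n p.1 * bb q κ m p.2) (t, u) ∂mu0 ∂mu0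
      = ∫ t, (((n + 1 : ℕ) : ℝ) ^ κ * ((m + 1 : ℕ) : ℝ) ^ κ * (al q m) ^ (-ex κ)) *
        ((Real.exp (-(al q n * t)) * t ^ (ex κ - 1)) * gam (ex κ) (al q m * (1 / t))) ∂mu0 := by
    refine setIntegral_congr_fun measurableSet_Ioi fun t ht => ?_
    have ht' : (0 : ℝ) < t := ht
    have h2 : ∫ u, {p : ℝ × ℝ | 1 < p.1 * p.2}.indicator
        (fun p => bb q κ n p.1 * bb q κ m p.2) (t, u) ∂mu0
        = bb q κ n t * ∫ u in Ioi (1 / t), bb q κ m u := by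
      rw [← integral_const_mul, ← integral_indicator (measurableSet_Ioi),
        ← integral_indicator (measurableSet_Ioi)]
      refine integral_congr_ae (Filter.Eventually.of_forall fun u => ?_)
      simp only [Set.indicator_apply]
      have hiff : (t, u) ∈ {p : ℝ × ℝ | 1 < p.1 * p.2} ↔ u ∈ Ioi (1 / t) := by
        change 1 < t * u ↔ 1 / t < u
        rw [div_lt_iff₀ ht', mul_comm u t]
      by_cases h1 : u ∈ Ioi (1 / t)
      · have h0 : u ∈ Ioi (0 : ℝ) := lt_trans (by positivity) (mem_Ioi.mp h1)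
        rw [if_pos h0, if_pos (hiff.mpr h1), if_pos h1]
      · rw [if_neg h1, if_neg (fun h => h1 (hiff.mp h))]
        split_ifs <;> rfl
    have h3 : ∫ u in Ioi (1 / t), bb q κ m u
        = ((m + 1 : ℕ) : ℝ) ^ κ * ((al q m) ^ (-ex κ) * gam (ex κ) (al q m * (1 / t))) := by
      simp_rw [bb_eq]
      rw [integral_const_mul, inner_scale (al_pos m) (by positivity)]
    change ∫ u, {p : ℝ × ℝ | 1 < p.1 * p.2}.indicator
        (fun p => bb q κ n p.1 * bb q κ m p.2) (t, u) ∂mu0 = _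
    rw [h2, h3, bb_eq]
    ring
  rw [h1, integral_const_mul, outer_scale (al_pos n)]
  ring

/-- the weight `W(k)` -/
noncomputable def Wt (q κ : ℕ) (x : ℝ) : ℝ := Psi (ex κ) ((π * x / q) ^ 2) / Real.Gamma (ex κ) ^ 2

lemma mass_eq (κ n m : ℕ) :
    ((n + 1 : ℕ) : ℝ) ^ κ * ((m + 1 : ℕ) : ℝ) ^ κ * ((al q n) ^ (-ex κ) * (al q m) ^ (-ex κ)) *
        Psi (ex κ) (al q n * al q m)
      = (((q : ℝ) / π) ^ (ex κ) * Real.Gamma (ex κ)) ^ 2 *
        (((((n + 1) * (m + 1) : ℕ) : ℝ)) ^ (-(1 / 2) : ℝ) * Wt q κ (((n + 1) * (m + 1) : ℕ) : ℝ)) := by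
  have hq0 : (0 : ℝ) < q := by exact_mod_cast (Fact.out : q.Prime).pos
  have hG := Real.Gamma_pos_of_pos (ex_pos κ)
  have hn : (0 : ℝ) < ((n + 1 : ℕ) : ℝ) := by positivity
  have hm : (0 : ℝ) < ((m + 1 : ℕ) : ℝ) := by positivity
  have h1 : ∀ N : ℝ, 0 < N → N ^ κ * (π * N ^ 2 / q) ^ (-ex κ) = ((q : ℝ) / π) ^ (ex κ) * N ^ (-(1 / 2) : ℝ) := by
    intro N hN
    have e1 : (π * N ^ 2 / q) ^ (-ex κ) = ((q : ℝ) / π) ^ (ex κ) * N ^ (-(2 * ex κ)) := by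
      rw [Real.rpow_neg (by positivity), ← Real.inv_rpow (by positivity)]
      rw [show (π * N ^ 2 / q)⁻¹ = (q / π) * (N ^ 2)⁻¹ by field_simp]
      rw [Real.mul_rpow (by positivity) (by positivity)]
      congr 1
      rw [Real.inv_rpow (by positivity), ← Real.rpow_neg (by positivity), ← Real.rpow_natCast,
        ← Real.rpow_mul hN.le]
      congr 1
      push_cast
      ring
    rw [e1, two_ex, ← Real.rpow_natCast]
    have e2 : N ^ (κ : ℝ) * N ^ (-((κ : ℝ) + 1 / 2)) = N ^ (-(1 / 2) : ℝ) := by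
      rw [← Real.rpow_add hN]; congr 1; ring
    linear_combination (((q : ℝ) / π) ^ (ex κ)) * e2
  have h2 : al q n * al q m = (π * (((n + 1) * (m + 1) : ℕ) : ℝ) / q) ^ 2 := by
    unfold al; push_cast; ring
  have h3 : ((((n + 1) * (m + 1) : ℕ) : ℝ)) ^ (-(1 / 2) : ℝ)
      = ((n + 1 : ℕ) : ℝ) ^ (-(1 / 2) : ℝ) * ((m + 1 : ℕ) : ℝ) ^ (-(1 / 2) : ℝ) := by
    rw [Nat.cast_mul, Real.mul_rpow hn.le hm.le]
  rw [h2, h3, Wt]
  have e1 := h1 _ hn
  have e2 := h1 _ hm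
  unfold al
  calc _ = (((n + 1 : ℕ) : ℝ) ^ κ * (π * ((n + 1 : ℕ) : ℝ) ^ 2 / q) ^ (-ex κ)) *
        (((m + 1 : ℕ) : ℝ) ^ κ * (π * ((m + 1 : ℕ) : ℝ) ^ 2 / q) ^ (-ex κ)) *
        Psi (ex κ) ((π * (((n + 1) * (m + 1) : ℕ) : ℝ) / q) ^ 2) := by ring
    _ = _ := by
        rw [e1, e2]
        field_simp

lemma Wt_nonneg (κ : ℕ) (x : ℝ) : 0 ≤ Wt q κ x := by
  unfold Wt
  exact div_nonneg (Psi_nonneg (sq_nonneg _)) (sq_nonneg _)

lemma Wt_zero (κ : ℕ) : Wt q κ 0 = 1 := by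
  unfold Wt
  have hG := Real.Gamma_pos_of_pos (ex_pos κ)
  rw [mul_zero, zero_div, zero_pow two_ne_zero, Psi_zero (ex_pos κ), div_self (by positivity)]

lemma Wt_anti (κ : ℕ) {x y : ℝ} (hx : 0 ≤ x) (hxy : x ≤ y) : Wt q κ y ≤ Wt q κ x := by
  unfold Wt
  have hq0 : (0 : ℝ) < q := by exact_mod_cast (Fact.out : q.Prime).pos
  refine div_le_div_of_nonneg_right (Psi_antitone (ex_pos κ) (sq_nonneg _) ?_) (sq_nonneg _)
  gcongr

lemma Wt_le_one (κ : ℕ) {x : ℝ} (hx : 0 ≤ x) : Wt q κ x ≤ 1 := by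
  rw [← Wt_zero (q := q) κ]
  exact Wt_anti κ le_rfl hx

/-- upper tail of the weight -/
lemma Wt_upper (κ : ℕ) {A : ℝ} (hA : 0 ≤ A) {x : ℝ} (hx : 0 < x) :
    Wt q κ x ≤ (Real.Gamma (ex κ + A) / Real.Gamma (ex κ)) ^ 2 * (x / q) ^ (-(2 * A)) := by
  have hq0 : (0 : ℝ) < q := by exact_mod_cast (Fact.out : q.Prime).pos
  have hG := Real.Gamma_pos_of_pos (ex_pos κ)
  unfold Wt
  have h1 := Psi_upper (ex_pos κ) hA (show 0 < (π * x / q) ^ 2 by positivity)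
  have h2 : ((π * x / q) ^ 2) ^ (-A) ≤ (x / q) ^ (-(2 * A)) := by
    rw [← Real.rpow_natCast, ← Real.rpow_mul (by positivity)]
    rw [show ((2 : ℕ) : ℝ) * -A = -(2 * A) by push_cast; ring]
    rw [Real.rpow_neg (by positivity), Real.rpow_neg (by positivity)]
    apply inv_anti₀ (by positivity)
    apply Real.rpow_le_rpow (by positivity) _ (by positivity)
    have : x / q ≤ π * (x / q) := by
      have hp : (1 : ℝ) ≤ π := by linarith [Real.pi_gt_three]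
      nlinarith [show 0 < x / q by positivity]
    calc x / q ≤ π * (x / q) := this
      _ = π * x / q := by ring
  rw [div_pow (Real.Gamma (ex κ + A)), div_mul_eq_mul_div]
  refine div_le_div_of_nonneg_right ?_ (sq_nonneg _)
  calc Psi (ex κ) ((π * x / q) ^ 2) ≤ _ := h1
    _ ≤ (x / q) ^ (-(2 * A)) * Real.Gamma (ex κ + A) ^ 2 := by gcongr
    _ = _ := by ring

/-- lower tail of the weight -/
lemma Wt_lower (κ : ℕ) {x : ℝ} (hx : 0 ≤ x) :
    1 - Wt q κ x ≤ 2 / (Real.Gamma (ex κ) * ex κ) * (π * x / q) ^ (ex κ) := by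
  have hq0 : (0 : ℝ) < q := by exact_mod_cast (Fact.out : q.Prime).pos
  have hG := Real.Gamma_pos_of_pos (ex_pos κ)
  have ha := ex_pos κ
  have h1 := Psi_lower (ex_pos κ) (show 0 ≤ (π * x / q) ^ 2 by positivity)
  have h2 : ((π * x / q) ^ 2) ^ (ex κ / 2) = (π * x / q) ^ (ex κ) := by
    rw [← Real.rpow_natCast, ← Real.rpow_mul (by positivity)]
    congr 1
    push_cast; ring
  rw [h2] at h1
  unfold Wt
  have h3 : 1 - Psi (ex κ) ((π * x / q) ^ 2) / Real.Gamma (ex κ) ^ 2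
      = (Real.Gamma (ex κ) ^ 2 - Psi (ex κ) ((π * x / q) ^ 2)) / Real.Gamma (ex κ) ^ 2 := by
    field_simp
  rw [h3, div_le_iff₀ (by positivity)]
  refine h1.trans (le_of_eq ?_)
  field_simp

/-- summability of the weights -/
lemma summable_Wt (κ : ℕ) : Summable (fun p : ℕ × ℕ =>
    (((((p.1 + 1) * (p.2 + 1) : ℕ) : ℝ)) ^ (-(1 / 2) : ℝ) * Wt q κ (((p.1 + 1) * (p.2 + 1) : ℕ) : ℝ))) := by
  have hq0 : (0 : ℝ) < q := by exact_mod_cast (Fact.out : q.Prime).pos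
  have h1 : Summable (fun n : ℕ => ((n + 1 : ℕ) : ℝ) ^ (-(3 / 2) : ℝ)) := by
    have := (Real.summable_nat_rpow (p := (-(3 / 2) : ℝ))).mpr (by norm_num)
    exact (summable_nat_add_iff 1).mpr this
  have h2 := h1.mul_of_nonneg h1 (fun n => by positivity) (fun n => by positivity)
  set C : ℝ := (Real.Gamma (ex κ + 1 / 2) / Real.Gamma (ex κ)) ^ 2 * q with hC
  refine Summable.of_nonneg_of_le (fun p => mul_nonneg (by positivity) (Wt_nonneg κ _)) (fun p => ?_)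
    (h2.mul_left C)
  have hk : (0 : ℝ) < (((p.1 + 1) * (p.2 + 1) : ℕ) : ℝ) := by positivity
  have h3 := Wt_upper (q := q) κ (A := 1 / 2) (by norm_num) hk
  have h4 : ((((p.1 + 1) * (p.2 + 1) : ℕ) : ℝ) / q) ^ (-(2 * (1 / 2)) : ℝ)
      = q * (((p.1 + 1) * (p.2 + 1) : ℕ) : ℝ) ^ (-(1) : ℝ) := by
    rw [show (-(2 * (1 / 2)) : ℝ) = -1 by norm_num, Real.rpow_neg_one, Real.rpow_neg_one]
    field_simp
  rw [h4] at h3
  calc (((((p.1 + 1) * (p.2 + 1) : ℕ) : ℝ)) ^ (-(1 / 2) : ℝ) * Wt q κ (((p.1 + 1) * (p.2 + 1) : ℕ) : ℝ))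
      ≤ (((((p.1 + 1) * (p.2 + 1) : ℕ) : ℝ)) ^ (-(1 / 2) : ℝ) *
        ((Real.Gamma (ex κ + 1 / 2) / Real.Gamma (ex κ)) ^ 2 *
          (q * (((p.1 + 1) * (p.2 + 1) : ℕ) : ℝ) ^ (-(1) : ℝ)))) := by gcongr
    _ = C * ((((p.1 + 1) * (p.2 + 1) : ℕ) : ℝ) ^ (-(1 / 2) : ℝ) *
        (((p.1 + 1) * (p.2 + 1) : ℕ) : ℝ) ^ (-(1) : ℝ)) := by rw [hC]; ring
    _ = C * (((p.1 + 1 : ℕ) : ℝ) ^ (-(3 / 2) : ℝ) * ((p.2 + 1 : ℕ) : ℝ) ^ (-(3 / 2) : ℝ)) := by
        rw [← Real.rpow_add hk, Nat.cast_mul, Real.mul_rpow (by positivity) (by positivity)]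
        norm_num

/-- series form of the approximate functional equation -/
theorem afe_series {κ : ℕ} {χ : DirichletCharacter ℂ q} (hχ : χ ≠ 1) (hκ : Par κ χ) :
    ‖DirichletCharacter.LFunction χ (1 / 2)‖ ^ 2 = 2 * (∑' p : ℕ × ℕ,
      χ ((p.1 + 1 : ℕ) : ZMod q) * conj (χ ((p.2 + 1 : ℕ) : ZMod q)) *
      ((((((p.1 + 1) * (p.2 + 1) : ℕ) : ℝ)) ^ (-(1 / 2) : ℝ) *
        Wt q κ (((p.1 + 1) * (p.2 + 1) : ℕ) : ℝ) : ℝ) : ℂ)).re := by
  have hq0 : (0 : ℝ) < q := by exact_mod_cast (Fact.out : q.Prime).pos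
  have hG := Real.Gamma_pos_of_pos (ex_pos κ)
  obtain ⟨ε, hε, hfe⟩ := gth_fe hχ hκ
  obtain ⟨hint, hnorm⟩ := gth_props hχ hκ
  have h1 := norm_sq_integral hint hε hfe
  have hms : MeasurableSet {p : ℝ × ℝ | 1 < p.1 * p.2} := by
    apply measurableSet_lt measurable_const (measurable_fst.mul measurable_snd)
  set F : ℕ × ℕ → ℝ × ℝ → ℂ := fun n p => {p : ℝ × ℝ | 1 < p.1 * p.2}.indicator
    (fun p => (χ ((n.1 + 1 : ℕ) : ZMod q) * conj (χ ((n.2 + 1 : ℕ) : ZMod q))) *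
      ((bb q κ n.1 p.1 * bb q κ n.2 p.2 : ℝ) : ℂ)) p with hF
  have hprod : ∀ n : ℕ × ℕ, Integrable (fun p : ℝ × ℝ => bb q κ n.1 p.1 * bb q κ n.2 p.2)
      (mu0.prod mu0) := fun n => (bb_integrable κ n.1).mul_prod (bb_integrable κ n.2)
  have hFint : ∀ n, Integrable (F n) (mu0.prod mu0) := by
    intro n
    refine Integrable.indicator ?_ hms
    exact ((hprod n).ofReal).const_mul _
  -- positivity a.e.
  have hpos : ∀ᵐ p : ℝ × ℝ ∂(mu0.prod mu0), 0 < p.1 ∧ 0 < p.2 := by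
    have hr : mu0.prod mu0 = (volume.prod volume).restrict (Ioi (0 : ℝ) ×ˢ Ioi (0 : ℝ)) :=
      Measure.prod_restrict _ _
    rw [hr, ae_restrict_iff' (measurableSet_Ioi.prod measurableSet_Ioi)]
    exact Filter.Eventually.of_forall fun p hp => ⟨hp.1, hp.2⟩
  have hmass : ∀ n : ℕ × ℕ, ∫ p : ℝ × ℝ, {p : ℝ × ℝ | 1 < p.1 * p.2}.indicator
      (fun p => bb q κ n.1 p.1 * bb q κ n.2 p.2) p ∂(mu0.prod mu0)
      = (((q : ℝ) / π) ^ (ex κ) * Real.Gamma (ex κ)) ^ 2 *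
        (((((n.1 + 1) * (n.2 + 1) : ℕ) : ℝ)) ^ (-(1 / 2) : ℝ) *
          Wt q κ (((n.1 + 1) * (n.2 + 1) : ℕ) : ℝ)) := by
    intro n
    rw [double_mass, mass_eq]
  have hFnorm : ∀ n, ∫ p, ‖F n p‖ ∂(mu0.prod mu0) ≤ (((q : ℝ) / π) ^ (ex κ) * Real.Gamma (ex κ)) ^ 2 *
        (((((n.1 + 1) * (n.2 + 1) : ℕ) : ℝ)) ^ (-(1 / 2) : ℝ) *
          Wt q κ (((n.1 + 1) * (n.2 + 1) : ℕ) : ℝ)) := by
    intro n
    rw [← hmass n]
    refine integral_mono_ae (hFint n).norm ((hprod n).indicator hms) ?_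
    filter_upwards [hpos] with p hp
    simp only [hF, Set.indicator_apply]
    by_cases hc : p ∈ {p : ℝ × ℝ | 1 < p.1 * p.2}
    · rw [if_pos hc, if_pos hc, norm_mul, norm_mul, Complex.norm_real, RCLike.norm_conj,
        Real.norm_of_nonneg (mul_nonneg (bb_nonneg q κ _ hp.1) (bb_nonneg q κ _ hp.2))]
      have h2 : ‖χ ((n.1 + 1 : ℕ) : ZMod q)‖ * ‖χ ((n.2 + 1 : ℕ) : ZMod q)‖ ≤ 1 := by
        calc _ ≤ (1 : ℝ) * 1 := by
              gcongr
              · exact norm_chi_le _ _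
              · exact norm_chi_le _ _
          _ = 1 := by norm_num
      exact mul_le_of_le_one_left (mul_nonneg (bb_nonneg q κ _ hp.1) (bb_nonneg q κ _ hp.2)) h2
    · rw [if_neg hc, if_neg hc, norm_zero]
  have hFsum : Summable fun n => ∫ p, ‖F n p‖ ∂(mu0.prod mu0) :=
    Summable.of_nonneg_of_le (fun n => integral_nonneg fun _ => norm_nonneg _) hFnorm
      ((summable_Wt κ).mul_left _)
  have h2 := hasSum_integral_of_summable_integral_norm hFint hFsum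
  have h3 : ∫ p, ∑' n, F n p ∂(mu0.prod mu0) = ∫ p : ℝ × ℝ, {p : ℝ × ℝ | 1 < p.1 * p.2}.indicator
          (fun p => gth κ χ p.1 * conj (gth κ χ p.2)) p ∂(mu0.prod mu0) := by
    refine integral_congr_ae ?_
    filter_upwards [hpos] with p hp
    simp only [hF, Set.indicator_apply]
    by_cases hc : p ∈ {p : ℝ × ℝ | 1 < p.1 * p.2}
    · simp only [if_pos hc]
      have hs : ∀ t : ℝ, 0 < t → HasSum (fun n : ℕ => χ ((n + 1 : ℕ) : ZMod q) * (bb q κ n t : ℂ))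
          (gth κ χ t) := by
        intro t ht
        have := (hasSum_th κ χ ht).mul_left (((t ^ (ex κ - 1) : ℝ) : ℂ))
        refine this.congr_fun fun n => ?_
        unfold bb
        push_cast
        ring
      have hs1 := hs p.1 hp.1
      have hs2 : HasSum (fun n : ℕ => conj (χ ((n + 1 : ℕ) : ZMod q)) * (bb q κ n p.2 : ℂ))
          (conj (gth κ χ p.2)) := by
        have := (hs p.2 hp.2).map (starRingEnd ℂ) Complex.continuous_conj
        refine this.congr_fun fun n => ?_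
        simp
      have hn1 : Summable (fun n : ℕ => ‖χ ((n + 1 : ℕ) : ZMod q) * (bb q κ n p.1 : ℂ)‖) := hs1.summable.norm
      have hn2 : Summable (fun n : ℕ => ‖conj (χ ((n + 1 : ℕ) : ZMod q)) * (bb q κ n p.2 : ℂ)‖) :=
        hs2.summable.norm
      have h4 := tsum_mul_tsum_of_summable_norm hn1 hn2
      rw [hs1.tsum_eq, hs2.tsum_eq] at h4
      rw [h4]
      refine tsum_congr fun n => ?_
      push_cast
      ring
    · simp only [if_neg hc, tsum_zero]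
  rw [h3] at h2
  have h5 : ∀ n, ∫ p, F n p ∂(mu0.prod mu0) = (((((q : ℝ) / π) ^ (ex κ) * Real.Gamma (ex κ)) ^ 2 : ℝ) : ℂ) *
      (χ ((n.1 + 1 : ℕ) : ZMod q) * conj (χ ((n.2 + 1 : ℕ) : ZMod q)) *
      ((((((n.1 + 1) * (n.2 + 1) : ℕ) : ℝ)) ^ (-(1 / 2) : ℝ) *
        Wt q κ (((n.1 + 1) * (n.2 + 1) : ℕ) : ℝ) : ℝ) : ℂ)) := by
    intro n
    have e1 : ∀ p : ℝ × ℝ, F n p = (χ ((n.1 + 1 : ℕ) : ZMod q) * conj (χ ((n.2 + 1 : ℕ) : ZMod q))) *
        ((({p : ℝ × ℝ | 1 < p.1 * p.2}.indicator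
          (fun p => bb q κ n.1 p.1 * bb q κ n.2 p.2) p : ℝ)) : ℂ) := by
      intro p
      simp only [hF, Set.indicator_apply]
      split_ifs
      · rfl
      · simp
    simp_rw [e1]
    rw [integral_const_mul, integral_complex_ofReal, hmass n]
    push_cast
    ring
  simp_rw [h5] at h2
  have h6 := h2.tsum_eq
  rw [tsum_mul_left] at h6
  rw [← h6, hnorm, Complex.re_ofReal_mul] at h1
  have hCpos : 0 < (((q : ℝ) / π) ^ (ex κ) * Real.Gamma (ex κ)) ^ 2 := by positivity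
  have h7 : (((q : ℝ) / π) ^ (ex κ) * Real.Gamma (ex κ)) ^ 2 *
      ‖DirichletCharacter.LFunction χ (1 / 2)‖ ^ 2 = (((q : ℝ) / π) ^ (ex κ) * Real.Gamma (ex κ)) ^ 2 *
      (2 * (∑' p : ℕ × ℕ,
      χ ((p.1 + 1 : ℕ) : ZMod q) * conj (χ ((p.2 + 1 : ℕ) : ZMod q)) *
      ((((((p.1 + 1) * (p.2 + 1) : ℕ) : ℝ)) ^ (-(1 / 2) : ℝ) *
        Wt q κ (((p.1 + 1) * (p.2 + 1) : ℕ) : ℝ) : ℝ) : ℂ)).re) := by
    linear_combination h1
  exact mul_left_cancel₀ hCpos.ne' h7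

end Pool.Agent.H14.PT
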