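import Pool.Agent.H14.PT.KFold
import Pool.Agent.H14.PT.Div

/-!
# Box bounds
-/

namespace Pool.Agent.H14.PT

open Finset
open scoped ArithmeticFunction.Omega

/-- membership data of a dyadic box -/
def InBox {q : ℕ} (H : Subgroup (ZMod q)ˣ) (g : ZMod q) (A B : ℝ) (p : ℕ × ℕ) : Prop :=
  Nat.Coprime p.1 p.2 ∧ p.1 ≠ 0 ∧ p.2 ≠ 0 ∧ (p.1 : ℝ) ≤ 2 * A ∧ B ≤ (p.2 : ℝ) ∧ (p.2 : ℝ) ≤ 2 * B ∧
    InC H g p.1 p.2

lemma box_bound {q : ℕ} [NeZero q] (H : Subgroup (ZMod q)ˣ) (g : ZMod q) (P : Finset (ℕ × ℕ))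
    (A B : ℝ) (hA : 0 < A) (hB : 0 < B) (k : ℕ) (hk : 1 ≤ k) (w D : ℕ)
    (hP : ∀ p ∈ P, InBox H g A B p)
    (hw : ∀ p ∈ P, (p.1 * p.2).primeFactors.card ≤ w)
    (hD : ∀ t : Fin k → ℕ × ℕ, (∀ i, t i ∈ P) →
      dk k (∏ i, (t i).1) * dk k (∏ i, (t i).2) ≤ D) :
    (P.card : ℝ) ≤ 2 ^ w * ((D : ℝ) * (Nat.card H * (1 + (8 * A * B) ^ k / q))) ^ (1 / (k : ℝ)) := by
  obtain ⟨P', hsub, hcard, hcop⟩ := partition_trick P w
    (fun p hp => ⟨(hP p hp).1, (hP p hp).2.1, (hP p hp).2.2.1, hw p hp⟩)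
  have h1 := kfold H g P' A B hA hB k hcop
    (fun p hp => ⟨(hP p (hsub hp)).2.2.2.1, (hP p (hsub hp)).2.2.2.2.1, (hP p (hsub hp)).2.2.2.2.2.1,
      (hP p (hsub hp)).2.2.2.2.2.2⟩)
    (fun p hp => ⟨(hP p (hsub hp)).2.1, (hP p (hsub hp)).2.2.1⟩) D
    (fun t ht => hD t fun i => hsub (ht i))
  have hk0 : (0 : ℝ) < k := by exact_mod_cast hk
  have h2 : (P'.card : ℝ) ≤ ((D : ℝ) * (Nat.card H * (1 + (8 * A * B) ^ k / q))) ^ (1 / (k : ℝ)) := by
    calc (P'.card : ℝ) = ((P'.card : ℝ) ^ k) ^ (1 / (k : ℝ)) := by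
          rw [← Real.rpow_natCast, ← Real.rpow_mul (by positivity)]
          rw [mul_one_div_cancel hk0.ne', Real.rpow_one]
      _ ≤ _ := Real.rpow_le_rpow (by positivity) h1 (by positivity)
  have h3 : (P.card : ℝ) ≤ 2 ^ w * P'.card := by exact_mod_cast hcard
  exact h3.trans (mul_le_mul_of_nonneg_left h2 (by positivity))

/-- few large prime factors -/
def Few (z : ℝ) (n : ℕ) : Prop := (Ω n : ℝ) ≤ 1 + Real.log n / Real.log z

lemma cardFactors_prod {k : ℕ} (t : Fin k → ℕ) (h : ∀ i, t i ≠ 0) :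
    Ω (∏ i, t i) = ∑ i, Ω (t i) := by
  induction k with
  | zero => simp
  | succ k ih =>
    rw [Fin.prod_univ_succ, Fin.sum_univ_succ, ArithmeticFunction.cardFactors_mul (h 0)
      (Finset.prod_ne_zero_iff.mpr fun i _ => h i.succ), ih _ (fun i => h i.succ)]

lemma card_primeFactors_le_Omega (n : ℕ) : n.primeFactors.card ≤ Ω n := by
  rw [ArithmeticFunction.cardFactors_apply]
  exact List.toFinset_card_le _

/-- **box bound, rough regime.** -/
theorem box_rough {q : ℕ} [NeZero q] (H : Subgroup (ZMod q)ˣ) (g : ZMod q) (P : Finset (ℕ × ℕ))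
    (A B : ℝ) (hA : 1 ≤ A) (hB : 1 ≤ B) (z : ℝ) (hz : 100 ≤ Real.log z)
    (hL : 1 ≤ Real.log q)
    (hzL : 200 * Real.log (Real.log q) ≤ Real.log z)
    (hAB : 100 * Real.log (8 * A * B) ≤ Real.log q)
    (hd : Real.log (2 * Nat.card H) ≤ 0.335 * Real.log q)
    (hP : ∀ p ∈ P, InBox H g A B p)
    (hfew : ∀ p ∈ P, Few z (p.1 * p.2)) :
    (P.card : ℝ) ≤ 2 * Real.log q * (8 * A * B) ^ (0.36 : ℝ) := by
  classical
  set L := Real.log q with hLdef
  set ℓ := Real.log (8 * A * B) with hℓdef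
  have hq : (0 : ℝ) < q := by exact_mod_cast Nat.pos_of_ne_zero (NeZero.ne q)
  have h8 : (8 : ℝ) ≤ 8 * A * B := by nlinarith [mul_le_mul hA hB (by norm_num) (by linarith)]
  have hℓ2 : 2 ≤ ℓ := by
    have h1 : Real.log 8 ≤ ℓ := Real.log_le_log (by norm_num) h8
    have h2 : Real.log 8 = 3 * Real.log 2 := by
      rw [show (8 : ℝ) = 2 ^ 3 by norm_num, Real.log_pow]; norm_num
    have := Real.log_two_gt_d9
    linarith
  have hℓ0 : 0 < ℓ := by linarith
  have hlogz : 0 < Real.log z := by linarith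
  have hLpos : 0 < L := by linarith
  rcases P.eq_empty_or_nonempty with hemp | hne
  · rw [hemp]; simp only [card_empty, Nat.cast_zero]; positivity
  set k := ⌊L / ℓ⌋₊ with hk
  have hk100 : 100 ≤ k := by
    rw [hk]
    apply Nat.le_floor
    rw [le_div_iff₀ hℓ0]
    push_cast
    linarith
  have hk0 : (0 : ℝ) < k := by
    have : 0 < k := by omega
    exact_mod_cast this
  have hk100' : (100 : ℝ) ≤ k := by exact_mod_cast hk100
  have hkl : (k : ℝ) * ℓ ≤ L := by
    have := Nat.floor_le (show 0 ≤ L / ℓ by positivity)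
    rw [← hk, le_div_iff₀ hℓ0] at this
    exact this
  have hkl2 : L ≤ (k + 1) * ℓ := by
    have := Nat.lt_floor_add_one (L / ℓ)
    rw [← hk, div_lt_iff₀ hℓ0] at this
    linarith
  have hkL : (k : ℝ) ≤ L := by nlinarith
  have hlogk : Real.log k ≤ Real.log L := Real.log_le_log hk0 hkL
  have hlogk0 : 0 ≤ Real.log k := Real.log_nonneg (by linarith)
  -- bound of log (a b)
  have hlogab : ∀ p ∈ P, Real.log ((p.1 * p.2 : ℕ) : ℝ) ≤ ℓ := by
    intro p hp
    obtain ⟨_, h1, h2, h3, h4, h5, _⟩ := hP p hp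
    have h10 : (0 : ℝ) < p.1 := by exact_mod_cast Nat.pos_of_ne_zero h1
    have h20 : (0 : ℝ) < p.2 := by exact_mod_cast Nat.pos_of_ne_zero h2
    apply Real.log_le_log (by push_cast; positivity)
    push_cast
    calc (p.1 : ℝ) * p.2 ≤ (2 * A) * (2 * B) := by gcongr
      _ ≤ 8 * A * B := by nlinarith
  set w := ⌊1 + ℓ / Real.log z⌋₊ with hw
  have hwP : ∀ p ∈ P, (p.1 * p.2).primeFactors.card ≤ w := by
    intro p hp
    rw [hw]
    apply Nat.le_floor
    have h1 := hfew p hp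
    have h2 := hlogab p hp
    have h3 : ((p.1 * p.2).primeFactors.card : ℝ) ≤ (Ω (p.1 * p.2) : ℝ) := by
      exact_mod_cast card_primeFactors_le_Omega _
    unfold Few at h1
    have h4 : Real.log ((p.1 * p.2 : ℕ) : ℝ) / Real.log z ≤ ℓ / Real.log z := by gcongr
    linarith
  set E : ℝ := k + L / Real.log z with hE
  set D := ⌊(k : ℝ) ^ E⌋₊ with hD
  have hDt : ∀ t : Fin k → ℕ × ℕ, (∀ i, t i ∈ P) →
      dk k (∏ i, (t i).1) * dk k (∏ i, (t i).2) ≤ D := by
    intro t ht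
    have hn1 : ∀ i, (t i).1 ≠ 0 := fun i => (hP _ (ht i)).2.1
    have hn2 : ∀ i, (t i).2 ≠ 0 := fun i => (hP _ (ht i)).2.2.1
    have h1 := dk_le_pow k _ (Finset.prod_ne_zero_iff.mpr fun i (_ : i ∈ Finset.univ) => hn1 i)
    have h2 := dk_le_pow k _ (Finset.prod_ne_zero_iff.mpr fun i (_ : i ∈ Finset.univ) => hn2 i)
    refine (Nat.mul_le_mul h1 h2).trans ?_
    rw [← pow_add]
    apply Nat.le_floor
    push_cast
    rw [← Real.rpow_natCast]
    apply Real.rpow_le_rpow_of_exponent_le (by linarith)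
    rw [cardFactors_prod _ hn1, cardFactors_prod _ hn2, ← Finset.sum_add_distrib]
    have h3 : ∀ i, Ω (t i).1 + Ω (t i).2 = Ω ((t i).1 * (t i).2) := fun i =>
      (ArithmeticFunction.cardFactors_mul (hn1 i) (hn2 i)).symm
    rw [Finset.sum_congr rfl fun i _ => h3 i]
    push_cast
    calc ∑ i, (Ω ((t i).1 * (t i).2) : ℝ) ≤ ∑ _i : Fin k, (1 + ℓ / Real.log z) := by
          refine Finset.sum_le_sum fun i _ => ?_
          have h4 := hfew _ (ht i)
          have h5 := hlogab _ (ht i)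
          unfold Few at h4
          have h6 : Real.log (((t i).1 * (t i).2 : ℕ) : ℝ) / Real.log z ≤ ℓ / Real.log z := by gcongr
          linarith
      _ = k + k * ℓ / Real.log z := by
          rw [Finset.sum_const, Finset.card_univ, Fintype.card_fin, nsmul_eq_mul]; ring
      _ ≤ E := by rw [hE]; gcongr
  have hbb := box_bound H g P A B (by linarith) (by linarith) k (by omega) w D hP hwP hDt
  -- simplify
  have hpw : (8 * A * B) ^ k / q ≤ 1 := by
    rw [div_le_one hq]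
    have h1 : (8 * A * B) ^ k = Real.exp (k * ℓ) := by
      rw [Real.exp_nat_mul, hℓdef, Real.exp_log (by linarith)]
    have h2 : (q : ℝ) = Real.exp L := by rw [hLdef, Real.exp_log hq]
    rw [h1, h2]
    exact Real.exp_le_exp.mpr hkl
  have hcH : (1 : ℝ) ≤ Nat.card H := by
    have : 0 < Nat.card H := Nat.card_pos
    exact_mod_cast this
  have hDle : (D : ℝ) ≤ (k : ℝ) ^ E := Nat.floor_le (by positivity)
  have hX : (D : ℝ) * (Nat.card H * (1 + (8 * A * B) ^ k / q)) ≤ (k : ℝ) ^ E * (2 * Nat.card H) := by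
    calc (D : ℝ) * (Nat.card H * (1 + (8 * A * B) ^ k / q))
        ≤ (k : ℝ) ^ E * (Nat.card H * (1 + 1)) := by gcongr
      _ = _ := by ring
  have hwle : ((2 : ℝ) ^ w) ≤ Real.exp (Real.log 2 * (1 + ℓ / Real.log z)) := by
    rw [← Real.rpow_natCast, Real.rpow_def_of_pos (by norm_num)]
    apply Real.exp_le_exp.mpr
    have := Nat.floor_le (show 0 ≤ 1 + ℓ / Real.log z by positivity)
    rw [← hw] at this
    have hl2 : 0 < Real.log 2 := Real.log_pos (by norm_num)
    gcongr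
  have hYle : ((k : ℝ) ^ E * (2 * Nat.card H)) ^ (1 / (k : ℝ))
      = Real.exp ((E * Real.log k + Real.log (2 * Nat.card H)) / k) := by
    rw [Real.rpow_def_of_pos (by positivity), Real.log_mul (by positivity) (by positivity),
      Real.log_rpow hk0]
    congr 1; ring
  have hfinal : (P.card : ℝ) ≤ Real.exp (Real.log 2 * (1 + ℓ / Real.log z)) *
      Real.exp ((E * Real.log k + Real.log (2 * Nat.card H)) / k) := by
    refine hbb.trans ?_
    rw [← hYle]
    apply mul_le_mul hwle _ (by positivity) (by positivity)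
    apply Real.rpow_le_rpow _ hX (by positivity)
    positivity
  rw [← Real.exp_add] at hfinal
  refine hfinal.trans ?_
  have hR : 2 * L * (8 * A * B) ^ (0.36 : ℝ) = Real.exp (Real.log 2 + Real.log L + 0.36 * ℓ) := by
    rw [Real.exp_add, Real.exp_add, Real.exp_log (by norm_num), Real.exp_log hLpos,
      Real.rpow_def_of_pos (by linarith), ← hℓdef]
    ring_nf
  rw [hR]
  apply Real.exp_le_exp.mpr
  -- numerics
  have hLk : L / k ≤ 1.01 * ℓ := by
    rw [div_le_iff₀ hk0]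
    nlinarith
  have t1 : Real.log (2 * Nat.card H) / k ≤ 0.335 * (1.01 * ℓ) := by
    calc Real.log (2 * Nat.card H) / k ≤ 0.335 * L / k := by gcongr
      _ = 0.335 * (L / k) := by ring
      _ ≤ _ := by gcongr
  have t2 : E * Real.log k / k ≤ Real.log L + (1.01 * ℓ) * (1 / 200) := by
    have e1 : E * Real.log k / k = Real.log k + (L / k) * (Real.log k / Real.log z) := by
      rw [hE]; field_simp
    rw [e1]
    have e2 : Real.log k / Real.log z ≤ 1 / 200 := by
      rw [div_le_div_iff₀ hlogz (by norm_num)]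
      linarith
    have e3 : 0 ≤ Real.log k / Real.log z := by positivity
    have e4 : (L / k) * (Real.log k / Real.log z) ≤ (1.01 * ℓ) * (1 / 200) := by
      apply mul_le_mul hLk e2 e3 (by positivity)
    linarith
  have t3 : Real.log 2 * (ℓ / Real.log z) ≤ 0.01 * ℓ := by
    have e1 : ℓ / Real.log z ≤ 0.01 * ℓ := by
      rw [div_le_iff₀ hlogz]
      nlinarith
    have e2 : Real.log 2 ≤ 1 := by
      have := Real.log_two_lt_d9; linarith
    have e3 : 0 ≤ ℓ / Real.log z := by positivity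
    nlinarith
  have e5 : (E * Real.log k + Real.log (2 * Nat.card H)) / k
      = E * Real.log k / k + Real.log (2 * Nat.card H) / k := by ring
  rw [e5]
  nlinarith

end Pool.Agent.H14.PT
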