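import Mathlib

/-!
# Counting small fractions in a coset of a subgroup of `(ZMod q)ˣ`
-/

namespace Pool.Agent.H14.PT

open Finset

/-- `a / b` lies in the coset `g H` modulo `q`. -/
def InC {q : ℕ} (H : Subgroup (ZMod q)ˣ) (g : ZMod q) (a b : ℕ) : Prop :=
  ∃ h ∈ H, (a : ZMod q) = g * (h : ZMod q) * b

lemma InC.mul {q : ℕ} {H : Subgroup (ZMod q)ˣ} {g g' : ZMod q} {a b a' b' : ℕ}
    (h1 : InC H g a b) (h2 : InC H g' a' b') : InC H (g * g') (a * a') (b * b') := by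
  obtain ⟨h, hh, e⟩ := h1
  obtain ⟨h', hh', e'⟩ := h2
  refine ⟨h * h', H.mul_mem hh hh', ?_⟩
  push_cast
  rw [e, e']
  ring

lemma InC.prod {q : ℕ} {H : Subgroup (ZMod q)ˣ} {g : ZMod q} {k : ℕ} {t : Fin k → ℕ × ℕ}
    (h : ∀ i, InC H g (t i).1 (t i).2) : InC H (g ^ k) (∏ i, (t i).1) (∏ i, (t i).2) := by
  choose f hf e using h
  refine ⟨∏ i, f i, H.prod_mem fun i _ => hf i, ?_⟩
  push_cast
  rw [Finset.prod_congr rfl fun i _ => e i, Finset.prod_mul_distrib, Finset.prod_mul_distrib]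
  simp

/-- slopes of coprime solutions of one congruence are well spaced -/
lemma slope_count {q : ℕ} [NeZero q] (c : ZMod q) (P : Finset (ℕ × ℕ)) (X Y c0 : ℝ) (hY : 0 < Y)
    (hc0 : 0 < c0) (hX : 0 ≤ X)
    (hP : ∀ p ∈ P, Nat.Coprime p.1 p.2 ∧ (p.1 : ℝ) ≤ X ∧ Y / c0 ≤ (p.2 : ℝ) ∧ (p.2 : ℝ) ≤ Y ∧
      (p.1 : ZMod q) = c * p.2) :
    (P.card : ℝ) ≤ 1 + c0 * X * Y / q := by
  have hq : (0 : ℝ) < q := by exact_mod_cast Nat.pos_of_ne_zero (NeZero.ne q)
  set f : ℕ × ℕ → ℕ := fun p => ⌊(p.1 : ℝ) / p.2 * (Y ^ 2 / q)⌋₊ with hf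
  have hpos : ∀ p ∈ P, (0 : ℝ) < p.2 := fun p hp =>
    lt_of_lt_of_le (by positivity) (hP p hp).2.2.1
  have hmaps : ∀ p ∈ P, f p ∈ range (⌊c0 * X * Y / q⌋₊ + 1) := by
    intro p hp
    rw [mem_range, Nat.lt_succ_iff]
    apply Nat.floor_le_floor
    obtain ⟨_, h1, h2, h3, _⟩ := hP p hp
    have hp2 := hpos p hp
    have h4 : (p.1 : ℝ) / p.2 ≤ X * c0 / Y := by
      rw [div_le_div_iff₀ hp2 hY]
      have : Y ≤ c0 * p.2 := by
        rw [div_le_iff₀ hc0] at h2
        linarith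
      calc (p.1 : ℝ) * Y ≤ X * (c0 * p.2) := by gcongr
        _ = X * c0 * p.2 := by ring
    calc (p.1 : ℝ) / p.2 * (Y ^ 2 / q) ≤ X * c0 / Y * (Y ^ 2 / q) := by gcongr
      _ = c0 * X * Y / q := by field_simp
  have hinj : Set.InjOn f (P : Set (ℕ × ℕ)) := by
    intro p hp p' hp' hff
    have hp := Finset.mem_coe.mp hp
    have hp' := Finset.mem_coe.mp hp'
    obtain ⟨hcop, h1, h2, h3, e⟩ := hP p hp
    obtain ⟨hcop', h1', h2', h3', e'⟩ := hP p' hp'
    have hp2 := hpos p hp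
    have hp2' := hpos p' hp'
    by_contra hne
    have hcross : p.1 * p'.2 ≠ p'.1 * p.2 := by
      intro h
      apply hne
      have d1 : p.1 ∣ p'.1 := hcop.dvd_of_dvd_mul_right (Dvd.intro _ h)
      have d2 : p'.1 ∣ p.1 := hcop'.dvd_of_dvd_mul_right (Dvd.intro _ h.symm)
      have e1 : p.1 = p'.1 := Nat.dvd_antisymm d1 d2
      have d3 : p.2 ∣ p'.2 := hcop.symm.dvd_of_dvd_mul_left (Dvd.intro_left _ h.symm)
      have d4 : p'.2 ∣ p.2 := hcop'.symm.dvd_of_dvd_mul_left (Dvd.intro_left _ h)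
      have e2 : p.2 = p'.2 := Nat.dvd_antisymm d3 d4
      exact Prod.ext e1 e2
    have hdiv : (q : ℤ) ∣ (p.1 : ℤ) * p'.2 - p'.1 * p.2 := by
      rw [← ZMod.intCast_zmod_eq_zero_iff_dvd]
      push_cast
      rw [e, e']
      ring
    have hne' : (p.1 : ℤ) * p'.2 - p'.1 * p.2 ≠ 0 := by
      intro h
      apply hcross
      exact_mod_cast (sub_eq_zero.mp h)
    have habs : (q : ℤ) ≤ |(p.1 : ℤ) * p'.2 - p'.1 * p.2| :=
      Int.le_of_dvd (abs_pos.mpr hne') ((dvd_abs _ _).mpr hdiv)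
    have habs' : (q : ℝ) ≤ |(p.1 : ℝ) * p'.2 - p'.1 * p.2| := by exact_mod_cast habs
    have hflo : |(p.1 : ℝ) / p.2 * (Y ^ 2 / q) - (p'.1 : ℝ) / p'.2 * (Y ^ 2 / q)| < 1 := by
      have a1 := Nat.floor_le (show 0 ≤ (p.1 : ℝ) / p.2 * (Y ^ 2 / q) by positivity)
      have a2 := Nat.lt_floor_add_one ((p.1 : ℝ) / p.2 * (Y ^ 2 / q))
      have a3 := Nat.floor_le (show 0 ≤ (p'.1 : ℝ) / p'.2 * (Y ^ 2 / q) by positivity)
      have a4 := Nat.lt_floor_add_one ((p'.1 : ℝ) / p'.2 * (Y ^ 2 / q))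
      simp only [hf] at hff
      rw [hff] at a1 a2
      rw [abs_lt]
      constructor <;> linarith
    have hcalc : (p.1 : ℝ) / p.2 * (Y ^ 2 / q) - (p'.1 : ℝ) / p'.2 * (Y ^ 2 / q)
        = ((p.1 : ℝ) * p'.2 - p'.1 * p.2) * (Y ^ 2 / (q * (p.2 * p'.2))) := by
      field_simp
    rw [hcalc, abs_mul, abs_of_nonneg (show 0 ≤ Y ^ 2 / (q * (p.2 * p'.2)) by positivity)] at hflo
    have h5 : 1 ≤ |(p.1 : ℝ) * p'.2 - p'.1 * p.2| * (Y ^ 2 / (q * (p.2 * p'.2))) := by
      have h6 : (p.2 : ℝ) * p'.2 ≤ Y ^ 2 := by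
        calc (p.2 : ℝ) * p'.2 ≤ Y * Y := by gcongr
          _ = Y ^ 2 := by ring
      calc (1 : ℝ) = q * ((p.2 * p'.2) / (q * (p.2 * p'.2))) := by field_simp
        _ ≤ |(p.1 : ℝ) * p'.2 - p'.1 * p.2| * (Y ^ 2 / (q * (p.2 * p'.2))) := by gcongr
    linarith
  have h := Finset.card_le_card_of_injOn f hmaps hinj
  rw [card_range] at h
  have h' : (P.card : ℝ) ≤ (⌊c0 * X * Y / q⌋₊ : ℝ) + 1 := by exact_mod_cast h
  have h'' := Nat.floor_le (show 0 ≤ c0 * X * Y / q by positivity)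
  linarith

/-- coset version -/
lemma coset_count {q : ℕ} [NeZero q] (H : Subgroup (ZMod q)ˣ) (g : ZMod q) (P : Finset (ℕ × ℕ))
    (X Y c0 : ℝ) (hY : 0 < Y) (hc0 : 0 < c0) (hX : 0 ≤ X)
    (hP : ∀ p ∈ P, Nat.Coprime p.1 p.2 ∧ (p.1 : ℝ) ≤ X ∧ Y / c0 ≤ (p.2 : ℝ) ∧ (p.2 : ℝ) ≤ Y ∧
      InC H g p.1 p.2) :
    (P.card : ℝ) ≤ Nat.card H * (1 + c0 * X * Y / q) := by
  classical
  have hch : ∀ p : ℕ × ℕ, ∃ h : (ZMod q)ˣ, p ∈ P → (h ∈ H ∧ (p.1 : ZMod q) = g * (h : ZMod q) * p.2) := by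
    intro p
    by_cases hp : p ∈ P
    · obtain ⟨_, _, _, _, h, hh, e⟩ := hP p hp
      exact ⟨h, fun _ => ⟨hh, e⟩⟩
    · exact ⟨1, fun h => absurd h hp⟩
  choose F hF using hch
  set Hs : Finset (ZMod q)ˣ := Finset.univ.filter (· ∈ H) with hHs
  have hcard : Hs.card = Nat.card H := by
    rw [hHs, Nat.card_eq_fintype_card, Fintype.card_subtype]
  have h1 : P.card = ∑ h ∈ Hs, (P.filter (fun p => F p = h)).card := by
    apply Finset.card_eq_sum_card_fiberwise
    intro p hp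
    simp only [hHs, coe_filter, mem_univ, true_and]
    exact (hF p hp).1
  rw [h1]
  push_cast
  calc ∑ h ∈ Hs, ((P.filter (fun p => F p = h)).card : ℝ) ≤ ∑ h ∈ Hs, (1 + c0 * X * Y / q) := by
        refine Finset.sum_le_sum fun h _ => ?_
        refine slope_count (g * (h : ZMod q)) _ X Y c0 hY hc0 hX fun p hp => ?_
        rw [mem_filter] at hp
        obtain ⟨a1, a2, a3, a4, _⟩ := hP p hp.1
        refine ⟨a1, a2, a3, a4, ?_⟩
        have := (hF p hp.1).2
        rwa [hp.2] at this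
    _ = _ := by
        rw [Finset.sum_const, hcard, nsmul_eq_mul]

/-- partition trick: pass to a subset where numerators are coprime to denominators -/
lemma partition_trick (P : Finset (ℕ × ℕ)) (w : ℕ)
    (hP : ∀ p ∈ P, Nat.Coprime p.1 p.2 ∧ p.1 ≠ 0 ∧ p.2 ≠ 0 ∧ (p.1 * p.2).primeFactors.card ≤ w) :
    ∃ P' ⊆ P, P.card ≤ 2 ^ w * P'.card ∧ ∀ p ∈ P', ∀ p' ∈ P', Nat.Coprime p.1 p'.2 := by
  classical
  set Q : Finset ℕ := P.biUnion (fun p => (p.1 * p.2).primeFactors) with hQ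
  set PU : Finset ℕ → Finset (ℕ × ℕ) := fun U =>
    P.filter (fun p => p.1.primeFactors ⊆ U ∧ Disjoint p.2.primeFactors U) with hPU
  have hcount : P.card * 2 ^ Q.card ≤ 2 ^ w * ∑ U ∈ Q.powerset, (PU U).card := by
    have h1 : ∑ U ∈ Q.powerset, (PU U).card
        = ∑ p ∈ P, (Q.powerset.filter (fun U => p.1.primeFactors ⊆ U ∧ Disjoint p.2.primeFactors U)).card := by
      simp only [hPU, Finset.card_filter]
      rw [Finset.sum_comm]
    rw [h1, Finset.mul_sum, Finset.card_eq_sum_ones, Finset.sum_mul]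
    refine Finset.sum_le_sum fun p hp => ?_
    obtain ⟨hcop, h10, h20, hw⟩ := hP p hp
    have hsub : (p.1 * p.2).primeFactors ⊆ Q := by
      rw [hQ]; exact Finset.subset_biUnion_of_mem (fun p : ℕ × ℕ => (p.1 * p.2).primeFactors) hp
    have hpf : (p.1 * p.2).primeFactors = p.1.primeFactors ∪ p.2.primeFactors :=
      Nat.primeFactors_mul h10 h20
    have hdisj : Disjoint p.1.primeFactors p.2.primeFactors := Nat.Coprime.disjoint_primeFactors hcop
    have h2 : (Q \ (p.1 * p.2).primeFactors).powerset.card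
        ≤ (Q.powerset.filter (fun U => p.1.primeFactors ⊆ U ∧ Disjoint p.2.primeFactors U)).card := by
      refine Finset.card_le_card_of_injOn (fun V => V ∪ p.1.primeFactors) ?_ ?_
      · intro V hV
        have hV' : V ⊆ Q \ (p.1 * p.2).primeFactors := Finset.mem_powerset.mp (Finset.mem_coe.mp hV)
        simp only [coe_filter, mem_powerset, Set.mem_setOf_eq]
        refine ⟨?_, Finset.subset_union_right, ?_⟩
        · apply Finset.union_subset
          · exact hV'.trans Finset.sdiff_subset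
          · exact (by rw [hpf] at hsub; exact Finset.subset_union_left.trans hsub)
        · rw [Finset.disjoint_union_right]
          refine ⟨?_, hdisj.symm⟩
          rw [Finset.disjoint_left]
          intro x hx hxV
          have := hV' hxV
          rw [Finset.mem_sdiff, hpf, Finset.mem_union] at this
          exact this.2 (Or.inr hx)
      · intro V hV V' hV' hVV
        have hV1 : V ⊆ Q \ (p.1 * p.2).primeFactors := Finset.mem_powerset.mp (Finset.mem_coe.mp hV)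
        have hV2 : V' ⊆ Q \ (p.1 * p.2).primeFactors := Finset.mem_powerset.mp (Finset.mem_coe.mp hV')
        have hd : ∀ W : Finset ℕ, W ⊆ Q \ (p.1 * p.2).primeFactors →
            (W ∪ p.1.primeFactors) \ p.1.primeFactors = W := by
          intro W hW
          rw [Finset.union_sdiff_right, Finset.sdiff_eq_self_iff_disjoint, Finset.disjoint_left]
          intro x hx hx2
          have := hW hx
          rw [Finset.mem_sdiff, hpf, Finset.mem_union] at this
          exact this.2 (Or.inl hx2)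
        rw [← hd V hV1, ← hd V' hV2]
        simp only at hVV
        rw [hVV]
    rw [Finset.card_powerset, Finset.card_sdiff_of_subset hsub] at h2
    calc 1 * 2 ^ Q.card = 2 ^ (p.1 * p.2).primeFactors.card * 2 ^ (Q.card - (p.1 * p.2).primeFactors.card) := by
          rw [one_mul, ← pow_add, Nat.add_sub_cancel' (Finset.card_le_card hsub)]
      _ ≤ 2 ^ w * _ := Nat.mul_le_mul (Nat.pow_le_pow_right (by norm_num) hw) h2
  obtain ⟨U, hU, hmax⟩ := Finset.exists_max_image Q.powerset (fun U => (PU U).card)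
    ⟨∅, Finset.mem_powerset.mpr (Finset.empty_subset _)⟩
  have h3 : ∑ U ∈ Q.powerset, (PU U).card ≤ 2 ^ Q.card * (PU U).card := by
    calc ∑ U ∈ Q.powerset, (PU U).card ≤ ∑ _V ∈ Q.powerset, (PU U).card := Finset.sum_le_sum hmax
      _ = 2 ^ Q.card * (PU U).card := by rw [Finset.sum_const, Finset.card_powerset, smul_eq_mul]
  refine ⟨PU U, Finset.filter_subset _ _, ?_, ?_⟩
  · have h4 : P.card * 2 ^ Q.card ≤ 2 ^ w * (PU U).card * 2 ^ Q.card := by
      calc P.card * 2 ^ Q.card ≤ _ := hcount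
        _ ≤ 2 ^ w * (2 ^ Q.card * (PU U).card) := Nat.mul_le_mul_left _ h3
        _ = _ := by ring
    exact Nat.le_of_mul_le_mul_right h4 (by positivity)
  · intro p hp p' hp'
    simp only [hPU, mem_filter] at hp hp'
    have h10 := (hP p hp.1).2.1
    have h20 := (hP p' hp'.1).2.2.1
    rw [← Nat.disjoint_primeFactors h10 h20]
    exact (Finset.disjoint_of_subset_right hp.2.1 hp'.2.2).symm

end Pool.Agent.H14.PT
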