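import Pool.Agent.H14.PT.Afe3
import Pool.Agent.H14.PT.Dyad
import Pool.Agent.H14.CharSums

/-!
# Orthogonality and the expansion of the twisted second moment over reduced fractions
-/

set_option linter.unusedSectionVars false

namespace Pool.Agent.H14.PT

open Finset
open scoped ComplexConjugate

variable {q : ℕ} [Fact q.Prime]

/-- the subgroup of `(ℤ/q)ˣ` annihilated by `X` -/
def ann (X : Subgroup (DirichletCharacter ℂ q)) : Subgroup (ZMod q)ˣ where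
  carrier := {u | ∀ χ ∈ X, χ (u : ZMod q) = 1}
  mul_mem' := by
    intro a b ha hb χ hχ
    rw [Units.val_mul, map_mul, ha χ hχ, hb χ hχ, one_mul]
  one_mem' := by
    intro χ _
    simp
  inv_mem' := by
    intro a ha χ hχ
    have h1 := ha χ hχ
    have h2 : χ ((a * a⁻¹ : (ZMod q)ˣ) : ZMod q) = 1 := by simp
    rw [Units.val_mul, map_mul, h1, one_mul] at h2
    exact h2

lemma mem_ann {X : Subgroup (DirichletCharacter ℂ q)} {u : (ZMod q)ˣ} :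
    u ∈ ann X ↔ (u : ZMod q) ∈ Hs X := by
  rw [mem_Hs]
  rfl

lemma card_ann (X : Subgroup (DirichletCharacter ℂ q)) : Nat.card (ann X) = (Hs X).card := by
  classical
  rw [← Nat.card_eq_finsetCard]
  refine Nat.card_congr ?_
  refine Equiv.ofBijective (fun u => ⟨((u : (ZMod q)ˣ) : ZMod q), mem_ann.mp u.2⟩) ⟨?_, ?_⟩
  · intro u v h
    have : ((u : (ZMod q)ˣ) : ZMod q) = ((v : (ZMod q)ˣ) : ZMod q) := by
      simpa using h
    exact Subtype.ext (Units.ext this)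
  · rintro ⟨a, ha⟩
    obtain ⟨u, hu⟩ := isUnit_of_mem_Hs ha
    refine ⟨⟨u, mem_ann.mpr (by rw [hu]; exact ha)⟩, ?_⟩
    simp [hu]

lemma conj_chi (χ : DirichletCharacter ℂ q) (y : ZMod q) : conj (χ y) = χ (y⁻¹) := by
  have h2 : (starRingEnd ℂ) (χ y) = χ⁻¹ y := MulChar.star_apply' χ y
  rw [h2, MulChar.inv_apply' χ y]

lemma ortho (X : Subgroup (DirichletCharacter ℂ q)) (χ0 : DirichletCharacter ℂ q) (x y : ℕ)
    [Decidable (InC (ann X) 1 x y)] :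
    ∑ χ ∈ Xs X, (χ0 * χ) (x : ZMod q) * conj ((χ0 * χ) (y : ZMod q)) =
      if InC (ann X) 1 x y then ((Xs X).card : ℂ) * (χ0 (x : ZMod q) * conj (χ0 (y : ZMod q))) else 0 := by
  by_cases hy : (y : ZMod q) = 0
  · rw [hy]
    simp [MulChar.map_zero]
  have hyu : (y : ZMod q) * (y : ZMod q)⁻¹ = 1 := mul_inv_cancel₀ hy
  have h1 : ∀ χ ∈ Xs X, (χ0 * χ) (x : ZMod q) * conj ((χ0 * χ) (y : ZMod q)) =
      (χ0 (x : ZMod q) * conj (χ0 (y : ZMod q))) * χ ((x : ZMod q) * (y : ZMod q)⁻¹) := by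
    intro χ _
    rw [MulChar.mul_apply, MulChar.mul_apply, map_mul, conj_chi χ, map_mul]
    ring
  rw [Finset.sum_congr rfl h1, ← Finset.mul_sum, sum_Xs]
  have h2 : InC (ann X) 1 x y ↔ (x : ZMod q) * (y : ZMod q)⁻¹ ∈ Hs X := by
    constructor
    · rintro ⟨h, hh, e⟩
      rw [e, one_mul, mul_assoc, hyu, mul_one]
      exact mem_ann.mp hh
    · intro h
      obtain ⟨u, hu⟩ := isUnit_of_mem_Hs h
      refine ⟨u, mem_ann.mpr (by rw [hu]; exact h), ?_⟩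
      rw [hu, one_mul, mul_assoc, mul_comm (y : ZMod q)⁻¹, hyu, mul_one]
  by_cases h3 : InC (ann X) 1 x y
  · rw [if_pos h3, if_pos (h2.mp h3)]
    ring
  · rw [if_neg h3, if_neg (fun h => h3 (h2.mpr h)), mul_zero]

/-- the mollifier -/
noncomputable def Mol (Mf : Finset ℕ) (w : ℕ → ℝ) (χ : DirichletCharacter ℂ q) : ℂ :=
  ∑ m ∈ Mf, ((w m * (m : ℝ) ^ (-(1 / 2) : ℝ) : ℝ) : ℂ) * χ (m : ZMod q)

/-- index set of quadruples `((m, m'), (n₁, n₂))` -/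
def quads (Mf : Finset ℕ) (N : ℕ) : Finset ((ℕ × ℕ) × (ℕ × ℕ)) := (Mf ×ˢ Mf) ×ˢ hyp N

/-- weight of a quadruple -/
noncomputable def qw (w : ℕ → ℝ) (i : (ℕ × ℕ) × (ℕ × ℕ)) : ℝ :=
  w i.1.1 * w i.1.2 * (((i.1.1 * i.1.2 * (i.2.1 * i.2.2) : ℕ) : ℝ)) ^ (-(1 / 2) : ℝ)

/-- contribution of the reduced fraction `a / b` -/
noncomputable def DN (Mf : Finset ℕ) (w : ℕ → ℝ) (N : ℕ) (a b : ℕ) : ℝ :=
  ∑ i ∈ (quads Mf N).filter (fun i => i.1.1 * i.2.1 * b = i.1.2 * i.2.2 * a), qw w i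

lemma mollified_term (Mf : Finset ℕ) (w : ℕ → ℝ) (χ : DirichletCharacter ℂ q) (N : ℕ) :
    ((‖Mol Mf w χ‖ ^ 2 : ℝ) : ℂ) * TT χ N =
      ∑ i ∈ quads Mf N, ((qw w i : ℝ) : ℂ) *
        (χ ((i.1.1 * i.2.1 : ℕ) : ZMod q) * conj (χ ((i.1.2 * i.2.2 : ℕ) : ZMod q))) := by
  have h1 : ((‖Mol Mf w χ‖ ^ 2 : ℝ) : ℂ) = Mol Mf w χ * conj (Mol Mf w χ) := by
    rw [Complex.mul_conj, Complex.normSq_eq_norm_sq]
  rw [h1]
  unfold quads
  rw [Finset.sum_product, Finset.sum_product]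
  unfold Mol TT
  rw [map_sum, Finset.sum_mul_sum, Finset.sum_mul]
  refine Finset.sum_congr rfl fun m _ => ?_
  rw [Finset.sum_mul]
  refine Finset.sum_congr rfl fun m' _ => ?_
  rw [Finset.mul_sum]
  refine Finset.sum_congr rfl fun n _ => ?_
  unfold qw
  simp only
  have h2 : (((m * m' * (n.1 * n.2) : ℕ) : ℝ)) ^ (-(1 / 2) : ℝ) =
      (m : ℝ) ^ (-(1 / 2) : ℝ) * (m' : ℝ) ^ (-(1 / 2) : ℝ) * (((n.1 * n.2 : ℕ) : ℝ)) ^ (-(1 / 2) : ℝ) := by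
    rw [Nat.cast_mul (m * m'), Nat.cast_mul m, Real.mul_rpow (by positivity) (by positivity),
      Real.mul_rpow (by positivity) (by positivity)]
  rw [h2]
  rw [map_mul, Complex.conj_ofReal]
  push_cast
  rw [map_mul, map_mul, map_mul]
  ring

/-- the twisted second moment over a coset, before grouping -/
lemma moment_quads (X : Subgroup (DirichletCharacter ℂ q)) (χ0 : DirichletCharacter ℂ q)
    (Mf : Finset ℕ) (w : ℕ → ℝ) (N : ℕ) [DecidablePred fun i : (ℕ × ℕ) × (ℕ × ℕ) =>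
      InC (ann X) 1 (i.1.1 * i.2.1) (i.1.2 * i.2.2)] :
    ∑ χ ∈ Xs X, ((‖Mol Mf w (χ0 * χ)‖ ^ 2 : ℝ) : ℂ) * TT (χ0 * χ) N =
      ((Xs X).card : ℂ) * ∑ i ∈ (quads Mf N).filter
        (fun i => InC (ann X) 1 (i.1.1 * i.2.1) (i.1.2 * i.2.2)),
        ((qw w i : ℝ) : ℂ) * (χ0 ((i.1.1 * i.2.1 : ℕ) : ZMod q) *
          conj (χ0 ((i.1.2 * i.2.2 : ℕ) : ZMod q))) := by
  simp_rw [mollified_term]
  rw [Finset.sum_comm, Finset.mul_sum, Finset.sum_filter]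
  refine Finset.sum_congr rfl fun i _ => ?_
  rw [← Finset.mul_sum, ortho]
  split_ifs
  · ring
  · ring

/-- the reduced fractions `a / b` in `H` with `ab ≤ B` -/
noncomputable def RP (H : Subgroup (ZMod q)ˣ) (B : ℕ) : Finset (ℕ × ℕ) :=
  open Classical in ((Icc 1 B) ×ˢ (Icc 1 B)).filter
    (fun p => Nat.Coprime p.1 p.2 ∧ p.1 * p.2 ≤ B ∧ InC H 1 p.1 p.2)

lemma mem_RP {H : Subgroup (ZMod q)ˣ} {B : ℕ} {p : ℕ × ℕ} :
    p ∈ RP H B ↔ CP H 1 p ∧ p.1 * p.2 ≤ B := by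
  classical
  unfold RP CP
  simp only [mem_filter, mem_product, mem_Icc]
  constructor
  · rintro ⟨⟨⟨h1, _⟩, h2, _⟩, h3, h4, h5⟩
    exact ⟨⟨h3, by omega, by omega, h5⟩, h4⟩
  · rintro ⟨⟨h1, h2, h3, h4⟩, h5⟩
    have h6 : p.1 ≤ p.1 * p.2 := Nat.le_mul_of_pos_right _ (Nat.pos_of_ne_zero h3)
    have h7 : p.2 ≤ p.1 * p.2 := Nat.le_mul_of_pos_left _ (Nat.pos_of_ne_zero h2)
    exact ⟨⟨⟨by omega, by omega⟩, by omega, by omega⟩, h1, h5, h4⟩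

lemma red_iff {x y a b : ℕ} (hx : x ≠ 0) (hab : Nat.Coprime a b) :
    (x / Nat.gcd x y = a ∧ y / Nat.gcd x y = b) ↔ x * b = y * a := by
  have hg : 0 < Nat.gcd x y := Nat.gcd_pos_of_pos_left _ (Nat.pos_of_ne_zero hx)
  have hcop := Nat.coprime_div_gcd_div_gcd hg
  have ex : x / Nat.gcd x y * Nat.gcd x y = x := Nat.div_mul_cancel (Nat.gcd_dvd_left x y)
  have ey : y / Nat.gcd x y * Nat.gcd x y = y := Nat.div_mul_cancel (Nat.gcd_dvd_right x y)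
  set g := Nat.gcd x y with hgdef
  set x' := x / g with hx'
  set y' := y / g with hy'
  constructor
  · rintro ⟨h1, h2⟩
    rw [← ex, ← ey, ← h1, ← h2]
    ring
  · intro h
    have h1 : x' * b = y' * a := by
      have : g * (x' * b) = g * (y' * a) := by
        calc g * (x' * b) = (x' * g) * b := by ring
          _ = x * b := by rw [ex]
          _ = y * a := h
          _ = (y' * g) * a := by rw [ey]
          _ = g * (y' * a) := by ring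
      exact Nat.eq_of_mul_eq_mul_left hg this
    have h2 : x' ∣ a := by
      have : x' ∣ y' * a := ⟨b, h1.symm⟩
      exact hcop.dvd_of_dvd_mul_left this
    have h3 : a ∣ x' := by
      have : a ∣ x' * b := ⟨y', by rw [h1]; ring⟩
      exact hab.dvd_of_dvd_mul_right this
    have h4 : x' = a := Nat.dvd_antisymm h2 h3
    refine ⟨h4, ?_⟩
    have hx'0 : 0 < x' := by
      rcases Nat.eq_zero_or_pos x' with h0 | h0
      · rw [h0, zero_mul] at ex; exact absurd ex.symm hx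
      · exact h0
    rw [h4] at h1 hx'0
    have h5 : a * b = a * y' := by rw [h1]; ring
    exact (Nat.eq_of_mul_eq_mul_left hx'0 h5).symm

/-- **the twisted second moment is bounded by the sum over reduced fractions** -/
theorem moment_le (X : Subgroup (DirichletCharacter ℂ q)) (χ0 : DirichletCharacter ℂ q)
    (Mf : Finset ℕ) (w : ℕ → ℝ) (N Y : ℕ) (hM : ∀ m ∈ Mf, 1 ≤ m ∧ m ≤ Y) (hY : Y < q)
    (hN : N < q ^ 2) :
    ‖∑ χ ∈ Xs X, ((‖Mol Mf w (χ0 * χ)‖ ^ 2 : ℝ) : ℂ) * TT (χ0 * χ) N‖ ≤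
      ((Xs X).card : ℝ) * ∑ p ∈ RP (ann X) (Y ^ 2 * N), |DN Mf w N p.1 p.2| := by
  classical
  rw [moment_quads]
  set I := (quads Mf N).filter (fun i => InC (ann X) 1 (i.1.1 * i.2.1) (i.1.2 * i.2.2)) with hI
  set r : (ℕ × ℕ) × (ℕ × ℕ) → ℕ × ℕ := fun i =>
    ((i.1.1 * i.2.1) / Nat.gcd (i.1.1 * i.2.1) (i.1.2 * i.2.2),
     (i.1.2 * i.2.2) / Nat.gcd (i.1.1 * i.2.1) (i.1.2 * i.2.2)) with hr
  have hqp : q.Prime := Fact.out
  have hquad : ∀ i ∈ quads Mf N, (1 ≤ i.1.1 ∧ i.1.1 ≤ Y) ∧ (1 ≤ i.1.2 ∧ i.1.2 ≤ Y) ∧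
      1 ≤ i.2.1 ∧ 1 ≤ i.2.2 ∧ i.2.1 * i.2.2 ≤ N := by
    intro i hi
    unfold quads at hi
    simp only [mem_product, mem_hyp] at hi
    exact ⟨hM _ hi.1.1, hM _ hi.1.2, hi.2.1, hi.2.2.1, hi.2.2.2⟩
  -- the gcd is a unit
  have hunit : ∀ i ∈ quads Mf N, ((Nat.gcd (i.1.1 * i.2.1) (i.1.2 * i.2.2) : ℕ) : ZMod q) ≠ 0 := by
    intro i hi h0
    obtain ⟨⟨a1, a2⟩, ⟨a3, a4⟩, a5, a6, a7⟩ := hquad i hi
    rw [ZMod.natCast_eq_zero_iff] at h0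
    have h1 : q ∣ i.1.1 * i.2.1 := h0.trans (Nat.gcd_dvd_left _ _)
    have h2 : q ∣ i.1.2 * i.2.2 := h0.trans (Nat.gcd_dvd_right _ _)
    have h3 : q ∣ i.2.1 := by
      rcases (Nat.Prime.dvd_mul hqp).mp h1 with h | h
      · exact absurd (Nat.le_of_dvd (by omega) h) (by omega)
      · exact h
    have h4 : q ∣ i.2.2 := by
      rcases (Nat.Prime.dvd_mul hqp).mp h2 with h | h
      · exact absurd (Nat.le_of_dvd (by omega) h) (by omega)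
      · exact h
    have h5 : q ≤ i.2.1 := Nat.le_of_dvd (by omega) h3
    have h6 : q ≤ i.2.2 := Nat.le_of_dvd (by omega) h4
    have h7 : q ^ 2 ≤ N := by
      calc q ^ 2 = q * q := sq q
        _ ≤ i.2.1 * i.2.2 := Nat.mul_le_mul h5 h6
        _ ≤ N := a7
    omega
  have hpos : ∀ i ∈ quads Mf N, i.1.1 * i.2.1 ≠ 0 ∧ i.1.2 * i.2.2 ≠ 0 := by
    intro i hi
    obtain ⟨⟨a1, a2⟩, ⟨a3, a4⟩, a5, a6, a7⟩ := hquad i hi
    exact ⟨Nat.mul_ne_zero (by omega) (by omega), Nat.mul_ne_zero (by omega) (by omega)⟩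
  have hmaps : ∀ i ∈ I, r i ∈ RP (ann X) (Y ^ 2 * N) := by
    intro i hi
    obtain ⟨hiq, hiC⟩ := Finset.mem_filter.mp hi
    obtain ⟨hx, hy⟩ := hpos i hiq
    obtain ⟨⟨a1, a2⟩, ⟨a3, a4⟩, a5, a6, a7⟩ := hquad i hiq
    have hu := hunit i hiq
    have hg : 0 < Nat.gcd (i.1.1 * i.2.1) (i.1.2 * i.2.2) :=
      Nat.gcd_pos_of_pos_left _ (Nat.pos_of_ne_zero hx)
    have ex := Nat.div_mul_cancel (Nat.gcd_dvd_left (i.1.1 * i.2.1) (i.1.2 * i.2.2))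
    have ey := Nat.div_mul_cancel (Nat.gcd_dvd_right (i.1.1 * i.2.1) (i.1.2 * i.2.2))
    rw [mem_RP]
    simp only [hr]
    refine ⟨⟨Nat.coprime_div_gcd_div_gcd hg, ?_, ?_, ?_⟩, ?_⟩
    · exact (Nat.div_pos (Nat.le_of_dvd (Nat.pos_of_ne_zero hx) (Nat.gcd_dvd_left _ _)) hg).ne'
    · exact (Nat.div_pos (Nat.le_of_dvd (Nat.pos_of_ne_zero hy) (Nat.gcd_dvd_right _ _)) hg).ne'
    · obtain ⟨h, hh, e⟩ := hiC
      refine ⟨h, hh, ?_⟩
      have e2 : (((i.1.1 * i.2.1) / Nat.gcd (i.1.1 * i.2.1) (i.1.2 * i.2.2) : ℕ) : ZMod q) *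
          ((Nat.gcd (i.1.1 * i.2.1) (i.1.2 * i.2.2) : ℕ) : ZMod q) =
          (1 * (h : ZMod q) * (((i.1.2 * i.2.2) / Nat.gcd (i.1.1 * i.2.1) (i.1.2 * i.2.2) : ℕ) : ZMod q)) *
          ((Nat.gcd (i.1.1 * i.2.1) (i.1.2 * i.2.2) : ℕ) : ZMod q) := by
        rw [mul_assoc (1 * (h : ZMod q)), ← Nat.cast_mul, ← Nat.cast_mul, ex, ey]
        exact e
      exact mul_right_cancel₀ hu e2
    · calc (i.1.1 * i.2.1) / Nat.gcd (i.1.1 * i.2.1) (i.1.2 * i.2.2) *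
            ((i.1.2 * i.2.2) / Nat.gcd (i.1.1 * i.2.1) (i.1.2 * i.2.2))
          ≤ (i.1.1 * i.2.1) * (i.1.2 * i.2.2) := Nat.mul_le_mul (Nat.div_le_self _ _) (Nat.div_le_self _ _)
        _ = (i.1.1 * i.1.2) * (i.2.1 * i.2.2) := by ring
        _ ≤ (Y * Y) * N := Nat.mul_le_mul (Nat.mul_le_mul a2 a4) a7
        _ = Y ^ 2 * N := by ring
  rw [norm_mul, Complex.norm_natCast]
  refine mul_le_mul_of_nonneg_left ?_ (by positivity)
  rw [← Finset.sum_fiberwise_of_maps_to hmaps]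
  refine (norm_sum_le _ _).trans (Finset.sum_le_sum fun p hp => ?_)
  obtain ⟨⟨hcop, hp1, hp2, hpC⟩, _⟩ := mem_RP.mp hp
  have hfib : I.filter (fun i => r i = p) =
      (quads Mf N).filter (fun i => i.1.1 * i.2.1 * p.2 = i.1.2 * i.2.2 * p.1) := by
    ext i
    simp only [hI, hr, mem_filter, Prod.ext_iff]
    constructor
    · rintro ⟨⟨h1, _⟩, h3⟩
      exact ⟨h1, (red_iff (hpos i h1).1 hcop).mp h3⟩
    · rintro ⟨h1, h2⟩
      have h3 := (red_iff (hpos i h1).1 hcop).mpr h2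
      refine ⟨⟨h1, ?_⟩, h3⟩
      obtain ⟨h, hh, e⟩ := hpC
      refine ⟨h, hh, ?_⟩
      have ex := Nat.div_mul_cancel (Nat.gcd_dvd_left (i.1.1 * i.2.1) (i.1.2 * i.2.2))
      have ey := Nat.div_mul_cancel (Nat.gcd_dvd_right (i.1.1 * i.2.1) (i.1.2 * i.2.2))
      rw [h3.1] at ex
      rw [h3.2] at ey
      set g := Nat.gcd (i.1.1 * i.2.1) (i.1.2 * i.2.2) with hgdef
      calc ((i.1.1 * i.2.1 : ℕ) : ZMod q) = ((p.1 * g : ℕ) : ZMod q) := by rw [ex]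
        _ = 1 * (h : ZMod q) * ((p.2 * g : ℕ) : ZMod q) := by
            rw [Nat.cast_mul, Nat.cast_mul, e]; ring
        _ = _ := by rw [ey]
  rw [hfib]
  have hval : ∑ i ∈ (quads Mf N).filter (fun i => i.1.1 * i.2.1 * p.2 = i.1.2 * i.2.2 * p.1),
      ((qw w i : ℝ) : ℂ) * (χ0 ((i.1.1 * i.2.1 : ℕ) : ZMod q) *
          conj (χ0 ((i.1.2 * i.2.2 : ℕ) : ZMod q))) =
      (χ0 (p.1 : ZMod q) * conj (χ0 (p.2 : ZMod q))) * ((DN Mf w N p.1 p.2 : ℝ) : ℂ) := by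
    unfold DN
    rw [Complex.ofReal_sum, Finset.mul_sum]
    refine Finset.sum_congr rfl fun i hi => ?_
    obtain ⟨h1, h2⟩ := Finset.mem_filter.mp hi
    have h3 := (red_iff (hpos i h1).1 hcop).mpr h2
    have ex := Nat.div_mul_cancel (Nat.gcd_dvd_left (i.1.1 * i.2.1) (i.1.2 * i.2.2))
    have ey := Nat.div_mul_cancel (Nat.gcd_dvd_right (i.1.1 * i.2.1) (i.1.2 * i.2.2))
    rw [h3.1] at ex
    rw [h3.2] at ey
    have hu := hunit i h1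
    have h4 : χ0 ((Nat.gcd (i.1.1 * i.2.1) (i.1.2 * i.2.2) : ℕ) : ZMod q) *
        conj (χ0 ((Nat.gcd (i.1.1 * i.2.1) (i.1.2 * i.2.2) : ℕ) : ZMod q)) = 1 := by
      rw [conj_chi, ← map_mul, mul_inv_cancel₀ hu, map_one]
    calc ((qw w i : ℝ) : ℂ) * (χ0 ((i.1.1 * i.2.1 : ℕ) : ZMod q) *
          conj (χ0 ((i.1.2 * i.2.2 : ℕ) : ZMod q)))
        = ((qw w i : ℝ) : ℂ) * (χ0 ((p.1 * Nat.gcd (i.1.1 * i.2.1) (i.1.2 * i.2.2) : ℕ) : ZMod q) *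
          conj (χ0 ((p.2 * Nat.gcd (i.1.1 * i.2.1) (i.1.2 * i.2.2) : ℕ) : ZMod q))) := by
            rw [ex, ey]
      _ = (χ0 (p.1 : ZMod q) * conj (χ0 (p.2 : ZMod q))) * ((qw w i : ℝ) : ℂ) *
          (χ0 ((Nat.gcd (i.1.1 * i.2.1) (i.1.2 * i.2.2) : ℕ) : ZMod q) *
          conj (χ0 ((Nat.gcd (i.1.1 * i.2.1) (i.1.2 * i.2.2) : ℕ) : ZMod q))) := by
            rw [Nat.cast_mul p.1, Nat.cast_mul p.2, map_mul χ0, map_mul χ0, map_mul]
            ring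
      _ = _ := by rw [h4, mul_one]
  rw [hval, norm_mul, Complex.norm_real, Real.norm_eq_abs, norm_mul, RCLike.norm_conj]
  have h5 : ‖χ0 (p.1 : ZMod q)‖ * ‖χ0 (p.2 : ZMod q)‖ ≤ 1 := by
    calc _ ≤ (1 : ℝ) * 1 := by
          gcongr
          · exact norm_chi_le _ _
          · exact norm_chi_le _ _
      _ = 1 := by norm_num
  exact mul_le_of_le_one_left (abs_nonneg _) h5

end Pool.Agent.H14.PT
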