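import Pool.Agent.H14.PT.Theta

/-!
# The Mellin transform of the theta series at the central point
-/

namespace Pool.Agent.H14.PT

open Complex HurwitzZeta ZMod Finset MeasureTheory Set
open scoped Real

variable {q : ℕ} [Fact q.Prime]

lemma HasMellin.sum' {ι : Type*} (s : Finset ι) (f : ι → ℝ → ℂ) (c : ι → ℂ) (m : ι → ℂ) (z : ℂ)
    (h : ∀ i ∈ s, HasMellin (f i) z (m i)) :
    HasMellin (fun t => ∑ i ∈ s, c i * f i t) z (∑ i ∈ s, c i * m i) := by
  constructor
  · unfold MellinConvergent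
    have : (fun t : ℝ => (t : ℂ) ^ (z - 1) • ∑ i ∈ s, c i * f i t)
        = fun t : ℝ => ∑ i ∈ s, c i * ((t : ℂ) ^ (z - 1) • f i t) := by
      funext t
      rw [Finset.smul_sum]
      refine Finset.sum_congr rfl fun i _ => ?_
      simp only [smul_eq_mul]; ring
    rw [this]
    exact integrable_finsetSum _ fun i hi => ((h i hi).1).const_mul (c i)
  · unfold mellin
    have : (fun t : ℝ => (t : ℂ) ^ (z - 1) • ∑ i ∈ s, c i * f i t)
        = fun t : ℝ => ∑ i ∈ s, c i * ((t : ℂ) ^ (z - 1) • f i t) := by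
      funext t
      rw [Finset.smul_sum]
      refine Finset.sum_congr rfl fun i _ => ?_
      simp only [smul_eq_mul]; ring
    rw [this, integral_finsetSum _ fun i hi => ((h i hi).1).const_mul (c i)]
    refine Finset.sum_congr rfl fun i hi => ?_
    rw [integral_const_mul, ← (h i hi).2]
    rfl

lemma hasMellin_congr {f g : ℝ → ℂ} {z m : ℂ} (h : HasMellin f z m)
    (hfg : ∀ᵐ t : ℝ ∂(volume.restrict (Ioi 0)), f t = g t) : HasMellin g z m := by
  constructor
  · have h1 : Integrable (fun t : ℝ => (t : ℂ) ^ (z - 1) • f t) (volume.restrict (Ioi 0)) := h.1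
    have h2 : Integrable (fun t : ℝ => (t : ℂ) ^ (z - 1) • g t) (volume.restrict (Ioi 0)) := by
      refine h1.congr ?_
      filter_upwards [hfg] with t ht
      rw [ht]
    exact h2
  · rw [← h.2]
    unfold mellin
    refine integral_congr_ae ?_
    filter_upwards [hfg] with t ht
    rw [ht]

lemma hasMellin_scale {f : ℝ → ℂ} {z m : ℂ} (h : HasMellin f z m) {a : ℝ} (ha : 0 < a) :
    HasMellin (fun t => f (a * t)) z ((a : ℂ) ^ (-z) * m) := by
  constructor
  · exact (MellinConvergent.comp_mul_left ha).mpr h.1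
  · rw [mellin_comp_mul_left f z ha, h.2, smul_eq_mul]

lemma hasMellin_even {χ : DirichletCharacter ℂ q} (hχ : χ ≠ 1) (he : χ.Even) :
    HasMellin (th 0 χ) (1 / 4) ((q : ℂ) ^ (-(1 / 4) : ℂ) * ((q : ℂ) ^ (1 / 2 : ℂ)) *
      completedLFunction χ (1 / 2)) := by
  have hq0 : (0 : ℝ) < q := by exact_mod_cast (Fact.out : q.Prime).pos
  have hqc : (q : ℂ) ≠ 0 := by exact_mod_cast hq0.ne'
  have hq1 : 1 < q := (Fact.out : q.Prime).one_lt
  have : Fact (1 < q) := ⟨hq1⟩
  set P : ZMod q → WeakFEPair ℂ := fun j => hurwitzEvenFEPair (toAddCircle j) with hP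
  have h1 : ∀ j ∈ (Finset.univ : Finset (ZMod q)),
      HasMellin (P j).f_modif (1 / 4) ((P j).Λ₀ (1 / 4)) := by
    intro j _
    have := (P j).isStrongFEPair_toStrongFEPair.hasMellin (1 / 4)
    refine ⟨this.1, ?_⟩
    rfl
  have h2 := HasMellin.sum' Finset.univ (fun j => (P j).f_modif) (fun j => χ j) _ _ h1
  have h3 : ∑ j : ZMod q, χ j * (P j).Λ₀ (1 / 4) = ∑ j : ZMod q, χ j * (P j).Λ (1 / 4) := by
    have h31 : ∀ j : ZMod q, χ j * (P j).Λ₀ (1 / 4) = χ j * (P j).Λ (1 / 4)
        + 4 * (χ j * (if j = 0 then 1 else 0)) + 4 * χ j := by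
      intro j
      rw [(P j).Λ₀_eq]
      have e1 : (P j).f₀ = if j = 0 then 1 else 0 := by
        simp only [hP, hurwitzEvenFEPair, toAddCircle_eq_zero]
      have e2 : (P j).g₀ = 1 := rfl
      have e3 : (P j).ε = 1 := rfl
      have e4 : (P j).k = 1 / 2 := rfl
      rw [e1, e2, e3, e4]
      simp only [smul_eq_mul]
      push_cast
      ring
    simp_rw [h31]
    rw [Finset.sum_add_distrib, Finset.sum_add_distrib, ← Finset.mul_sum, ← Finset.mul_sum,
      sum_chi_zero hχ]
    simp [MulChar.map_nonunit]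
  have h4 : ∀ᵐ t : ℝ ∂(volume.restrict (Ioi 0)), (∑ j : ZMod q, χ j * (P j).f_modif t)
      = ∑ j : ZMod q, χ j * (evenKernel (toAddCircle j) t : ℂ) := by
    rw [ae_restrict_iff' measurableSet_Ioi]
    filter_upwards [compl_mem_ae_iff.mpr (Subsingleton.measure_zero (s := {(1 : ℝ)}) (by simp) volume)]
      with t ht1 ht0
    have ht1' : t ≠ 1 := ht1
    have ht0' : 0 < t := ht0
    rcases lt_or_gt_of_ne ht1' with hlt | hgt
    · have h41 : ∀ j : ZMod q, χ j * (P j).f_modif t = χ j * (evenKernel (toAddCircle j) t : ℂ)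
          - ((t ^ (-(1 / 2) : ℝ) : ℝ) : ℂ) * χ j := by
        intro j
        simp only [WeakFEPair.f_modif, Pi.add_apply]
        rw [indicator_of_notMem (by simp; linarith), indicator_of_mem (by simp [hlt, ht0'])]
        simp only [hP, hurwitzEvenFEPair, smul_eq_mul, Function.comp_apply, one_div]
        ring
      simp_rw [h41]
      rw [Finset.sum_sub_distrib, ← Finset.mul_sum, sum_chi_zero hχ, mul_zero, sub_zero]
    · have h41 : ∀ j : ZMod q, χ j * (P j).f_modif t = χ j * (evenKernel (toAddCircle j) t : ℂ)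
          - χ j * (if j = 0 then 1 else 0) := by
        intro j
        simp only [WeakFEPair.f_modif, Pi.add_apply]
        rw [indicator_of_mem (by simpa using hgt), indicator_of_notMem (by simp; intro _; linarith)]
        simp only [hP, hurwitzEvenFEPair, Function.comp_apply]
        have : ((if (toAddCircle j : UnitAddCircle) = 0 then 1 else 0 : ℂ))
            = if j = 0 then 1 else 0 := by
          simp only [toAddCircle_eq_zero]
        rw [this]
        ring
      simp_rw [h41]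
      rw [Finset.sum_sub_distrib]
      simp [MulChar.map_nonunit]
  have h5 := hasMellin_congr h2 h4
  rw [h3] at h5
  have h6 := hasMellin_scale h5 hq0
  have h7 : HasMellin (fun t => (1 / 2 : ℂ) * ∑ j : ZMod q, χ j * (evenKernel (toAddCircle j) (q * t) : ℂ))
      (1 / 4) ((1 / 2) * (((q : ℝ) : ℂ) ^ (-(1 / 4) : ℂ) * ∑ j : ZMod q, χ j * (P j).Λ (1 / 4))) := by
    have := HasMellin.sum' {()} (fun _ => fun t : ℝ => ∑ j : ZMod q, χ j * (evenKernel (toAddCircle j) (q * t) : ℂ))
      (fun _ => (1 / 2 : ℂ)) _ _ (fun _ _ => h6)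
    simpa using this
  have h8 := hasMellin_congr (g := th 0 χ) h7 (by
    rw [ae_restrict_iff' measurableSet_Ioi]
    refine Filter.Eventually.of_forall fun t ht => ?_
    rw [even_kernel_series he ht]
    ring)
  have h9 : completedLFunction χ (1 / 2) = (q : ℂ) ^ (-(1 / 2) : ℂ) *
      ((1 / 2) * ∑ j : ZMod q, χ j * (P j).Λ (1 / 4)) := by
    have he' : Function.Even (χ : ZMod q → ℂ) := fun j => DirichletCharacter.Even.eval_neg χ j he
    rw [ZMod.completedLFunction_def_even he']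
    congr 1
    rw [Finset.mul_sum]
    refine Finset.sum_congr rfl fun j _ => ?_
    simp only [completedHurwitzZetaEven, hP]
    rw [show (1 / 2 / 2 : ℂ) = 1 / 4 by norm_num]
    ring
  rw [h9]
  have h10 : (q : ℂ) ^ (1 / 2 : ℂ) * (q : ℂ) ^ (-(1 / 2) : ℂ) = 1 := by
    rw [← Complex.cpow_add _ _ hqc]
    simp
  convert h8 using 1
  push_cast
  linear_combination ((q : ℂ) ^ (-(1 / 4) : ℂ) * ((1 / 2) * ∑ j : ZMod q, χ j * (P j).Λ (1 / 4))) * h10

lemma hasMellin_odd {χ : DirichletCharacter ℂ q} (ho : χ.Odd) :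
    HasMellin (th 1 χ) (3 / 4) ((q : ℂ) ^ (-(3 / 4) : ℂ) * (q * (q : ℂ) ^ (1 / 2 : ℂ)) *
      completedLFunction χ (1 / 2)) := by
  have hq0 : (0 : ℝ) < q := by exact_mod_cast (Fact.out : q.Prime).pos
  have hqc : (q : ℂ) ≠ 0 := by exact_mod_cast hq0.ne'
  have hq1 : 1 < q := (Fact.out : q.Prime).one_lt
  have : Fact (1 < q) := ⟨hq1⟩
  set P : ZMod q → WeakFEPair ℂ := fun j => hurwitzOddFEPair (toAddCircle j) with hP
  have h1 : ∀ j ∈ (Finset.univ : Finset (ZMod q)),
      HasMellin (P j).f (3 / 4) ((P j).Λ (3 / 4)) := by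
    intro j _
    exact (isStrong_hurwitzOddFEPair (toAddCircle j)).hasMellin (3 / 4)
  have h5 := HasMellin.sum' Finset.univ (fun j => (P j).f) (fun j => χ j) _ _ h1
  have h6 := hasMellin_scale h5 hq0
  have h7 : HasMellin (fun t => (q / 2 : ℂ) * ∑ j : ZMod q, χ j * (oddKernel (toAddCircle j) (q * t) : ℂ))
      (3 / 4) ((q / 2) * (((q : ℝ) : ℂ) ^ (-(3 / 4) : ℂ) * ∑ j : ZMod q, χ j * (P j).Λ (3 / 4))) := by
    have := HasMellin.sum' {()} (fun _ => fun t : ℝ => ∑ j : ZMod q, χ j * (oddKernel (toAddCircle j) (q * t) : ℂ))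
      (fun _ => (q / 2 : ℂ)) _ _ (fun _ _ => h6)
    simpa using this
  have h8 := hasMellin_congr (g := th 1 χ) h7 (by
    rw [ae_restrict_iff' measurableSet_Ioi]
    refine Filter.Eventually.of_forall fun t ht => ?_
    rw [odd_kernel_series ho ht]
    field_simp)
  have h9 : completedLFunction χ (1 / 2) = (q : ℂ) ^ (-(1 / 2) : ℂ) *
      ((1 / 2) * ∑ j : ZMod q, χ j * (P j).Λ (3 / 4)) := by
    have he' : Function.Odd (χ : ZMod q → ℂ) := fun j => DirichletCharacter.Odd.eval_neg χ j ho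
    rw [ZMod.completedLFunction_def_odd he']
    congr 1
    rw [Finset.mul_sum]
    refine Finset.sum_congr rfl fun j _ => ?_
    simp only [completedHurwitzZetaOdd, hP]
    rw [show ((1 / 2 + 1) / 2 : ℂ) = 3 / 4 by norm_num]
    ring
  rw [h9]
  have h10 : (q : ℂ) ^ (1 / 2 : ℂ) * (q : ℂ) ^ (-(1 / 2) : ℂ) = 1 := by
    rw [← Complex.cpow_add _ _ hqc]
    simp
  convert h8 using 1
  push_cast
  linear_combination ((q : ℂ) ^ (-(3 / 4) : ℂ) * q * ((1 / 2) * ∑ j : ZMod q, χ j * (P j).Λ (3 / 4))) * h10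

end Pool.Agent.H14.PT
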