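import Pool.Agent.H14.PT.Param
import Pool.Agent.H14.PT.Moll3

/-!
# Middle range: error term and size of the main terms
-/

namespace Pool.Agent.H14.PT

open Finset Pool.Agent.H16

lemma Big.logY_lo {L : ℝ} (h : Big L) : L / 2000 ≤ Real.log (YY L) := by
  have h1 := Real.log_le_log (by positivity) h.Y_lo
  rw [Real.log_div (by positivity) (by norm_num), Real.log_exp] at h1
  have h2 := Real.log_two_lt_d9
  have h3 := h.hL24
  linarith

lemma Big.Y_pos {L : ℝ} (h : Big L) : (0 : ℝ) < YY L := lt_of_lt_of_le (by positivity) h.Y_lo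

lemma Big.logY_hi {L : ℝ} (h : Big L) : Real.log (YY L) ≤ L / 1000 := by
  have h1 := Real.log_le_log h.Y_pos h.Y_hi
  rwa [Real.log_exp] at h1

lemma Big.z_two {L : ℝ} (h : Big L) : 2 ≤ zz L := by
  have h1 := h.logz_100
  by_contra h2
  have : zz L = 0 ∨ zz L = 1 := by omega
  rcases this with h3 | h3 <;> rw [h3] at h1 <;> norm_num at h1

lemma abs_cc_le {L : ℝ} (h : Big L) {N a b : ℕ} (ha : a ≠ 0) (hb : b ≠ 0) (hN1 : 1 ≤ N)
    (hN2 : (N : ℝ) ≤ Real.exp (1.001 * L)) (hab : ((a * b : ℕ) : ℝ) ≤ Real.exp (1 / 10 ^ 8 * L)) :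
    |cc N a b| ≤ L := by
  have hNr : (1 : ℝ) ≤ N := by exact_mod_cast hN1
  have h1 : 0 ≤ Real.log N := Real.log_nonneg hNr
  have h2 : Real.log N ≤ 1.001 * L := by
    have := Real.log_le_log (by linarith) hN2
    rwa [Real.log_exp] at this
  have hn : (1 : ℝ) ≤ ((a * b : ℕ) : ℝ) := by
    exact_mod_cast Nat.one_le_iff_ne_zero.mpr (Nat.mul_ne_zero ha hb)
  have h3 : 0 ≤ Real.log ((a : ℝ) * b) := by
    push_cast at hn
    exact Real.log_nonneg hn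
  have h4 : Real.log ((a : ℝ) * b) ≤ 1 / 10 ^ 8 * L := by
    have := Real.log_le_log (by linarith) hab
    rw [Real.log_exp] at this
    push_cast at this
    exact this
  have h5 := Real.eulerMascheroniConstant_lt_two_thirds
  have h6 := Real.one_half_lt_eulerMascheroniConstant
  have h7 := h.hL
  unfold cc
  rw [abs_le]
  constructor <;> linarith

/-- **error term in the middle range** -/
theorem err_bound : ∃ Q0 : ℝ, ∀ L : ℝ, Q0 ≤ L → Big L → ∀ N a b : ℕ, a ≠ 0 → b ≠ 0 →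
    Nat.Coprime a b → Real.exp (0.999 * L) ≤ N → (N : ℝ) ≤ Real.exp (1.001 * L) →
    ((a * b : ℕ) : ℝ) ≤ Real.exp (1 / 10 ^ 8 * L) →
    |DN (MfS (zz L) (YY L) (YY L)) (wS (zz L) (YY L) (YY L)) N a b -
      ((a * b : ℕ) : ℝ) ^ (-(1 / 2) : ℝ) * Full (zz L) (YY L) N a b| ≤ Real.exp (-(5 / 10 ^ 7) * L) := by
  obtain ⟨C, hC, hdiv⟩ := divisor_bound (1 / 32) (by norm_num)
  obtain ⟨Q1, _, hQ1⟩ := poly_le_exp 203 (36 * C ^ 4) (1 / 10 ^ 7) (by norm_num)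
  obtain ⟨Q2, _, hQ2⟩ := poly_le_exp 0 4 (1 / 10 ^ 7) (by norm_num)
  refine ⟨max Q1 Q2, ?_⟩
  intro L hL hB N a b ha hb hab hN1 hN2 hn
  have hLQ1 : Q1 ≤ L := (le_max_left _ _).trans hL
  have hLQ2 : Q2 ≤ L := (le_max_right _ _).trans hL
  have hL100 := hB.hL
  have hLpos : 0 < L := by linarith
  have hNr : (0 : ℝ) < N := lt_of_lt_of_le (Real.exp_pos _) hN1
  have hN1' : 1 ≤ N := by exact_mod_cast Nat.one_le_cast.mp (by
    have : (1 : ℝ) ≤ N := (Real.one_le_exp (by positivity)).trans hN1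
    exact this)
  have hYhi := hB.Y_hi
  have hYpos := hB.Y_pos
  have hnr : (1 : ℝ) ≤ ((a * b : ℕ) : ℝ) := by
    exact_mod_cast Nat.one_le_iff_ne_zero.mpr (Nat.mul_ne_zero ha hb)
  have hnr0 : (0 : ℝ) < ((a * b : ℕ) : ℝ) := by linarith
  have hY4 : (YY L : ℝ) ^ 4 ≤ Real.exp (0.004 * L) := by
    calc (YY L : ℝ) ^ 4 ≤ (Real.exp (L / 1000)) ^ 4 := by gcongr
      _ = Real.exp (0.004 * L) := by rw [← Real.exp_nat_mul]; congr 1; push_cast; ring
  have hcond : a * b * (YY L * YY L) ^ 2 ≤ N := by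
    have h1 : ((a * b * (YY L * YY L) ^ 2 : ℕ) : ℝ) ≤ (N : ℝ) := by
      have e1 : ((a * b * (YY L * YY L) ^ 2 : ℕ) : ℝ) = ((a * b : ℕ) : ℝ) * (YY L : ℝ) ^ 4 := by
        push_cast; ring
      rw [e1]
      calc ((a * b : ℕ) : ℝ) * (YY L : ℝ) ^ 4 ≤ Real.exp (1 / 10 ^ 8 * L) * Real.exp (0.004 * L) := by
            gcongr
        _ = Real.exp (1 / 10 ^ 8 * L + 0.004 * L) := by rw [Real.exp_add]
        _ ≤ Real.exp (0.999 * L) := Real.exp_le_exp.mpr (by nlinarith)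
        _ ≤ N := hN1
    exact_mod_cast h1
  have h := DN_eval (z := zz L) (Y := YY L) (N := N) ha hb hab (by linarith [hB.logz_100]) hB.zY hcond
    (σ := 1 / 1000) (by norm_num) (by norm_num)
  refine h.trans ?_
  -- first term
  have h1 : 2 * (YY L : ℝ) ^ 4 / Real.sqrt N ≤ 2 * Real.exp (-0.4 * L) := by
    have hs : Real.exp (0.4995 * L) ≤ Real.sqrt N := by
      apply Real.le_sqrt_of_sq_le
      rw [← Real.exp_nat_mul]
      refine le_trans (Real.exp_le_exp.mpr ?_) hN1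
      push_cast
      linarith
    have hs0 : 0 < Real.sqrt N := Real.sqrt_pos.mpr hNr
    rw [div_le_iff₀ hs0]
    calc 2 * (YY L : ℝ) ^ 4 ≤ 2 * Real.exp (0.004 * L) := by gcongr
      _ ≤ 2 * (Real.exp (-0.4 * L) * Real.exp (0.4995 * L)) := by
          rw [← Real.exp_add]
          have : Real.exp (0.004 * L) ≤ Real.exp (-0.4 * L + 0.4995 * L) :=
            Real.exp_le_exp.mpr (by linarith)
          linarith
      _ ≤ 2 * (Real.exp (-0.4 * L) * Real.sqrt N) := by gcongr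
      _ = _ := by ring
  -- second term
  have hcc := abs_cc_le hB ha hb hN1' hN2 hn
  have hl4 : Real.log 4 ≤ 2 := by
    rw [show (4 : ℝ) = 2 ^ 2 by norm_num, Real.log_pow]
    have := Real.log_two_lt_d9
    push_cast; linarith
  have hl40 : 0 < Real.log 4 := Real.log_pos (by norm_num)
  have hLL : L ≤ L ^ 200 := le_self_pow₀ (by linarith) (by norm_num)
  have hlY := hB.logY_hi
  have hlY0 : 0 ≤ Real.log (YY L) := by have := hB.logY_lo; linarith [div_nonneg hLpos.le (by norm_num : (0:ℝ) ≤ 2000)]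
  have hA : |cc N a b| + (zz L : ℝ) * Real.log 4 + Real.log (YY L) ≤ 6 * L ^ 200 := by
    have : (zz L : ℝ) * Real.log 4 ≤ 2 * L ^ 200 * 2 := by
      have := hB.z_hi
      gcongr
    linarith
  have hlY3 : 3 * Real.log (YY L) ^ 3 ≤ 3 * L ^ 3 := by
    gcongr
    linarith
  have hYσ : (YY L : ℝ) ^ (-(1 / 1000) : ℝ) ≤ 2 * Real.exp (-(1 / 10 ^ 6) * L) := by
    have e1 : (YY L : ℝ) ^ (-(1 / 1000) : ℝ) ≤ (Real.exp (L / 1000) / 2) ^ (-(1 / 1000) : ℝ) :=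
      Real.rpow_le_rpow_of_nonpos (by positivity) hB.Y_lo (by norm_num)
    refine e1.trans ?_
    rw [Real.div_rpow (by positivity) (by norm_num), div_eq_mul_inv, ← Real.rpow_neg (by norm_num),
      neg_neg, mul_comm]
    have e2 : (2 : ℝ) ^ (1 / 1000 : ℝ) ≤ 2 := by
      calc (2 : ℝ) ^ (1 / 1000 : ℝ) ≤ (2 : ℝ) ^ (1 : ℝ) :=
            Real.rpow_le_rpow_of_exponent_le (by norm_num) (by norm_num)
        _ = 2 := Real.rpow_one _
    have e3 : (Real.exp (L / 1000)) ^ (-(1 / 1000) : ℝ) = Real.exp (-(1 / 10 ^ 6) * L) := by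
      rw [← Real.exp_mul]; congr 1; ring
    rw [e3]
    gcongr
  have hexp : Real.exp (3 * (zz L : ℝ) ^ (2 * (1 / 1000 : ℝ)) * (1 + Real.log (zz L))) ≤
      Real.exp (1 / 10 ^ 7 * L) := Real.exp_le_exp.mpr hB.exp3
  have hτ : ((a * b : ℕ) : ℝ) ^ (-(1 / 2) : ℝ) *
      (((a * b).divisors.card : ℝ) ^ 4 * ((a * b : ℕ) : ℝ) ^ (1 / 1000 : ℝ)) ≤ C ^ 4 := by
    have e1 := hdiv (a * b) (Nat.mul_ne_zero ha hb)
    set x : ℝ := ((a * b : ℕ) : ℝ) with hx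
    calc x ^ (-(1 / 2) : ℝ) * (((a * b).divisors.card : ℝ) ^ 4 * x ^ (1 / 1000 : ℝ))
        ≤ x ^ (-(1 / 2) : ℝ) * ((C * x ^ (1 / 32 : ℝ)) ^ 4 * x ^ (1 / 1000 : ℝ)) := by gcongr
      _ = C ^ 4 * (x ^ (-(1 / 2) : ℝ) * ((x ^ (1 / 32 : ℝ)) ^ 4 * x ^ (1 / 1000 : ℝ))) := by ring
      _ = C ^ 4 * x ^ (-(1 / 2) + (1 / 8 + 1 / 1000) : ℝ) := by
          rw [← Real.rpow_natCast (x ^ (1 / 32 : ℝ)), ← Real.rpow_mul hnr0.le, ← Real.rpow_add hnr0,
            ← Real.rpow_add hnr0]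
          norm_num
      _ ≤ C ^ 4 * 1 := by
          gcongr
          exact Real.rpow_le_one_of_one_le_of_nonpos hnr (by norm_num)
      _ = C ^ 4 := mul_one _
  have h2 : ((a * b : ℕ) : ℝ) ^ (-(1 / 2) : ℝ) *
      ((|cc N a b| + (zz L : ℝ) * Real.log 4 + Real.log (YY L)) * ((3 * (Real.log (YY L)) ^ 3) *
        (YY L : ℝ) ^ (-(1 / 1000) : ℝ) *
        Real.exp (3 * (zz L : ℝ) ^ (2 * (1 / 1000 : ℝ)) * (1 + Real.log (zz L)))) *
        (((a * b).divisors.card : ℝ) ^ 4 * ((a * b : ℕ) : ℝ) ^ (1 / 1000 : ℝ))) ≤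
      Real.exp (-(8 / 10 ^ 7) * L) := by
    calc _ = ((|cc N a b| + (zz L : ℝ) * Real.log 4 + Real.log (YY L)) * ((3 * (Real.log (YY L)) ^ 3) *
        (YY L : ℝ) ^ (-(1 / 1000) : ℝ) *
        Real.exp (3 * (zz L : ℝ) ^ (2 * (1 / 1000 : ℝ)) * (1 + Real.log (zz L))))) *
        (((a * b : ℕ) : ℝ) ^ (-(1 / 2) : ℝ) *
          (((a * b).divisors.card : ℝ) ^ 4 * ((a * b : ℕ) : ℝ) ^ (1 / 1000 : ℝ))) := by ring
      _ ≤ ((6 * L ^ 200) * ((3 * L ^ 3) * (2 * Real.exp (-(1 / 10 ^ 6) * L)) *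
        Real.exp (1 / 10 ^ 7 * L))) * C ^ 4 := by
          have hK1 : 0 ≤ |cc N a b| + (zz L : ℝ) * Real.log 4 + Real.log (YY L) := by positivity
          gcongr
      _ = (36 * C ^ 4 * L ^ 203) * (Real.exp (-(1 / 10 ^ 6) * L) * Real.exp (1 / 10 ^ 7 * L)) := by ring
      _ ≤ Real.exp (1 / 10 ^ 7 * L) * (Real.exp (-(1 / 10 ^ 6) * L) * Real.exp (1 / 10 ^ 7 * L)) := by
          gcongr
          exact hQ1 L hLQ1
      _ = Real.exp (-(8 / 10 ^ 7) * L) := by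
          rw [← Real.exp_add, ← Real.exp_add]; congr 1; ring
  have h3 : Real.exp (-0.4 * L) ≤ Real.exp (-(8 / 10 ^ 7) * L) := Real.exp_le_exp.mpr (by linarith)
  have h4 := hQ2 L hLQ2
  rw [pow_zero, mul_one] at h4
  calc _ ≤ 2 * Real.exp (-0.4 * L) + Real.exp (-(8 / 10 ^ 7) * L) := add_le_add h1 h2
    _ ≤ 4 * Real.exp (-(8 / 10 ^ 7) * L) := by
        have := Real.exp_pos (-(8 / 10 ^ 7) * L)
        linarith
    _ ≤ Real.exp (1 / 10 ^ 7 * L) * Real.exp (-(8 / 10 ^ 7) * L) := by gcongr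
    _ ≤ Real.exp (-(5 / 10 ^ 7) * L) := by
        rw [← Real.exp_add]
        exact Real.exp_le_exp.mpr (by linarith)

end Pool.Agent.H14.PT
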