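import Pool.Agent.H14.PT.Main
import Mathlib.NumberTheory.Primorial

/-!
# Characters of prescribed order in cosets: Galois orbits
-/

set_option linter.unusedSectionVars false

namespace Pool.Agent.H14.PT

open Finset
open scoped Real

section group

variable {G : Type*} [CommGroup G]

/-- the condition on the order -/
lemma dvd_orderOf_iff {C : Subgroup G} {D N : ℕ} (hD0 : D ≠ 0) (hD : ∀ χ ∈ C, χ ^ D = 1)
    (hN : N ∣ D) (hN' : N.Coprime (D / N)) {χ : G} (hχ : χ ∈ C) :
    N ∣ orderOf χ ↔ ∀ p, p.Prime → p ∣ N → χ ^ (D / p) ≠ 1 := by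
  have hod : orderOf χ ∣ D := orderOf_dvd_of_pow_eq_one (hD χ hχ)
  constructor
  · intro h p hp hpN h1
    have h2 : orderOf χ ∣ D / p := orderOf_dvd_of_pow_eq_one h1
    have hpD : p ∣ D := hpN.trans hN
    have h3 : N ∣ D / p := h.trans h2
    have h4 : N * p ∣ D := by
      obtain ⟨k, hk⟩ := h3
      refine ⟨k, ?_⟩
      have := Nat.div_mul_cancel hpD
      rw [← this, hk]; ring
    have h5 : p ∣ D / N := by
      obtain ⟨k, hk⟩ := h4
      refine ⟨k, ?_⟩
      have hN0 : 0 < N := Nat.pos_of_ne_zero (fun h0 => by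
        rw [h0, zero_dvd_iff] at hN; exact hD0 hN)
      rw [hk, mul_assoc, Nat.mul_div_cancel_left _ hN0]
    have := Nat.dvd_gcd hpN h5
    rw [hN'] at this
    exact hp.one_lt.ne' (Nat.dvd_one.mp this)
  · intro h
    obtain ⟨k, hk⟩ := hod
    have hcop : N.Coprime k := by
      rw [Nat.coprime_iff_gcd_eq_one]
      by_contra hg
      obtain ⟨p, hp, hpd⟩ := Nat.exists_prime_and_dvd hg
      have hpN : p ∣ N := hpd.trans (Nat.gcd_dvd_left _ _)
      have hpk : p ∣ k := hpd.trans (Nat.gcd_dvd_right _ _)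
      apply h p hp hpN
      obtain ⟨j, hj⟩ := hpk
      have : D / p = orderOf χ * j := by
        rw [hk, hj, show orderOf χ * (p * j) = p * (orderOf χ * j) by ring,
          Nat.mul_div_cancel_left _ hp.pos]
      rw [this, pow_mul, pow_orderOf_eq_one, one_pow]
    rw [hk] at hN
    exact hcop.dvd_of_dvd_mul_right hN

variable [Finite G]

/-- size of the group of `P`-th powers -/
lemma card_map_pow (hcyc : IsCyclic G) (X : Subgroup G) {P : ℕ} (hP : 0 < P) :
    Nat.card X ≤ P * Nat.card (X.map (powMonoidHom P)) := by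
  classical
  have : Fintype G := Fintype.ofFinite G
  set f : X →* G := (powMonoidHom P).comp X.subtype with hf
  have h1 : f.range = X.map (powMonoidHom P) := by
    rw [hf, MonoidHom.range_comp, Subgroup.range_subtype]
  have h2 := f.ker.card_mul_index
  rw [Subgroup.index_ker, h1] at h2
  have h3 : Nat.card f.ker ≤ P := by
    have h4 := IsCyclic.card_pow_eq_one_le (α := G) hP
    refine le_trans ?_ h4
    rw [← Nat.card_eq_finsetCard]
    refine Nat.card_le_card_of_injective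
      (fun x : f.ker => (⟨(x.1 : G), by
        have := x.2
        rw [MonoidHom.mem_ker] at this
        simpa [hf] using this⟩ : {a // a ∈ (univ : Finset G).filter (fun a => a ^ P = 1)})) ?_
    intro x y h
    have : (x.1 : G) = (y.1 : G) := congrArg (fun t => (t.1 : G)) h
    exact Subtype.ext (Subtype.ext this)
  rw [← h2]
  exact Nat.mul_le_mul_right _ h3

/-- few elements of a coset fail the condition at a prime `p` -/
lemma card_bad_le {D p : ℕ} (hp : p.Prime) (hpD : p ∣ D) (X' : Subgroup G)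
    (hX' : ∀ x ∈ X', x ^ D = 1) {χ : G} (hχ : χ ^ (D / p) ≠ 1) (B : Finset G)
    (hB : ∀ χ' ∈ B, χ⁻¹ * χ' ∈ X' ∧ χ' ^ (D / p) = 1) : B.card * p ≤ Nat.card X' := by
  classical
  rcases B.eq_empty_or_nonempty with he | ⟨χ1, hχ1⟩
  · rw [he, Finset.card_empty, zero_mul]; exact Nat.zero_le _
  obtain ⟨b1, b2⟩ := hB χ1 hχ1
  set f : X' →* G := (powMonoidHom (D / p)).comp X'.subtype with hf
  have hfe : ∀ x : X', f x = (x : G) ^ (D / p) := fun x => rfl
  have h2 := f.ker.card_mul_index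
  rw [Subgroup.index_ker] at h2
  -- the range is divisible by p
  have h3 : p ∣ Nat.card f.range := by
    set z : f.range := ⟨f ⟨χ⁻¹ * χ1, b1⟩, ⟨_, rfl⟩⟩ with hz
    have hz1 : z ≠ 1 := by
      intro h
      have h4 : (z : G) = 1 := by rw [h]; rfl
      have h5 : (z : G) = (χ⁻¹ * χ1) ^ (D / p) := rfl
      rw [h5, mul_pow, b2, mul_one, inv_pow, inv_eq_one] at h4
      exact hχ h4
    have hzp : z ^ p = 1 := by
      apply Subtype.ext
      show (z : G) ^ p = 1
      have h5 : (z : G) = (χ⁻¹ * χ1) ^ (D / p) := rfl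
      rw [h5, ← pow_mul, Nat.div_mul_cancel hpD]
      exact hX' _ b1
    have : Fact p.Prime := ⟨hp⟩
    have h6 : orderOf z = p := orderOf_eq_prime hzp hz1
    rw [← h6]
    exact orderOf_dvd_natCard z
  have h4 : B.card ≤ Nat.card f.ker := by
    rw [← Nat.card_eq_finsetCard]
    have hmem : ∀ χ' ∈ B, χ1⁻¹ * χ' ∈ X' := by
      intro χ' h
      have e : χ1⁻¹ * χ' = (χ⁻¹ * χ1)⁻¹ * (χ⁻¹ * χ') := by
        rw [mul_inv_rev, inv_inv]; group
      rw [e]
      exact X'.mul_mem (X'.inv_mem b1) (hB χ' h).1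
    refine Nat.card_le_card_of_injective
      (fun x : {a // a ∈ B} => (⟨⟨χ1⁻¹ * x.1, hmem x.1 x.2⟩, by
        rw [MonoidHom.mem_ker, hfe]
        show (χ1⁻¹ * x.1) ^ (D / p) = 1
        rw [mul_pow, inv_pow, b2, (hB x.1 x.2).2, inv_one, one_mul]⟩ : f.ker)) ?_
    intro x y h
    have : χ1⁻¹ * x.1 = χ1⁻¹ * y.1 := congrArg (fun t : f.ker => ((t.1 : X') : G)) h
    exact Subtype.ext (mul_left_cancel this)
  obtain ⟨k, hk⟩ := h3
  have hk0 : 0 < k := by
    rcases Nat.eq_zero_or_pos k with h0 | h0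
    · rw [h0, mul_zero] at hk
      exact absurd hk (Nat.card_pos).ne'
    · exact h0
  calc B.card * p ≤ Nat.card f.ker * p := Nat.mul_le_mul_right _ h4
    _ ≤ Nat.card f.ker * (p * k) := Nat.mul_le_mul_left _ (Nat.le_mul_of_pos_right _ hk0)
    _ = Nat.card X' := by rw [← hk, h2]

/-- double counting over cosets -/
lemma coset_double_count (X' : Subgroup G) (O S : Finset G) (c : ℝ)
    (h : ∀ χ ∈ O, ∀ T : Finset G, (∀ χ' ∈ S, χ⁻¹ * χ' ∈ X' → χ' ∈ T) → c * Nat.card X' ≤ T.card) :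
    c * O.card ≤ S.card := by
  classical
  have hX0 : (0 : ℝ) < Nat.card X' := by exact_mod_cast (Nat.card_pos : 0 < Nat.card X')
  have h1 : ∑ χ ∈ O, (c * Nat.card X') ≤ ∑ χ ∈ O, (((S.filter (fun χ' => χ⁻¹ * χ' ∈ X')).card : ℕ) : ℝ) := by
    refine Finset.sum_le_sum fun χ hχ => h χ hχ _ fun χ' h1 h2 => Finset.mem_filter.mpr ⟨h1, h2⟩
  have h2 : ∑ χ ∈ O, (S.filter (fun χ' => χ⁻¹ * χ' ∈ X')).card ≤ S.card * Nat.card X' := by
    have e1 : ∑ χ ∈ O, (S.filter (fun χ' => χ⁻¹ * χ' ∈ X')).card =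
        ∑ χ' ∈ S, (O.filter (fun χ => χ⁻¹ * χ' ∈ X')).card := by
      simp_rw [Finset.card_filter]
      rw [Finset.sum_comm]
    rw [e1, ← smul_eq_mul, ← Finset.sum_const]
    refine Finset.sum_le_sum fun χ' _ => ?_
    rw [← Nat.card_eq_finsetCard]
    refine Nat.card_le_card_of_injective
      (fun x : {a // a ∈ O.filter (fun χ => χ⁻¹ * χ' ∈ X')} =>
        (⟨x.1⁻¹ * χ', (Finset.mem_filter.mp x.2).2⟩ : X')) ?_
    intro x y hxy
    have : x.1⁻¹ * χ' = y.1⁻¹ * χ' := congrArg (fun t : X' => (t : G)) hxy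
    exact Subtype.ext (inv_injective (mul_right_cancel this))
  rw [Finset.sum_const, nsmul_eq_mul] at h1
  have h3 : (∑ χ ∈ O, (((S.filter (fun χ' => χ⁻¹ * χ' ∈ X')).card : ℕ) : ℝ)) ≤
      (S.card : ℝ) * Nat.card X' := by exact_mod_cast h2
  have h4 : (c * O.card) * Nat.card X' ≤ (S.card : ℝ) * Nat.card X' := by
    calc _ = (O.card : ℝ) * (c * Nat.card X') := by ring
      _ ≤ _ := h1.trans h3
  exact le_of_mul_le_mul_right h4 hX0

end group

/-- few large prime factors -/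
lemma large_primes {N y : ℕ} (hN : N ≠ 0) (hy : 2 ≤ y) :
    ((N.primeFactors.filter (fun p => y < p)).card : ℝ) * Real.log y ≤ Real.log N := by
  set T := N.primeFactors.filter (fun p => y < p) with hT
  have hN0 : (0 : ℝ) < N := by exact_mod_cast Nat.pos_of_ne_zero hN
  have h1 : y ^ T.card ≤ ∏ p ∈ T, p :=
    Finset.pow_card_le_prod T (fun p => p) y (fun p hp => (Finset.mem_filter.mp hp).2.le)
  have h2 : ∏ p ∈ T, p ∣ N := by
    have : ∏ p ∈ T, p ∣ ∏ p ∈ N.primeFactors, p :=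
      Finset.prod_dvd_prod_of_subset _ _ _ (Finset.filter_subset _ _)
    exact this.trans (Nat.prod_primeFactors_dvd N)
  have h3 : y ^ T.card ≤ N := h1.trans (Nat.le_of_dvd (Nat.pos_of_ne_zero hN) h2)
  have h4 : ((y ^ T.card : ℕ) : ℝ) ≤ N := by exact_mod_cast h3
  push_cast at h4
  have hy0 : (0 : ℝ) < y := by exact_mod_cast (by omega : 0 < y)
  have h5 := Real.log_le_log (by positivity) h4
  rwa [Real.log_pow] at h5

lemma isCyclic_chars (q : ℕ) [Fact q.Prime] : IsCyclic (DirichletCharacter ℂ q) := by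
  obtain ⟨e⟩ := DirichletCharacter.mulEquiv_units ℂ q
  exact isCyclic_of_surjective e.symm e.symm.surjective

/-- **positive proportion of nonvanishing among the characters of prescribed order in a coset** -/
theorem count_orbit (ε : ℝ) (hε : 0 < ε) (hε1 : ε ≤ 1 / 3) :
    ∃ c Q0 : ℝ, 0 < c ∧ ∀ (q : ℕ) [Fact q.Prime], Q0 ≤ Real.log q →
    ∀ (X C : Subgroup (DirichletCharacter ℂ q)), X ≤ C → ∀ N : ℕ, N ∣ Nat.card C →
    N.Coprime (Nat.card C / N) → ∀ ψ ∈ C, (q : ℝ) ^ (2 / 3 + ε) ≤ Nat.card X →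
    ∀ (O S : Finset (DirichletCharacter ℂ q)), (∀ χ, χ ∈ O ↔ ψ⁻¹ * χ ∈ X ∧ N ∣ orderOf χ) →
    (∀ χ ∈ O, χ ≠ 1 → χ.LFunction (1 / 2) ≠ 0 → χ ∈ S) →
    c * O.card ≤ (S.card : ℝ) := by
  classical
  obtain ⟨c, Q1, hc, hmain⟩ := count_coset (ε / 2) (by positivity) (by linarith)
  refine ⟨c / 2, max (max Q1 (16 / ε)) (8 / ε * Real.exp (16 / (ε * c))), by positivity, ?_⟩
  intro q _ hq X C hXC N hN hN' ψ hψ hX O S hO hS
  have hqp : q.Prime := Fact.out
  have hq0 : (0 : ℝ) < q := by exact_mod_cast hqp.pos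
  have hq1 : Q1 ≤ Real.log q := (le_max_left _ _).trans ((le_max_left _ _).trans hq)
  have hq2 : 16 / ε ≤ Real.log q := (le_max_right _ _).trans ((le_max_left _ _).trans hq)
  have hq3 : 8 / ε * Real.exp (16 / (ε * c)) ≤ Real.log q := (le_max_right _ _).trans hq
  have hcyc := isCyclic_chars q
  set L := Real.log q with hL
  have hεL : 16 ≤ ε * L := by
    rw [div_le_iff₀ hε] at hq2; linarith
  have hL0 : 0 < L := by
    by_contra h
    push Not at h
    nlinarith
  -- the parameter y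
  set y : ℕ := ⌊ε / 4 * L⌋₊ with hy
  have hy_hi : (y : ℝ) ≤ ε / 4 * L := Nat.floor_le (by positivity)
  have hy_lo : ε / 8 * L ≤ y := by
    have := Nat.lt_floor_add_one (ε / 4 * L)
    rw [← hy] at this
    linarith
  have hy2 : 2 ≤ y := by
    have : (2 : ℝ) ≤ y := by linarith
    exact_mod_cast this
  have hy0 : (0 : ℝ) < y := by exact_mod_cast (by omega : 0 < y)
  set P : ℕ := primorial y with hP
  have hP0 : 0 < P := primorial_pos y
  have hPle : (P : ℝ) ≤ (q : ℝ) ^ (ε / 2) := by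
    have h1 : (P : ℝ) ≤ 4 ^ y := by exact_mod_cast primorial_le_four_pow y
    refine h1.trans ?_
    rw [← Real.rpow_natCast, Real.rpow_def_of_pos (by norm_num), Real.rpow_def_of_pos hq0]
    apply Real.exp_le_exp.mpr
    have h4 : Real.log 4 ≤ 2 := by
      rw [show (4 : ℝ) = 2 ^ 2 by norm_num, Real.log_pow]
      have := Real.log_two_lt_d9
      push_cast
      linarith
    have h5 : 0 ≤ Real.log 4 := Real.log_nonneg (by norm_num)
    calc Real.log 4 * y ≤ 2 * (ε / 4 * L) := by gcongr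
      _ = L * (ε / 2) := by ring
  -- the subgroup X'
  set X' := X.map (powMonoidHom P) with hX'
  have hX'X : X' ≤ X := by
    rintro _ ⟨x, hx, rfl⟩
    exact X.pow_mem hx P
  have hcard := card_map_pow hcyc X hP0
  rw [← hX'] at hcard
  have hX'card : (q : ℝ) ^ (2 / 3 + ε / 2) ≤ Nat.card X' := by
    have h1 : (q : ℝ) ^ (2 / 3 + ε) ≤ (q : ℝ) ^ (ε / 2) * Nat.card X' := by
      refine hX.trans ?_
      have h2 : (Nat.card X : ℝ) ≤ (P : ℝ) * Nat.card X' := by exact_mod_cast hcard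
      exact h2.trans (by gcongr)
    have h3 : (q : ℝ) ^ (ε / 2) * (q : ℝ) ^ (2 / 3 + ε / 2) = (q : ℝ) ^ (2 / 3 + ε) := by
      rw [← Real.rpow_add hq0]; congr 1; ring
    rw [← h3] at h1
    exact le_of_mul_le_mul_left h1 (by positivity)
  set D := Nat.card C with hD
  have hD0 : D ≠ 0 := (Nat.card_pos).ne'
  have hCD : ∀ χ ∈ C, χ ^ D = 1 := by
    intro χ hχ
    have : (⟨χ, hχ⟩ : C) ^ D = 1 := pow_card_eq_one'
    exact congrArg Subtype.val this
  have hOC : ∀ χ, ψ⁻¹ * χ ∈ X → χ ∈ C := by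
    intro χ h
    have : χ = ψ * (ψ⁻¹ * χ) := by rw [mul_inv_cancel_left]
    rw [this]
    exact C.mul_mem hψ (hXC h)
  have hN0 : N ≠ 0 := fun h0 => by rw [h0, zero_dvd_iff] at hN; exact hD0 hN
  have hDq : D ≤ q := by
    have h1 : D ≤ Nat.card (DirichletCharacter ℂ q) := Subgroup.card_le_card_group C
    have h2 : Nat.card (DirichletCharacter ℂ q) = q.totient := by
      obtain ⟨e⟩ := DirichletCharacter.mulEquiv_units ℂ q
      rw [Nat.card_congr e.toEquiv, Nat.card_eq_fintype_card, ZMod.card_units_eq_totient]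
    rw [h2] at h1
    exact h1.trans (Nat.totient_le q)
  have hNq : (N : ℝ) ≤ q := by
    exact_mod_cast (Nat.le_of_dvd (Nat.pos_of_ne_zero hD0) hN).trans hDq
  set T := N.primeFactors.filter (fun p => y < p) with hT
  have hTlog := large_primes (N := N) hN0 hy2
  rw [← hT] at hTlog
  have hlogy : 16 / (ε * c) ≤ Real.log y := by
    rw [Real.le_log_iff_exp_le hy0]
    refine le_trans ?_ hy_lo
    have : 8 / ε * Real.exp (16 / (ε * c)) * (ε / 8) ≤ L * (ε / 8) := by gcongr
    have h2 : 8 / ε * Real.exp (16 / (ε * c)) * (ε / 8) = Real.exp (16 / (ε * c)) := by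
      field_simp
    linarith
  have hlogy0 : 0 < Real.log y := lt_of_lt_of_le (by positivity) hlogy
  -- number of bad elements
  have hTy : (T.card : ℝ) ≤ c / 2 * y := by
    have h1 : (T.card : ℝ) * Real.log y ≤ L := hTlog.trans
      (Real.log_le_log (by exact_mod_cast Nat.pos_of_ne_zero hN0) hNq)
    have h2 : (T.card : ℝ) * (16 / (ε * c)) ≤ L := by
      refine le_trans ?_ h1
      gcongr
    have h3 : (T.card : ℝ) ≤ L * (ε * c) / 16 := by
      rw [le_div_iff₀ (by norm_num)]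
      have h4 : (T.card : ℝ) * (16 / (ε * c)) * (ε * c) ≤ L * (ε * c) := by gcongr
      have h5 : (T.card : ℝ) * (16 / (ε * c)) * (ε * c) = T.card * 16 := by field_simp
      linarith
    calc (T.card : ℝ) ≤ L * (ε * c) / 16 := h3
      _ = c / 2 * (ε / 8 * L) := by ring
      _ ≤ _ := by gcongr
  refine coset_double_count X' O S (c / 2) ?_
  intro χ hχ T0 hT0
  obtain ⟨hχX, hχN⟩ := (hO χ).mp hχ
  have hχC := hOC χ hχX
  have hχcond := (dvd_orderOf_iff hD0 hCD hN hN' hχC).mp hχN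
  -- bad elements
  set Bad : Finset (DirichletCharacter ℂ q) :=
    Finset.univ.filter (fun χ' => χ⁻¹ * χ' ∈ X' ∧ ¬ N ∣ orderOf χ') with hBad
  have hBadcard : (Bad.card : ℝ) ≤ c / 2 * Nat.card X' := by
    have h1 : Bad ⊆ T.biUnion (fun p => Finset.univ.filter
        (fun χ' => χ⁻¹ * χ' ∈ X' ∧ χ' ^ (D / p) = 1)) := by
      intro χ' hχ'
      obtain ⟨b1, b2⟩ := (Finset.mem_filter.mp hχ').2
      have hχ'X : ψ⁻¹ * χ' ∈ X := by
        have : ψ⁻¹ * χ' = (ψ⁻¹ * χ) * (χ⁻¹ * χ') := by group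
        rw [this]
        exact X.mul_mem hχX (hX'X b1)
      have hχ'C := hOC χ' hχ'X
      rw [dvd_orderOf_iff hD0 hCD hN hN' hχ'C] at b2
      push Not at b2
      obtain ⟨p, hp, hpN, hp1⟩ := b2
      rw [Finset.mem_biUnion]
      refine ⟨p, ?_, Finset.mem_filter.mpr ⟨Finset.mem_univ _, b1, hp1⟩⟩
      rw [hT, Finset.mem_filter, Nat.mem_primeFactors]
      refine ⟨⟨hp, hpN, hN0⟩, ?_⟩
      by_contra hle
      push Not at hle
      have hpP : p ∣ P := (Nat.Prime.dvd_primorial_iff hp).mpr hle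
      apply hχcond p hp hpN
      obtain ⟨x, hx, hx'⟩ := b1
      have hpD : p ∣ D := hpN.trans hN
      have e1 : (χ⁻¹ * χ') ^ (D / p) = 1 := by
        rw [← hx']
        show (x ^ P) ^ (D / p) = 1
        obtain ⟨j, hj⟩ := hpP
        rw [hj, ← pow_mul, show p * j * (D / p) = (p * (D / p)) * j by ring,
          Nat.mul_div_cancel' hpD, pow_mul, hCD x (hXC hx), one_pow]
      rw [mul_pow, hp1, mul_one, inv_pow, inv_eq_one] at e1
      exact e1
    have h2 : ∀ p ∈ T, (((Finset.univ.filter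
        (fun χ' : DirichletCharacter ℂ q => χ⁻¹ * χ' ∈ X' ∧ χ' ^ (D / p) = 1)).card : ℕ) : ℝ) ≤
        Nat.card X' / y := by
      intro p hp
      obtain ⟨hp1, hp2⟩ := Finset.mem_filter.mp hp
      have hpp := Nat.prime_of_mem_primeFactors hp1
      have hpN := Nat.dvd_of_mem_primeFactors hp1
      have h3 := card_bad_le hpp (hpN.trans hN) X' (fun x hx => hCD x (hXC (hX'X hx)))
        (hχcond p hpp hpN) (Finset.univ.filter
        (fun χ' : DirichletCharacter ℂ q => χ⁻¹ * χ' ∈ X' ∧ χ' ^ (D / p) = 1))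
        (fun χ' h => (Finset.mem_filter.mp h).2)
      rw [le_div_iff₀ hy0]
      have h4 : (((Finset.univ.filter
        (fun χ' : DirichletCharacter ℂ q => χ⁻¹ * χ' ∈ X' ∧ χ' ^ (D / p) = 1)).card : ℕ) : ℝ) * p ≤
        Nat.card X' := by exact_mod_cast h3
      refine le_trans ?_ h4
      have : (y : ℝ) ≤ p := by exact_mod_cast hp2.le
      gcongr
    calc (Bad.card : ℝ) ≤ ((T.biUnion (fun p => Finset.univ.filter
        (fun χ' : DirichletCharacter ℂ q => χ⁻¹ * χ' ∈ X' ∧ χ' ^ (D / p) = 1))).card : ℝ) := by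
          exact_mod_cast Finset.card_le_card h1
      _ ≤ ∑ p ∈ T, (((Finset.univ.filter
        (fun χ' : DirichletCharacter ℂ q => χ⁻¹ * χ' ∈ X' ∧ χ' ^ (D / p) = 1)).card : ℕ) : ℝ) := by
          exact_mod_cast Finset.card_biUnion_le
      _ ≤ ∑ _p ∈ T, (Nat.card X' / y : ℝ) := Finset.sum_le_sum h2
      _ = T.card * (Nat.card X' / y) := by rw [Finset.sum_const, nsmul_eq_mul]
      _ ≤ (c / 2 * y) * (Nat.card X' / y) := by gcongr
      _ = c / 2 * Nat.card X' := by field_simp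
  -- nonvanishing in the coset
  have h1 := hmain q hq1 X' χ hX'card (T0 ∪ Bad) (fun x hx hne hL' => by
    rw [Finset.mem_union]
    have hmem : χ⁻¹ * (χ * x) ∈ X' := by rw [inv_mul_cancel_left]; exact hx
    by_cases hb : N ∣ orderOf (χ * x)
    · left
      refine hT0 _ (hS _ ((hO _).mpr ⟨?_, hb⟩) hne hL') hmem
      have : ψ⁻¹ * (χ * x) = (ψ⁻¹ * χ) * x := by rw [mul_assoc]
      rw [this]
      exact X.mul_mem hχX (hX'X hx)
    · right
      exact Finset.mem_filter.mpr ⟨Finset.mem_univ _, hmem, hb⟩)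
  have h2 : ((T0 ∪ Bad).card : ℝ) ≤ T0.card + Bad.card := by
    exact_mod_cast Finset.card_union_le _ _
  linarith

end Pool.Agent.H14.PT
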