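import Pool.Agent.H14.PT.Dyad

/-!
# Parameters
-/

namespace Pool.Agent.H14.PT

open Finset Filter

/-- smoothness parameter -/
noncomputable def zz (L : ℝ) : ℕ := ⌈L ^ 200⌉₊

/-- length of the mollifiers -/
noncomputable def YY (L : ℝ) : ℕ := ⌊Real.exp (L / 1000)⌋₊

/-- the inequalities valid for large `L` -/
structure Big (L : ℝ) : Prop where
  hL : 100 ≤ L
  hL24 : 10 ^ 24 ≤ L
  z_lo : L ^ 200 ≤ (zz L : ℝ)
  z_hi : (zz L : ℝ) ≤ 2 * L ^ 200
  logz_lo : 200 * Real.log L ≤ Real.log (zz L)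
  logz_hi : Real.log (zz L) ≤ 201 * Real.log L
  logz_100 : 100 ≤ Real.log (zz L)
  zY : zz L ≤ YY L
  Y_lo : Real.exp (L / 1000) / 2 ≤ (YY L : ℝ)
  Y_hi : (YY L : ℝ) ≤ Real.exp (L / 1000)
  z_q : 100 * Real.log (8 * (zz L : ℝ)) ≤ L
  exp3 : 3 * (zz L : ℝ) ^ (2 * (1 / 1000 : ℝ)) * (1 + Real.log (zz L)) ≤ 1 / 10 ^ 7 * L

lemma log_le_ten_rpow {L : ℝ} (hL : 0 ≤ L) : Real.log L ≤ 10 * L ^ (1 / 10 : ℝ) := by
  have h := Real.log_le_rpow_div hL (show (0 : ℝ) < 1 / 10 by norm_num)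
  calc Real.log L ≤ L ^ (1 / 10 : ℝ) / (1 / 10) := h
    _ = _ := by ring

theorem big_facts : ∃ Q0 : ℝ, 100 ≤ Q0 ∧ ∀ L : ℝ, Q0 ≤ L → Big L := by
  obtain ⟨Q1, _, hQ1⟩ := poly_le_exp 200 4 (1 / 1000) (by norm_num)
  refine ⟨max Q1 (10 ^ 24), (by norm_num : (100 : ℝ) ≤ 10 ^ 24).trans (le_max_right _ _), ?_⟩
  intro L hL
  have hL1 : Q1 ≤ L := (le_max_left _ _).trans hL
  have hL24 : (10 : ℝ) ^ 24 ≤ L := (le_max_right _ _).trans hL
  have hL100 : (100 : ℝ) ≤ L := by linarith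
  have hLpos : 0 < L := by linarith
  have hL200 : 1 ≤ L ^ 200 := one_le_pow₀ (by linarith)
  have hz_lo : L ^ 200 ≤ (zz L : ℝ) := Nat.le_ceil _
  have hz_hi : (zz L : ℝ) ≤ 2 * L ^ 200 := by
    have := Nat.ceil_lt_add_one (show (0 : ℝ) ≤ L ^ 200 by positivity)
    unfold zz
    linarith
  have hz0 : (0 : ℝ) < zz L := by linarith
  have hlogL : Real.log 2 ≤ Real.log L := Real.log_le_log (by norm_num) (by linarith)
  have hlog2 : 0 < Real.log 2 := Real.log_pos (by norm_num)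
  have hlogz_lo : 200 * Real.log L ≤ Real.log (zz L) := by
    have h := Real.log_le_log (by positivity) hz_lo
    rw [Real.log_pow] at h
    push_cast at h
    exact h
  have hlogz_hi : Real.log (zz L) ≤ 201 * Real.log L := by
    have h := Real.log_le_log hz0 hz_hi
    rw [Real.log_mul (by norm_num) (by positivity), Real.log_pow] at h
    push_cast at h
    linarith
  have hlog100 : 1 / 2 ≤ Real.log L := by
    have h2 := Real.log_two_gt_d9
    linarith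
  have hlogz_100 : 100 ≤ Real.log (zz L) := by linarith
  have hexp1 : 1 ≤ Real.exp (L / 1000) := Real.one_le_exp (by positivity)
  have hpe := hQ1 L hL1
  have he : Real.exp (1 / 1000 * L) = Real.exp (L / 1000) := by congr 1; ring
  rw [he] at hpe
  have hexp4 : 4 ≤ Real.exp (L / 1000) := by linarith
  have hY_hi : (YY L : ℝ) ≤ Real.exp (L / 1000) := Nat.floor_le (by positivity)
  have hY_lo : Real.exp (L / 1000) / 2 ≤ (YY L : ℝ) := by
    have := Nat.lt_floor_add_one (Real.exp (L / 1000))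
    unfold YY
    linarith
  have hzY : zz L ≤ YY L := by
    have : (zz L : ℝ) ≤ YY L := by linarith
    exact_mod_cast this
  -- log L ≤ 10 L^{1/10}
  have hll := log_le_ten_rpow hLpos.le
  have hL10 : 1 ≤ L ^ (1 / 10 : ℝ) := Real.one_le_rpow (by linarith) (by norm_num)
  have hLhalf : (10 : ℝ) ^ 12 ≤ L ^ (1 / 2 : ℝ) := by
    calc (10 : ℝ) ^ 12 = ((10 : ℝ) ^ 24) ^ (1 / 2 : ℝ) := by
          rw [← Real.rpow_natCast, ← Real.rpow_natCast, ← Real.rpow_mul (by norm_num)]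
          norm_num
      _ ≤ _ := Real.rpow_le_rpow (by norm_num) hL24 (by norm_num)
  have hLs : L ^ (1 / 2 : ℝ) * L ^ (1 / 2 : ℝ) = L := by
    rw [← Real.rpow_add hLpos]; norm_num
  have hL110 : L ^ (1 / 10 : ℝ) ≤ L ^ (1 / 2 : ℝ) :=
    Real.rpow_le_rpow_of_exponent_le (by linarith) (by norm_num)
  have hz_q : 100 * Real.log (8 * (zz L : ℝ)) ≤ L := by
    rw [Real.log_mul (by norm_num) hz0.ne']
    have h8 : Real.log 8 ≤ 3 := by
      rw [show (8 : ℝ) = 2 ^ 3 by norm_num, Real.log_pow]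
      have := Real.log_two_lt_d9
      push_cast
      linarith
    nlinarith
  have hexp3 : 3 * (zz L : ℝ) ^ (2 * (1 / 1000 : ℝ)) * (1 + Real.log (zz L)) ≤ 1 / 10 ^ 7 * L := by
    have h1 : (zz L : ℝ) ^ (2 * (1 / 1000 : ℝ)) ≤ 2 * L ^ (4 / 10 : ℝ) := by
      calc (zz L : ℝ) ^ (2 * (1 / 1000 : ℝ)) ≤ (2 * L ^ 200) ^ (2 * (1 / 1000 : ℝ)) :=
            Real.rpow_le_rpow hz0.le hz_hi (by norm_num)
        _ = (2 : ℝ) ^ (2 * (1 / 1000 : ℝ)) * (L ^ 200) ^ (2 * (1 / 1000 : ℝ)) := by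
            rw [Real.mul_rpow (by norm_num) (by positivity)]
        _ ≤ 2 * L ^ (4 / 10 : ℝ) := by
            have e1 : (2 : ℝ) ^ (2 * (1 / 1000 : ℝ)) ≤ 2 := by
              calc (2 : ℝ) ^ (2 * (1 / 1000 : ℝ)) ≤ (2 : ℝ) ^ (1 : ℝ) :=
                    Real.rpow_le_rpow_of_exponent_le (by norm_num) (by norm_num)
                _ = 2 := Real.rpow_one _
            have e2 : (L ^ 200) ^ (2 * (1 / 1000 : ℝ)) = L ^ (4 / 10 : ℝ) := by
              rw [← Real.rpow_natCast, ← Real.rpow_mul hLpos.le]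
              norm_num
            rw [e2]
            gcongr
    have h2 : 1 + Real.log (zz L) ≤ 2011 * L ^ (1 / 10 : ℝ) := by nlinarith
    have h3 : L ^ (4 / 10 : ℝ) * L ^ (1 / 10 : ℝ) = L ^ (1 / 2 : ℝ) := by
      rw [← Real.rpow_add hLpos]; norm_num
    calc 3 * (zz L : ℝ) ^ (2 * (1 / 1000 : ℝ)) * (1 + Real.log (zz L))
        ≤ 3 * (2 * L ^ (4 / 10 : ℝ)) * (2011 * L ^ (1 / 10 : ℝ)) := by
          gcongr
      _ = 12066 * (L ^ (4 / 10 : ℝ) * L ^ (1 / 10 : ℝ)) := by ring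
      _ = 12066 * L ^ (1 / 2 : ℝ) := by rw [h3]
      _ ≤ 1 / 10 ^ 7 * (L ^ (1 / 2 : ℝ) * L ^ (1 / 2 : ℝ)) := by nlinarith
      _ = 1 / 10 ^ 7 * L := by rw [hLs]
  exact ⟨hL100, hL24, hz_lo, hz_hi, hlogz_lo, hlogz_hi, hlogz_100, hzY, hY_lo, hY_hi, hz_q, hexp3⟩

end Pool.Agent.H14.PT
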