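import Pool.Agent.PC10.MobiusLog

/-!
# Bilinear form of logarithmically weighted Möbius sums in the gcd
-/

namespace Pool.Agent.H14.PT

open Finset ArithmeticFunction Pool.Agent.PC10
open scoped ArithmeticFunction.Moebius

/-- integers up to `N` free of the primes in `S` -/
def DS (S : Finset ℕ) (N : ℕ) : Finset ℕ := (Ioc 0 N).filter (fun m => ∀ p ∈ S, ¬ p ∣ m)

/-- weighted sum over multiples of `k` -/
noncomputable def yk (S : Finset ℕ) (u : ℝ) (k : ℕ) : ℝ :=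
  ∑ m ∈ (DS S ⌊u⌋₊).filter (fun m => k ∣ m), (μ m : ℝ) / m * Real.log (u / m)

lemma yk_eq (S : Finset ℕ) (u : ℝ) {k : ℕ} (hk : Squarefree k)
    (hkS : ∀ p ∈ S, ¬ p ∣ k) (hS : ∀ p ∈ S, p.Prime) :
    yk S u k = (μ k : ℝ) / k * mset (S ∪ k.primeFactors) (u / k) := by
  have hk0 : 0 < k := Nat.pos_of_ne_zero hk.ne_zero
  have hkr : (0 : ℝ) < k := by exact_mod_cast hk0
  unfold yk mset
  set N := ⌊u / k⌋₊ with hN
  rw [Finset.mul_sum]
  symm
  have hinj : Set.InjOn (fun m => k * m)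
      ((Ioc 0 N).filter (fun m => ∀ p ∈ S ∪ k.primeFactors, ¬ p ∣ m) : Set ℕ) := by
    intro a _ b _ hab
    exact Nat.eq_of_mul_eq_mul_left hk0 hab
  have hsub := Finset.sum_subset (s₁ := ((Ioc 0 N).filter
    (fun m => ∀ p ∈ S ∪ k.primeFactors, ¬ p ∣ m)).image (fun m => k * m))
    (s₂ := (DS S ⌊u⌋₊).filter (fun m => k ∣ m))
    (f := fun m : ℕ => (μ m : ℝ) / m * Real.log (u / m)) ?_ ?_
  · rw [← hsub, Finset.sum_image hinj]
    refine Finset.sum_congr rfl fun m hm => ?_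
    simp only [mem_filter, mem_Ioc] at hm
    have hcop : Nat.Coprime k m := Nat.coprime_of_dvd fun p hp hpk hpm =>
        hm.2 p (Finset.mem_union_right _ (Nat.mem_primeFactors.mpr ⟨hp, hpk, hk.ne_zero⟩)) hpm
    have hm0 : (0:ℝ) < m := by exact_mod_cast hm.1.1
    rw [isMultiplicative_moebius.map_mul_of_coprime hcop]
    push_cast
    rw [← div_div u]
    field_simp
  · intro d hd
    simp only [DS, mem_image, mem_filter, mem_Ioc] at hd ⊢
    obtain ⟨m, ⟨⟨hm1, hm2⟩, hm3⟩, rfl⟩ := hd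
    refine ⟨⟨⟨Nat.mul_pos hk0 hm1, ?_⟩, ?_⟩, Dvd.intro _ rfl⟩
    · rw [hN, Nat.floor_div_natCast] at hm2
      calc k * m ≤ k * (⌊u⌋₊ / k) := Nat.mul_le_mul_left _ hm2
        _ ≤ ⌊u⌋₊ := Nat.mul_div_le _ _
    · intro p hp hpd
      rcases (Nat.Prime.dvd_mul (hS p hp)).mp hpd with h | h
      · exact hkS p hp h
      · exact hm3 p (Finset.mem_union_left _ hp) h
  · intro d hd hd2
    simp only [DS, mem_image, mem_filter, mem_Ioc] at hd hd2
    obtain ⟨⟨⟨hd1, hd3⟩, hd4⟩, m, rfl⟩ := hd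
    rw [moebius_eq_zero_of_not_squarefree]
    · simp
    intro hsq
    apply hd2
    refine ⟨m, ⟨⟨?_, ?_⟩, ?_⟩, rfl⟩
    · exact Nat.pos_of_ne_zero (by rintro rfl; simp at hd1)
    · rw [hN, Nat.floor_div_natCast]
      exact (Nat.le_div_iff_mul_le hk0).mpr (by rw [mul_comm]; exact hd3)
    · intro p hp hpm
      rcases Finset.mem_union.mp hp with h | h
      · exact hd4 p h (Dvd.dvd.mul_left hpm k)
      · have hpp : p * p ∣ k * m := Nat.mul_dvd_mul (Nat.dvd_of_mem_primeFactors h) hpm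
        have := hsq p hpp
        exact (Nat.prime_of_mem_primeFactors h).one_lt.ne' (Nat.isUnit_iff.mp this)

lemma yk_zero (S : Finset ℕ) (u : ℝ) {k : ℕ} (hk : ¬ (Squarefree k ∧ ∀ p ∈ S, ¬ p ∣ k)) :
    yk S u k = 0 := by
  unfold yk
  refine Finset.sum_eq_zero fun m hm => ?_
  simp only [DS, mem_filter, mem_Ioc] at hm
  obtain ⟨⟨_, h2⟩, h3⟩ := hm
  by_cases hsq : Squarefree m
  · exfalso
    apply hk
    exact ⟨hsq.squarefree_of_dvd h3, fun p hp hpk => h2 p hp (hpk.trans h3)⟩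
  · rw [moebius_eq_zero_of_not_squarefree hsq]
    simp

lemma eulerFac_union_le {S : Finset ℕ} (hS : ∀ p ∈ S, p.Prime) {k : ℕ} (hk : k ≠ 0)
    (hkS : ∀ p ∈ S, ¬ p ∣ k) :
    eulerFac (S ∪ k.primeFactors) = eulerFac S * (k / (Nat.totient k : ℝ)) := by
  unfold eulerFac
  rw [Finset.prod_union]
  · congr 1
    have h1 := Nat.totient_eq_mul_prod_factors k
    have h2 : ((Nat.totient k : ℕ) : ℝ) = k * ∏ p ∈ k.primeFactors, (1 - (p : ℝ)⁻¹) := by
      have := congrArg (fun x : ℚ => (x : ℝ)) h1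
      push_cast at this
      exact this
    have hk' : (k : ℝ) ≠ 0 := by exact_mod_cast hk
    have h3 : ∏ p ∈ k.primeFactors, (1 - (p : ℝ)⁻¹) ≠ 0 := by
      refine Finset.prod_ne_zero_iff.mpr fun p hp => ?_
      have hp' : (1 : ℝ) < p := by exact_mod_cast (Nat.prime_of_mem_primeFactors hp).one_lt
      have : (p : ℝ)⁻¹ < 1 := inv_lt_one_of_one_lt₀ hp'
      linarith
    rw [h2, Finset.prod_inv_distrib]
    simp_rw [one_div]
    field_simp
  · rw [Finset.disjoint_left]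
    intro p hp hpk
    exact hkS p hp (Nat.dvd_of_mem_primeFactors hpk)

lemma eulerFac_pos' {S : Finset ℕ} (hS : ∀ p ∈ S, p.Prime) : 0 < eulerFac S := by
  unfold eulerFac
  refine Finset.prod_pos fun p hp => ?_
  have hp' : (1 : ℝ) < p := by exact_mod_cast (hS p hp).one_lt
  have : 1 / (p : ℝ) < 1 := by rw [div_lt_one (by linarith)]; exact hp'
  exact inv_pos.mpr (by linarith)

lemma abs_yk_le {S : Finset ℕ} (hS : ∀ p ∈ S, p.Prime) (u : ℝ) {k : ℕ} (hk : Squarefree k)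
    (hkS : ∀ p ∈ S, ¬ p ∣ k) :
    |yk S u k| ≤ 4 * eulerFac S / (Nat.totient k : ℝ) := by
  have hk0 : k ≠ 0 := hk.ne_zero
  have hkr : (0 : ℝ) < k := by exact_mod_cast Nat.pos_of_ne_zero hk0
  rw [yk_eq S u hk hkS hS, abs_mul, abs_div, abs_of_pos hkr]
  have hμ : |(μ k : ℝ)| ≤ 1 := by exact_mod_cast abs_moebius_le_one (n := k)
  have hS' : ∀ r ∈ S ∪ k.primeFactors, r.Prime := by
    intro r hr
    rcases Finset.mem_union.mp hr with h | h
    · exact hS r h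
    · exact Nat.prime_of_mem_primeFactors h
  have h1 := abs_mset_le hS' (u / k)
  rw [eulerFac_union_le hS hk0 hkS] at h1
  have hφ : (0 : ℝ) < (Nat.totient k : ℝ) := by
    exact_mod_cast Nat.totient_pos.mpr (Nat.pos_of_ne_zero hk0)
  have hE := eulerFac_pos' hS
  calc |(μ k : ℝ)| / k * |mset (S ∪ k.primeFactors) (u / k)|
      ≤ 1 / k * (4 * (eulerFac S * (k / (Nat.totient k : ℝ)))) := by gcongr
    _ = _ := by field_simp

/-- the bilinear form -/
noncomputable def Qf (S : Finset ℕ) (u v : ℝ) : ℝ :=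
  ∑ m ∈ DS S ⌊u⌋₊, ∑ n ∈ DS S ⌊v⌋₊, ((μ m : ℝ) / m * Real.log (u / m)) *
    ((μ n : ℝ) / n * Real.log (v / n)) * (Nat.gcd m n : ℝ)

lemma Qf_eq (S : Finset ℕ) (u v : ℝ) (N : ℕ) (hu : ⌊u⌋₊ ≤ N) :
    Qf S u v = ∑ k ∈ Ioc 0 N, (Nat.totient k : ℝ) * (yk S u k * yk S v k) := by
  unfold Qf
  have h1 : ∀ m ∈ DS S ⌊u⌋₊, ∀ n ∈ DS S ⌊v⌋₊, (Nat.gcd m n : ℝ) =
      ∑ k ∈ Ioc 0 N, (Nat.totient k : ℝ) * ((if k ∣ m then 1 else 0) * (if k ∣ n then 1 else 0)) := by
    intro m hm n hn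
    simp only [DS, mem_filter, mem_Ioc] at hm hn
    have hg : 0 < Nat.gcd m n := Nat.gcd_pos_of_pos_left _ hm.1.1
    have h2 : (Nat.gcd m n).divisors = (Ioc 0 N).filter (fun k => k ∣ m ∧ k ∣ n) := by
      ext k
      simp only [Nat.mem_divisors, mem_filter, mem_Ioc, Nat.dvd_gcd_iff]
      constructor
      · rintro ⟨⟨h1, h2⟩, _⟩
        exact ⟨⟨Nat.pos_of_dvd_of_pos h1 hm.1.1, ((Nat.le_of_dvd hm.1.1 h1).trans hm.1.2).trans hu⟩, h1, h2⟩
      · rintro ⟨_, h1, h2⟩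
        exact ⟨⟨h1, h2⟩, hg.ne'⟩
    have h3 := Nat.sum_totient (Nat.gcd m n)
    rw [h2] at h3
    rw [← h3]
    push_cast
    rw [Finset.sum_filter]
    refine Finset.sum_congr rfl fun k _ => ?_
    by_cases h4 : k ∣ m <;> by_cases h5 : k ∣ n <;> simp [h4, h5]
  rw [Finset.sum_congr rfl fun m hm => Finset.sum_congr rfl fun n hn => by rw [h1 m hm n hn]]
  have h2 : ∀ m ∈ DS S ⌊u⌋₊, ∀ n ∈ DS S ⌊v⌋₊, ((μ m : ℝ) / m * Real.log (u / m)) *
    ((μ n : ℝ) / n * Real.log (v / n)) * ∑ k ∈ Ioc 0 N, (Nat.totient k : ℝ) *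
      ((if k ∣ m then 1 else 0) * (if k ∣ n then 1 else 0)) =
      ∑ k ∈ Ioc 0 N, (Nat.totient k : ℝ) * ((if k ∣ m then (μ m : ℝ) / m * Real.log (u / m) else 0) *
        (if k ∣ n then (μ n : ℝ) / n * Real.log (v / n) else 0)) := by
    intro m _ n _
    rw [Finset.mul_sum]
    refine Finset.sum_congr rfl fun k _ => ?_
    by_cases h4 : k ∣ m <;> by_cases h5 : k ∣ n <;> simp [h4, h5]
    ring
  rw [Finset.sum_congr rfl fun m hm => Finset.sum_congr rfl fun n hn => h2 m hm n hn]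
  rw [Finset.sum_congr rfl fun m _ => Finset.sum_comm, Finset.sum_comm]
  refine Finset.sum_congr rfl fun k _ => ?_
  unfold yk
  rw [Finset.sum_filter, Finset.sum_filter, Finset.sum_mul_sum, Finset.mul_sum]
  refine Finset.sum_congr rfl fun m _ => ?_
  rw [Finset.mul_sum]

lemma sum_inv_totient_le (S : Finset ℕ) (N : ℕ) :
    ∑ k ∈ (Ioc 0 N).filter (fun k => Squarefree k ∧ ∀ p ∈ S, ¬ p ∣ k), 1 / (Nat.totient k : ℝ) ≤
      ∏ p ∈ (Nat.primesLE N) \ S, (1 - 1 / (p : ℝ))⁻¹ := by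
  classical
  set s := (Nat.primesLE N) \ S with hs
  have hsp : ∀ p ∈ s, p.Prime := fun p hp => (Nat.mem_primesLE.mp (Finset.mem_sdiff.mp hp).1).2
  have h1 : ∏ p ∈ s, (1 - 1 / (p : ℝ))⁻¹ = ∏ p ∈ s, (1 + 1 / ((p : ℝ) - 1)) := by
    refine Finset.prod_congr rfl fun p hp => ?_
    have hp' : (1 : ℝ) < p := by exact_mod_cast (hsp p hp).one_lt
    have : (p : ℝ) - 1 ≠ 0 := by linarith
    have : (p : ℝ) ≠ 0 := by linarith
    field_simp
    ring
  rw [h1, Finset.prod_one_add]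
  have h2 : ∀ k ∈ (Ioc 0 N).filter (fun k => Squarefree k ∧ ∀ p ∈ S, ¬ p ∣ k),
      1 / (Nat.totient k : ℝ) = ∏ p ∈ k.primeFactors, 1 / ((p : ℝ) - 1) := by
    intro k hk
    simp only [mem_filter, mem_Ioc] at hk
    have h3 : (Nat.totient k) = ∏ p ∈ k.primeFactors, (p - 1) := by
      have := Nat.totient_eq_div_primeFactors_mul k
      rw [Nat.prod_primeFactors_of_squarefree hk.2.1, Nat.div_self hk.1.1, one_mul] at this
      exact this
    rw [h3]
    push_cast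
    rw [Finset.prod_div_distrib, Finset.prod_const_one]
    congr 1
    refine Finset.prod_congr rfl fun p hp => ?_
    rw [Nat.cast_sub (Nat.prime_of_mem_primeFactors hp).one_lt.le]
    simp
  rw [Finset.sum_congr rfl h2]
  have hinj : Set.InjOn (fun k : ℕ => k.primeFactors)
      ((Ioc 0 N).filter (fun k => Squarefree k ∧ ∀ p ∈ S, ¬ p ∣ k) : Set ℕ) := by
    intro a ha b hb hab
    simp only [Finset.coe_filter, Set.mem_ofPred_eq] at ha hb
    rw [← Nat.prod_primeFactors_of_squarefree ha.2.1, ← Nat.prod_primeFactors_of_squarefree hb.2.1]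
    have : a.primeFactors = b.primeFactors := hab
    rw [this]
  rw [← Finset.sum_image (f := fun A : Finset ℕ => ∏ p ∈ A, 1 / ((p : ℝ) - 1)) hinj]
  refine Finset.sum_le_sum_of_subset_of_nonneg ?_ ?_
  · intro A hA
    obtain ⟨k, hk, rfl⟩ := Finset.mem_image.mp hA
    simp only [mem_filter, mem_Ioc] at hk
    rw [Finset.mem_powerset]
    intro p hp
    rw [hs, Finset.mem_sdiff, Nat.mem_primesLE]
    have hpd := Nat.dvd_of_mem_primeFactors hp
    exact ⟨⟨(Nat.le_of_dvd hk.1.1 hpd).trans hk.1.2, Nat.prime_of_mem_primeFactors hp⟩,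
      fun h => hk.2.2 p h hpd⟩
  · intro A hA _
    refine Finset.prod_nonneg fun p hp => ?_
    have hp' : (1 : ℝ) < p := by exact_mod_cast (hsp p (Finset.mem_powerset.mp hA hp)).one_lt
    have : 0 < (p : ℝ) - 1 := by linarith
    positivity

/-- **bound for the bilinear form** -/
theorem abs_Qf_le {S : Finset ℕ} (hS : ∀ p ∈ S, p.Prime) (u v : ℝ) (N : ℕ) (hu : ⌊u⌋₊ ≤ N) :
    |Qf S u v| ≤ 16 * eulerFac S ^ 2 * ∏ p ∈ (Nat.primesLE N) \ S, (1 - 1 / (p : ℝ))⁻¹ := by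
  classical
  rw [Qf_eq S u v N hu]
  have h1 : ∑ k ∈ Ioc 0 N, (Nat.totient k : ℝ) * (yk S u k * yk S v k) =
      ∑ k ∈ (Ioc 0 N).filter (fun k => Squarefree k ∧ ∀ p ∈ S, ¬ p ∣ k),
        (Nat.totient k : ℝ) * (yk S u k * yk S v k) := by
    symm
    apply Finset.sum_subset (Finset.filter_subset _ _)
    intro k hk hk2
    have : ¬ (Squarefree k ∧ ∀ p ∈ S, ¬ p ∣ k) := fun h => hk2 (Finset.mem_filter.mpr ⟨hk, h⟩)
    rw [yk_zero S u this]
    ring
  rw [h1]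
  refine (Finset.abs_sum_le_sum_abs _ _).trans ?_
  refine le_trans (Finset.sum_le_sum fun k hk => ?_)
    ((le_of_eq (Finset.mul_sum _ _ _).symm).trans
      (mul_le_mul_of_nonneg_left (sum_inv_totient_le S N) (by positivity)))
  simp only [mem_filter, mem_Ioc] at hk
  have hφ : (0 : ℝ) < (Nat.totient k : ℝ) := by
    exact_mod_cast Nat.totient_pos.mpr hk.1.1
  have hE := eulerFac_pos' hS
  rw [abs_mul, abs_mul, abs_of_pos hφ]
  calc (Nat.totient k : ℝ) * (|yk S u k| * |yk S v k|)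
      ≤ (Nat.totient k : ℝ) * ((4 * eulerFac S / (Nat.totient k : ℝ)) *
        (4 * eulerFac S / (Nat.totient k : ℝ))) := by
        gcongr
        · exact abs_yk_le hS u hk.2.1 hk.2.2
        · exact abs_yk_le hS v hk.2.1 hk.2.2
    _ = _ := by field_simp; ring

end Pool.Agent.H14.PT
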