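import Pool.Agent.H14.PT.S2d
import Pool.Agent.H14.Moments

/-!
# The first moment: preparations
-/

set_option linter.unusedSectionVars false

namespace Pool.Agent.H14.PT

open Finset
open scoped ComplexConjugate Real

lemma abs_W_le {x : ℝ} (hx : 0 < x) (hx1 : x ≤ 1) : |W x| ≤ 3 := by
  have h1 := W_lower hx
  have h2 := Z_upper hx
  rw [Z_eq_W hx] at h2
  have h3 : √(1 + x) ≤ 1.5 := by
    rw [Real.sqrt_le_left (by norm_num)]
    norm_num
    linarith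
  have h4 : 0 < 1 / √(1 + x) := by positivity
  have h5 : 0 ≤ √2 := Real.sqrt_nonneg _
  rw [abs_le]
  constructor <;> linarith

variable {q : ℕ} [Fact q.Prime]

/-- the coefficient of `χ(k)` in `L(1/2, χ)` -/
noncomputable def cZ (q k : ℕ) : ℝ := (k : ℝ) ^ (-(1 / 2) : ℝ) + (1 / √q) * W ((k : ℝ) / q)

lemma cZ_sub (k : ℕ) (hk : k ∈ Icc 1 (q - 1)) : |cZ q k - (k : ℝ) ^ (-(1 / 2) : ℝ)| ≤ 3 / √q := by
  obtain ⟨h1, h2⟩ := Finset.mem_Icc.mp hk
  have hq0 : (0 : ℝ) < q := by exact_mod_cast (Fact.out : q.Prime).pos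
  have hk0 : (0 : ℝ) < k := by exact_mod_cast h1
  have hkq : (k : ℝ) ≤ q := by exact_mod_cast (by omega : k ≤ q)
  unfold cZ
  rw [add_sub_cancel_left, abs_mul, abs_of_nonneg (by positivity : (0 : ℝ) ≤ 1 / √q)]
  have := abs_W_le (x := (k : ℝ) / q) (by positivity) (by rw [div_le_one hq0]; exact hkq)
  calc 1 / √(q : ℝ) * |W (k / q)| ≤ 1 / √(q : ℝ) * 3 := by gcongr
    _ = _ := by ring

lemma LFunction_half_nat (χ : DirichletCharacter ℂ q) :
    χ.LFunction (1 / 2) = ∑ k ∈ Icc 1 (q - 1), ((cZ q k : ℝ) : ℂ) * χ (k : ZMod q) := by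
  have hqp : q.Prime := Fact.out
  have hq0 : (0 : ℝ) < q := by exact_mod_cast hqp.pos
  rw [LFunction_half_eq hqp.one_lt, Finset.mul_sum]
  have h1 : ∑ j : ZMod q, ((1 / √q : ℝ) : ℂ) * (χ j * ((Z ((j.val : ℝ) / q) : ℝ) : ℂ)) =
      ∑ j ∈ (univ : Finset (ZMod q)).filter (fun j => j ≠ 0),
        ((1 / √q : ℝ) : ℂ) * (χ j * ((Z ((j.val : ℝ) / q) : ℝ) : ℂ)) := by
    rw [Finset.sum_filter]
    refine Finset.sum_congr rfl fun j _ => ?_
    by_cases hj : j = 0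
    · subst hj
      rw [MulChar.map_zero]
      simp
    · rw [if_pos hj]
  rw [h1]
  refine Finset.sum_bij' (fun j _ => j.val) (fun k _ => (k : ZMod q)) ?_ ?_ ?_ ?_ ?_
  · intro j hj
    have hj0 : j ≠ 0 := (Finset.mem_filter.mp hj).2
    have h2 : 0 < j.val := Nat.pos_of_ne_zero (by rwa [Ne, ZMod.val_eq_zero])
    have h3 := ZMod.val_lt j
    rw [Finset.mem_Icc]
    omega
  · intro k hk
    obtain ⟨a, b⟩ := Finset.mem_Icc.mp hk
    have := hqp.one_lt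
    refine Finset.mem_filter.mpr ⟨Finset.mem_univ _, ?_⟩
    intro h0
    rw [ZMod.natCast_eq_zero_iff] at h0
    exact absurd (Nat.le_of_dvd (by omega) h0) (by omega)
  · intro j _
    exact ZMod.natCast_zmod_val j
  · intro k hk
    obtain ⟨a, b⟩ := Finset.mem_Icc.mp hk
    have := hqp.one_lt
    exact ZMod.val_natCast_of_lt (by omega)
  · intro j hj
    have hj0 : j ≠ 0 := (Finset.mem_filter.mp hj).2
    have h2 : 0 < j.val := Nat.pos_of_ne_zero (by rwa [Ne, ZMod.val_eq_zero])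
    have hv : (0 : ℝ) < j.val := by exact_mod_cast h2
    rw [ZMod.natCast_zmod_val]
    have h3 : (1 / √(q : ℝ)) * Z ((j.val : ℝ) / q) = cZ q j.val := by
      unfold cZ
      rw [Z_eq_W (by positivity), mul_add]
      congr 1
      rw [Real.sqrt_div hv.le, Real.rpow_neg hv.le, ← Real.sqrt_eq_rpow]
      field_simp
    rw [← h3]
    push_cast
    ring

/-- sum over characters: orthogonality in the first moment -/
lemma first_moment (X : Subgroup (DirichletCharacter ℂ q)) (χ0 : DirichletCharacter ℂ q)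
    (Mf : Finset ℕ) (w : ℕ → ℝ) [DecidablePred fun i : ℕ × ℕ => InC (ann X) 1 (i.1 * i.2) 1] :
    ∑ χ ∈ Xs X, Mol Mf w (χ0 * χ) * (χ0 * χ).LFunction (1 / 2) =
      ((Xs X).card : ℂ) * ∑ i ∈ (Mf ×ˢ Icc 1 (q - 1)).filter (fun i => InC (ann X) 1 (i.1 * i.2) 1),
        ((w i.1 * (i.1 : ℝ) ^ (-(1 / 2) : ℝ) * cZ q i.2 : ℝ) : ℂ) * χ0 ((i.1 * i.2 : ℕ) : ZMod q) := by
  have h1 : ∀ χ : DirichletCharacter ℂ q, Mol Mf w (χ0 * χ) * (χ0 * χ).LFunction (1 / 2) =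
      ∑ i ∈ Mf ×ˢ Icc 1 (q - 1), ((w i.1 * (i.1 : ℝ) ^ (-(1 / 2) : ℝ) * cZ q i.2 : ℝ) : ℂ) *
        ((χ0 * χ) ((i.1 * i.2 : ℕ) : ZMod q) * conj ((χ0 * χ) ((1 : ℕ) : ZMod q))) := by
    intro χ
    rw [LFunction_half_nat]
    unfold Mol
    rw [Finset.sum_mul_sum, Finset.sum_product]
    refine Finset.sum_congr rfl fun m _ => Finset.sum_congr rfl fun k _ => ?_
    push_cast
    simp only [map_mul, map_one, mul_one]
    ring
  simp_rw [h1]
  rw [Finset.sum_comm, Finset.mul_sum, Finset.sum_filter]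
  refine Finset.sum_congr rfl fun i _ => ?_
  classical
  rw [← Finset.mul_sum, ortho]
  split_ifs
  · simp only [Nat.cast_one, map_one, mul_one]
    ring
  · ring

/-- number of solutions of `m k ∈ H` -/
lemma card_k_le (X : Subgroup (DirichletCharacter ℂ q)) {m : ℕ} (hm1 : 1 ≤ m) (hmq : m < q)
    [DecidablePred fun k : ℕ => InC (ann X) 1 (m * k) 1] :
    ((Icc 1 (q - 1)).filter (fun k => InC (ann X) 1 (m * k) 1)).card ≤ Nat.card (ann X) := by
  have hqp : q.Prime := Fact.out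
  rw [card_ann]
  refine Finset.card_le_card_of_injOn (fun k => ((m * k : ℕ) : ZMod q)) ?_ ?_
  · intro k hk
    obtain ⟨_, h, hh, e⟩ := Finset.mem_filter.mp (Finset.mem_coe.mp hk)
    have e' : ((m * k : ℕ) : ZMod q) = (h : ZMod q) := by
      rw [e]; simp
    show ((m * k : ℕ) : ZMod q) ∈ (Hs X : Set (ZMod q))
    rw [e']
    exact Finset.mem_coe.mpr (mem_ann.mp hh)
  · intro k hk k' hk' he
    have h1 := Finset.mem_Icc.mp (Finset.mem_filter.mp (Finset.mem_coe.mp hk)).1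
    have h2 := Finset.mem_Icc.mp (Finset.mem_filter.mp (Finset.mem_coe.mp hk')).1
    have he' : ((m * k : ℕ) : ZMod q) = ((m * k' : ℕ) : ZMod q) := he
    have hm0 : (m : ZMod q) ≠ 0 := by
      intro h0
      rw [ZMod.natCast_eq_zero_iff] at h0
      exact absurd (Nat.le_of_dvd (by omega) h0) (by omega)
    rw [Nat.cast_mul, Nat.cast_mul] at he'
    have h3 := mul_left_cancel₀ hm0 he'
    have := hqp.one_lt
    have h4 := congrArg ZMod.val h3
    rwa [ZMod.val_natCast_of_lt (by omega), ZMod.val_natCast_of_lt (by omega)] at h4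

/-- replacing the coefficient by the main term -/
lemma first_moment_err (X : Subgroup (DirichletCharacter ℂ q)) (χ0 : DirichletCharacter ℂ q)
    (Mf : Finset ℕ) (w : ℕ → ℝ) (Y : ℕ) (hM : ∀ m ∈ Mf, 1 ≤ m ∧ m ≤ Y) (hY : Y < q)
    (hw : ∀ m, |w m| ≤ 1) [DecidablePred fun i : ℕ × ℕ => InC (ann X) 1 (i.1 * i.2) 1] :
    ‖∑ i ∈ (Mf ×ˢ Icc 1 (q - 1)).filter (fun i => InC (ann X) 1 (i.1 * i.2) 1),
        ((w i.1 * (i.1 : ℝ) ^ (-(1 / 2) : ℝ) * cZ q i.2 : ℝ) : ℂ) * χ0 ((i.1 * i.2 : ℕ) : ZMod q) -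
      ∑ i ∈ (Mf ×ˢ Icc 1 (q - 1)).filter (fun i => InC (ann X) 1 (i.1 * i.2) 1),
        ((w i.1 * (((i.1 * i.2 : ℕ) : ℝ)) ^ (-(1 / 2) : ℝ) : ℝ) : ℂ) * χ0 ((i.1 * i.2 : ℕ) : ZMod q)‖
      ≤ 3 / √q * (Y * Nat.card (ann X)) := by
  classical
  rw [← Finset.sum_sub_distrib]
  refine (norm_sum_le _ _).trans ?_
  have h1 : ∀ i ∈ (Mf ×ˢ Icc 1 (q - 1)).filter (fun i => InC (ann X) 1 (i.1 * i.2) 1),
      ‖((w i.1 * (i.1 : ℝ) ^ (-(1 / 2) : ℝ) * cZ q i.2 : ℝ) : ℂ) * χ0 ((i.1 * i.2 : ℕ) : ZMod q) -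
      ((w i.1 * (((i.1 * i.2 : ℕ) : ℝ)) ^ (-(1 / 2) : ℝ) : ℝ) : ℂ) * χ0 ((i.1 * i.2 : ℕ) : ZMod q)‖ ≤
      3 / √q := by
    intro i hi
    obtain ⟨h2, _⟩ := Finset.mem_filter.mp hi
    obtain ⟨h3, h4⟩ := Finset.mem_product.mp h2
    obtain ⟨h5, _⟩ := hM _ h3
    have hm0 : (0 : ℝ) < i.1 := by exact_mod_cast h5
    have hk := (Finset.mem_Icc.mp h4).1
    have hk0 : (0 : ℝ) < i.2 := by exact_mod_cast hk
    rw [← sub_mul, ← Complex.ofReal_sub, norm_mul, Complex.norm_real, Real.norm_eq_abs]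
    have e1 : w i.1 * (i.1 : ℝ) ^ (-(1 / 2) : ℝ) * cZ q i.2 - w i.1 * (((i.1 * i.2 : ℕ) : ℝ)) ^ (-(1 / 2) : ℝ)
        = w i.1 * (i.1 : ℝ) ^ (-(1 / 2) : ℝ) * (cZ q i.2 - (i.2 : ℝ) ^ (-(1 / 2) : ℝ)) := by
      rw [Nat.cast_mul, Real.mul_rpow hm0.le hk0.le]
      ring
    rw [e1, abs_mul, abs_mul]
    have e2 : |(i.1 : ℝ) ^ (-(1 / 2) : ℝ)| ≤ 1 := by
      rw [abs_of_nonneg (by positivity)]
      exact Real.rpow_le_one_of_one_le_of_nonpos (by exact_mod_cast h5) (by norm_num)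
    have e3 := cZ_sub i.2 h4
    have e4 := norm_chi_le χ0 ((i.1 * i.2 : ℕ) : ZMod q)
    have e5 : (0 : ℝ) ≤ 3 / √q := by positivity
    calc |w i.1| * |(i.1 : ℝ) ^ (-(1 / 2) : ℝ)| * |cZ q i.2 - (i.2 : ℝ) ^ (-(1 / 2) : ℝ)| *
          ‖χ0 ((i.1 * i.2 : ℕ) : ZMod q)‖ ≤ 1 * 1 * (3 / √q) * 1 := by
          gcongr
          exact hw _
      _ = _ := by ring
  refine (Finset.sum_le_sum h1).trans ?_
  rw [Finset.sum_const, nsmul_eq_mul, mul_comm]
  refine mul_le_mul_of_nonneg_left ?_ (by positivity)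
  have h2 : ((Mf ×ˢ Icc 1 (q - 1)).filter (fun i => InC (ann X) 1 (i.1 * i.2) 1)).card ≤
      Y * Nat.card (ann X) := by
    have h3 : ((Mf ×ˢ Icc 1 (q - 1)).filter (fun i => InC (ann X) 1 (i.1 * i.2) 1)).card =
        ∑ m ∈ Mf, ((Icc 1 (q - 1)).filter (fun k => InC (ann X) 1 (m * k) 1)).card := by
      rw [Finset.card_filter, Finset.sum_product]
      refine Finset.sum_congr rfl fun m _ => ?_
      rw [Finset.card_filter]
      refine Finset.sum_congr rfl fun k _ => ?_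
      by_cases hc : InC (ann X) 1 (m * k) 1
      · rw [if_pos hc, if_pos hc]
      · rw [if_neg hc, if_neg hc]
    rw [h3]
    calc _ ≤ ∑ _m ∈ Mf, Nat.card (ann X) := Finset.sum_le_sum fun m hm =>
          card_k_le X (hM m hm).1 ((hM m hm).2.trans_lt hY)
      _ = Mf.card * Nat.card (ann X) := by rw [Finset.sum_const, smul_eq_mul]
      _ ≤ _ := by
          refine Nat.mul_le_mul_right _ ?_
          have : Mf ⊆ Icc 1 Y := fun m hm => Finset.mem_Icc.mpr (hM m hm)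
          have := Finset.card_le_card this
          simpa using this
  exact_mod_cast h2

end Pool.Agent.H14.PT
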