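import Pool.Agent.H14.PT.S1b

/-!
# The first moment: lower bound
-/

set_option linter.unusedSectionVars false

namespace Pool.Agent.H14.PT

open Finset
open scoped ComplexConjugate Real

/-- **the mollified first moment** -/
theorem S1_total (ε : ℝ) (hε : 0 < ε) (hε1 : ε ≤ 1 / 3) : ∃ Q0 : ℝ, ∀ (q : ℕ) [Fact q.Prime],
    Q0 ≤ Real.log q → Big (Real.log q) → ∀ (X : Subgroup (DirichletCharacter ℂ q))
    (χ0 : DirichletCharacter ℂ q),
    Real.log (Nat.card (ann X)) ≤ (1 / 3 - ε) * Real.log q →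
    ((Xs X).card : ℝ) / 2 ≤ ‖∑ χ ∈ Xn X χ0,
      Mol (MfS (zz (Real.log q)) (YY (Real.log q)) (YY (Real.log q)))
        (wS (zz (Real.log q)) (YY (Real.log q)) (YY (Real.log q))) (χ0 * χ) *
        DirichletCharacter.LFunction (χ0 * χ) (1 / 2)‖ := by
  classical
  obtain ⟨Q1, hsumL⟩ := sum_L ε hε hε1
  refine ⟨Q1, ?_⟩
  intro q _ hq hB X χ0 hH
  have hqp : q.Prime := Fact.out
  have hq0 : (0 : ℝ) < q := by exact_mod_cast hqp.pos
  have hXge := card_X_ge hB hε X hH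
  have hqe : Real.exp (Real.log q) = q := Real.exp_log hq0
  have hL' := hsumL q hq (ann X) hH
  have hR' := fun P hP => sum_R1 hB hε (ann X) hH P hP
  have hLb := norm_LFunction_half_le (1 : DirichletCharacter ℂ q)
  have hd1 := card_ge_one (ann X)
  set L := Real.log q with hL
  have hL100 := hB.hL
  have hL24 := hB.hL24
  have hLpos : 0 < L := by linarith
  set Y := YY L with hY
  set z := zz L with hz
  have hYhi : (Y : ℝ) ≤ Real.exp (L / 1000) := hB.Y_hi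
  have hYlo : Real.exp (L / 1000) / 2 ≤ (Y : ℝ) := hB.Y_lo
  have hY2 : 2 ≤ Y := hB.z_two.trans hB.zY
  have hYY : ((Y * Y : ℕ) : ℝ) ≤ Real.exp (0.002 * L) := by
    push_cast
    calc (Y : ℝ) * Y ≤ Real.exp (L / 1000) * Real.exp (L / 1000) := by gcongr
      _ = Real.exp (0.002 * L) := by rw [← Real.exp_add]; congr 1; ring
  have hYq : Y * Y < q := by
    have : ((Y * Y : ℕ) : ℝ) < q := by
      calc _ ≤ Real.exp (0.002 * L) := hYY
        _ < Real.exp L := Real.exp_lt_exp.mpr (by linarith)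
        _ = q := hqe
    exact_mod_cast this
  have hYq1 : Y < q := lt_of_le_of_lt (Nat.le_mul_of_pos_left _ (by omega)) hYq
  set U : ℝ := Real.exp (1 / 10 ^ 8 * L) with hU
  have hUY : U ≤ Y := by
    refine le_trans ?_ hYlo
    have h1 : (2 : ℝ) ≤ Real.exp (0.0009 * L) := by
      have := Real.add_one_le_exp (0.0009 * L)
      linarith
    have h2 : U * 2 ≤ Real.exp (L / 1000) := by
      calc U * 2 ≤ U * Real.exp (0.0009 * L) := by gcongr
        _ = Real.exp (1 / 10 ^ 8 * L + 0.0009 * L) := by rw [hU, ← Real.exp_add]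
        _ ≤ _ := Real.exp_le_exp.mpr (by linarith)
    linarith
  set Mf := MfS z Y Y with hMf
  set w := wS z Y Y with hw
  set P : Finset ℕ := ((Mf ×ˢ Icc 1 (q - 1)).filter (fun i => InC (ann X) 1 (i.1 * i.2) 1)).image
    (fun i => i.1 * i.2) with hPdef
  have hP : ∀ x, x ∈ P ↔ ∃ m ∈ MfS z Y Y, ∃ k ∈ Icc 1 (q - 1), x = m * k ∧ InC (ann X) 1 (m * k) 1 := by
    intro x
    rw [hPdef, Finset.mem_image]
    constructor
    · rintro ⟨i, hi, rfl⟩
      obtain ⟨h1, h2⟩ := Finset.mem_filter.mp hi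
      obtain ⟨h3, h4⟩ := Finset.mem_product.mp h1
      exact ⟨i.1, h3, i.2, h4, rfl, h2⟩
    · rintro ⟨m, hm, k, hk, rfl, h⟩
      exact ⟨(m, k), Finset.mem_filter.mpr ⟨Finset.mem_product.mpr ⟨hm, hk⟩, h⟩, rfl⟩
  have hmain := main_term z Y (ann X) χ0 U hY2 hUY hYq1 P hP
  have herr := first_moment_err X χ0 Mf w (Y * Y) (fun m hm => MfS_bounds hm) hYq
    (fun m => abs_wS_le hY2 m)
  have hfm := first_moment X χ0 Mf w
  -- size facts for elements of P
  have hPx : ∀ x ∈ P, CP (ann X) 1 (x, 1) ∧ (((x, 1) : ℕ × ℕ).1 * ((x, 1) : ℕ × ℕ).2 = x) ∧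
      (x : ℝ) ≤ Real.exp (1.05 * L) := by
    intro x hx
    obtain ⟨m, hm, k, hk, rfl, h⟩ := (hP x).mp hx
    have hm1 := MfS_bounds hm
    obtain ⟨hk1, hk2⟩ := Finset.mem_Icc.mp hk
    refine ⟨⟨Nat.coprime_one_right _, Nat.mul_ne_zero (by omega) (by omega), by norm_num, h⟩, by simp, ?_⟩
    have h1 : ((m * k : ℕ) : ℝ) ≤ ((Y * Y * q : ℕ) : ℝ) := by
      exact_mod_cast Nat.mul_le_mul hm1.2 (by omega)
    calc ((m * k : ℕ) : ℝ) ≤ ((Y * Y * q : ℕ) : ℝ) := h1
      _ = ((Y * Y : ℕ) : ℝ) * q := by push_cast; ring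
      _ ≤ Real.exp (0.002 * L) * Real.exp L := by
          rw [hqe]; gcongr
      _ = Real.exp (1.002 * L) := by rw [← Real.exp_add]; congr 1; ring
      _ ≤ _ := Real.exp_le_exp.mpr (by linarith)
  -- the sum of T0
  set Q := (P.erase 1).filter (fun x : ℕ => ¬ ((x : ℝ) ≤ U ∧ ∃ r, r.Prime ∧ r ≤ z ∧ r ∣ x)) with hQ
  have hT : ∑ x ∈ Q, T0 (x, 1) ≤ 1 / 8 := by
    rw [← Finset.sum_filter_add_sum_filter_not Q (fun x : ℕ => (x : ℝ) ≤ U)]
    have hpair : ∀ S : Finset ℕ, ∑ x ∈ S, T0 (x, 1) = ∑ p ∈ S ×ˢ ({1} : Finset ℕ), T0 p := by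
      intro S
      rw [Finset.sum_product]
      simp
    have h16 : (0 : ℝ) < 16 * L ^ 4 := by positivity
    have h16' : 16 ≤ 16 * L ^ 4 := by
      have : 1 ≤ L ^ 4 := one_le_pow₀ (by linarith)
      linarith
    have hA : ∑ x ∈ Q.filter (fun x : ℕ => (x : ℝ) ≤ U), T0 (x, 1) * (16 * L ^ 4) ≤ 1 := by
      rw [← Finset.sum_mul, hpair, Finset.sum_mul]
      refine hR' _ ?_
      intro p hp
      obtain ⟨h1, h2⟩ := Finset.mem_product.mp hp
      obtain ⟨h3, h4⟩ := Finset.mem_filter.mp h1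
      obtain ⟨h5, h6⟩ := Finset.mem_filter.mp h3
      obtain ⟨h7, h8⟩ := Finset.mem_erase.mp h5
      have hp2 : p.2 = 1 := Finset.mem_singleton.mp h2
      have hpe : p = (p.1, 1) := Prod.ext rfl hp2
      obtain ⟨g1, g2, g3⟩ := hPx p.1 h8
      have hx0 : p.1 ≠ 0 := g1.2.1
      have hrough : ∀ r, r.Prime → r ∣ p.1 → z < r := by
        intro r hr hrd
        by_contra hc
        exact h6 ⟨h4, r, hr, by omega, hrd⟩
      rw [hpe]
      simp only [mul_one]
      refine ⟨g1, rough_ge hx0 h7 hrough, h4, ?_⟩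
      unfold Few
      have h9 := rough_Omega p.1 hx0 hrough
      have hlz : 0 < Real.log z := by have := hB.logz_100; linarith
      have h10 : (ArithmeticFunction.cardFactors p.1 : ℝ) ≤ Real.log p.1 / Real.log z := by
        rw [le_div_iff₀ hlz]; exact h9
      linarith
    have hBd : ∑ x ∈ Q.filter (fun x : ℕ => ¬ (x : ℝ) ≤ U), T0 (x, 1) * (16 * L ^ 4) ≤ 1 := by
      rw [← Finset.sum_mul, hpair, Finset.sum_mul]
      refine hL' _ ?_
      intro p hp
      obtain ⟨h1, h2⟩ := Finset.mem_product.mp hp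
      obtain ⟨h3, h4⟩ := Finset.mem_filter.mp h1
      obtain ⟨h5, h6⟩ := Finset.mem_filter.mp h3
      obtain ⟨h7, h8⟩ := Finset.mem_erase.mp h5
      have hp2 : p.2 = 1 := Finset.mem_singleton.mp h2
      have hpe : p = (p.1, 1) := Prod.ext rfl hp2
      obtain ⟨g1, g2, g3⟩ := hPx p.1 h8
      push Not at h4
      rw [hpe]
      simp only [mul_one]
      exact ⟨g1, h4.le, g3⟩
    rw [← Finset.sum_mul] at hA hBd
    have hA0 : 0 ≤ ∑ x ∈ Q.filter (fun x : ℕ => (x : ℝ) ≤ U), T0 (x, 1) :=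
      Finset.sum_nonneg fun x _ => T0_nonneg _
    have hB0 : 0 ≤ ∑ x ∈ Q.filter (fun x : ℕ => ¬ (x : ℝ) ≤ U), T0 (x, 1) :=
      Finset.sum_nonneg fun x _ => T0_nonneg _
    nlinarith
  -- the error term
  have hE : 3 / √(q : ℝ) * (((Y * Y : ℕ) : ℝ) * Nat.card (ann X)) ≤ 1 / 8 := by
    have hd2 : (Nat.card (ann X) : ℝ) ≤ Real.exp (1 / 3 * L) := by
      rw [← Real.exp_log (show (0 : ℝ) < Nat.card (ann X) by linarith)]
      apply Real.exp_le_exp.mpr
      nlinarith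
    have hs : √(q : ℝ) = Real.exp (L / 2) := by
      rw [← hqe, Real.sqrt_eq_iff_mul_self_eq (Real.exp_pos _).le (Real.exp_pos _).le, ← Real.exp_add]
      congr 1; ring
    have hexp : (24 : ℝ) ≤ Real.exp (0.16 * L) := by
      have := Real.add_one_le_exp (0.16 * L)
      linarith
    rw [hs]
    calc 3 / Real.exp (L / 2) * (((Y * Y : ℕ) : ℝ) * Nat.card (ann X))
        ≤ 3 / Real.exp (L / 2) * (Real.exp (0.002 * L) * Real.exp (1 / 3 * L)) := by gcongr
      _ = 3 * Real.exp (-(L / 2) + (0.002 * L + 1 / 3 * L)) := by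
          rw [Real.exp_add, Real.exp_add, Real.exp_neg]; ring
      _ ≤ 3 * Real.exp (-(0.16 * L)) := by
          gcongr
          linarith
      _ ≤ 1 / 8 := by
          rw [Real.exp_neg, ← div_eq_mul_inv, div_le_div_iff₀ (Real.exp_pos _) (by norm_num)]
          linarith
  have hS : ‖∑ i ∈ (Mf ×ˢ Icc 1 (q - 1)).filter (fun i => InC (ann X) 1 (i.1 * i.2) 1),
        ((w i.1 * (i.1 : ℝ) ^ (-(1 / 2) : ℝ) * cZ q i.2 : ℝ) : ℂ) * χ0 ((i.1 * i.2 : ℕ) : ZMod q) - 1‖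
      ≤ 1 / 4 := by
    have h1 := norm_add_le _ _ |>.trans (add_le_add herr hmain)
    rw [sub_add_sub_cancel] at h1
    refine h1.trans ?_
    have h2 := hT
    linarith
  set S := ∑ i ∈ (Mf ×ˢ Icc 1 (q - 1)).filter (fun i => InC (ann X) 1 (i.1 * i.2) 1),
        ((w i.1 * (i.1 : ℝ) ^ (-(1 / 2) : ℝ) * cZ q i.2 : ℝ) : ℂ) * χ0 ((i.1 * i.2 : ℕ) : ZMod q) with hSdef
  have hS2 : 3 / 4 ≤ ‖S‖ := by
    have h1 : ‖(1 : ℂ)‖ ≤ ‖S‖ + ‖S - 1‖ := by
      have := norm_sub_le S (S - 1)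
      rwa [sub_sub_cancel] at this
    rw [norm_one] at h1
    linarith
  have hXc : (0 : ℝ) ≤ ((Xs X).card : ℝ) := by positivity
  have hfull : 3 / 4 * ((Xs X).card : ℝ) ≤
      ‖∑ χ ∈ Xs X, Mol Mf w (χ0 * χ) * (χ0 * χ).LFunction (1 / 2)‖ := by
    rw [hfm, norm_mul, Complex.norm_natCast]
    nlinarith
  have hprin : ‖Mol Mf w (1 : DirichletCharacter ℂ q) *
      (1 : DirichletCharacter ℂ q).LFunction (1 / 2)‖ ≤ ((Xs X).card : ℝ) / 8 := by
    rw [norm_mul]
    have h1 := norm_Mol_le Mf w (1 : DirichletCharacter ℂ q) (Y := Y * Y)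
      (fun m hm => MfS_bounds hm) (fun m => abs_wS_le hY2 m)
    have hs : √(q : ℝ) = Real.exp (L / 2) := by
      rw [← hqe, Real.sqrt_eq_iff_mul_self_eq (Real.exp_pos _).le (Real.exp_pos _).le, ← Real.exp_add]
      congr 1; ring
    rw [hs] at hLb
    have h2 : 8 * (4 + L) ≤ Real.exp (0.098 * L) := by
      have h3 := Real.quadratic_le_exp_of_nonneg (show 0 ≤ 0.098 * L by positivity)
      nlinarith
    calc ‖Mol Mf w (1 : DirichletCharacter ℂ q)‖ * ‖(1 : DirichletCharacter ℂ q).LFunction (1 / 2)‖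
        ≤ Real.exp (0.002 * L) * (Real.exp (L / 2) * (4 + L)) := by
          gcongr
          exact h1.trans hYY
      _ ≤ Real.exp (0.002 * L) * (Real.exp (L / 2) * (Real.exp (0.098 * L) / 8)) := by
          gcongr
          linarith
      _ = Real.exp (0.002 * L + (L / 2 + 0.098 * L)) / 8 := by
          rw [Real.exp_add, Real.exp_add]; ring
      _ = Real.exp (0.6 * L) / 8 := by congr 2; ring
      _ ≤ _ := by linarith
  have hge := sum_Xn_ge X χ0 (fun χ => Mol Mf w χ * χ.LFunction (1 / 2)) hprin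
  linarith

end Pool.Agent.H14.PT
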