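import Pool.Agent.H14.PT.S2b

/-!
# The total mollified second moment
-/

set_option linter.unusedSectionVars false

namespace Pool.Agent.H14.PT

open Finset
open scoped ComplexConjugate Real

/-- size of the group of characters -/
lemma card_X_ge {q : ℕ} [Fact q.Prime] (hB : Big (Real.log q)) {ε : ℝ} (hε : 0 < ε)
    (X : Subgroup (DirichletCharacter ℂ q))
    (hH : Real.log (Nat.card (ann X)) ≤ (1 / 3 - ε) * Real.log q) :
    Real.exp (0.6 * Real.log q) ≤ ((Xs X).card : ℝ) := by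
  have hqp : q.Prime := Fact.out
  have hq0 : (0 : ℝ) < q := by exact_mod_cast hqp.pos
  have hcard := card_Xs_mul_card_Hs X
  rw [Nat.totient_prime hqp] at hcard
  have hd := card_ann X
  have hd1 : (0 : ℝ) < Nat.card (ann X) := by
    have : 0 < Nat.card (ann X) := Nat.card_pos
    exact_mod_cast this
  have hd2 : (Nat.card (ann X) : ℝ) ≤ Real.exp (1 / 3 * Real.log q) := by
    rw [← Real.exp_log hd1]
    apply Real.exp_le_exp.mpr
    have := hB.hL
    nlinarith
  have h1 : ((Xs X).card : ℝ) * (Nat.card (ann X) : ℝ) = q - 1 := by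
    rw [hd]
    have : (((Xs X).card * (Hs X).card : ℕ) : ℝ) = ((q - 1 : ℕ) : ℝ) := by rw [hcard]
    rw [Nat.cast_mul, Nat.cast_sub hqp.one_lt.le] at this
    simpa using this
  have h2 : Real.exp (Real.log q) = q := Real.exp_log hq0
  have h3 : Real.exp (0.95 * Real.log q) ≤ q - 1 := by
    have e1 : Real.exp (0.95 * Real.log q) * 2 ≤ q := by
      have e2 : (2 : ℝ) ≤ Real.exp (0.05 * Real.log q) := by
        have h := Real.add_one_le_exp (0.05 * Real.log q)
        have := hB.hL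
        linarith
      calc Real.exp (0.95 * Real.log q) * 2 ≤ Real.exp (0.95 * Real.log q) * Real.exp (0.05 * Real.log q) := by
            gcongr
        _ = Real.exp (Real.log q) := by rw [← Real.exp_add]; congr 1; ring
        _ = q := h2
    have e3 : 1 ≤ Real.exp (0.95 * Real.log q) := Real.one_le_exp (by have := hB.hL; positivity)
    linarith
  have h4 : Real.exp (0.95 * Real.log q) ≤ ((Xs X).card : ℝ) * Real.exp (1 / 3 * Real.log q) := by
    calc _ ≤ (q : ℝ) - 1 := h3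
      _ = ((Xs X).card : ℝ) * (Nat.card (ann X) : ℝ) := h1.symm
      _ ≤ _ := by gcongr
  have h5 : Real.exp (0.6 * Real.log q) * Real.exp (1 / 3 * Real.log q) ≤
      ((Xs X).card : ℝ) * Real.exp (1 / 3 * Real.log q) := by
    refine le_trans ?_ h4
    rw [← Real.exp_add]
    apply Real.exp_le_exp.mpr
    have := hB.hL
    linarith
  exact le_of_mul_le_mul_right h5 (Real.exp_pos _)

/-- bound for the twisted moments -/
theorem G_bounds (ε : ℝ) (hε : 0 < ε) (hε1 : ε ≤ 1 / 3) : ∃ C Q0 : ℝ, 0 < C ∧ ∀ (q : ℕ) [Fact q.Prime],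
    Q0 ≤ Real.log q → Big (Real.log q) → ∀ (X : Subgroup (DirichletCharacter ℂ q))
    (χ0 : DirichletCharacter ℂ q),
    Real.log (Nat.card (ann X)) ≤ (1 / 3 - ε) * Real.log q →
    ∀ k : ℕ, 1 ≤ k → (k : ℝ) ≤ Real.exp (1.001 * Real.log q) →
    ‖∑ χ ∈ Xn X χ0, ((‖Mol (MfS (zz (Real.log q)) (YY (Real.log q)) (YY (Real.log q)))
        (wS (zz (Real.log q)) (YY (Real.log q)) (YY (Real.log q))) (χ0 * χ)‖ ^ 2 : ℝ) : ℂ) *
        TT (χ0 * χ) k‖ ≤ 2 * Real.exp (3 / 10 ^ 8 * Real.log q) * (Xs X).card ∧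
    (Real.exp (0.999 * Real.log q) ≤ k →
    ‖∑ χ ∈ Xn X χ0, ((‖Mol (MfS (zz (Real.log q)) (YY (Real.log q)) (YY (Real.log q)))
        (wS (zz (Real.log q)) (YY (Real.log q)) (YY (Real.log q))) (χ0 * χ)‖ ^ 2 : ℝ) : ℂ) *
        TT (χ0 * χ) k‖ ≤ C * (Xs X).card) := by
  obtain ⟨C, Q1, hC, hmid⟩ := S2_mid ε hε hε1
  obtain ⟨Q2, hsmall⟩ := S2_small ε hε hε1
  obtain ⟨Q3, _, hQ3⟩ := poly_le_exp 2 4 (1 / 100) (by norm_num)
  refine ⟨C + 1, max (max Q1 Q2) Q3, by positivity, ?_⟩
  intro q _ hq hB X χ0 hH k hk1 hk2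
  have hq1 : Q1 ≤ Real.log q := (le_max_left _ _).trans ((le_max_left _ _).trans hq)
  have hq2 : Q2 ≤ Real.log q := (le_max_right _ _).trans ((le_max_left _ _).trans hq)
  have hq3 : Q3 ≤ Real.log q := (le_max_right _ _).trans hq
  have hqp : q.Prime := Fact.out
  have hq0 : (0 : ℝ) < q := by exact_mod_cast hqp.pos
  have hXge := card_X_ge hB hε X hH
  have hm := hmid q hq1 hB (ann X) hH k
  have hs := hsmall q hq2 hB (ann X) hH k hk1 hk2
  have hqe : Real.exp (Real.log q) = q := Real.exp_log hq0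
  set L := Real.log q with hL
  have hL100 := hB.hL
  have hLpos : 0 < L := by linarith
  set Y := YY L with hY
  set z := zz L with hz
  have hYhi := hB.Y_hi
  have hY2 : 2 ≤ Y := hB.z_two.trans hB.zY
  have hYq : Y * Y < q := by
    have : ((Y * Y : ℕ) : ℝ) < q := by
      push_cast
      calc (Y : ℝ) * Y ≤ Real.exp (L / 1000) * Real.exp (L / 1000) := by gcongr
        _ = Real.exp (L / 1000 + L / 1000) := by rw [Real.exp_add]
        _ < Real.exp L := Real.exp_lt_exp.mpr (by linarith)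
        _ = q := hqe
    exact_mod_cast this
  have hkq : k < q ^ 2 := by
    have : (k : ℝ) < ((q ^ 2 : ℕ) : ℝ) := by
      push_cast
      calc (k : ℝ) ≤ Real.exp (1.001 * L) := hk2
        _ < Real.exp (2 * L) := Real.exp_lt_exp.mpr (by linarith)
        _ = (q : ℝ) ^ 2 := by
            rw [← hqe, ← Real.exp_nat_mul]; push_cast; rfl
    exact_mod_cast this
  have hfull := moment_le X χ0 (MfS z Y Y) (wS z Y Y) k (Y * Y) (fun m hm => MfS_bounds hm) hYq hkq
  have hE : ‖((‖Mol (MfS z Y Y) (wS z Y Y) (1 : DirichletCharacter ℂ q)‖ ^ 2 : ℝ) : ℂ) *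
      TT (1 : DirichletCharacter ℂ q) k‖ ≤
      ((Xs X).card : ℝ) := by
    rw [norm_mul, Complex.norm_real, Real.norm_of_nonneg (by positivity)]
    have h1 := norm_Mol_le (MfS z Y Y) (wS z Y Y) (1 : DirichletCharacter ℂ q) (Y := Y * Y)
      (fun m hm => MfS_bounds hm) (fun m => abs_wS_le hY2 m)
    have h2 := norm_TT_le2 (1 : DirichletCharacter ℂ q) k
    have hk0 : (0 : ℝ) < k := by exact_mod_cast hk1
    have h3 : Real.log k ≤ 1.001 * L := by
      have := Real.log_le_log hk0 hk2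
      rwa [Real.log_exp] at this
    have h4 : 0 ≤ Real.log k := Real.log_natCast_nonneg _
    have h5 : Real.sqrt k ≤ Real.exp (0.5005 * L) := by
      rw [Real.sqrt_le_left (Real.exp_pos _).le, ← Real.exp_nat_mul]
      refine hk2.trans (Real.exp_le_exp.mpr ?_)
      push_cast
      linarith
    have h6 := hQ3 L hq3
    calc ‖Mol (MfS z Y Y) (wS z Y Y) (1 : DirichletCharacter ℂ q)‖ ^ 2 *
          ‖TT (1 : DirichletCharacter ℂ q) k‖
        ≤ ((Y * Y : ℕ) : ℝ) ^ 2 * (Real.sqrt k * (1 + Real.log k) ^ 2) := by gcongr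
      _ ≤ (Real.exp (L / 1000) * Real.exp (L / 1000)) ^ 2 * (Real.exp (0.5005 * L) * (2 * L) ^ 2) := by
          push_cast
          gcongr
          linarith
      _ = (Real.exp (L / 1000) * Real.exp (L / 1000)) ^ 2 * (Real.exp (0.5005 * L) * (4 * L ^ 2)) := by
          ring
      _ ≤ (Real.exp (L / 1000) * Real.exp (L / 1000)) ^ 2 * (Real.exp (0.5005 * L) * Real.exp (1 / 100 * L)) := by
          gcongr
      _ = Real.exp (0.5145 * L) := by
          rw [← Real.exp_add, ← Real.exp_nat_mul, ← Real.exp_add, ← Real.exp_add]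
          congr 1; push_cast; ring
      _ ≤ Real.exp (0.6 * L) := Real.exp_le_exp.mpr (by nlinarith)
      _ ≤ _ := hXge
  have hXn := sum_Xn_le X χ0 (fun χ => ((‖Mol (MfS z Y Y) (wS z Y Y) χ‖ ^ 2 : ℝ) : ℂ) * TT χ k) hE
  have hX0 : (0 : ℝ) ≤ ((Xs X).card : ℝ) := by positivity
  constructor
  · refine hXn.trans ?_
    have h1 : 1 ≤ Real.exp (3 / 10 ^ 8 * L) := Real.one_le_exp (by positivity)
    calc _ ≤ ((Xs X).card : ℝ) * Real.exp (3 / 10 ^ 8 * L) + (Xs X).card := by
          refine add_le_add (hfull.trans ?_) le_rfl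
          exact mul_le_mul_of_nonneg_left hs hX0
      _ ≤ _ := by nlinarith
  · intro hk3
    refine hXn.trans ?_
    have hm' := hm hk3 hk2
    calc _ ≤ ((Xs X).card : ℝ) * C + (Xs X).card := by
          refine add_le_add (hfull.trans ?_) le_rfl
          exact mul_le_mul_of_nonneg_left hm' hX0
      _ = _ := by ring

end Pool.Agent.H14.PT
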