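import Mathlib

/-!
# Theta series of Dirichlet characters to a prime modulus: series, functional equation
-/

namespace Pool.Agent.H14.PT

open Complex HurwitzZeta ZMod Finset
open scoped Real

/-- Regrouping a sum over `ℤ` along residue classes. -/
lemma hasSum_residue {q : ℕ} [NeZero q] {F : ℤ → ℂ} {a : ZMod q → ℂ}
    (h : ∀ j : ZMod q, HasSum (fun n : ℤ => F (n * q + j.val)) (a j)) (hF : Summable F) :
    HasSum F (∑ j, a j) := by
  have h1 : HasSum (fun p : ℤ × Fin q => F (p.1 * q + (p.2 : ℕ))) (∑' m, F m) := by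
    have := (Int.divModEquiv q).symm.hasSum_iff.mpr hF.hasSum
    refine this.congr_fun fun p => ?_
    simp
  have h2 : ∀ r : Fin q, HasSum (fun n : ℤ => F (n * q + (r : ℕ))) (a (r : ℕ)) := by
    intro r
    have := h ((r : ℕ) : ZMod q)
    rwa [ZMod.val_natCast, Nat.mod_eq_of_lt r.2] at this
  have h3 : HasSum (fun r : Fin q => a (r : ℕ)) (∑' m, F m) := by
    have h4 := (Equiv.prodComm (Fin q) ℤ).hasSum_iff.mpr h1
    exact HasSum.prod_fiberwise h4 (fun r => h2 r)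
  have h5 : ∑' m, F m = ∑ r : Fin q, a (r : ℕ) := by
    rw [← h3.tsum_eq, tsum_fintype]
  have h6 : ∑ r : Fin q, a (r : ℕ) = ∑ j : ZMod q, a j := by
    have hq : q ≠ 0 := NeZero.ne q
    refine Fintype.sum_bijective (fun r : Fin q => ((r : ℕ) : ZMod q)) ?_ _ _ (fun r => rfl)
    rw [Fintype.bijective_iff_injective_and_card]
    constructor
    · intro r s hrs
      simp only at hrs
      have := congrArg ZMod.val hrs
      rw [ZMod.val_natCast, ZMod.val_natCast, Nat.mod_eq_of_lt r.2, Nat.mod_eq_of_lt s.2] at this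
      exact Fin.ext this
    · rw [Fintype.card_fin, ZMod.card]
  rw [← h6, ← h5]
  exact hF.hasSum

/-- The theta series of parity `κ`. -/
noncomputable def th {q : ℕ} (κ : ℕ) (χ : DirichletCharacter ℂ q) (t : ℝ) : ℂ :=
  ∑' n : ℕ, χ ((n + 1 : ℕ) : ZMod q) * (((n + 1 : ℕ) : ℝ) ^ κ *
    Real.exp (-π * ((n + 1 : ℕ) : ℝ) ^ 2 * (t / q)) : ℝ)

lemma summable_base (κ : ℕ) {y : ℝ} (hy : 0 < y) :
    Summable (fun n : ℕ => ((n + 1 : ℕ) : ℝ) ^ κ * Real.exp (-π * ((n + 1 : ℕ) : ℝ) ^ 2 * y)) := by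
  have := HurwitzKernelBounds.summable_f_nat κ 1 hy
  refine this.congr fun n => ?_
  simp [HurwitzKernelBounds.f_nat]

lemma norm_chi_le {q : ℕ} (χ : DirichletCharacter ℂ q) (x : ZMod q) : ‖χ x‖ ≤ 1 :=
  DirichletCharacter.norm_le_one χ x

lemma summable_th {q : ℕ} (κ : ℕ) (χ : DirichletCharacter ℂ q) {y : ℝ} (hy : 0 < y) :
    Summable (fun n : ℕ => χ ((n + 1 : ℕ) : ZMod q) * (((n + 1 : ℕ) : ℝ) ^ κ *
    Real.exp (-π * ((n + 1 : ℕ) : ℝ) ^ 2 * y) : ℝ)) := by
  refine Summable.of_norm_bounded (summable_base κ hy) fun n => ?_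
  rw [norm_mul, Complex.norm_real, Real.norm_of_nonneg (by positivity)]
  exact mul_le_of_le_one_left (by positivity) (norm_chi_le χ _)

lemma hasSum_th {q : ℕ} [NeZero q] (κ : ℕ) (χ : DirichletCharacter ℂ q) {t : ℝ} (ht : 0 < t) :
    HasSum (fun n : ℕ => χ ((n + 1 : ℕ) : ZMod q) * (((n + 1 : ℕ) : ℝ) ^ κ *
    Real.exp (-π * ((n + 1 : ℕ) : ℝ) ^ 2 * (t / q)) : ℝ)) (th κ χ t) := by
  have hq : (0 : ℝ) < q := by exact_mod_cast Nat.pos_of_ne_zero (NeZero.ne q)
  exact (summable_th κ χ (by positivity)).hasSum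

/-- complex conjugation -/
lemma th_conj {q : ℕ} (κ : ℕ) (χ : DirichletCharacter ℂ q) (t : ℝ) :
    (starRingEnd ℂ) (th κ χ t) = th κ χ⁻¹ t := by
  unfold th
  rw [conj_tsum]
  refine tsum_congr fun n => ?_
  rw [map_mul, Complex.conj_ofReal, ← MulChar.star_apply']
  rfl

section even

variable {q : ℕ} [Fact q.Prime]

lemma even_kernel_series {χ : DirichletCharacter ℂ q} (hχ : χ.Even) {x : ℝ} (hx : 0 < x) :
    ∑ j : ZMod q, χ j * (evenKernel (toAddCircle j) (q * x) : ℂ) = 2 * th 0 χ x := by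
  have hq0 : (0 : ℝ) < q := by exact_mod_cast (Fact.out : q.Prime).pos
  have hq1 : 1 < q := (Fact.out : q.Prime).one_lt
  have : Fact (1 < q) := ⟨hq1⟩
  set F : ℤ → ℂ := fun m => χ (m : ZMod q) * (Real.exp (-π * (m / q) ^ 2 * (q * x)) : ℝ) with hF
  have hj : ∀ j : ZMod q, HasSum (fun n : ℤ => F (n * q + j.val))
      (χ j * (evenKernel (toAddCircle j) (q * x) : ℂ)) := by
    intro j
    have h1 := hasSum_int_evenKernel (j.val / q : ℝ) (mul_pos hq0 hx)
    rw [toAddCircle_apply]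
    have h2 := (hasSum_ofReal.mpr h1).mul_left (χ j)
    refine h2.congr_fun fun n => ?_
    simp only [hF]
    push_cast
    rw [ZMod.natCast_zmod_val, ZMod.natCast_self, mul_zero, zero_add]
    congr 4
    have : (q : ℂ) ≠ 0 := by exact_mod_cast hq0.ne'
    field_simp
  have hnat : HasSum (fun n : ℕ => F (n : ℤ)) (th 0 χ x) := by
    rw [← hasSum_nat_add_iff' 1]
    have h0 : ∑ i ∈ Finset.range 1, F (i : ℤ) = 0 := by
      simp [hF, MulChar.map_nonunit]
    rw [h0, sub_zero]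
    refine (hasSum_th 0 χ hx).congr_fun fun n => ?_
    simp only [hF]
    push_cast
    rw [pow_zero, one_mul]
    congr 2
    have : (q : ℂ) ≠ 0 := by exact_mod_cast hq0.ne'
    field_simp
  have hneg : HasSum (fun n : ℕ => F (-((n : ℤ) + 1))) (th 0 χ x) := by
    refine (hasSum_th 0 χ hx).congr_fun fun n => ?_
    simp only [hF]
    push_cast
    rw [pow_zero, one_mul]
    congr 1
    · exact DirichletCharacter.Even.eval_neg χ ((n : ZMod q) + 1) hχ
    · congr 1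
      have : (q : ℂ) ≠ 0 := by exact_mod_cast hq0.ne'
      field_simp
  have hint : HasSum F (th 0 χ x + th 0 χ x) := HasSum.of_nat_of_neg_add_one hnat hneg
  have h2 := hasSum_residue hj hint.summable
  rw [h2.unique hint]
  ring

/-- Gauss sum with the standard additive character. -/
noncomputable def gs (χ : DirichletCharacter ℂ q) : ℂ := gaussSum χ ZMod.stdAddChar

lemma sum_mul_exp {χ : DirichletCharacter ℂ q} (hχ : χ ≠ 1) (n : ℕ) :
    ∑ j : ZMod q, χ j * cexp (2 * π * I * (j.val / q) * n) = χ⁻¹ (n : ZMod q) * gs χ := by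
  have h1 : ∀ j : ZMod q, cexp (2 * π * I * (j.val / q) * n) = ZMod.stdAddChar (n * j : ZMod q) := by
    intro j
    have : (n * j : ZMod q) = ((n * j.val : ℤ) : ZMod q) := by
      push_cast
      rw [ZMod.natCast_zmod_val]
    rw [this, ZMod.stdAddChar_coe]
    congr 1
    push_cast
    ring
  simp_rw [h1]
  have h2 : ∑ j : ZMod q, χ j * ZMod.stdAddChar (n * j : ZMod q)
      = gaussSum χ (ZMod.stdAddChar.mulShift (n : ZMod q)) := by
    simp [gaussSum, AddChar.mulShift_apply]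
  rw [h2]
  by_cases hn : (n : ZMod q) = 0
  · rw [hn]
    have hne : ¬ IsUnit (0 : ZMod q) := not_isUnit_zero
    rw [MulChar.map_nonunit _ hne, zero_mul, AddChar.mulShift_zero, gaussSum]
    simp only [AddChar.one_apply, mul_one]
    exact MulChar.sum_eq_zero_of_ne_one hχ
  · have hu : IsUnit (n : ZMod q) := IsUnit.mk0 _ hn
    obtain ⟨u, hu⟩ := hu
    rw [← hu, gaussSum_mulShift_eq]
    rfl

lemma norm_gs_sq {χ : DirichletCharacter ℂ q} (hχ : χ ≠ 1) : ‖gs χ‖ ^ 2 = q := by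
  have h1 := gaussSum_mul_gaussSum_eq_card (R := ZMod q) (R' := ℂ) (χ := χ) hχ
    (ZMod.isPrimitive_stdAddChar q)
  rw [← star_gaussSum_eq, ZMod.card] at h1
  have h2 : gs χ * star (gs χ) = (q : ℂ) := h1
  have h3 : gs χ * star (gs χ) = ((‖gs χ‖ ^ 2 : ℝ) : ℂ) := by
    have := Complex.mul_conj (gs χ)
    rw [Complex.normSq_eq_norm_sq] at this
    exact this
  rw [h3] at h2
  exact_mod_cast h2

lemma sum_chi_zero {χ : DirichletCharacter ℂ q} (hχ : χ ≠ 1) : ∑ j : ZMod q, χ j = 0 :=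
  MulChar.sum_eq_zero_of_ne_one hχ

lemma sum_mul_cos {χ : DirichletCharacter ℂ q} (hχ : χ ≠ 1) (he : χ.Even) (n : ℕ) :
    ∑ j : ZMod q, χ j * (Real.cos (2 * π * (j.val / q) * n) : ℂ) = χ⁻¹ (n : ZMod q) * gs χ := by
  have h1 : ∀ j : ZMod q, (Real.cos (2 * π * (j.val / q) * n) : ℂ)
      = (cexp (2 * π * I * (j.val / q) * n) + cexp (-(2 * π * I * (j.val / q) * n))) / 2 := by
    intro j
    rw [Complex.ofReal_cos, Complex.cos]
    push_cast
    congr 2 <;> congr 1 <;> ring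
  have h2 : ∑ j : ZMod q, χ j * cexp (-(2 * π * I * (j.val / q) * n))
      = ∑ j : ZMod q, χ j * cexp (2 * π * I * (j.val / q) * n) := by
    refine Fintype.sum_equiv (Equiv.neg _) _ _ fun j => ?_
    rw [Equiv.neg_apply, DirichletCharacter.Even.eval_neg χ j he]
    congr 1
    have e1 : cexp (2 * π * I * ((-j).val / q) * n) = ZMod.stdAddChar (n * (-j) : ZMod q) := by
      have : (n * (-j) : ZMod q) = ((n * (-j).val : ℤ) : ZMod q) := by
        push_cast
        rw [ZMod.natCast_zmod_val]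
      rw [this, ZMod.stdAddChar_coe]
      congr 1
      push_cast
      ring
    have e2 : cexp (-(2 * π * I * (j.val / q) * n)) = ZMod.stdAddChar (n * (-j) : ZMod q) := by
      have : (n * (-j) : ZMod q) = ((-(n * j.val) : ℤ) : ZMod q) := by
        push_cast
        rw [ZMod.natCast_zmod_val]
        ring
      rw [this, ZMod.stdAddChar_coe]
      congr 1
      push_cast
      ring
    rw [e1, e2]
  simp_rw [h1]
  have h3 : ∀ j : ZMod q, χ j * ((cexp (2 * π * I * (j.val / q) * n)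
      + cexp (-(2 * π * I * (j.val / q) * n))) / 2)
      = (χ j * cexp (2 * π * I * (j.val / q) * n)) / 2
        + (χ j * cexp (-(2 * π * I * (j.val / q) * n))) / 2 := by intro j; ring
  simp_rw [h3]
  rw [Finset.sum_add_distrib, ← Finset.sum_div, ← Finset.sum_div, h2, sum_mul_exp hχ]
  ring

lemma sum_mul_sin {χ : DirichletCharacter ℂ q} (hχ : χ ≠ 1) (ho : χ.Odd) (n : ℕ) :
    ∑ j : ZMod q, χ j * (Real.sin (2 * π * (j.val / q) * n) : ℂ) = χ⁻¹ (n : ZMod q) * (-I * gs χ) := by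
  have h1 : ∀ j : ZMod q, (Real.sin (2 * π * (j.val / q) * n) : ℂ)
      = (cexp (-(2 * π * I * (j.val / q) * n)) - cexp (2 * π * I * (j.val / q) * n)) * I / 2 := by
    intro j
    rw [Complex.ofReal_sin, Complex.sin]
    push_cast
    congr 3 <;> congr 1 <;> ring
  have h2 : ∑ j : ZMod q, χ j * cexp (-(2 * π * I * (j.val / q) * n))
      = - ∑ j : ZMod q, χ j * cexp (2 * π * I * (j.val / q) * n) := by
    rw [← Finset.sum_neg_distrib]
    refine Fintype.sum_equiv (Equiv.neg _) _ _ fun j => ?_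
    rw [Equiv.neg_apply, DirichletCharacter.Odd.eval_neg χ j ho, neg_mul, neg_neg]
    congr 1
    have e1 : cexp (2 * π * I * ((-j).val / q) * n) = ZMod.stdAddChar (n * (-j) : ZMod q) := by
      have : (n * (-j) : ZMod q) = ((n * (-j).val : ℤ) : ZMod q) := by
        push_cast
        rw [ZMod.natCast_zmod_val]
      rw [this, ZMod.stdAddChar_coe]
      congr 1
      push_cast
      ring
    have e2 : cexp (-(2 * π * I * (j.val / q) * n)) = ZMod.stdAddChar (n * (-j) : ZMod q) := by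
      have : (n * (-j) : ZMod q) = ((-(n * j.val) : ℤ) : ZMod q) := by
        push_cast
        rw [ZMod.natCast_zmod_val]
        ring
      rw [this, ZMod.stdAddChar_coe]
      congr 1
      push_cast
      ring
    rw [e1, e2]
  simp_rw [h1]
  have h3 : ∀ j : ZMod q, χ j * ((cexp (-(2 * π * I * (j.val / q) * n))
      - cexp (2 * π * I * (j.val / q) * n)) * I / 2)
      = (χ j * cexp (-(2 * π * I * (j.val / q) * n))) * (I / 2)
        - (χ j * cexp (2 * π * I * (j.val / q) * n)) * (I / 2) := by intro j; ring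
  simp_rw [h3]
  rw [Finset.sum_sub_distrib, ← Finset.sum_mul, ← Finset.sum_mul, h2, sum_mul_exp hχ]
  ring

lemma odd_kernel_series {χ : DirichletCharacter ℂ q} (hχ : χ.Odd) {x : ℝ} (hx : 0 < x) :
    ∑ j : ZMod q, χ j * (oddKernel (toAddCircle j) (q * x) : ℂ) = 2 / q * th 1 χ x := by
  have hq0 : (0 : ℝ) < q := by exact_mod_cast (Fact.out : q.Prime).pos
  have hqc : (q : ℂ) ≠ 0 := by exact_mod_cast hq0.ne'
  have hq1 : 1 < q := (Fact.out : q.Prime).one_lt
  have : Fact (1 < q) := ⟨hq1⟩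
  set F : ℤ → ℂ := fun m => χ (m : ZMod q) * ((m / q) * Real.exp (-π * (m / q) ^ 2 * (q * x)) : ℝ)
    with hF
  have hj : ∀ j : ZMod q, HasSum (fun n : ℤ => F (n * q + j.val))
      (χ j * (oddKernel (toAddCircle j) (q * x) : ℂ)) := by
    intro j
    have h1 := hasSum_int_oddKernel (j.val / q : ℝ) (mul_pos hq0 hx)
    rw [toAddCircle_apply]
    have h2 := (hasSum_ofReal.mpr h1).mul_left (χ j)
    refine h2.congr_fun fun n => ?_
    simp only [hF]
    push_cast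
    rw [ZMod.natCast_zmod_val, ZMod.natCast_self, mul_zero, zero_add]
    have e : ((n : ℂ) * q + (j.val : ℂ)) / q = n + (j.val : ℂ) / q := by field_simp
    rw [e]
  have hnat : HasSum (fun n : ℕ => F (n : ℤ)) (1 / q * th 1 χ x) := by
    rw [← hasSum_nat_add_iff' 1]
    have h0 : ∑ i ∈ Finset.range 1, F (i : ℤ) = 0 := by
      simp [hF, MulChar.map_nonunit]
    rw [h0, sub_zero]
    refine ((hasSum_th 1 χ hx).mul_left (1 / q : ℂ)).congr_fun fun n => ?_
    simp only [hF]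
    push_cast
    rw [pow_one]
    have e : (-π : ℂ) * (((n : ℂ) + 1) / q) ^ 2 * (q * x) = -π * (n + 1) ^ 2 * (x / q) := by
      field_simp
    rw [e]
    ring
  have hneg : HasSum (fun n : ℕ => F (-((n : ℤ) + 1))) (1 / q * th 1 χ x) := by
    refine ((hasSum_th 1 χ hx).mul_left (1 / q : ℂ)).congr_fun fun n => ?_
    simp only [hF]
    push_cast
    rw [pow_one]
    have h4 := DirichletCharacter.Odd.eval_neg χ ((n : ZMod q) + 1) hχ
    rw [h4]
    have e : (-π : ℂ) * (-((n : ℂ) + 1) / q) ^ 2 * (q * x) = -π * (n + 1) ^ 2 * (x / q) := by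
      field_simp
    rw [e]
    ring
  have hint : HasSum F (1 / q * th 1 χ x + 1 / q * th 1 χ x) := HasSum.of_nat_of_neg_add_one hnat hneg
  have h2 := hasSum_residue hj hint.summable
  rw [h2.unique hint]
  ring

lemma cos_kernel_series {χ : DirichletCharacter ℂ q} (hχ : χ ≠ 1) (he : χ.Even) {t : ℝ}
    (ht : 0 < t) :
    ∑ j : ZMod q, χ j * (cosKernel (toAddCircle j) (t / q) : ℂ) = 2 * gs χ * th 0 χ⁻¹ t := by
  have hq0 : (0 : ℝ) < q := by exact_mod_cast (Fact.out : q.Prime).pos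
  have h1 : ∀ j : ZMod q, HasSum (fun n : ℕ => χ j *
      ((2 * Real.cos (2 * π * (j.val / q) * (n + 1)) * Real.exp (-π * (n + 1) ^ 2 * (t / q)) : ℝ) : ℂ))
      (χ j * ((cosKernel (toAddCircle j) (t / q) - 1 : ℝ) : ℂ)) := by
    intro j
    rw [toAddCircle_apply]
    exact (hasSum_ofReal.mpr (hasSum_nat_cosKernel₀ (j.val / q : ℝ) (div_pos ht hq0))).mul_left _
  have h2 := hasSum_sum (s := (Finset.univ : Finset (ZMod q))) (fun j _ => h1 j)
  have h3 : ∑ j : ZMod q, χ j * ((cosKernel (toAddCircle j) (t / q) - 1 : ℝ) : ℂ)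
      = ∑ j : ZMod q, χ j * (cosKernel (toAddCircle j) (t / q) : ℂ) := by
    have : ∀ j : ZMod q, χ j * ((cosKernel (toAddCircle j) (t / q) - 1 : ℝ) : ℂ)
        = χ j * (cosKernel (toAddCircle j) (t / q) : ℂ) - χ j := by
      intro j; push_cast; ring
    simp_rw [this]
    rw [Finset.sum_sub_distrib, sum_chi_zero hχ, sub_zero]
  rw [← h3]
  refine h2.unique ?_
  refine ((hasSum_th 0 χ⁻¹ ht).mul_left (2 * gs χ)).congr_fun fun n => ?_
  have h5 := sum_mul_cos hχ he (n + 1)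
  have h6 : ∀ j : ZMod q, χ j *
      ((2 * Real.cos (2 * π * (j.val / q) * (n + 1)) * Real.exp (-π * (n + 1) ^ 2 * (t / q)) : ℝ) : ℂ)
      = (χ j * (Real.cos (2 * π * (j.val / q) * ((n + 1 : ℕ) : ℝ)) : ℂ)) *
        (2 * (Real.exp (-π * (n + 1) ^ 2 * (t / q)) : ℂ)) := by
    intro j; push_cast; ring
  simp_rw [h6]
  rw [← Finset.sum_mul]
  rw [show (∑ j : ZMod q, χ j * (Real.cos (2 * π * (j.val / q) * ((n + 1 : ℕ) : ℝ)) : ℂ))
    = χ⁻¹ ((n + 1 : ℕ) : ZMod q) * gs χ from h5]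
  push_cast
  ring

lemma sin_kernel_series {χ : DirichletCharacter ℂ q} (hχ : χ ≠ 1) (ho : χ.Odd) {t : ℝ}
    (ht : 0 < t) :
    ∑ j : ZMod q, χ j * (sinKernel (toAddCircle j) (t / q) : ℂ)
      = 2 * (-I * gs χ) * th 1 χ⁻¹ t := by
  have hq0 : (0 : ℝ) < q := by exact_mod_cast (Fact.out : q.Prime).pos
  have h1 : ∀ j : ZMod q, HasSum (fun n : ℕ => χ j *
      ((2 * n * Real.sin (2 * π * (j.val / q) * n) * Real.exp (-π * n ^ 2 * (t / q)) : ℝ) : ℂ))
      (χ j * ((sinKernel (toAddCircle j) (t / q) : ℝ) : ℂ)) := by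
    intro j
    rw [toAddCircle_apply]
    exact (hasSum_ofReal.mpr (hasSum_nat_sinKernel (j.val / q : ℝ) (div_pos ht hq0))).mul_left _
  have h2 := hasSum_sum (s := (Finset.univ : Finset (ZMod q))) (fun j _ => h1 j)
  refine h2.unique ?_
  rw [← hasSum_nat_add_iff' 1]
  simp only [Finset.range_one, Finset.sum_singleton, Nat.cast_zero, mul_zero, zero_mul,
    Complex.ofReal_zero, Finset.sum_const_zero, sub_zero]
  refine ((hasSum_th 1 χ⁻¹ ht).mul_left (2 * (-I * gs χ))).congr_fun fun n => ?_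
  have h5 := sum_mul_sin hχ ho (n + 1)
  have h6 : ∀ j : ZMod q, χ j *
      ((2 * ((n + 1 : ℕ) : ℝ) * Real.sin (2 * π * (j.val / q) * ((n + 1 : ℕ) : ℝ)) *
        Real.exp (-π * ((n + 1 : ℕ) : ℝ) ^ 2 * (t / q)) : ℝ) : ℂ)
      = (χ j * (Real.sin (2 * π * (j.val / q) * ((n + 1 : ℕ) : ℝ)) : ℂ)) *
        (2 * ((n + 1 : ℕ) : ℝ) * (Real.exp (-π * ((n + 1 : ℕ) : ℝ) ^ 2 * (t / q)) : ℂ)) := by
    intro j; push_cast; ring
  simp_rw [h6]
  rw [← Finset.sum_mul]
  rw [show (∑ j : ZMod q, χ j * (Real.sin (2 * π * (j.val / q) * ((n + 1 : ℕ) : ℝ)) : ℂ))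
    = χ⁻¹ ((n + 1 : ℕ) : ZMod q) * (-I * gs χ) from h5]
  push_cast
  ring

/-- functional equation of the theta series -/
theorem th_feq_even {χ : DirichletCharacter ℂ q} (hχ : χ ≠ 1) (he : χ.Even) {t : ℝ} (ht : 0 < t) :
    th 0 χ (1 / t) = (gs χ / (Real.sqrt q : ℂ)) * ((t ^ (1 / 2 : ℝ) : ℝ) : ℂ) *
      (starRingEnd ℂ) (th 0 χ t) := by
  have hq0 : (0 : ℝ) < q := by exact_mod_cast (Fact.out : q.Prime).pos
  have h1 := even_kernel_series he (show 0 < 1 / t by positivity)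
  have h2 : ∀ j : ZMod q, (evenKernel (toAddCircle j) (q * (1 / t)) : ℂ)
      = (((t / q) ^ (1 / 2 : ℝ) : ℝ) : ℂ) * (cosKernel (toAddCircle j) (t / q) : ℂ) := by
    intro j
    rw [evenKernel_functional_equation]
    have e1 : 1 / (q * (1 / t)) = t / q := by field_simp
    rw [e1]
    have e2 : 1 / (q * (1 / t)) ^ (1 / 2 : ℝ) = (t / q) ^ (1 / 2 : ℝ) := by
      rw [← e1, Real.div_rpow (by norm_num) (by positivity), Real.one_rpow]
    rw [e2]
    push_cast
    ring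
  have h3 : (2 : ℂ) * th 0 χ (1 / t) = 2 * ((((t / q) ^ (1 / 2 : ℝ) : ℝ) : ℂ) *
      (gs χ * th 0 χ⁻¹ t)) := by
    rw [← h1]
    simp_rw [h2]
    have h4 : ∀ j : ZMod q, χ j * ((((t / q) ^ (1 / 2 : ℝ) : ℝ) : ℂ) *
        (cosKernel (toAddCircle j) (t / q) : ℂ)) = (((t / q) ^ (1 / 2 : ℝ) : ℝ) : ℂ) *
        (χ j * (cosKernel (toAddCircle j) (t / q) : ℂ)) := by intro j; ring
    simp_rw [h4]
    rw [← Finset.mul_sum, cos_kernel_series hχ he ht]
    ring
  have h5 := mul_left_cancel₀ two_ne_zero h3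
  rw [h5, th_conj, Real.div_rpow ht.le hq0.le, Real.sqrt_eq_rpow]
  push_cast
  ring

theorem th_feq_odd {χ : DirichletCharacter ℂ q} (hχ : χ ≠ 1) (ho : χ.Odd) {t : ℝ} (ht : 0 < t) :
    th 1 χ (1 / t) = (-I * gs χ / (Real.sqrt q : ℂ)) * ((t ^ (3 / 2 : ℝ) : ℝ) : ℂ) *
      (starRingEnd ℂ) (th 1 χ t) := by
  have hq0 : (0 : ℝ) < q := by exact_mod_cast (Fact.out : q.Prime).pos
  have hqc : (q : ℂ) ≠ 0 := by exact_mod_cast hq0.ne'
  have h1 := odd_kernel_series ho (show 0 < 1 / t by positivity)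
  have h2 : ∀ j : ZMod q, (oddKernel (toAddCircle j) (q * (1 / t)) : ℂ)
      = (((t / q) ^ (3 / 2 : ℝ) : ℝ) : ℂ) * (sinKernel (toAddCircle j) (t / q) : ℂ) := by
    intro j
    rw [oddKernel_functional_equation]
    have e1 : 1 / (q * (1 / t)) = t / q := by field_simp
    rw [e1]
    have e2 : 1 / (q * (1 / t)) ^ (3 / 2 : ℝ) = (t / q) ^ (3 / 2 : ℝ) := by
      rw [← e1, Real.div_rpow (by norm_num) (by positivity), Real.one_rpow]
    rw [e2]
    push_cast
    ring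
  have h3 : (2 / q : ℂ) * th 1 χ (1 / t) = (2 / q) * (q * (((t / q) ^ (3 / 2 : ℝ) : ℝ) : ℂ) *
      (-I * gs χ * th 1 χ⁻¹ t)) := by
    rw [← h1]
    simp_rw [h2]
    have h4 : ∀ j : ZMod q, χ j * ((((t / q) ^ (3 / 2 : ℝ) : ℝ) : ℂ) *
        (sinKernel (toAddCircle j) (t / q) : ℂ)) = (((t / q) ^ (3 / 2 : ℝ) : ℝ) : ℂ) *
        (χ j * (sinKernel (toAddCircle j) (t / q) : ℂ)) := by intro j; ring
    simp_rw [h4]
    rw [← Finset.mul_sum, sin_kernel_series hχ ho ht]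
    field_simp
  have h5 := mul_left_cancel₀ (div_ne_zero two_ne_zero hqc) h3
  have h6 : (q : ℝ) * (t / q) ^ (3 / 2 : ℝ) = t ^ (3 / 2 : ℝ) / Real.sqrt q := by
    rw [Real.div_rpow ht.le hq0.le, Real.sqrt_eq_rpow]
    have : (q : ℝ) ^ (3 / 2 : ℝ) = q * q ^ (1 / 2 : ℝ) := by
      rw [show (3 / 2 : ℝ) = 1 + 1 / 2 by norm_num, Real.rpow_add hq0, Real.rpow_one]
    rw [this]
    field_simp
  have h7 : (q : ℂ) * (((t / q) ^ (3 / 2 : ℝ) : ℝ) : ℂ) = ((t ^ (3 / 2 : ℝ) / Real.sqrt q : ℝ) : ℂ) := by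
    rw [← h6]; push_cast; ring
  rw [h5, th_conj, h7]
  push_cast
  ring

end even

end Pool.Agent.H14.PT
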